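import Pool.Agent.Work.MP_a2bf38_gt.W.GeoDefs
import Pool.Agent.Work.MP_a2bf38_gt.Al.MetricA

/-!
# The distance in the fibres of a locally projective map
-/

open scoped ContDiff ENNReal ComplexOrder LinearAlgebra.Projectivization Topology
open Set Filter Pool.Agent.ToricKRF Pool.Agent.ToricKRF.G Pool.Agent.KRFS Pool.Agent.KRFF
  Pool.Agent.KRFZ

namespace Pool.Agent.KRFW

namespace MT

/-- the complex coordinates, as a linear map -/
noncomputable def ccP (m : ℕ) : Cn m →L[ℝ] (Fin m → ℂ) :=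
  ContinuousLinearMap.pi fun a => NF.ccL a

theorem ccP_apply {m : ℕ} (u : Cn m) : ccP m u = cc u := by
  funext a
  exact NF.ccL_apply a u

theorem cc_injective {m : ℕ} {u w : Cn m} (h : cc u = cc w) : u = w := by
  have h1 : cc (u - w) = 0 := by
    rw [← ccP_apply, map_sub, ccP_apply, ccP_apply, h, sub_self]
  by_contra hne
  exact cc_ne_zero (sub_ne_zero.2 hne) h1

theorem smul_cc {m : ℕ} (a : ℂ) (u : Cn m) : a • cc u = cc (a.re • u + a.im • J u) := by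
  rw [← ccP_apply (a.re • u + a.im • J u), map_add, map_smul, map_smul, ccP_apply, ccP_apply]
  funext k
  simp only [Pi.smul_apply, Pi.add_apply, cc_J, smul_eq_mul, Complex.real_smul]
  conv_lhs => rw [← Complex.re_add_im a]
  ring

/-- a bound which is locally uniform is uniform on compact sets -/
theorem exists_unif {A : Type*} [TopologicalSpace A] {K : Set A} (hK : IsCompact K)
    (P : A → ℝ → Prop) (hm : ∀ a C C', C ≤ C' → P a C → P a C')
    (hl : ∀ a ∈ K, ∃ C, ∀ᶠ b in 𝓝 a, P b C) : ∃ C, 0 < C ∧ ∀ a ∈ K, P a C := by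
  classical
  choose! C hC using hl
  obtain ⟨t, -, ht⟩ := hK.elim_nhds_subcover (fun a => {b | P b (C a)}) hC
  refine ⟨∑ a ∈ t, |C a| + 1, ?_, fun a ha => ?_⟩
  · have : 0 ≤ ∑ a ∈ t, |C a| := Finset.sum_nonneg fun a _ => abs_nonneg _
    linarith
  · obtain ⟨b, hb, hab⟩ := mem_iUnion₂.1 (ht ha)
    refine hm a (C b) _ ?_ hab
    have h1 := Finset.single_le_sum (f := fun a => |C a|) (fun a _ => abs_nonneg _) hb
    have h2 := le_abs_self (C b)
    linarith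

section

variable {M Z : Type} [MetricSpace M] [MetricSpace Z] {n N : ℕ} {κ P : Type}
  {e : κ → OpenPartialHomeomorph M (Cn n)} {U : P → Set Z} {q : P → Z → Cn N} {f : M → Z}
  {ψ : κ → ℝ × Cn n → ℝ} {S : Set Z} {L d : ℕ} {ι : M → ℙ ℂ (Fin (L + 1) → ℂ)}

/-- the estimate at the pair `p` -/
def Est (f : M → Z) (ι : M → ℙ ℂ (Fin (L + 1) → ℂ)) (p : M × M) (C : ℝ) : Prop :=
  f p.1 = f p.2 → ∀ (x x' : Fin (L + 1) → ℂ) (h : x ≠ 0) (h' : x' ≠ 0),
    ι p.1 = Projectivization.mk ℂ x h → ι p.2 = Projectivization.mk ℂ x' h' →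
    ‖x‖ = 1 → ‖x'‖ = 1 → dist p.1 p.2 ≤ C * ‖x - x'‖

omit [MetricSpace Z] in
theorem est_mono (p : M × M) (C C' : ℝ) (h : C ≤ C') (hC : Est f ι p C) : Est f ι p C' := by
  intro h1 x x' hx hx' h2 h3 h4 h5
  exact (hC h1 x x' hx hx' h2 h3 h4 h5).trans (mul_le_mul_of_nonneg_right h (norm_nonneg _))

omit [MetricSpace Z] in
theorem near {c : κ} {W : Set (Cn n)} {p : M} (hc : p ∈ (e c).source) (hW : IsOpen W)
    (hp : e c p ∈ W) : ∀ᶠ p' in 𝓝 p, p' ∈ (e c).source ∧ e c p' ∈ W := by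
  filter_upwards [(e c).open_source.mem_nhds hc,
    ((e c).continuousAt hc).eventually (hW.mem_nhds hp)] with p' h1 h2
  exact ⟨h1, h2⟩

/-- homogeneous coordinates near `p` -/
theorem exists_lift {c : κ} {F : Cn n → Cn (L + 1)} {W : Set (Cn n)} (hF : IsLift e ι c F W) {p : M}
    (hp : p ∈ (e c).source) (hpW : e c p ∈ W) : cc (F (e c p)) ≠ 0 ∧
      ∀ (x : Fin (L + 1) → ℂ) (h : x ≠ 0), ι p = Projectivization.mk ℂ x h →
        ∃ a : ℂ, x = a • cc (F (e c p)) := by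
  obtain ⟨h0, h1⟩ := hF.2.2.2 _ hpW
  refine ⟨h0, fun x h hx => ?_⟩
  rw [(e c).left_inv hp] at h1
  rw [h1] at hx
  obtain ⟨a, ha⟩ := (Projectivization.mk_eq_mk_iff' ℂ _ _ h0 h).1 hx
  have ha0 : a ≠ 0 := by
    rintro rfl
    rw [zero_smul] at ha
    exact h0 ha.symm
  exact ⟨a⁻¹, by rw [← ha, smul_smul, inv_mul_cancel₀ ha0, one_smul]⟩

/-- the estimate near a pair of different points -/
theorem est_off [CompactSpace M] (G : GeoData e U q f ψ) (hι : IsProjOver e U q f S ι d)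
    {p : M × M} (hp : p.1 ≠ p.2) (hfp : f p.1 = f p.2) (hS : f p.1 ∈ S) :
    ∃ C, ∀ᶠ p' in 𝓝 p, Est f ι p' C := by
  obtain ⟨c, hc⟩ := G.atlas.cover p.1
  obtain ⟨c', hc'⟩ := G.atlas.cover p.2
  obtain ⟨F, W, hxW, hF, -⟩ := hι.lift c (e c p.1) ((e c).map_source hc)
    (by rwa [(e c).left_inv hc])
  obtain ⟨F', W', hxW', hF', -⟩ := hι.lift c' (e c' p.2) ((e c').map_source hc')
    (by rwa [(e c').left_inv hc', ← hfp])
  have hX : ContinuousAt (fun p => cc (F (e c p))) p.1 := by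
    have h1 : ContinuousAt F (e c p.1) := hF.2.2.1.1.continuousOn.continuousAt
      (hF.1.mem_nhds hxW)
    have h2 : ContinuousAt (fun p => ccP (L + 1) (F (e c p))) p.1 :=
      (ccP (L + 1)).continuous.continuousAt.comp (h1.comp ((e c).continuousAt hc))
    simpa only [ccP_apply] using h2
  have hX' : ContinuousAt (fun p => cc (F' (e c' p))) p.2 := by
    have h1 : ContinuousAt F' (e c' p.2) := hF'.2.2.1.1.continuousOn.continuousAt
      (hF'.1.mem_nhds hxW')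
    have h2 : ContinuousAt (fun p => ccP (L + 1) (F' (e c' p))) p.2 :=
      (ccP (L + 1)).continuous.continuousAt.comp (h1.comp ((e c').continuousAt hc'))
    simpa only [ccP_apply] using h2
  have hn := (exists_lift hF hc hxW).1
  have hn' := (exists_lift hF' hc' hxW').1
  have hne : ¬ ∃ a : ℂ, cc (F' (e c' p.2)) = a • cc (F (e c p.1)) := by
    rintro ⟨a, ha⟩
    refine hp (hι.inj _ _ hS hfp ?_)
    obtain ⟨h0, h1⟩ := hF.2.2.2 _ hxW
    obtain ⟨h0', h1'⟩ := hF'.2.2.2 _ hxW'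
    rw [(e c).left_inv hc] at h1
    rw [(e c').left_inv hc'] at h1'
    rw [h1, h1']
    exact ((Projectivization.mk_eq_mk_iff' ℂ _ _ h0' h0).2 ⟨a, ha.symm⟩).symm
  obtain ⟨ε, hε, hev⟩ := KRFAl.sep hX hX' hn hne
  obtain ⟨D, hD⟩ := Metric.isBounded_iff.1 (isCompact_univ : IsCompact (univ : Set M)).isBounded
  have hD0 : 0 ≤ D := dist_nonneg.trans (hD (mem_univ p.1) (mem_univ p.1))
  refine ⟨D / ε, ?_⟩
  have hs1 : ∀ᶠ p' : M × M in 𝓝 p, p'.1 ∈ (e c).source ∧ e c p'.1 ∈ W :=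
    continuousAt_fst.eventually (near hc hF.1 hxW)
  have hs2 : ∀ᶠ p' : M × M in 𝓝 p, p'.2 ∈ (e c').source ∧ e c' p'.2 ∈ W' :=
    continuousAt_snd.eventually (near hc' hF'.1 hxW')
  filter_upwards [hs1, hs2, hev] with p' h1 h2 h3
  intro _ x x' hx hx' hιx hιx' nx _
  have h4 := h3 x x' ((exists_lift hF h1.1 h1.2).2 x hx hιx)
    ((exists_lift hF' h2.1 h2.2).2 x' hx' hιx')
  rw [nx, mul_one] at h4
  calc dist p'.1 p'.2 ≤ D := hD (mem_univ _) (mem_univ _)
    _ = D / ε * ε := by field_simp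
    _ ≤ D / ε * ‖x - x'‖ := by gcongr

/-- the estimate near the diagonal -/
theorem est_diag (G : GeoData e U q f ψ) (hι : IsProjOver e U q f S ι d) {p₀ : M}
    (hS : f p₀ ∈ S) : ∃ C, ∀ᶠ p' in 𝓝 (p₀, p₀), Est f ι p' C := by
  obtain ⟨c, hc⟩ := G.atlas.cover p₀
  obtain ⟨j, hj⟩ := G.cover (f p₀)
  have hj' : f ((e c).symm (e c p₀)) ∈ U j := by rwa [(e c).left_inv hc]
  obtain ⟨F, W, hxW, hF, himm⟩ := hι.lift c (e c p₀) ((e c).map_source hc)
    (by rwa [(e c).left_inv hc])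
  have hUo : IsOpen (fdom e U f c j) :=
    (e c).isOpen_inter_preimage_symm ((G.isOpen j).preimage G.cont)
  have hm : ContDiffAt ℝ ∞ (fmap e q f c j) (e c p₀) :=
    (G.holo c j).1.contDiffAt (hUo.mem_nhds ⟨(e c).map_source hc, hj'⟩)
  have hFd : ContDiffAt ℝ ∞ F (e c p₀) := hF.2.2.1.1.contDiffAt (hF.1.mem_nhds hxW)
  have hX : ContDiffAt ℝ ∞ (fun z => cc (F z)) (e c p₀) := by
    have h1 : ContDiffAt ℝ ∞ (fun z => ccP (L + 1) (F z)) (e c p₀) :=
      (ccP (L + 1)).contDiff.contDiffAt.comp _ hFd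
    simpa only [ccP_apply] using h1
  have hXf : ∀ v, fderiv ℝ (fun z => cc (F z)) (e c p₀) v = cc (fderiv ℝ F (e c p₀) v) := by
    intro v
    have h1 : HasFDerivAt (fun z => ccP (L + 1) (F z)) ((ccP (L + 1)).comp
        (fderiv ℝ F (e c p₀))) (e c p₀) :=
      (ccP (L + 1)).hasFDerivAt.comp _ (hFd.differentiableAt (by simp)).hasFDerivAt
    simp only [ccP_apply] at h1
    rw [h1.fderiv, ContinuousLinearMap.comp_apply, ccP_apply]
  have hn := (exists_lift hF hc hxW).1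
  obtain ⟨C₁, hC₁, hev₁⟩ := KRFAl.metric_local (hX.of_le (by simp)) (hm.of_le (by simp)) hn (by
    rintro v hv ⟨a, ha⟩
    refine himm j hj' v hv ⟨a.re, a.im, cc_injective ?_⟩
    rw [← hXf, ha, smul_cc])
  obtain ⟨C₂, hC₂, hev₂⟩ := G.lip c p₀ hc
  have hcc : ContinuousAt (fun p : M × M => (e c p.1, e c p.2)) (p₀, p₀) :=
    ContinuousAt.prodMk (((e c).continuousAt hc).comp continuousAt_fst)
      (((e c).continuousAt hc).comp continuousAt_snd)
  have hs1 : ∀ᶠ p' : M × M in 𝓝 (p₀, p₀), p'.1 ∈ (e c).source ∧ e c p'.1 ∈ W :=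
    (continuousAt_fst (p := (p₀, p₀))).eventually (near hc hF.1 hxW)
  have hs2 : ∀ᶠ p' : M × M in 𝓝 (p₀, p₀), p'.2 ∈ (e c).source ∧ e c p'.2 ∈ W :=
    (continuousAt_snd (p := (p₀, p₀))).eventually (near hc hF.1 hxW)
  refine ⟨C₂ * C₁, ?_⟩
  filter_upwards [hs1, hs2, hev₂, hcc.eventually hev₁] with p h1 h2 h3 h4
  intro hfp x x' hx hx' hιx hιx' nx _
  have h5 : fmap e q f c j (e c p.1) = fmap e q f c j (e c p.2) := by
    show q j (f ((e c).symm (e c p.1))) = q j (f ((e c).symm (e c p.2)))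
    rw [(e c).left_inv h1.1, (e c).left_inv h2.1, hfp]
  have h6 := h4 h5 x x' hx hx' ((exists_lift hF h1.1 h1.2).2 x hx hιx)
    ((exists_lift hF h2.1 h2.2).2 x' hx' hιx')
  rw [nx, div_one] at h6
  calc dist p.1 p.2 ≤ C₂ * dist (e c p.1) (e c p.2) := h3.2
    _ = C₂ * ‖e c p.1 - e c p.2‖ := by rw [dist_eq_norm]
    _ ≤ C₂ * (C₁ * ‖x - x'‖) := by gcongr
    _ = C₂ * C₁ * ‖x - x'‖ := by ring

end

end MT

section

variable {M Z : Type} [MetricSpace M] [CompactSpace M] [MetricSpace Z] {n N : ℕ} {κ P : Type}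
  {e : κ → OpenPartialHomeomorph M (Cn n)} {U : P → Set Z} {q : P → Z → Cn N} {f : M → Z}
  {ψ : κ → ℝ × Cn n → ℝ}

/-- the distance of two points of a fibre is at most the distance of homogeneous coordinates -/
theorem dist_le (G : GeoData e U q f ψ) {S : Set Z} {L d : ℕ} {ι : M → ℙ ℂ (Fin (L + 1) → ℂ)}
    (hι : IsProjOver e U q f S ι d) (hS : IsOpen S) {z₀ : Z} (hz₀ : z₀ ∈ S) :
    ∃ (S' : Set Z) (C : ℝ), IsOpen S' ∧ z₀ ∈ S' ∧ S' ⊆ S ∧ 0 < C ∧
      ∀ p p', f p ∈ S' → f p = f p' → ∀ (x x' : Fin (L + 1) → ℂ) (h : x ≠ 0) (h' : x' ≠ 0),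
        ι p = Projectivization.mk ℂ x h → ι p' = Projectivization.mk ℂ x' h' →
        ‖x‖ = 1 → ‖x'‖ = 1 → dist p p' ≤ C * ‖x - x'‖ := by
  obtain ⟨ρ, hρ, hball⟩ := Metric.isOpen_iff.1 hS z₀ hz₀
  have hsub : Metric.closedBall z₀ (ρ / 2) ⊆ S :=
    (Metric.closedBall_subset_ball (by linarith)).trans hball
  have hB : IsCompact {p : M × M | f p.1 = f p.2 ∧ f p.1 ∈ Metric.closedBall z₀ (ρ / 2)} := by
    have h1 : IsClosed {p : M × M | f p.1 = f p.2} :=
      isClosed_eq (G.cont.comp continuous_fst) (G.cont.comp continuous_snd)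
    have h2 : IsClosed {p : M × M | f p.1 ∈ Metric.closedBall z₀ (ρ / 2)} :=
      Metric.isClosed_closedBall.preimage (G.cont.comp continuous_fst)
    exact (h1.inter h2).isCompact
  obtain ⟨C, hC, hCB⟩ := MT.exists_unif hB (MT.Est f ι) MT.est_mono (by
    rintro ⟨p, p'⟩ ⟨hp, hpA⟩
    rcases eq_or_ne p p' with rfl | hne
    · exact MT.est_diag G hι (hsub hpA)
    · exact MT.est_off G hι hne hp (hsub hpA))
  refine ⟨Metric.ball z₀ (ρ / 2), C, Metric.isOpen_ball, Metric.mem_ball_self (by linarith),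
    Metric.ball_subset_closedBall.trans hsub, hC, fun p p' hp hpp => ?_⟩
  exact hCB (p, p') ⟨hpp, Metric.ball_subset_closedBall hp⟩ hpp

end

end Pool.Agent.KRFW
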