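import Pool.Agent.Work.MP_a2bf38_gt.W.GeoDefs

/-!
# Holomorphic maps whose fibres are embedded in a projective space
-/

open scoped ContDiff ENNReal ComplexOrder LinearAlgebra.Projectivization
open Set Filter Pool.Agent.ToricKRF Pool.Agent.ToricKRF.G Pool.Agent.KRFS Pool.Agent.KRFF

namespace Pool.Agent.KRFZ

section

variable {M Z : Type} [MetricSpace M] [MetricSpace Z] {n N : ℕ} {κ P : Type}
  (e : κ → OpenPartialHomeomorph M (Cn n)) (U : P → Set Z) (q : P → Z → Cn N) (f : M → Z)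

/-- Over the set `S` of `Z`, the map `ι` embeds the fibres of `f` in the projective space: `ι` is
holomorphic and `(f, ι)` is an injective immersion. -/
structure IsEmbOver (S : Set Z) {L : ℕ} (ι : M → ℙ ℂ (Fin (L + 1) → ℂ)) : Prop where
  lift : ∀ c, ∀ x ∈ (e c).target, f ((e c).symm x) ∈ S →
    ∃ (F : Cn n → Cn (L + 1)) (W : Set (Cn n)), x ∈ W ∧ IsLift e ι c F W ∧
      ∀ j, f ((e c).symm x) ∈ U j → ∀ v, fderiv ℝ (fmap e q f c j) x v = 0 →
        (∃ a b : ℝ, fderiv ℝ F x v = a • F x + b • J (F x)) → v = 0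
  inj : ∀ p p', f p ∈ S → f p = f p' → ι p = ι p' → p = p'

theorem IsEmbOver.isProjOver {e : κ → OpenPartialHomeomorph M (Cn n)} {U : P → Set Z}
    {q : P → Z → Cn N} {f : M → Z} {S S' : Set Z} {L : ℕ} {ι : M → ℙ ℂ (Fin (L + 1) → ℂ)}
    (h : IsEmbOver e U q f S ι) (hS : S' ⊆ S) {d : ℕ}
    (halg : ∀ z ∈ S', ∃ T : Set (MvPolynomial (Fin (L + 1)) ℂ), (∀ Q ∈ T, Q.IsHomogeneous d) ∧
      ∀ (x : Fin (L + 1) → ℂ) (h : x ≠ 0), (∀ Q ∈ T, MvPolynomial.eval x Q = 0) ↔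
        ∃ p, f p = z ∧ ι p = Projectivization.mk ℂ x h) : IsProjOver e U q f S' ι d where
  lift c x hx hS' := h.lift c x hx (hS hS')
  inj p p' hp := h.inj p p' (hS hp)
  alg := halg

end

end Pool.Agent.KRFZ
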