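import Pool.Agent.Work.MP_a2bf38_gt.W.Defs

/-!
# Coverings of cones
-/

open MvPolynomial

namespace Pool.Agent.KRFW

namespace Cone

section

variable {K : Type*} [Field K] {σ : Type}

theorem eval_smul_homog {P : MvPolynomial σ K} {n : ℕ} (hP : P.IsHomogeneous n) (c : K)
    (x : σ → K) : eval (c • x) P = c ^ n * eval x P := by
  rw [eval_eq, eval_eq, Finset.mul_sum]
  refine Finset.sum_congr rfl fun d hd => ?_
  have h1 : ∑ i ∈ d.support, d i = n := by
    have := hP.degree_eq_sum_deg_support hd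
    rw [this]
  have h2 : ∏ i ∈ d.support, (c • x) i ^ d i = c ^ n * ∏ i ∈ d.support, x i ^ d i := by
    rw [← h1, ← Finset.prod_pow_eq_pow_sum, ← Finset.prod_mul_distrib]
    refine Finset.prod_congr rfl fun i _ => ?_
    rw [Pi.smul_apply, smul_eq_mul, mul_pow]
  rw [h2]
  ring

/-- the zeros of a homogeneous ideal are a cone -/
theorem smul_mem {I : Ideal (MvPolynomial σ K)} (hI : IsHom I) {x : σ → K}
    (hx : x ∈ zeros (I : Set (MvPolynomial σ K))) (c : K) :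
    c • x ∈ zeros (I : Set (MvPolynomial σ K)) := by
  intro P hP
  rw [← sum_homogeneousComponent P, map_sum]
  refine Finset.sum_eq_zero fun n _ => ?_
  rw [eval_smul_homog (homogeneousComponent_isHomogeneous n P), hx _ (hI P hP n), mul_zero]

attribute [local instance] MvPolynomial.gradedAlgebra

/-- the minimal primes of a homogeneous ideal are homogeneous -/
theorem isHom_minimal {S : Set (MvPolynomial σ K)} (hS : ∀ P ∈ S, ∃ d, P.IsHomogeneous d)
    {p : Ideal (MvPolynomial σ K)} (hp : p ∈ (Ideal.span S).minimalPrimes) : IsHom p := by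
  have h1 : (Ideal.span S).IsHomogeneous (homogeneousSubmodule σ K) :=
    Ideal.homogeneous_span _ _ fun P hP => by
      obtain ⟨d, hd⟩ := hS P hP
      exact ⟨d, hd⟩
  have h2 := hp.1.1.homogeneousCore (𝒜 := homogeneousSubmodule σ K)
  have h3 : Ideal.span S ≤ (p.homogeneousCore (homogeneousSubmodule σ K)).toIdeal := by
    have := h1.toIdeal_homogeneousCore_eq_self
    rw [← this]
    exact Ideal.homogeneousCore_mono (homogeneousSubmodule σ K) hp.1.2
  have h4 : p ≤ (p.homogeneousCore (homogeneousSubmodule σ K)).toIdeal :=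
    hp.2 ⟨h2, h3⟩ (Ideal.toIdeal_homogeneousCore_le _ _)
  have h5 : (p.homogeneousCore (homogeneousSubmodule σ K)).toIdeal = p :=
    le_antisymm (Ideal.toIdeal_homogeneousCore_le _ _) h4
  have h6 : p.IsHomogeneous (homogeneousSubmodule σ K) := (Ideal.IsHomogeneous.iff_eq _ _).2 h5
  intro P hP n
  exact homogeneousComponent_mem_of_mem h6 hP n

end

end Cone

theorem cone_sheets_of {K : Type*} [Field K] (O : ValuationSubring K)
    {σ : Type} [Fintype σ] (S : Set (MvPolynomial σ K)) (hS : ∀ P ∈ S, ∃ d, P.IsHomogeneous d)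
    (prime_sheets : ∀ 𝔭 : Ideal (MvPolynomial σ K), IsHom 𝔭 → 𝔭.IsPrime →
      ∃ (k D : ℕ) (ℓ : Fin k → σ → K) (Φ : MvPolynomial (Ix k σ) K),
        (∀ i j, ℓ i j ∈ O) ∧
        (∀ w, ∃ X : Fin D → σ → K, IsTup (zeros (𝔭 : Set (MvPolynomial σ K))) ℓ Φ w X) ∧
        (∀ x ∈ zeros (𝔭 : Set (MvPolynomial σ K)), ∃ X : Fin D → σ → K,
          IsTup (zeros (𝔭 : Set (MvPolynomial σ K))) ℓ Φ (fun i => ∑ j, ℓ i j * x j) X ∧
            ∃ m, X m = x) ∧
        ∀ x ∈ zeros (𝔭 : Set (MvPolynomial σ K)), (∀ i, ∑ j, ℓ i j * x j ∈ O) → ∀ j, x j ∈ O) :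
    ∃ (r : ℕ) (k D : Fin r → ℕ) (ℓ : ∀ i, Fin (k i) → σ → K)
      (Φ : ∀ i, MvPolynomial (Ix (k i) σ) K), (∀ i a j, ℓ i a j ∈ O) ∧
      (∀ i w, ∃ X : Fin (D i) → σ → K, IsTup (zeros S) (ℓ i) (Φ i) w X ∧
        ∀ c : K, c ≠ 0 → (∀ a, w a / c ∈ O) → ∀ m j, X m j / c ∈ O) ∧
      ∀ x ∈ zeros S, ∃ i, ∀ c : K, ∃ X : Fin (D i) → σ → K,
        IsTup (zeros S) (ℓ i) (Φ i) (fun a => ∑ j, ℓ i a j * (c * x j)) X ∧ ∃ m, X m = c • x := by
  set I : Ideal (MvPolynomial σ K) := Ideal.span S with hI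
  have hfin : I.minimalPrimes.Finite := Ideal.finite_minimalPrimes_of_isNoetherianRing _ I
  have := hfin.to_subtype
  obtain ⟨r, ⟨φ⟩⟩ := Finite.exists_equiv_fin I.minimalPrimes
  have hhom : ∀ i, IsHom (φ.symm i : Ideal (MvPolynomial σ K)) := fun i =>
    Cone.isHom_minimal hS (φ.symm i).2
  have hsub : ∀ i, zeros ((φ.symm i : Ideal (MvPolynomial σ K)) : Set (MvPolynomial σ K)) ⊆
      zeros S := fun i x hx P hP => hx P ((φ.symm i).2.1.2 (Ideal.subset_span hP))
  choose k D ℓ Φ h1 h2 h3 h4 using fun i => prime_sheets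
    (φ.symm i : Ideal (MvPolynomial σ K)) (hhom i) (φ.symm i).2.1.1
  have htup : ∀ i w (X : Fin (D i) → σ → K), IsTup
      (zeros ((φ.symm i : Ideal (MvPolynomial σ K)) : Set (MvPolynomial σ K))) (ℓ i) (Φ i) w X →
      IsTup (zeros S) (ℓ i) (Φ i) w X := fun i w X h => ⟨fun m => hsub i (h.mem m), h.proj, h.prod⟩
  refine ⟨r, k, D, ℓ, Φ, h1, fun i w => ?_, fun x hx => ?_⟩
  · obtain ⟨X, hX⟩ := h2 i w
    refine ⟨X, htup i w X hX, fun c hc hw m j => ?_⟩
    have h5 := h4 i (c⁻¹ • X m) (Cone.smul_mem (hhom i) (hX.mem m) _) (fun a => by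
      have h6 : ∑ j, ℓ i a j * (c⁻¹ • X m) j = w a / c := by
        rw [← hX.proj m a, div_eq_inv_mul, Finset.mul_sum]
        refine Finset.sum_congr rfl fun j _ => ?_
        rw [Pi.smul_apply, smul_eq_mul]
        ring
      rw [h6]
      exact hw a) j
    rwa [Pi.smul_apply, smul_eq_mul, ← div_eq_inv_mul] at h5
  · have hle : I ≤ RingHom.ker (eval x : MvPolynomial σ K →+* K) := by
      rw [hI, Ideal.span_le]
      intro P hP
      exact hx P hP
    have hpr : (RingHom.ker (eval x : MvPolynomial σ K →+* K)).IsPrime := RingHom.ker_isPrime _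
    obtain ⟨p, hp, hpx⟩ := Ideal.exists_minimalPrimes_le hle
    refine ⟨φ ⟨p, hp⟩, fun c => ?_⟩
    have hxz : x ∈ zeros ((φ.symm (φ ⟨p, hp⟩) : Ideal (MvPolynomial σ K)) :
        Set (MvPolynomial σ K)) := by
      rw [Equiv.symm_apply_apply]
      exact fun P hP => hpx hP
    obtain ⟨X, hX, m, hm⟩ := h3 (φ ⟨p, hp⟩) (c • x) (Cone.smul_mem (hhom _) hxz c)
    exact ⟨X, htup _ _ X hX, m, hm⟩

end Pool.Agent.KRFW
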