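import Pool.Agent.Work.MP_a2bf38_gt.W.GeoDefs
import Pool.Agent.Work.MP_a2bf38_gt.Z.Reg
import Pool.Agent.Work.MP_a2bf38_gt.Z.NatC
import Pool.Agent.Work.MP_a2bf38_gt.K.TouchA
import Pool.Agent.Work.MP_a2bf38_gt.K.PshCOf
import Pool.Agent.Work.MP_a2bf38_gt.K.HB

/-!
# The Fubini-Study form along a lifted curve (helper53)
-/

open scoped ContDiff ENNReal ComplexOrder Topology
open Set Filter Pool.Agent.ToricKRF Pool.Agent.ToricKRF.G Pool.Agent.KRFS Pool.Agent.KRFF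
  Pool.Agent.KRFG Pool.Agent.KRFZ

namespace Pool.Agent.KRFW

namespace DiscB

theorem nn_eq {L : ℕ} (x : Fin L → ℂ) : nn x = ∑ j, Complex.normSq (x j) := by
  unfold nn
  exact Finset.sum_congr rfl fun j _ => (Complex.normSq_eq_norm_sq _).symm

theorem nn_pos {L : ℕ} {x : Fin L → ℂ} (hx : x ≠ 0) : 0 < nn x := by
  obtain ⟨j, hj⟩ := Function.ne_iff.1 hx
  unfold nn
  refine Finset.sum_pos' (fun i _ => by positivity) ⟨j, Finset.mem_univ _, ?_⟩
  have : x j ≠ 0 := hj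
  positivity

theorem nsq_eq_nn {L : ℕ} (x : Cn L) : nsq x = nn (cc x) := by
  rw [nn_eq, Touch.nsq_eq]

/-- the Laplacian along a holomorphic disc, at every point -/
theorem lapC_curve {n : ℕ} {g : ℂ → Cn n} {s : ℂ} {r : ℝ} (hg : HolD g (Metric.ball s r))
    {G : Cn n → ℝ} {S : Set (Cn n)} (hS : IsOpen S) (hG : ContDiffOn ℝ ∞ G S)
    (hm : ∀ ζ ∈ Metric.ball s r, g ζ ∈ S) {s' : ℂ} (hs' : s' ∈ Metric.ball s r) :
    lapC (fun ζ => G (g ζ)) s' = 4 * levz G (fderiv ℝ g s' 1) (g s') := by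
  obtain ⟨r', hr', hb⟩ := Metric.isOpen_iff.1 Metric.isOpen_ball s' hs'
  have h1 := Reg.lapC_disc hr' (hg.mono hb) hS hG fun ζ hζ => hm ζ (hb hζ)
  rw [← h1, ← lapC_shift (fun ζ => G (g (s' + ζ))) s']
  simp only [add_sub_cancel]

theorem contDiffOn_of_hol {E : Type*} [NormedAddCommGroup E] [NormedSpace ℂ E] [CompleteSpace E]
    {F : ℂ → E} {U : Set ℂ} (hU : IsOpen U) (hF : DifferentiableOn ℂ F U) :
    ContDiffOn ℝ ∞ F U :=
  (hF.contDiffOn hU).restrict_scalars ℝ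

/-- a holomorphic function as a curve in `ℂ^1` -/
theorem holD_ofC {b : ℂ → ℂ} {U : Set ℂ} (hU : IsOpen U) (hb : DifferentiableOn ℂ b U) :
    HolD (fun s => (ofC fun _ : Fin 1 => b s)) U := by
  have h1 : ∀ s ∈ U, HasFDerivAt (fun s => (ofC fun _ : Fin 1 => b s))
      ((Touch.ofCL 1).comp (ContinuousLinearMap.pi fun _ => fderiv ℝ b s)) s := by
    intro s hs
    have h2 : HasFDerivAt (fun s (_ : Fin 1) => b s)
        (ContinuousLinearMap.pi fun _ => fderiv ℝ b s) s :=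
      hasFDerivAt_pi.2 fun _ => (NF.diffAt hU (contDiffOn_of_hol hU hb) hs).hasFDerivAt
    exact (Touch.ofCL 1).hasFDerivAt.comp s h2
  refine ⟨?_, fun s hs => ?_⟩
  · have h2 : ContDiffOn ℝ ∞ (fun s (_ : Fin 1) => b s) U :=
      contDiffOn_pi.2 fun _ => contDiffOn_of_hol hU hb
    exact (Touch.ofCL 1).contDiff.comp_contDiffOn h2
  · rw [(h1 s hs).fderiv]
    have h3 := ((hb.differentiableAt (hU.mem_nhds hs)).hasDerivAt.hasFDerivAt.restrictScalars
      ℝ).fderiv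
    have h4 : fderiv ℝ b s Complex.I = Complex.I * fderiv ℝ b s 1 := by
      rw [h3]
      simp
    change ofC (fun _ : Fin 1 => fderiv ℝ b s Complex.I) =
      J (ofC fun _ : Fin 1 => fderiv ℝ b s 1)
    rw [h4]
    refine Prod.ext ?_ ?_ <;> funext l <;> simp [ofC, J]

/-- `log |b|^2` is harmonic -/
theorem lapC_log_normSq {b : ℂ → ℂ} {s : ℂ} {r : ℝ} (hb : DifferentiableOn ℂ b (Metric.ball s r))
    (hb0 : ∀ s' ∈ Metric.ball s r, b s' ≠ 0) {s' : ℂ} (hs' : s' ∈ Metric.ball s r) :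
    lapC (fun s' => Real.log (Complex.normSq (b s'))) s' = 0 := by
  have hcc : ∀ S : Set (Cn 1), NF.HolC (fun x : Cn 1 => cc x 0) S := fun S =>
    (Touch.holC_cc S 0).1
  set S : Set (Cn 1) := {x | cc x 0 ≠ 0} with hSdef
  have hS : IsOpen S := by
    have h1 : Continuous fun x : Cn 1 => cc x 0 := by
      rw [← continuousOn_univ]
      exact (hcc univ).1.continuousOn
    exact isOpen_ne_fun h1 continuous_const
  have hG : ContDiffOn ℝ ∞ (fun x : Cn 1 => Real.log (Complex.normSq (cc x 0))) S := by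
    refine ContDiffOn.log ?_ fun x hx => (Complex.normSq_pos.2 hx).ne'
    have h1 : ContDiff ℝ ∞ (fun w : ℂ => Complex.normSq w) := by
      have : (fun w : ℂ => Complex.normSq w) = fun w : ℂ => ‖w‖ ^ 2 := by
        funext w
        exact Complex.normSq_eq_norm_sq w
      rw [this]
      exact contDiff_norm_sq ℝ
    exact h1.comp_contDiffOn (hcc S).1
  have h1 := lapC_curve (holD_ofC Metric.isOpen_ball hb) hS hG (fun ζ hζ => by
    change cc (ofC fun _ : Fin 1 => b ζ) 0 ≠ 0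
    rw [Touch.cc_ofC]
    exact hb0 ζ hζ) hs'
  have h2 : levz (fun x : Cn 1 => Real.log (Complex.normSq (cc x 0)))
      (fderiv ℝ (fun s => (ofC fun _ : Fin 1 => b s)) s' 1) (ofC fun _ : Fin 1 => b s') = 0 :=
    NF.levz_log_normSq hS (hcc S) (by
      change cc (ofC fun _ : Fin 1 => b s') 0 ≠ 0
      rw [Touch.cc_ofC]
      exact hb0 s' hs') (by
      rw [Touch.cc_ofC]
      exact hb0 s' hs') _
  rw [h2, mul_zero] at h1
  rw [← h1]
  refine lapC_congr (Eventually.of_forall fun ζ => ?_)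
  simp only [Touch.cc_ofC]

theorem contDiffOn_log_nn {L : ℕ} {F : ℂ → Fin L → ℂ} {U : Set ℂ} (hU : IsOpen U)
    (hF : DifferentiableOn ℂ F U) (hF0 : ∀ s ∈ U, F s ≠ 0) :
    ContDiffOn ℝ ∞ (fun s => Real.log (nn (F s))) U := by
  refine ContDiffOn.log ?_ fun s hs => (nn_pos (hF0 s hs)).ne'
  unfold nn
  refine ContDiffOn.sum fun j _ => ?_
  exact (contDiff_norm_sq ℝ).comp_contDiffOn
    (contDiffOn_pi.1 (contDiffOn_of_hol hU hF) j)

end DiscB

open DiscB

/-- the Levi form of `log |F₁|^2` along a curve `g` is the Laplacian of `log |F|^2` for the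
homogeneous coordinates `F` of the image curve -/
theorem levz_lift {n L : ℕ} {F₁ : Cn n → Cn (L + 1)} {W : Set (Cn n)} (hW : IsOpen W)
    (hF₁ : HolOn F₁ W) {g : ℂ → Cn n} {F : ℂ → Fin (L + 1) → ℂ} {b : ℂ → ℂ} {s : ℂ} {r : ℝ}
    (hg : HolD g (Metric.ball s r)) (hgW : ∀ s' ∈ Metric.ball s r, g s' ∈ W)
    (hF : DifferentiableOn ℂ F (Metric.ball s r)) (hF0 : ∀ s' ∈ Metric.ball s r, F s' ≠ 0)
    (hb : DifferentiableOn ℂ b (Metric.ball s r)) (hb0 : ∀ s' ∈ Metric.ball s r, b s' ≠ 0)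
    (h : ∀ s' ∈ Metric.ball s r, ∀ i, cc (F₁ (g s')) i = b s' * F s' i) :
    ∀ s' ∈ Metric.ball s r, 4 * levz (fun x => Real.log (nsq (F₁ x))) (fderiv ℝ g s' 1) (g s') =
      lapC (fun s' => Real.log (nn (F s'))) s' := by
  intro s' hs'
  have hB : IsOpen (Metric.ball s r) := Metric.isOpen_ball
  have hval : ∀ t ∈ Metric.ball s r, nsq (F₁ (g t)) = Complex.normSq (b t) * nn (F t) := by
    intro t ht
    rw [nsq_eq_nn, nn_eq, nn_eq, Finset.mul_sum]
    refine Finset.sum_congr rfl fun i _ => ?_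
    rw [h t ht i, map_mul]
  have hpos : ∀ t ∈ Metric.ball s r, 0 < nsq (F₁ (g t)) := fun t ht => by
    rw [hval t ht]
    exact mul_pos (Complex.normSq_pos.2 (hb0 t ht)) (nn_pos (hF0 t ht))
  set S : Set (Cn n) := W ∩ {x | nsq (F₁ x) ≠ 0} with hSdef
  have hc : ContinuousOn (fun x => nsq (F₁ x)) W :=
    Fb.contDiff_nsq.continuous.comp_continuousOn hF₁.1.continuousOn
  have hS : IsOpen S := hc.isOpen_inter_preimage hW isOpen_ne
  have hG : ContDiffOn ℝ ∞ (fun x => Real.log (nsq (F₁ x))) S :=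
    ContDiffOn.log (Fb.contDiff_nsq.comp_contDiffOn (hF₁.1.mono inter_subset_left))
      fun x hx => hx.2
  have h1 := lapC_curve hg hS hG (fun t ht => ⟨hgW t ht, (hpos t ht).ne'⟩) hs'
  rw [← h1]
  have hev : (fun t => Real.log (nsq (F₁ (g t)))) =ᶠ[𝓝 s'] fun t =>
      Real.log (Complex.normSq (b t)) + Real.log (nn (F t)) := by
    filter_upwards [hB.mem_nhds hs'] with t ht
    rw [hval t ht, Real.log_mul (Complex.normSq_pos.2 (hb0 t ht)).ne' (nn_pos (hF0 t ht)).ne']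
  have hb2 : ContDiffOn ℝ ∞ (fun t => Real.log (Complex.normSq (b t))) (Metric.ball s r) := by
    refine ContDiffOn.log ?_ fun t ht => (Complex.normSq_pos.2 (hb0 t ht)).ne'
    have h2 : (fun t => Complex.normSq (b t)) = fun t => ‖b t‖ ^ 2 := by
      funext t
      exact Complex.normSq_eq_norm_sq _
    rw [h2]
    exact (contDiff_norm_sq ℝ).comp_contDiffOn (contDiffOn_of_hol hB hb)
  rw [lapC_congr hev, HB.lapC_add
    ((hb2.contDiffAt (hB.mem_nhds hs')).of_le (by norm_cast))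
    (((contDiffOn_log_nn hB hF hF0).contDiffAt (hB.mem_nhds hs')).of_le (by norm_cast)),
    lapC_log_normSq hb hb0 hs', zero_add]

end Pool.Agent.KRFW
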