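import Pool.Agent.Work.MP_a2bf38_gt.X.NatMono

/-!
# Positivity of the Fubini-Study form on vertical vectors, in a chart (helper20)
-/

open scoped ContDiff ENNReal ComplexOrder Topology
open Set Filter Pool.Agent.ToricKRF Pool.Agent.ToricKRF.G Pool.Agent.KRFS Pool.Agent.KRFF
  Pool.Agent.KRFG Pool.Agent.KRFX Pool.Agent.KRFX.NC

namespace Pool.Agent.KRFW

/-- the Fubini-Study form in homogeneous coordinates -/
theorem levz_log_F {n m : ℕ} {F : Cn n → Cn m} {W : Set (Cn n)} (hW : IsOpen W) (hF : HolOn F W)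
    {x : Cn n} (hx : x ∈ W) (hne : F x ≠ 0) (v : Cn n) :
    levz (fun x => Real.log (nsq (F x))) v x =
      fs (F x) (fderiv ℝ F x v) / nsq (F x) ^ 2 := by
  have h0 : nsq (F x) ≠ 0 := fun h => hne (nsq_eq_zero.1 h)
  rw [← levz_log_nsq h0]
  exact levz_comp NC.isOpen_ne contDiffOn_log_nsq hW hF hx h0 v

theorem levz_log_F_nonneg {n m : ℕ} {F : Cn n → Cn m} {W : Set (Cn n)} (hW : IsOpen W)
    (hF : HolOn F W) {x : Cn n} (hx : x ∈ W) (hne : F x ≠ 0) (v : Cn n) :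
    0 ≤ levz (fun x => Real.log (nsq (F x))) v x := by
  rw [levz_log_F hW hF hx hne v]
  exact div_nonneg (fs_nonneg _ _) (sq_nonneg _)

/-- On the vertical vectors a quadratic form is, locally, at most a multiple of the Fubini-Study
form. -/
theorem exists_pos_form {n m N : ℕ} {F : Cn n → Cn m} {g : Cn n → Cn N} {W : Set (Cn n)}
    (hW : IsOpen W) (hF : HolOn F W) (hg : HolOn g W) (hF0 : ∀ x ∈ W, F x ≠ 0) {x₀ : Cn n}
    (hx₀ : x₀ ∈ W)
    (himm : ∀ v, fderiv ℝ g x₀ v = 0 →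
      (∃ a b : ℝ, fderiv ℝ F x₀ v = a • F x₀ + b • J (F x₀)) → v = 0)
    {Q : Cn n → Cn n → ℝ}
    (hQ : ContinuousOn (fun p : Cn n × Cn n => Q p.1 p.2) (W ×ˢ univ))
    (hQs : ∀ x ∈ W, ∀ v (t : ℝ), Q x (t • v) = t ^ 2 * Q x v) :
    ∃ (C : ℝ) (W' : Set (Cn n)), 0 < C ∧ IsOpen W' ∧ x₀ ∈ W' ∧ W' ⊆ W ∧
      (∀ x ∈ W', ∀ v, fderiv ℝ g x v = 0 →
        (∃ a b : ℝ, fderiv ℝ F x v = a • F x + b • J (F x)) → v = 0) ∧
      ∀ x ∈ W', ∀ v, fderiv ℝ g x v = 0 →
        Q x v ≤ C * levz (fun x => Real.log (nsq (F x))) v x := by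
  have hFc : ContinuousOn F W := hF.1.continuousOn
  have hFd : ContinuousOn (fderiv ℝ F) W := hF.1.continuousOn_fderiv_of_isOpen hW (by simp)
  have hgd : ContinuousOn (fderiv ℝ g) W := hg.1.continuousOn_fderiv_of_isOpen hW (by simp)
  have hWn : W ∈ 𝓝 x₀ := hW.mem_nhds hx₀
  have hn : ∀ x ∈ W, 0 < nsq (F x) := fun x hx =>
    lt_of_le_of_ne (nsq_nonneg _) fun h => hF0 x hx (nsq_eq_zero.1 h.symm)
  have hn0 := hn x₀ hx₀
  -- the form
  set Φ : Cn n → Cn n → ℝ := fun x v =>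
    fs (F x) (fderiv ℝ F x v) / nsq (F x) ^ 2 + nsq (fderiv ℝ g x v) with hΦ
  have hΦc : ∀ v, ContinuousAt (fun p : Cn n × Cn n => Φ p.1 p.2) (x₀, v) := by
    intro v
    have c1 : ContinuousAt (fun p : Cn n × Cn n => F p.1) (x₀, v) :=
      ContinuousAt.comp (g := F) (f := fun p : Cn n × Cn n => p.1) (hFc.continuousAt hWn)
        continuousAt_fst
    have c2 : ContinuousAt (fun p : Cn n × Cn n => fderiv ℝ F p.1 p.2) (x₀, v) :=
      (ContinuousAt.comp (g := fderiv ℝ F) (f := fun p : Cn n × Cn n => p.1)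
        (hFd.continuousAt hWn) continuousAt_fst).clm_apply continuousAt_snd
    have c3 : ContinuousAt (fun p : Cn n × Cn n => fderiv ℝ g p.1 p.2) (x₀, v) :=
      (ContinuousAt.comp (g := fderiv ℝ g) (f := fun p : Cn n × Cn n => p.1)
        (hgd.continuousAt hWn) continuousAt_fst).clm_apply continuousAt_snd
    have c4 : ContinuousAt (fun p : Cn n × Cn n => fs (F p.1) (fderiv ℝ F p.1 p.2)) (x₀, v) :=
      ContinuousAt.comp (g := fun p : Cn m × Cn m => fs p.1 p.2)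
        (f := fun p : Cn n × Cn n => (F p.1, fderiv ℝ F p.1 p.2)) continuous_fs.continuousAt
        (c1.prodMk c2)
    have c5 : ContinuousAt (fun p : Cn n × Cn n => nsq (F p.1) ^ 2) (x₀, v) :=
      (ContinuousAt.comp (g := (nsq : Cn m → ℝ)) continuous_nsq'.continuousAt c1).pow 2
    have c6 : ContinuousAt (fun p : Cn n × Cn n => nsq (fderiv ℝ g p.1 p.2)) (x₀, v) :=
      ContinuousAt.comp (g := (nsq : Cn N → ℝ)) continuous_nsq'.continuousAt c3
    exact (c4.div c5 (by positivity)).add c6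
  have hΦnn : ∀ x v, 0 ≤ Φ x v := fun x v =>
    add_nonneg (div_nonneg (fs_nonneg _ _) (sq_nonneg _)) (nsq_nonneg _)
  have hΦ0 : ∀ v, v ≠ 0 → 0 < Φ x₀ v := by
    intro v hv
    refine lt_of_le_of_ne (hΦnn x₀ v) fun h => hv ?_
    have h1 := div_nonneg (fs_nonneg (F x₀) (fderiv ℝ F x₀ v)) (sq_nonneg (nsq (F x₀)))
    have h2 := nsq_nonneg (fderiv ℝ g x₀ v)
    have h3 : fs (F x₀) (fderiv ℝ F x₀ v) / nsq (F x₀) ^ 2 + nsq (fderiv ℝ g x₀ v) = 0 := h.symm
    have h4 : nsq (fderiv ℝ g x₀ v) = 0 := by linarith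
    have h5 : fs (F x₀) (fderiv ℝ F x₀ v) = 0 := by
      have h6 : fs (F x₀) (fderiv ℝ F x₀ v) / nsq (F x₀) ^ 2 = 0 := by linarith
      rcases div_eq_zero_iff.1 h6 with h7 | h7
      · exact h7
      · exact absurd h7 (by positivity)
    exact himm v (nsq_eq_zero.1 h4) (fs_eq_zero (hF0 x₀ hx₀) h5)
  have hΦh : ∀ x v (t : ℝ), Φ x (t • v) = t ^ 2 * Φ x v := by
    intro x v t
    simp only [hΦ, map_smul, fs_smul, NK.nsq_smul]
    ring
  -- the lower bound on the sphere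
  obtain ⟨δ, hδ, hδ'⟩ : ∃ δ > 0, ∀ᶠ x in 𝓝 x₀, ∀ v ∈ {v : Cn n | nsq v = 1},
      δ < Φ x v := by
    rcases ({v : Cn n | nsq v = 1}).eq_empty_or_nonempty with hemp | hne
    · refine ⟨1, one_pos, Eventually.of_forall fun x v hv => ?_⟩
      rw [hemp] at hv
      exact absurd hv (notMem_empty v)
    · have hcont : ContinuousOn (fun v => Φ x₀ v) {v : Cn n | nsq v = 1} := fun v _ =>
        (ContinuousAt.comp (g := fun p : Cn n × Cn n => Φ p.1 p.2) (f := fun v => (x₀, v))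
          (hΦc v) (by fun_prop)).continuousWithinAt
      obtain ⟨v₀, hv₀, hmin⟩ := isCompact_sphere.exists_isMinOn hne hcont
      have hv₀' : v₀ ≠ 0 := by
        rintro rfl
        have h1 : nsq (0 : Cn n) = 1 := hv₀
        rw [nsq_eq_zero.2 rfl] at h1
        exact zero_ne_one h1
      have hpos := hΦ0 v₀ hv₀'
      refine ⟨Φ x₀ v₀ / 2, by linarith, ?_⟩
      refine isCompact_sphere.eventually_forall_of_forall_eventually fun v hv => ?_
      have h1 : Φ x₀ v₀ ≤ Φ x₀ v := hmin hv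
      exact (hΦc v).eventually_const_lt (by
        show Φ x₀ v₀ / 2 < Φ x₀ v
        linarith)
  -- the upper bound on the sphere
  obtain ⟨A, hA, hA'⟩ : ∃ A > 0, ∀ᶠ x in 𝓝 x₀, ∀ v ∈ {v : Cn n | nsq v = 1}, Q x v < A := by
    have hQc : ∀ v, ContinuousAt (fun p : Cn n × Cn n => Q p.1 p.2) (x₀, v) := fun v =>
      hQ.continuousAt ((hW.prod isOpen_univ).mem_nhds ⟨hx₀, mem_univ v⟩)
    have hcont : ContinuousOn (fun v => Q x₀ v) {v : Cn n | nsq v = 1} := fun v _ =>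
      (ContinuousAt.comp (g := fun p : Cn n × Cn n => Q p.1 p.2) (f := fun v => (x₀, v))
        (hQc v) (by fun_prop)).continuousWithinAt
    obtain ⟨B, hB⟩ := isCompact_sphere.exists_bound_of_continuousOn hcont
    refine ⟨|B| + 1, by positivity, ?_⟩
    refine isCompact_sphere.eventually_forall_of_forall_eventually fun v hv => ?_
    have h1 : Q x₀ v ≤ B := (le_abs_self _).trans (hB v hv)
    exact (hQc v).eventually_lt_const (by
      show Q x₀ v < |B| + 1
      have := le_abs_self B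
      linarith)
  obtain ⟨W', hW', hW'o, hW'0⟩ := mem_nhds_iff.1
    ((hδ'.and hA').and (hWn : ∀ᶠ x in 𝓝 x₀, x ∈ W))
  have hlow : ∀ x ∈ W', ∀ v, δ * nsq v ≤ Φ x v := by
    intro x hx v
    rcases eq_or_ne v 0 with rfl | hv
    · rw [nsq_eq_zero.2 rfl, mul_zero]
      exact hΦnn x 0
    · have h1 : 0 < nsq v := lt_of_le_of_ne (nsq_nonneg v) fun h => hv (nsq_eq_zero.1 h.symm)
      have h2 : nsq ((√(nsq v))⁻¹ • v) = 1 := by
        rw [NK.nsq_smul, inv_pow, Real.sq_sqrt h1.le, inv_mul_cancel₀ h1.ne']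
      have h3 := (hW' hx).1.1 _ h2
      rw [hΦh, inv_pow, Real.sq_sqrt h1.le, lt_inv_mul_iff₀ h1] at h3
      linarith
  have hup : ∀ x ∈ W', ∀ v, Q x v ≤ A * nsq v := by
    intro x hx v
    rcases eq_or_ne v 0 with rfl | hv
    · have h1 := hQs x (hW' hx).2 0 0
      rw [smul_zero] at h1
      rw [h1, nsq_eq_zero.2 rfl]
      norm_num
    · have h1 : 0 < nsq v := lt_of_le_of_ne (nsq_nonneg v) fun h => hv (nsq_eq_zero.1 h.symm)
      have h2 : nsq ((√(nsq v))⁻¹ • v) = 1 := by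
        rw [NK.nsq_smul, inv_pow, Real.sq_sqrt h1.le, inv_mul_cancel₀ h1.ne']
      have h3 := (hW' hx).1.2 _ h2
      rw [hQs x (hW' hx).2, inv_pow, Real.sq_sqrt h1.le, inv_mul_lt_iff₀ h1] at h3
      linarith
  have hver : ∀ x ∈ W', ∀ v, fderiv ℝ g x v = 0 →
      Φ x v = levz (fun x => Real.log (nsq (F x))) v x := by
    intro x hx v hv
    have h1 : nsq (fderiv ℝ g x v) = 0 := by rw [hv]; exact nsq_eq_zero.2 rfl
    rw [levz_log_F hW hF (hW' hx).2 (hF0 x (hW' hx).2) v]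
    simp only [hΦ]
    rw [h1, add_zero]
  refine ⟨A / δ, W', by positivity, hW'o, hW'0, fun x hx => (hW' hx).2, ?_, ?_⟩
  · intro x hx v hv ⟨a, b, hab⟩
    have h1 : fs (F x) (fderiv ℝ F x v) = 0 := by
      have hz : ∀ z : Cn m, ∀ a b : ℝ, fs z (a • z + b • J z) = 0 := by
        intro z a b
        simp only [fs, nsq, Pool.Agent.KRFS.ABP.ip, J, Prod.fst_add, Prod.snd_add, Prod.smul_fst,
          Prod.smul_snd, add_dotProduct, dotProduct_add, smul_dotProduct, dotProduct_smul,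
          smul_eq_mul, neg_dotProduct, dotProduct_neg, dotProduct_comm z.2 z.1, smul_neg, neg_add]
        ring
      rw [hab]
      exact hz _ a b
    have h4 := hlow x hx v
    have h5 : Φ x v = 0 := by
      simp only [hΦ]
      rw [h1, hv, nsq_eq_zero.2 rfl]
      simp
    rw [h5] at h4
    have h6 : nsq v ≤ 0 := by
      by_contra h
      rw [not_le] at h
      have := mul_pos hδ h
      linarith
    exact nsq_eq_zero.1 (le_antisymm h6 (nsq_nonneg v))
  · intro x hx v hv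
    rw [← hver x hx v hv]
    have h1 := hlow x hx v
    have h2 := hup x hx v
    have h3 : A / δ * (δ * nsq v) ≤ A / δ * Φ x v :=
      mul_le_mul_of_nonneg_left h1 (by positivity)
    have h4 : A / δ * (δ * nsq v) = A * nsq v := by
      field_simp
    linarith

end Pool.Agent.KRFW
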