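import Pool.Agent.Work.MP_a2bf38_gt.W.GeoDefs
import Pool.Agent.Work.MP_a2bf38_gt.W.PackA
import Pool.Agent.Work.MP_a2bf38_gt.G.Chart2

/-!
# The Fubini-Study form of the fibres
-/

open scoped ContDiff ENNReal ComplexOrder LinearAlgebra.Projectivization Topology
open Set Filter Pool.Agent.ToricKRF Pool.Agent.ToricKRF.G Pool.Agent.KRFS Pool.Agent.KRFF
  Pool.Agent.KRFZ

namespace Pool.Agent.KRFW

section

variable {M Z : Type} [MetricSpace M] [CompactSpace M] [MetricSpace Z] {n N : ℕ} {κ P : Type}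
  {e : κ → OpenPartialHomeomorph M (Cn n)} {U : P → Set Z} {q : P → Z → Cn N} {f : M → Z}
  {ψ : κ → ℝ × Cn n → ℝ}

omit [CompactSpace M] in
/-- in suitable charts `ω(0)` is on the fibres at most a multiple of the Fubini-Study form -/
theorem exists_pack (G : GeoData e U q f ψ) {S : Set Z} {L d : ℕ}
    {ι : M → ℙ ℂ (Fin (L + 1) → ℂ)} (hι : IsProjOver e U q f S ι d) (hS : IsOpen S) {p₀ : M}
    (hp₀ : f p₀ ∈ S) : ∃ (C : ℝ) (c : κ) (F : Cn n → Cn (L + 1)) (W : Set (Cn n)) (j : P),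
      0 < C ∧ p₀ ∈ (e c).source ∧ e c p₀ ∈ W ∧ IsLift e ι c F W ∧
      (∀ x ∈ W, f ((e c).symm x) ∈ S ∧ f ((e c).symm x) ∈ U j) ∧
      (∀ x ∈ W, ∀ v, fderiv ℝ (fmap e q f c j) x v = 0 →
        (∃ a b : ℝ, fderiv ℝ F x v = a • F x + b • J (F x)) → v = 0) ∧
      ∀ x ∈ W, ∀ v, fderiv ℝ (fmap e q f c j) x v = 0 →
        lev (ψ c) v (0, x) ≤ C * levz (fun x => Real.log (nsq (F x))) v x := by
  obtain ⟨c, hc⟩ := G.atlas.cover p₀
  obtain ⟨j, hj⟩ := G.cover (f p₀)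
  set x₀ := e c p₀ with hx₀
  have hx₀t : x₀ ∈ (e c).target := (e c).map_source hc
  have hx₀s : (e c).symm x₀ = p₀ := (e c).left_inv hc
  obtain ⟨F, W₁, hxW, hlift, himm⟩ := hι.lift c x₀ hx₀t (by rw [hx₀s]; exact hp₀)
  obtain ⟨hW₁, hW₁t, hFh, hFι⟩ := hlift
  obtain ⟨O, hO, hOs, hψ⟩ := G.smooth c
  -- the open set
  set W₂ : Set (Cn n) := (e c).target ∩ (e c).symm ⁻¹' (f ⁻¹' (S ∩ U j)) with hW₂
  have hW₂o : IsOpen W₂ := (e c).isOpen_inter_preimage_symm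
    ((hS.inter (G.isOpen j)).preimage G.cont)
  set W := W₁ ∩ W₂ with hWdef
  have hWo : IsOpen W := hW₁.inter hW₂o
  have hx₀W : x₀ ∈ W := ⟨hxW, hx₀t, by
    show f ((e c).symm x₀) ∈ S ∩ U j
    rw [hx₀s]
    exact ⟨hp₀, hj⟩⟩
  have hWt : W ⊆ (e c).target := fun x hx => hx.2.1
  have hFW : HolOn F W := ⟨hFh.1.mono inter_subset_left, fun z hz => hFh.2 z hz.1⟩
  have hgW : HolOn (fmap e q f c j) W := by
    have hsub : W ⊆ fdom e U f c j := fun x hx => ⟨hx.2.1, hx.2.2.2⟩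
    exact ⟨(G.holo c j).1.mono hsub, fun z hz => (G.holo c j).2 z (hsub hz)⟩
  have hF0 : ∀ x ∈ W, F x ≠ 0 := fun x hx h0 => by
    obtain ⟨h, -⟩ := hFι x hx.1
    apply h
    rw [h0]
    funext k
    simp [cc]
    rfl
  have hQ0 : ContinuousOn (fun p : Cn n × Cn n => lev (ψ c) p.2 (0, p.1)) (W ×ˢ univ) := by
    have h1 := continuousOn_lev hO hψ
    exact h1.comp (f := fun q : Cn n × Cn n => (((0 : ℝ), q.1), q.2)) (by fun_prop)
      fun q hq => ⟨hOs ⟨rfl, hWt hq.1⟩, mem_univ _⟩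
  obtain ⟨C, W', hC, hW', hx₀W', hsub, h1, h2⟩ := exists_pos_form hWo hFW hgW hF0 hx₀W
    (fun v hv hF => himm j (by rw [hx₀s]; exact hj) v hv hF)
    (Q := fun x v => lev (ψ c) v (0, x)) hQ0
    (fun x hx v t => lev_smul (ψ c) t v hO hψ (hOs ⟨rfl, hWt hx⟩))
  exact ⟨C, c, F, W', j, hC, hc, hx₀W', ⟨hW', fun x hx => hWt (hsub hx),
    ⟨hFh.1.mono fun x hx => (hsub hx).1, fun z hz => hFh.2 z (hsub hz).1⟩,
    fun x hx => hFι x (hsub hx).1⟩, fun x hx => (hsub hx).2.2, h1, h2⟩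

end

end Pool.Agent.KRFW
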