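import Pool.Agent.Work.MP_a2bf38_gt.W.GeoDefs
import Pool.Agent.Work.MP_a2bf38_gt.K.HB

/-!
# The Laplacian of `log |F|^2`
-/

open scoped ContDiff ComplexOrder Topology
open Set Filter Pool.Agent.ToricKRF Pool.Agent.ToricKRF.G Pool.Agent.KRFS
  Pool.Agent.KRFF Pool.Agent.KRFG

namespace Pool.Agent.KRFW

namespace RhoLap

/-- the derivative of `Re (conj g * h)` -/
theorem D_conj_mul {g h : ℂ → ℂ} {x : ℂ} (hg : DifferentiableAt ℂ g x)
    (hh : DifferentiableAt ℂ h x) (w : ℂ) :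
    D w (fun s => ((starRingEnd ℂ) (g s) * h s).re) x =
      ((starRingEnd ℂ) (deriv g x * w) * h x + (starRingEnd ℂ) (g x) * (deriv h x * w)).re := by
  have h1 : HasFDerivAt g _ x := hg.hasDerivAt.hasFDerivAt.restrictScalars ℝ
  have h2 : HasFDerivAt h _ x := hh.hasDerivAt.hasFDerivAt.restrictScalars ℝ
  have h3 : HasFDerivAt (fun s => (starRingEnd ℂ) (g s)) _ x :=
    (Complex.conjCLE.toContinuousLinearMap.hasFDerivAt).comp x h1
  have h4 : HasFDerivAt (fun s => (starRingEnd ℂ) (g s) * h s) _ x := h3.mul h2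
  have h5 : HasFDerivAt (fun s => ((starRingEnd ℂ) (g s) * h s).re) _ x :=
    Complex.reCLM.hasFDerivAt.comp x h4
  unfold D
  rw [h5.fderiv]
  simp
  ring

theorem norm_sq_eq (z : ℂ) : ‖z‖ ^ 2 = ((starRingEnd ℂ) z * z).re := by
  rw [← Complex.normSq_eq_norm_sq, Complex.normSq_apply]
  simp

theorem D_nf {f : ℂ → ℂ} {x : ℂ} (hf : DifferentiableAt ℂ f x) (w : ℂ) :
    D w (fun s => ‖f s‖ ^ 2) x = 2 * ((starRingEnd ℂ) (f x) * (deriv f x * w)).re := by
  have h0 : (fun s => ‖f s‖ ^ 2) = fun s => ((starRingEnd ℂ) (f s) * f s).re :=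
    funext fun s => norm_sq_eq _
  rw [h0, D_conj_mul hf hf]
  simp
  ring

theorem D_D_nf {f : ℂ → ℂ} {s : ℂ} {r : ℝ} (hf : DifferentiableOn ℂ f (Metric.ball s r)) {x : ℂ}
    (hx : x ∈ Metric.ball s r) (w : ℂ) :
    D w (D w (fun s => ‖f s‖ ^ 2)) x = 2 * ((starRingEnd ℂ) (deriv f x * w) * (deriv f x * w) +
      (starRingEnd ℂ) (f x) * (deriv (deriv f) x * w * w)).re := by
  have hB : IsOpen (Metric.ball s r) := Metric.isOpen_ball
  have hd : ∀ y ∈ Metric.ball s r, DifferentiableAt ℂ f y := fun y hy =>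
    (hf y hy).differentiableAt (hB.mem_nhds hy)
  have hd' : DifferentiableAt ℂ (deriv f) x :=
    ((hf.deriv hB) x hx).differentiableAt (hB.mem_nhds hx)
  have h1 : (D w (fun s => ‖f s‖ ^ 2)) =ᶠ[𝓝 x]
      fun y => 2 * ((starRingEnd ℂ) (f y) * (deriv f y * w)).re := by
    filter_upwards [hB.mem_nhds hx] with y hy
    exact D_nf (hd y hy) w
  have h2 : DifferentiableAt ℂ (fun y => deriv f y * w) x := hd'.mul_const w
  have h3 : deriv (fun y => deriv f y * w) x = deriv (deriv f) x * w := deriv_mul_const hd' w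
  have h4 : DifferentiableAt ℝ (fun y => ((starRingEnd ℂ) (f y) * (deriv f y * w)).re) x := by
    have h5 : DifferentiableAt ℝ f x := (hd x hx).restrictScalars ℝ
    have h6 : DifferentiableAt ℝ (fun y => deriv f y * w) x := h2.restrictScalars ℝ
    have h7 : DifferentiableAt ℝ (fun y => (starRingEnd ℂ) (f y)) x :=
      (Complex.conjCLE.toContinuousLinearMap.differentiableAt).comp x h5
    exact Complex.reCLM.differentiableAt.comp x (h7.mul h6)
  rw [LC.D_congr w h1, LC.D_const_mul w 2 h4, D_conj_mul (hd x hx) h2, h3]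

section

variable {L : ℕ} {F : ℂ → Fin L → ℂ} {s : ℂ} {r : ℝ}

theorem contDiffOn_comp (hF : DifferentiableOn ℂ F (Metric.ball s r)) (j : Fin L) :
    ContDiffOn ℝ ∞ (fun s => ‖F s j‖ ^ 2) (Metric.ball s r) := by
  have h1 : DifferentiableOn ℂ (fun s => F s j) (Metric.ball s r) := fun x hx =>
    (differentiableWithinAt_pi.1 (hF x hx)) j
  have h2 : ContDiffOn ℝ ∞ (fun s => F s j) (Metric.ball s r) :=
    (h1.contDiffOn Metric.isOpen_ball).restrict_scalars ℝ
  exact h2.norm_sq ℝ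

theorem contDiffOn_nn (hF : DifferentiableOn ℂ F (Metric.ball s r)) :
    ContDiffOn ℝ ∞ (fun s => nn (F s)) (Metric.ball s r) := by
  unfold nn
  exact ContDiffOn.sum fun j _ => contDiffOn_comp hF j

theorem nn_pos {x : Fin L → ℂ} (h : x ≠ 0) : 0 < nn x := by
  obtain ⟨j, hj⟩ := Function.ne_iff.1 h
  refine Finset.sum_pos' (fun i _ => by positivity) ⟨j, Finset.mem_univ j, ?_⟩
  have : 0 < ‖x j‖ := norm_pos_iff.2 hj
  positivity

theorem contDiffOn_log_nn (hF : DifferentiableOn ℂ F (Metric.ball s r))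
    (h0 : ∀ s' ∈ Metric.ball s r, F s' ≠ 0) :
    ContDiffOn ℝ ∞ (fun s => Real.log (nn (F s))) (Metric.ball s r) :=
  (contDiffOn_nn hF).log fun s' hs' => (nn_pos (h0 s' hs')).ne'

theorem D_nn (hF : DifferentiableOn ℂ F (Metric.ball s r)) {x : ℂ} (hx : x ∈ Metric.ball s r)
    (w : ℂ) : D w (fun s => nn (F s)) x =
      2 * (∑ j, (starRingEnd ℂ) (F x j) * (deriv (fun s => F s j) x * w)).re := by
  have hB : IsOpen (Metric.ball s r) := Metric.isOpen_ball
  have hd : ∀ j, DifferentiableAt ℂ (fun s => F s j) x := fun j =>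
    differentiableAt_pi.1 ((hF x hx).differentiableAt (hB.mem_nhds hx)) j
  have h1 : ∀ j, DifferentiableAt ℝ (fun s => ‖F s j‖ ^ 2) x := fun j =>
    ((contDiffOn_comp hF j).contDiffAt (hB.mem_nhds hx)).differentiableAt (by simp)
  have h2 : D w (fun s => nn (F s)) x = ∑ j, D w (fun s => ‖F s j‖ ^ 2) x := by
    unfold D nn
    rw [fderiv_fun_sum fun j _ => h1 j]
    simp
  rw [h2, Complex.re_sum, Finset.mul_sum]
  exact Finset.sum_congr rfl fun j _ => D_nf (hd j) w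

theorem lapC_nn (hF : DifferentiableOn ℂ F (Metric.ball s r)) {x : ℂ}
    (hx : x ∈ Metric.ball s r) :
    lapC (fun s => nn (F s)) x = 4 * ∑ j, ‖deriv (fun s => F s j) x‖ ^ 2 := by
  have hB : IsOpen (Metric.ball s r) := Metric.isOpen_ball
  have hd : ∀ j, DifferentiableOn ℂ (fun s => F s j) (Metric.ball s r) := fun j y hy =>
    (differentiableWithinAt_pi.1 (hF y hy)) j
  have h1 : ∀ j, ContDiffAt ℝ 2 (fun s => ‖F s j‖ ^ 2) x := fun j =>
    ((contDiffOn_comp hF j).contDiffAt (hB.mem_nhds hx)).of_le two_le_infty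
  unfold nn
  rw [HB.lapC_sum Finset.univ fun j _ => h1 j, Finset.mul_sum]
  refine Finset.sum_congr rfl fun j _ => ?_
  unfold lapC
  rw [D_D_nf (hd j) hx, D_D_nf (hd j) hx, norm_sq_eq]
  simp
  ring

/-- `log |F|^2` is subharmonic -/
theorem lapC_log_nn_nonneg (hF : DifferentiableOn ℂ F (Metric.ball s r)) {x : ℂ}
    (hx : x ∈ Metric.ball s r) (h0 : F x ≠ 0) :
    0 ≤ lapC (fun s => Real.log (nn (F s))) x := by
  have hB : IsOpen (Metric.ball s r) := Metric.isOpen_ball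
  have hc : ContDiffAt ℝ 2 (fun s => nn (F s)) x :=
    ((contDiffOn_nn hF).contDiffAt (hB.mem_nhds hx)).of_le two_le_infty
  have hp : 0 < nn (F x) := nn_pos h0
  have hl := lapC_nn hF hx
  unfold lapC at hl ⊢
  rw [LC.D_D_log _ _ hc hp.ne', LC.D_D_log _ _ hc hp.ne', D_nn hF hx, D_nn hF hx]
  set a : Fin L → ℂ := fun j => deriv (fun s => F s j) x with ha
  set S : ℂ := ∑ j, (starRingEnd ℂ) (F x j) * a j with hS
  have e1 : (∑ j, (starRingEnd ℂ) (F x j) * (deriv (fun s => F s j) x * 1)) = S := by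
    simp [hS, ha]
  have e2 : (∑ j, (starRingEnd ℂ) (F x j) * (deriv (fun s => F s j) x * Complex.I)) =
      S * Complex.I := by
    rw [hS, Finset.sum_mul]
    exact Finset.sum_congr rfl fun j _ => by ring
  rw [e1, e2]
  have hcs : ‖S‖ ^ 2 ≤ nn (F x) * ∑ j, ‖a j‖ ^ 2 := by
    have h1 : ‖S‖ ≤ ∑ j, ‖F x j‖ * ‖a j‖ := by
      refine (norm_sum_le _ _).trans (le_of_eq (Finset.sum_congr rfl fun j _ => ?_))
      rw [norm_mul, Complex.norm_conj]
    have h2 := Finset.sum_mul_sq_le_sq_mul_sq Finset.univ (fun j => ‖F x j‖) (fun j => ‖a j‖)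
    calc ‖S‖ ^ 2 ≤ (∑ j, ‖F x j‖ * ‖a j‖) ^ 2 :=
          pow_le_pow_left₀ (norm_nonneg _) h1 2
      _ ≤ _ := h2
  have e3 : ‖S‖ ^ 2 = S.re * S.re + S.im * S.im := by
    rw [← Complex.normSq_eq_norm_sq, Complex.normSq_apply]
  have e4 : (S * Complex.I).re = -S.im := by simp
  rw [e4]
  set A : ℝ := nn (F x) with hA
  have e5 : D (1 : ℂ) (D 1 fun s => nn (F s)) x / A - 2 * S.re * (2 * S.re) / A ^ 2 +
      (D Complex.I (D Complex.I fun s => nn (F s)) x / A - 2 * -S.im * (2 * -S.im) / A ^ 2) =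
      (4 * (A * ∑ j, ‖a j‖ ^ 2) - 4 * ‖S‖ ^ 2) / A ^ 2 := by
    rw [e3]
    have h6 : D Complex.I (D Complex.I fun s => nn (F s)) x =
        4 * ∑ j, ‖a j‖ ^ 2 - D (1 : ℂ) (D 1 fun s => nn (F s)) x := by linarith
    rw [h6]
    field_simp
    ring
  rw [e5]
  refine div_nonneg ?_ (by positivity)
  linarith

end

/-- `1 + |s|^2` -/
theorem nn_one (s : ℂ) : nn (![1, s] : Fin 2 → ℂ) = 1 + ‖s‖ ^ 2 := by
  simp [nn, Fin.sum_univ_two]

theorem contDiff_log_one : ContDiff ℝ ∞ fun s : ℂ => Real.log (1 + ‖s‖ ^ 2) := by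
  refine ContDiff.log (contDiff_const.add (contDiff_id.norm_sq ℝ)) fun s => ?_
  have := sq_nonneg ‖s‖
  positivity

theorem lapC_log_one_nonneg (x : ℂ) : 0 ≤ lapC (fun s : ℂ => Real.log (1 + ‖s‖ ^ 2)) x := by
  have h1 : (fun s : ℂ => Real.log (1 + ‖s‖ ^ 2)) =
      fun s : ℂ => Real.log (nn (![1, s] : Fin 2 → ℂ)) := by
    funext s
    rw [nn_one]
  rw [h1]
  refine lapC_log_nn_nonneg (s := x) (r := 1) ?_ (Metric.mem_ball_self one_pos) ?_
  · refine (differentiable_pi.2 fun j => ?_).differentiableOn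
    fin_cases j
    · exact differentiable_const _
    · exact differentiable_id
  · intro h
    have := congrFun h 0
    simp at this

/-- the main computation for `rho_curve` -/
theorem curve_core {L : ℕ} {C₁ C₂ μ : ℝ} (hC₂ : C₁ ≤ C₂) (hμ : 0 < μ)
    {F : ℂ → Fin (L + 1) → ℂ} {R : ℂ → ℝ} {s : ℂ} {r : ℝ}
    (hF : DifferentiableOn ℂ F (Metric.ball s r)) (h0 : ∀ s' ∈ Metric.ball s r, F s' ≠ 0)
    (hR : ∀ s' ∈ Metric.ball s r, R s' = C₁ * Real.log (nn (F s') / (μ * (1 + ‖s'‖ ^ 2)))) :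
    ContDiffOn ℝ ∞ R (Metric.ball s r) ∧
      ∀ s' ∈ Metric.ball s r, 0 ≤ lapC (fun s' => Real.log (nn (F s'))) s' ∧
        C₁ * lapC (fun s' => Real.log (nn (F s'))) s' ≤
          lapC (fun s' => C₂ * Real.log (1 + ‖s'‖ ^ 2) + R s') s' := by
  have hB : IsOpen (Metric.ball s r) := Metric.isOpen_ball
  have hlog : ContDiffOn ℝ ∞ (fun s => Real.log (nn (F s))) (Metric.ball s r) :=
    contDiffOn_log_nn hF h0
  have hone : ContDiff ℝ ∞ fun s : ℂ => Real.log (1 + ‖s‖ ^ 2) := contDiff_log_one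
  have hR' : ∀ s' ∈ Metric.ball s r, R s' = C₁ * (Real.log (nn (F s')) -
      (Real.log μ + Real.log (1 + ‖s'‖ ^ 2))) := fun s' hs' => by
    have h1 := nn_pos (h0 s' hs')
    have h2 : 0 < 1 + ‖s'‖ ^ 2 := by positivity
    rw [hR s' hs', Real.log_div h1.ne' (mul_pos hμ h2).ne', Real.log_mul hμ.ne' h2.ne']
  refine ⟨?_, fun x hx => ⟨lapC_log_nn_nonneg hF hx (h0 x hx), ?_⟩⟩
  · refine ContDiffOn.congr (f := fun s' => C₁ * (Real.log (nn (F s')) -
      (Real.log μ + Real.log (1 + ‖s'‖ ^ 2)))) ?_ hR'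
    exact contDiffOn_const.mul (hlog.sub (contDiffOn_const.add hone.contDiffOn))
  · have h1 : ContDiffAt ℝ 2 (fun s => Real.log (nn (F s))) x :=
      (hlog.contDiffAt (hB.mem_nhds hx)).of_le two_le_infty
    have h2 : ContDiffAt ℝ 2 (fun s : ℂ => Real.log (1 + ‖s‖ ^ 2)) x :=
      hone.contDiffAt.of_le two_le_infty
    have h3 : (fun s' => C₂ * Real.log (1 + ‖s'‖ ^ 2) + R s') =ᶠ[𝓝 x]
        fun s' => (C₂ - C₁) * Real.log (1 + ‖s'‖ ^ 2) +
          (C₁ * Real.log (nn (F s')) + (-(C₁ * Real.log μ))) := by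
      filter_upwards [hB.mem_nhds hx] with y hy
      rw [hR' y hy]
      ring
    have h4 : lapC (fun s' => C₂ * Real.log (1 + ‖s'‖ ^ 2) + R s') x =
        (C₂ - C₁) * lapC (fun s : ℂ => Real.log (1 + ‖s‖ ^ 2)) x +
          C₁ * lapC (fun s => Real.log (nn (F s))) x := by
      have h5 : lapC (fun s' => C₂ * Real.log (1 + ‖s'‖ ^ 2) + R s') x =
          lapC (fun s' => (C₂ - C₁) * Real.log (1 + ‖s'‖ ^ 2) +
            (C₁ * Real.log (nn (F s')) + (-(C₁ * Real.log μ)))) x := by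
        unfold lapC
        rw [LC.D_D_congr _ _ h3, LC.D_D_congr _ _ h3]
      have h6 : ContDiffAt ℝ 2 (fun s' => C₁ * Real.log (nn (F s')) + (-(C₁ * Real.log μ))) x :=
        (contDiffAt_const.mul h1).add contDiffAt_const
      have h7 : lapC (fun _ : ℂ => -(C₁ * Real.log μ)) x = 0 := by
        have h8 : (fun _ : ℂ => -(C₁ * Real.log μ)) = fun _ : ℂ => (-(C₁ * Real.log μ)) * (1 : ℝ) := by
          simp
        have h9 : lapC (fun _ : ℂ => (1 : ℝ)) x = 0 := by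
          unfold lapC D
          simp
        rw [h8, HB.lapC_const_mul _ contDiffAt_const, h9, mul_zero]
      rw [h5, HB.lapC_add (contDiffAt_const.mul h2) h6, HB.lapC_const_mul _ h2,
        HB.lapC_add (contDiffAt_const.mul h1) contDiffAt_const, HB.lapC_const_mul _ h1, h7,
        add_zero]
    rw [h4]
    have h5 : 0 ≤ (C₂ - C₁) * lapC (fun s : ℂ => Real.log (1 + ‖s‖ ^ 2)) x :=
      mul_nonneg (sub_nonneg.2 hC₂) (lapC_log_one_nonneg x)
    linarith

end RhoLap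

end Pool.Agent.KRFW
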