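import Pool.Agent.Work.MP_a2bf38_gt.W.DiscA
import Pool.Agent.Work.MP_a2bf38_gt.W.DiscB
import Pool.Agent.Work.MP_a2bf38_gt.W.Metric
import Pool.Agent.Work.MP_a2bf38_gt.W.Pack
import Pool.Agent.Work.MP_a2bf38_gt.W.RhoLap
import Pool.Agent.Work.MP_a2bf38_gt.K.TouchA

/-!
# Holomorphic curves in the image of a fibre come from holomorphic curves in the fibre
-/

open scoped ContDiff ENNReal ComplexOrder LinearAlgebra.Projectivization Topology
open Set Filter Pool.Agent.ToricKRF Pool.Agent.ToricKRF.G Pool.Agent.KRFS Pool.Agent.KRFF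
  Pool.Agent.KRFZ

namespace Pool.Agent.KRFW

namespace LB

variable {n : ℕ}

theorem holC_inv {h : Cn n → ℂ} {S : Set (Cn n)} (hS : IsOpen S) (hh : NF.HolC h S)
    (h0 : ∀ z ∈ S, h z ≠ 0) : NF.HolC (fun z => (h z)⁻¹) S :=
  (KRFG.Touch.holC_comp (h := fun w => w⁻¹) (V := {0}ᶜ) isOpen_compl_singleton
    (fun _ hw => (differentiableAt_inv hw).differentiableWithinAt) hS hh
    (fun z hz => h0 z hz)).1

theorem holC_mono {h : Cn n → ℂ} {S S' : Set (Cn n)} (hh : NF.HolC h S) (hs : S' ⊆ S) :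
    NF.HolC h S' := ⟨hh.1.mono hs, fun z hz => hh.2 z (hs hz)⟩

/-- A holomorphic function along a holomorphic curve. -/
theorem holC_holD {h : Cn n → ℂ} {S : Set (Cn n)} (hS : IsOpen S) (hh : NF.HolC h S)
    {g : ℂ → Cn n} {U : Set ℂ} (hU : IsOpen U) (hg : HolD g U) (hm : MapsTo g U S) :
    DifferentiableOn ℂ (fun s => h (g s)) U := by
  intro s hs
  refine DifferentiableAt.differentiableWithinAt ?_
  have h1 : HasFDerivAt h (fderiv ℝ h (g s)) (g s) := (NF.diffAt hS hh.1 (hm hs)).hasFDerivAt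
  have h2 : HasFDerivAt g (fderiv ℝ g s) s := (NF.diffAt hU hg.smooth hs).hasFDerivAt
  have h3 : HasFDerivAt (fun s => h (g s)) ((fderiv ℝ h (g s)).comp (fderiv ℝ g s)) s :=
    h1.comp s h2
  rw [differentiableAt_complex_iff_differentiableAt_real]
  refine ⟨h3.differentiableAt, ?_⟩
  rw [h3.fderiv, ContinuousLinearMap.comp_apply, ContinuousLinearMap.comp_apply, hg.holo s hs,
    hh.2 _ (hm hs), smul_eq_mul]

/-- the derivative of the complex coordinates -/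
theorem cc_fderiv {m : ℕ} {H : Cn n → Cn m} {S : Set (Cn n)} (hS : IsOpen S) (hH : HolOn H S)
    {z : Cn n} (hz : z ∈ S) (v : Cn n) (k : Fin m) :
    fderiv ℝ (fun z => cc (H z) k) z v = cc (fderiv ℝ H z v) k := by
  have h1 : HasFDerivAt H (fderiv ℝ H z) z := (NF.diffAt hS hH.1 hz).hasFDerivAt
  have h4 : (fun z => cc (H z) k) = fun z => NF.ccL k (H z) := by
    funext z
    rw [NF.ccL_apply]
  have h5 : HasFDerivAt (fun z => NF.ccL k (H z)) ((NF.ccL k).comp (fderiv ℝ H z)) z :=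
    (NF.ccL k).hasFDerivAt.comp z h1
  rw [h4, h5.fderiv, ContinuousLinearMap.comp_apply, NF.ccL_apply]

theorem ext_cc {m : ℕ} {x y : Cn m} (h : ∀ k, cc x k = cc y k) : x = y := by
  ext k
  · exact congrArg Complex.re (h k)
  · exact congrArg Complex.im (h k)

/-- The quotients of homogeneous coordinates and the map `H` are an immersion. -/
theorem imm {L m : ℕ} {F : Cn n → Cn (L + 1)} {H : Cn n → Cn m} {S W : Set (Cn n)}
    (hS : IsOpen S) (hW : IsOpen W) (hSW : S ⊆ W) (hF : HolOn F W) {W' : Set (Cn n)}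
    (hW' : IsOpen W') (hSW' : S ⊆ W') (hH : HolOn H W') {i0 : Fin (L + 1)}
    (h0 : ∀ z ∈ S, cc (F z) i0 ≠ 0) {Φ : Cn n → Fin (L + 1) ⊕ Fin m → ℂ}
    (hΦ : Φ = fun z => Sum.elim (fun i => cc (F z) i * (cc (F z) i0)⁻¹) (fun k => cc (H z) k)) :
    (∀ i, NF.HolC (fun z => Φ z i) S) ∧ ∀ z ∈ S,
      (∀ v, fderiv ℝ H z v = 0 → (∃ a b : ℝ, fderiv ℝ F z v = a • F z + b • J (F z)) → v = 0) →
      ∀ v, (∀ i, fderiv ℝ (fun z => Φ z i) z v = 0) → v = 0 := by
  have hFi : ∀ i, NF.HolC (fun z => cc (F z) i) S := fun i =>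
    holC_mono (NF.holOn_cc hW hF i) hSW
  have hΦh : ∀ i, NF.HolC (fun z => Φ z i) S := by
    subst hΦ
    rintro (i | k)
    · exact NF.HolC.mul hS (hFi i) (holC_inv hS (hFi i0) h0)
    · exact holC_mono (NF.holOn_cc hW' hH k) hSW'
  refine ⟨hΦh, fun z hz himm v hv => himm v ?_ ?_⟩
  · refine ext_cc fun k => ?_
    rw [← cc_fderiv hW' hH (hSW' hz)]
    have h3 := hv (Sum.inr k)
    subst hΦ
    rw [show cc (0 : Cn m) k = 0 from by apply Complex.ext <;> simp [cc]]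
    exact h3
  · set α : ℂ := fderiv ℝ (fun z => cc (F z) i0) z v * (cc (F z) i0)⁻¹ with hα
    have hd : ∀ i, DifferentiableAt ℝ (fun z => cc (F z) i) z := fun i =>
      NF.diffAt hS (hFi i).1 hz
    have key : ∀ i, cc (fderiv ℝ F z v) i = α * cc (F z) i := by
      intro i
      rw [← cc_fderiv hW hF (hSW hz)]
      have h2 : (fun z => cc (F z) i) =ᶠ[𝓝 z] fun z => Φ z (Sum.inl i) * cc (F z) i0 := by
        filter_upwards [hS.mem_nhds hz] with z' hz'
        subst hΦ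
        simp only [Sum.elim_inl]
        rw [inv_mul_cancel_right₀ (h0 z' hz')]
      have h3 : HasFDerivAt (fun z => Φ z (Sum.inl i) * cc (F z) i0) _ z :=
        (NF.diffAt hS (hΦh (Sum.inl i)).1 hz).hasFDerivAt.fun_mul (hd i0).hasFDerivAt
      rw [h2.fderiv_eq, h3.fderiv]
      simp only [_root_.add_apply, _root_.smul_apply, hv (Sum.inl i),
        smul_eq_mul, mul_zero, add_zero]
      subst hΦ
      simp only [Sum.elim_inl, hα]
      ring
    refine ⟨α.re, α.im, ext_cc fun k => ?_⟩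
    rw [key]
    apply Complex.ext
    · simp [cc, J]
      ring
    · simp [cc, J]

end LB

section

variable {M Z : Type} [MetricSpace M] [CompactSpace M] [MetricSpace Z] {n N : ℕ} {κ P : Type}
  {e : κ → OpenPartialHomeomorph M (Cn n)} {U : P → Set Z} {q : P → Z → Cn N} {f : M → Z}
  {ψ : κ → ℝ × Cn n → ℝ}

/-- The data of a chart with the Fubini-Study comparison. -/
structure IsPack (e : κ → OpenPartialHomeomorph M (Cn n)) (U : P → Set Z) (q : P → Z → Cn N)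
    (f : M → Z) (ψ : κ → ℝ × Cn n → ℝ) {L : ℕ} (ι : M → ℙ ℂ (Fin (L + 1) → ℂ)) (C : ℝ) (c : κ)
    (F : Cn n → Cn (L + 1)) (W : Set (Cn n)) (j : P) : Prop where
  pos : 0 < C
  lift : IsLift e ι c F W
  mem : ∀ x ∈ W, f ((e c).symm x) ∈ U j
  imm : ∀ x ∈ W, ∀ v, fderiv ℝ (fmap e q f c j) x v = 0 →
        (∃ a b : ℝ, fderiv ℝ F x v = a • F x + b • J (F x)) → v = 0
  le : ∀ x ∈ W, ∀ v, fderiv ℝ (fmap e q f c j) x v = 0 →
        lev (ψ c) v (0, x) ≤ C * levz (fun x => Real.log (nsq (F x))) v x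

omit [CompactSpace M] in
/-- The curve in one pack. -/
theorem disc_of_pack (G : GeoData e U q f ψ) {L : ℕ} {ι : M → ℙ ℂ (Fin (L + 1) → ℂ)} {C : ℝ}
    {c : κ} {F₁ : Cn n → Cn (L + 1)} {W : Set (Cn n)} {j : P}
    (hP : IsPack e U q f ψ ι C c F₁ W j) {z : Z} {h : ℂ → M} {F : ℂ → Fin (L + 1) → ℂ} {s : ℂ}
    {r : ℝ} (hr : 0 < r) (hF : DifferentiableOn ℂ F (Metric.ball s r))
    (hh : ∀ s' ∈ Metric.ball s r, f (h s') = z ∧
      ∃ h0 : F s' ≠ 0, ι (h s') = Projectivization.mk ℂ (F s') h0)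
    (hc : ContinuousAt h s) (hs1 : h s ∈ (e c).source) (hs2 : e c (h s) ∈ W) :
    ∃ (r' : ℝ) (g : ℂ → Cn n), 0 < r' ∧ r' ≤ r ∧ HolD g (Metric.ball s r') ∧
      (∀ s' ∈ Metric.ball s r', g s' ∈ (e c).target ∧ h s' = (e c).symm (g s')) ∧
      ∀ s' ∈ Metric.ball s r', 4 * lev (ψ c) (fderiv ℝ g s' 1) (0, g s') ≤
        C * lapC (fun s' => Real.log (nn (F s'))) s' := by
  obtain ⟨hWo, hWt, hF₁, hlift⟩ := hP.lift
  have hs : s ∈ Metric.ball s r := Metric.mem_ball_self hr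
  have hball : Metric.ball s r ∈ 𝓝 s := Metric.isOpen_ball.mem_nhds hs
  set g : ℂ → Cn n := fun s' => e c (h s') with hg
  have hgc : ContinuousAt g s := ContinuousAt.comp ((e c).continuousAt hs1) hc
  -- proportionality
  have hprop : ∀ s' ∈ Metric.ball s r, h s' ∈ (e c).source → g s' ∈ W →
      ∃ a : ℂ, ∀ i, cc (F₁ (g s')) i = a * F s' i := by
    intro s' hs' h1 h2
    obtain ⟨h3, h4⟩ := hlift (g s') h2
    obtain ⟨h5, h6⟩ := (hh s' hs').2
    rw [(e c).left_inv h1, h6, Projectivization.mk_eq_mk_iff'] at h4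
    obtain ⟨a, ha⟩ := h4
    have ha0 : a ≠ 0 := by
      rintro rfl
      rw [zero_smul] at ha
      exact h5 ha.symm
    refine ⟨a⁻¹, fun i => ?_⟩
    rw [← ha, Pi.smul_apply, smul_eq_mul, inv_mul_cancel_left₀ ha0]
  obtain ⟨i0, hi0⟩ : ∃ i, cc (F₁ (g s)) i ≠ 0 := by
    by_contra hc'
    push Not at hc'
    exact (hlift (g s) hs2).1 (funext hc')
  -- the open sets
  set S : Set (Cn n) := {z | z ∈ W ∧ cc (F₁ z) i0 ≠ 0} with hS
  have hSo : IsOpen S :=
    (NF.holOn_cc hWo hF₁ i0).1.continuousOn.isOpen_inter_preimage hWo isOpen_compl_singleton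
  have hgsS : g s ∈ S := ⟨hs2, hi0⟩
  have hUo : IsOpen (fdom e U f c j) :=
    (e c).isOpen_inter_preimage_symm ((G.isOpen j).preimage G.cont)
  have hSU : S ⊆ fdom e U f c j := fun z hz => ⟨hWt hz.1, hP.mem z hz.1⟩
  obtain ⟨hΦh, himm⟩ := LB.imm (H := fmap e q f c j) hSo hWo (fun z hz => hz.1) hF₁ hUo hSU
    (G.holo c j) (i0 := i0) (fun z hz => hz.2) rfl
  set Φ : Cn n → Fin (L + 1) ⊕ Fin N → ℂ := fun z =>
    Sum.elim (fun i => cc (F₁ z) i * (cc (F₁ z) i0)⁻¹) (fun k => cc (fmap e q f c j z) k) with hΦ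
  -- a ball on which everything is defined
  have hev : ∀ᶠ s' in 𝓝 s, s' ∈ Metric.ball s r ∧ h s' ∈ (e c).source ∧ g s' ∈ S ∧
      F s' i0 ≠ 0 := by
    have h1 : ∀ᶠ s' in 𝓝 s, h s' ∈ (e c).source :=
      hc.eventually ((e c).open_source.mem_nhds hs1)
    have h2 : ∀ᶠ s' in 𝓝 s, g s' ∈ S := hgc.eventually (hSo.mem_nhds hgsS)
    have h3 : ∀ᶠ s' in 𝓝 s, F s' i0 ≠ 0 := by
      have h4 : ContinuousAt (fun s' => F s' i0) s :=
        (differentiableOn_pi.1 hF i0).continuousOn.continuousAt hball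
      refine h4.eventually_ne ?_
      intro h5
      obtain ⟨a, ha⟩ := hprop s hs hs1 hs2
      apply hi0
      rw [ha, h5, mul_zero]
    filter_upwards [hball, h1, h2, h3] with s' a b c d using ⟨a, b, c, d⟩
  obtain ⟨r1, hr1, hb1⟩ := Metric.eventually_nhds_iff_ball.1 hev
  set r2 := min r1 r with hr2
  have hr2p : 0 < r2 := lt_min hr1 hr
  have hb2 : ∀ s' ∈ Metric.ball s r2, s' ∈ Metric.ball s r ∧ h s' ∈ (e c).source ∧ g s' ∈ S ∧
      F s' i0 ≠ 0 := fun s' hs' => hb1 s' (Metric.ball_subset_ball (min_le_left _ _) hs')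
  have hsym : ∀ s' ∈ Metric.ball s r2, (e c).symm (g s') = h s' := fun s' hs' =>
    (e c).left_inv (hb2 s' hs').2.1
  set b : ℂ → ℂ := fun s' => cc (F₁ (g s')) i0 / F s' i0 with hb
  have hb0 : ∀ s' ∈ Metric.ball s r2, b s' ≠ 0 := fun s' hs' =>
    div_ne_zero (hb2 s' hs').2.2.1.2 (hb2 s' hs').2.2.2
  have hprop' : ∀ s' ∈ Metric.ball s r2, ∀ i, cc (F₁ (g s')) i = b s' * F s' i := by
    intro s' hs' i
    obtain ⟨a, ha⟩ := hprop s' (hb2 s' hs').1 (hb2 s' hs').2.1 (hb2 s' hs').2.2.1.1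
    have h1 : b s' = a := by
      simp only [hb]
      rw [ha i0, mul_div_cancel_right₀ _ (hb2 s' hs').2.2.2]
    rw [h1, ha i]
  have hFd : ∀ i, DifferentiableOn ℂ (fun s' => F s' i) (Metric.ball s r2) := fun i =>
    (differentiableOn_pi.1 hF i).mono (Metric.ball_subset_ball (min_le_right _ _))
  have hfg : ∀ s' ∈ Metric.ball s r2, fmap e q f c j (g s') = q j z := by
    intro s' hs'
    simp only [fmap]
    rw [hsym s' hs', (hh s' (hb2 s' hs').1).1]
  have hΦg : ∀ i, DifferentiableOn ℂ (fun s' => Φ (g s') i) (Metric.ball s r2) := by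
    rintro (i | k)
    · refine ((hFd i).div (hFd i0) fun s' hs' => (hb2 s' hs').2.2.2).congr ?_
      intro s' hs'
      have h0 : F s' i0 ≠ 0 := (hb2 s' hs').2.2.2
      have h1 : b s' ≠ 0 := hb0 s' hs'
      simp only [hΦ, Sum.elim_inl, Pi.div_apply]
      rw [hprop' s' hs' i, hprop' s' hs' i0]
      field_simp
    · refine (differentiableOn_const (cc (q j z) k)).congr ?_
      intro s' hs'
      simp only [hΦ, Sum.elim_inr]
      rw [hfg s' hs']
  obtain ⟨r', hr', hr'2, hgD⟩ := LA.holD_of hSo hgsS hΦh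
    (himm (g s) hgsS (hP.imm (g s) hs2)) hgc rfl hr2p hΦg
  have hsub : Metric.ball s r' ⊆ Metric.ball s r2 := Metric.ball_subset_ball hr'2
  have hbd : DifferentiableOn ℂ b (Metric.ball s r') := by
    refine (LB.holC_holD hSo (LB.holC_mono (NF.holOn_cc hWo hF₁ i0) fun z hz => hz.1)
      Metric.isOpen_ball hgD fun s' hs' => (hb2 s' (hsub hs')).2.2.1).div ((hFd i0).mono hsub)
      fun s' hs' => (hb2 s' (hsub hs')).2.2.2
  have hlev := levz_lift hWo hF₁ hgD (fun s' hs' => (hb2 s' (hsub hs')).2.2.1.1)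
    (hF.mono (hsub.trans (Metric.ball_subset_ball (min_le_right _ _))))
    (fun s' hs' => (hh s' (hb2 s' (hsub hs')).1).2.1) hbd (fun s' hs' => hb0 s' (hsub hs'))
    (fun s' hs' i => hprop' s' (hsub hs') i)
  refine ⟨r', g, hr', hr'2.trans (min_le_right _ _), hgD, fun s' hs' =>
    ⟨hWt (hb2 s' (hsub hs')).2.2.1.1, (hsym s' (hsub hs')).symm⟩, fun s' hs' => ?_⟩
  -- the curve is vertical
  have hv : fderiv ℝ (fmap e q f c j) (g s') (fderiv ℝ g s' 1) = 0 := by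
    have hgS : g s' ∈ fdom e U f c j := hSU (hb2 s' (hsub hs')).2.2.1
    have h1 : HasFDerivAt (fmap e q f c j) (fderiv ℝ (fmap e q f c j) (g s')) (g s') :=
      (NF.diffAt hUo (G.holo c j).1 hgS).hasFDerivAt
    have h2 : HasFDerivAt g (fderiv ℝ g s') s' :=
      (NF.diffAt Metric.isOpen_ball hgD.smooth hs').hasFDerivAt
    have h3 : HasFDerivAt (fun t => fmap e q f c j (g t)) _ s' := h1.comp s' h2
    have h4 : (fun t => fmap e q f c j (g t)) =ᶠ[𝓝 s'] fun _ => q j z := by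
      filter_upwards [Metric.isOpen_ball.mem_nhds hs'] with t ht
      exact hfg t (hsub ht)
    have h5 : HasFDerivAt (fun t => fmap e q f c j (g t)) (0 : ℂ →L[ℝ] Cn N) s' :=
      (hasFDerivAt_const (q j z) s').congr_of_eventuallyEq h4
    have h6 := congrArg (fun A : ℂ →L[ℝ] Cn N => A 1) (h3.unique h5)
    simpa using h6
  have h7 := hP.le (g s') (hb2 s' (hsub hs')).2.2.1.1 _ hv
  rw [← hlev s' hs']
  linarith

/-- a holomorphic curve in the projective space, with values in the image of the fibre over `z`,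
comes from a holomorphic curve in the fibre -/
theorem exists_disc (G : GeoData e U q f ψ) {S : Set Z} {L d : ℕ} {ι : M → ℙ ℂ (Fin (L + 1) → ℂ)}
    (hι : IsProjOver e U q f S ι d) (hS : IsOpen S) {z₀ : Z} (hz₀ : z₀ ∈ S) :
    ∃ (S' : Set Z) (C : ℝ), IsOpen S' ∧ z₀ ∈ S' ∧ S' ⊆ S ∧ 0 < C ∧
      ∀ z ∈ S', ∀ (h : ℂ → M) (F : ℂ → Fin (L + 1) → ℂ) (s : ℂ) (r : ℝ), 0 < r →
        DifferentiableOn ℂ F (Metric.ball s r) →
        (∀ s' ∈ Metric.ball s r, f (h s') = z ∧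
          ∃ h0 : F s' ≠ 0, ι (h s') = Projectivization.mk ℂ (F s') h0) →
        ∃ (r' : ℝ) (c : κ) (g : ℂ → Cn n), 0 < r' ∧ r' ≤ r ∧ HolD g (Metric.ball s r') ∧
          (∀ s' ∈ Metric.ball s r', g s' ∈ (e c).target ∧ h s' = (e c).symm (g s')) ∧
          ∀ s' ∈ Metric.ball s r', 4 * lev (ψ c) (fderiv ℝ g s' 1) (0, g s') ≤
            C * lapC (fun s' => Real.log (nn (F s'))) s' := by
  classical
  obtain ⟨S₁, C₁, hS₁o, hz₁, hS₁, hC₁, hdist⟩ := dist_le G hι hS hz₀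
  -- the packs along the fibre
  have hpack : ∀ p : {p : M // f p = z₀}, ∃ (C : ℝ) (c : κ) (F : Cn n → Cn (L + 1))
      (W : Set (Cn n)) (j : P), p.1 ∈ (e c).source ∧ e c p.1 ∈ W ∧ IsPack e U q f ψ ι C c F W j := by
    rintro ⟨p, hp⟩
    obtain ⟨C, c, F, W, j, h1, h2, h3, h4, h5, h6, h7⟩ := exists_pack G hι hS (p₀ := p)
      (by rw [hp]; exact hz₀)
    exact ⟨C, c, F, W, j, h2, h3, ⟨h1, h4, fun x hx => (h5 x hx).2, h6, h7⟩⟩
  choose Cp cp Fp Wp jp hp1 hp2 hp3 using hpack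
  set O : {p : M // f p = z₀} → Set M := fun p => (e (cp p)).source ∩ (e (cp p)) ⁻¹' (Wp p)
    with hO
  have hOo : ∀ p, IsOpen (O p) := fun p => (e (cp p)).isOpen_inter_preimage (hp3 p).lift.1
  have hcl : IsClosed (f ⁻¹' {z₀}) := isClosed_singleton.preimage G.cont
  obtain ⟨t, ht⟩ := hcl.isCompact.elim_finite_subcover O hOo
    (fun p hp => mem_iUnion.2 ⟨⟨p, hp⟩, hp1 ⟨p, hp⟩, hp2 ⟨p, hp⟩⟩)
  set A : Set M := ⋃ p ∈ t, O p with hA
  have hAo : IsOpen A := isOpen_biUnion fun p _ => hOo p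
  have hK : IsClosed (f '' Aᶜ) := (hAo.isClosed_compl.isCompact.image G.cont).isClosed
  have hzK : z₀ ∉ f '' Aᶜ := by
    rintro ⟨p, hp, hp'⟩
    exact hp (ht hp')
  set C : ℝ := 1 + ∑ p ∈ t, Cp p with hC
  have hCp : ∀ p, 0 < Cp p := fun p => (hp3 p).pos
  have hle : ∀ p ∈ t, Cp p ≤ C := by
    intro p hp
    have h1 := Finset.single_le_sum (f := Cp) (s := t) (fun p _ => (hCp p).le) hp
    rw [hC]
    linarith
  have hC0 : 0 < C := by
    have : 0 ≤ ∑ p ∈ t, Cp p := Finset.sum_nonneg fun p _ => (hCp p).le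
    rw [hC]
    linarith
  refine ⟨S₁ ∩ (f '' Aᶜ)ᶜ, C, hS₁o.inter hK.isOpen_compl, ⟨hz₁, hzK⟩,
    inter_subset_left.trans hS₁, hC0, ?_⟩
  rintro z ⟨hz1, hz2⟩ h F s r hr hF hh
  have hs : s ∈ Metric.ball s r := Metric.mem_ball_self hr
  have hball : Metric.ball s r ∈ 𝓝 s := Metric.isOpen_ball.mem_nhds hs
  have hF0 : ∀ s' ∈ Metric.ball s r, F s' ≠ 0 := fun s' hs' => (hh s' hs').2.1
  -- continuity
  have hc : ContinuousAt h s := by
    rw [ContinuousAt, tendsto_iff_dist_tendsto_zero]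
    set x : ℂ → Fin (L + 1) → ℂ := fun s' => ((‖F s'‖ : ℂ))⁻¹ • F s' with hx
    have hx0 : ∀ s' ∈ Metric.ball s r, ((‖F s'‖ : ℂ))⁻¹ ≠ 0 := fun s' hs' =>
      inv_ne_zero (Complex.ofReal_ne_zero.2 (norm_ne_zero_iff.2 (hF0 s' hs')))
    have hx1 : ∀ s' ∈ Metric.ball s r, x s' ≠ 0 := fun s' hs' =>
      smul_ne_zero (hx0 s' hs') (hF0 s' hs')
    have hxn : ∀ s' ∈ Metric.ball s r, ‖x s'‖ = 1 := by
      intro s' hs'
      have h1 : ‖F s'‖ ≠ 0 := norm_ne_zero_iff.2 (hF0 s' hs')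
      simp only [hx, norm_smul, norm_inv, Complex.norm_real, norm_norm]
      exact inv_mul_cancel₀ h1
    have hxι : ∀ s' (hs' : s' ∈ Metric.ball s r),
        ι (h s') = Projectivization.mk ℂ (x s') (hx1 s' hs') := by
      intro s' hs'
      obtain ⟨h0, h1⟩ := (hh s' hs').2
      rw [h1, Projectivization.mk_eq_mk_iff']
      refine ⟨(‖F s'‖ : ℂ), ?_⟩
      simp only [hx, smul_smul]
      rw [mul_inv_cancel₀ (Complex.ofReal_ne_zero.2 (norm_ne_zero_iff.2 h0)), one_smul]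
    have hFc : ContinuousAt F s := hF.continuousOn.continuousAt hball
    have hxc : ContinuousAt x s := by
      refine ContinuousAt.smul (f := fun s' => ((‖F s'‖ : ℂ))⁻¹) (ContinuousAt.inv₀ ?_ ?_) hFc
      · exact Complex.continuous_ofReal.continuousAt.comp hFc.norm
      · exact Complex.ofReal_ne_zero.2 (norm_ne_zero_iff.2 (hF0 s hs))
    have h1 : Tendsto (fun s' => C₁ * ‖x s' - x s‖) (𝓝 s) (𝓝 0) := by
      have h2 : ContinuousAt (fun s' => C₁ * ‖x s' - x s‖) s :=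
        continuousAt_const.mul (hxc.sub continuousAt_const).norm
      have h3 := h2.tendsto
      simpa using h3
    refine squeeze_zero' (Eventually.of_forall fun _ => dist_nonneg) ?_ h1
    filter_upwards [hball] with s' hs'
    refine hdist (h s') (h s) ?_ ?_ (x s') (x s) (hx1 s' hs') (hx1 s hs) (hxι s' hs') (hxι s hs)
      (hxn s' hs') (hxn s hs)
    · rw [(hh s' hs').1]
      exact hz1
    · rw [(hh s' hs').1, (hh s hs).1]
  -- the pack at `h s`
  have hsA : h s ∈ A := by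
    by_contra hcon
    exact hz2 ⟨h s, hcon, (hh s hs).1⟩
  obtain ⟨p, hp, hpO⟩ := mem_iUnion₂.1 hsA
  obtain ⟨r', g, h1, h2, h3, h4, h5⟩ := disc_of_pack G (hp3 p) hr hF hh hc hpO.1 hpO.2
  refine ⟨r', cp p, g, h1, h2, h3, h4, fun s' hs' => (h5 s' hs').trans ?_⟩
  exact mul_le_mul_of_nonneg_right (hle p hp) (RhoLap.lapC_log_nn_nonneg hF
    (Metric.ball_subset_ball h2 hs') (hF0 s' (Metric.ball_subset_ball h2 hs')))

end

end Pool.Agent.KRFW
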