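import Pool.Agent.Work.MP_a2bf38_gt.W.Defs

/-!
# Tuples of points from a Galois covering
-/

open MvPolynomial

namespace Pool.Agent.KRFW

universe u v

/-- a point of the base of an integral extension extends -/
theorem exists_extend {K : Type*} [Field K] [IsAlgClosed K] {A B : Type*} [CommRing A] [CommRing B]
    [Algebra A B] [Algebra.IsIntegral A B] (hinj : Function.Injective (algebraMap A B))
    (φ : A →+* K) (hφ : Function.Surjective φ) :
    ∃ π : B →+* K, ∀ a, π (algebraMap A B a) = φ a := by
  have hm : (RingHom.ker φ).IsMaximal := RingHom.ker_isMaximal_of_surjective φ hφ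
  obtain ⟨Q, hQm, hQ⟩ := Ideal.exists_ideal_over_maximal_of_isIntegral (S := B) (RingHom.ker φ) (by
    rw [(RingHom.injective_iff_ker_eq_bot _).1 hinj]
    exact bot_le)
  set j : K →+* B ⧸ Q := (Ideal.quotientMap Q (algebraMap A B) hQ.ge).comp
    (RingHom.quotientKerEquivOfSurjective hφ).symm.toRingHom with hj
  have hjφ : ∀ a, j (φ a) = Ideal.Quotient.mk Q (algebraMap A B a) := by
    intro a
    have h1 : (RingHom.quotientKerEquivOfSurjective hφ).symm (φ a) =
        Ideal.Quotient.mk (RingHom.ker φ) a := by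
      rw [RingEquiv.symm_apply_eq]
      rfl
    rw [hj]
    simp only [RingHom.comp_apply, RingEquiv.toRingHom_eq_coe, RingHom.coe_coe, h1]
    exact Ideal.quotientMap_mk
  have hji : j.IsIntegral := by
    intro b
    obtain ⟨b, rfl⟩ := Ideal.Quotient.mk_surjective b
    obtain ⟨p, hp, hp0⟩ := Algebra.IsIntegral.isIntegral (R := A) b
    refine ⟨p.map φ, hp.map _, ?_⟩
    rw [Polynomial.eval₂_map]
    have : j.comp φ = (Ideal.Quotient.mk Q).comp (algebraMap A B) := RingHom.ext hjφ
    rw [this, ← Polynomial.hom_eval₂, hp0, map_zero]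
  have hjb : Function.Bijective j := IsAlgClosed.ringHom_bijective_of_isIntegral j hji
  refine ⟨(RingEquiv.ofBijective j hjb).symm.toRingHom.comp (Ideal.Quotient.mk Q), fun a => ?_⟩
  simp only [RingHom.comp_apply, RingEquiv.toRingHom_eq_coe, RingHom.coe_coe]
  rw [RingEquiv.symm_apply_eq, ← hjφ]
  rfl

/-- The polynomial `∏_g (T - ∑ u_j g (x_j))` has coefficients in the ring of invariants. -/
theorem exists_norm_form {K : Type*} [Field K] {k : ℕ} {σ : Type} [Fintype σ] {B : Type*}
    [CommRing B] [Algebra (MvPolynomial (Fin k) K) B] (x : σ → B) (G : Type*) [Group G] [Fintype G]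
    [MulSemiringAction G B] [Algebra.IsInvariant (MvPolynomial (Fin k) K) B G] :
    ∃ Φ : MvPolynomial (Ix k σ) K, ∀ (π : B →+* K) (w : Fin k → K),
      (∀ s, π (algebraMap (MvPolynomial (Fin k) K) B s) = eval w s) → ∀ u T,
        eval (pt w u T) Φ = ∏ g : G, (T - ∑ j, u j * π (g • x j)) := by
  classical
  set P : MvPolynomial (σ ⊕ Unit) B :=
    ∏ g : G, (X (Sum.inr ()) - ∑ j, C (g • x j) * X (Sum.inl j)) with hP
  have hinv : ∀ h : G, map (MulSemiringAction.toRingHom G B h) P = P := by
    intro h
    rw [hP, map_prod]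
    refine Fintype.prod_equiv (Equiv.mulLeft h) _ _ fun g => ?_
    simp [mul_smul]
  have hcoeff : ∀ m, ∃ s, algebraMap (MvPolynomial (Fin k) K) B s = coeff m P := by
    intro m
    refine Algebra.IsInvariant.isInvariant (G := G) _ fun h => ?_
    conv_rhs => rw [← hinv h]
    rw [coeff_map]
    rfl
  choose s hs using hcoeff
  set P₀ : MvPolynomial (σ ⊕ Unit) (MvPolynomial (Fin k) K) :=
    ∑ m ∈ P.support, monomial m (s m) with hP₀
  have hmap : map (algebraMap (MvPolynomial (Fin k) K) B) P₀ = P := by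
    rw [hP₀, map_sum]
    conv_rhs => rw [P.as_sum]
    refine Finset.sum_congr rfl fun m _ => ?_
    rw [map_monomial, hs]
  refine ⟨P₀.eval₂ (rename Sum.inl : MvPolynomial (Fin k) K →ₐ[K] MvPolynomial (Ix k σ) K).toRingHom
    (fun i => X (Sum.inr i)), fun π w hπ u T => ?_⟩
  have h1 : eval (pt w u T) (P₀.eval₂ (rename Sum.inl : MvPolynomial (Fin k) K →ₐ[K]
      MvPolynomial (Ix k σ) K).toRingHom (fun i => X (Sum.inr i))) =
      P₀.eval₂ (eval w) (Sum.elim u fun _ => T) := by
    have h2 := MvPolynomial.eval₂_comp_left (eval (pt w u T))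
      (rename Sum.inl : MvPolynomial (Fin k) K →ₐ[K] MvPolynomial (Ix k σ) K).toRingHom
      (fun i : σ ⊕ Unit => X (Sum.inr i)) P₀
    rw [h2]
    congr 1
    · refine MvPolynomial.ringHom_ext (fun q => ?_) fun i => ?_
      · simp
      · simp [pt]
    · funext i
      simp [pt]
  rw [h1]
  have h3 : (eval w : MvPolynomial (Fin k) K →+* K) =
      π.comp (algebraMap (MvPolynomial (Fin k) K) B) := RingHom.ext fun s => (hπ s).symm
  rw [h3, ← MvPolynomial.eval₂_map, hmap, hP, ← MvPolynomial.coe_eval₂Hom, map_prod]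
  refine Finset.prod_congr rfl fun g _ => ?_
  simp [mul_comm]

/-- the integral closure of `K[w]` in a finite Galois extension which contains `B` -/
theorem exists_galois {K : Type u} [Field K] [CharZero K] {k : ℕ} {σ : Type} [Fintype σ]
    {B : Type v} [CommRing B] [IsDomain B] [Algebra K B] [Algebra (MvPolynomial (Fin k) K) B]
    [IsScalarTower K (MvPolynomial (Fin k) K) B]
    (x : σ → B) (hgen : Algebra.adjoin K (Set.range x) = ⊤)
    (hinj : Function.Injective (algebraMap (MvPolynomial (Fin k) K) B))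
    (hint : ∀ j, IsIntegral (MvPolynomial (Fin k) K) (x j)) :
    ∃ (B' : Type u) (_ : CommRing B') (_ : Algebra (MvPolynomial (Fin k) K) B')
      (_ : Fintype (B' ≃ₐ[MvPolynomial (Fin k) K] B')) (f : B →ₐ[MvPolynomial (Fin k) K] B'),
      Algebra.IsIntegral (MvPolynomial (Fin k) K) B' ∧
      Function.Injective (algebraMap (MvPolynomial (Fin k) K) B') ∧ Function.Injective f ∧
      Algebra.IsInvariant (MvPolynomial (Fin k) K) B' (B' ≃ₐ[MvPolynomial (Fin k) K] B') := by
  classical
  set S := MvPolynomial (Fin k) K with hS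
  have hBint : Algebra.IsIntegral S B := by
    have h1 : Algebra.adjoin S (Set.range x) = ⊤ := by
      rw [eq_top_iff]
      intro b hb'
      clear hb'
      have hb : b ∈ Algebra.adjoin K (Set.range x) := by rw [hgen]; exact Algebra.mem_top
      induction hb using Algebra.adjoin_induction with
      | mem b hb => exact Algebra.subset_adjoin hb
      | algebraMap c =>
        rw [IsScalarTower.algebraMap_apply K S B]
        exact Subalgebra.algebraMap_mem _ _
      | add a b _ _ ha hb => exact add_mem ha hb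
      | mul a b _ _ ha hb => exact mul_mem ha hb
    have h2 : (⊤ : Subalgebra S B) ≤ integralClosure S B := by
      rw [← h1]
      refine Algebra.adjoin_le ?_
      rintro _ ⟨j, rfl⟩
      exact hint j
    exact ⟨fun b => h2 Algebra.mem_top⟩
  let E := FractionRing S
  let Ω := AlgebraicClosure E
  have hfaith : FaithfulSMul S B := by
    rw [faithfulSMul_iff_algebraMap_injective]; exact hinj
  have htf : Module.IsTorsionFree S B := inferInstance
  have hfaithΩ : FaithfulSMul S Ω := by
    rw [faithfulSMul_iff_algebraMap_injective, IsScalarTower.algebraMap_eq S E Ω]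
    exact (algebraMap E Ω).injective.comp (IsFractionRing.injective S E)
  have htfΩ : Module.IsTorsionFree S Ω := inferInstance
  let f₀ : B →ₐ[S] Ω := IsAlgClosed.lift
  have hf₀ : Function.Injective f₀ := by
    have : RingHom.ker (f₀ : B →+* Ω) = ⊥ := by
      refine Ideal.eq_bot_of_comap_eq_bot (R := S) ?_
      rw [eq_bot_iff]
      intro s hs
      have h1 : f₀ (algebraMap S B s) = 0 := hs
      rw [f₀.commutes] at h1
      exact (FaithfulSMul.algebraMap_injective S Ω) (by rw [h1, map_zero])
    exact (RingHom.injective_iff_ker_eq_bot _).2 this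
  let F := IntermediateField.adjoin E (Set.range fun j => f₀ (x j))
  have hFfin : FiniteDimensional E F := by
    refine IntermediateField.finiteDimensional_adjoin ?_
    rintro _ ⟨j, rfl⟩
    exact ((hint j).map f₀).tower_top
  let N := IntermediateField.normalClosure E F Ω
  have hNfin : FiniteDimensional E N := inferInstance
  have hNn : Normal E N := inferInstance
  have hE0 : CharZero E := by
    have : CharZero S := charZero_of_injective_algebraMap (C_injective (Fin k) K)
    exact charZero_of_injective_algebraMap (IsFractionRing.injective S E)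
  have hNg : IsGalois E N := ⟨⟩
  have hFN : F ≤ N := IntermediateField.le_normalClosure F
  have hf₀N : ∀ b, f₀ b ∈ N := by
    intro b
    have hb : b ∈ Algebra.adjoin K (Set.range x) := by rw [hgen]; exact Algebra.mem_top
    induction hb using Algebra.adjoin_induction with
    | mem b hb =>
      obtain ⟨j, rfl⟩ := hb
      exact hFN (IntermediateField.subset_adjoin _ _ ⟨j, rfl⟩)
    | algebraMap c =>
      rw [IsScalarTower.algebraMap_apply K S B, f₀.commutes, IsScalarTower.algebraMap_apply S E Ω]
      exact N.algebraMap_mem _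
    | add a b _ _ ha hb => rw [map_add]; exact N.add_mem ha hb
    | mul a b _ _ ha hb => rw [map_mul]; exact N.mul_mem ha hb
  let f₁ : B →ₐ[S] N := f₀.codRestrict ((N.toSubalgebra).restrictScalars S) hf₀N
  have hf₁ : Function.Injective f₁ := by
    intro a b hab
    exact hf₀ (congrArg Subtype.val hab)
  let B' := integralClosure S N
  let f : B →ₐ[S] B' := f₁.codRestrict B' fun b => (Algebra.IsIntegral.isIntegral b).map f₁
  have hf : Function.Injective f := by
    intro a b hab
    exact hf₁ (congrArg Subtype.val hab)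
  have hfr : IsFractionRing B' N := integralClosure.isFractionRing_of_finite_extension E N
  have hinvt : Algebra.IsInvariant S B' (B' ≃ₐ[S] B') := Algebra.isInvariant_of_isGalois' S E N B'
  have hfin : Finite (B' ≃ₐ[S] B') :=
    Finite.of_equiv Gal(N/E) (galRestrict S E N B').toEquiv
  refine ⟨B', inferInstance, inferInstance, Fintype.ofFinite _, f, inferInstance, ?_, hf, hinvt⟩
  intro a b hab
  have := congrArg (fun c : B' => ((c : N) : Ω)) hab
  exact FaithfulSMul.algebraMap_injective S Ω this

/-- **Tuples of points over the base.** -/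
theorem exists_tup {K : Type*} [Field K] [IsAlgClosed K] [CharZero K] {k : ℕ} {σ : Type}
    [Fintype σ] {B : Type*} [CommRing B] [IsDomain B] [Algebra K B] (x : σ → B) (y : Fin k → B)
    (hgen : Algebra.adjoin K (Set.range x) = ⊤)
    (hinj : Function.Injective (aeval y : MvPolynomial (Fin k) K →ₐ[K] B))
    (hint : ∀ j, (aeval y : MvPolynomial (Fin k) K →ₐ[K] B).toRingHom.IsIntegralElem (x j)) :
    ∃ (D : ℕ) (Φ : MvPolynomial (Ix k σ) K),
      (∀ w : Fin k → K, ∃ ψ : Fin D → B →ₐ[K] K, (∀ m i, ψ m (y i) = w i) ∧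
        ∀ u T, eval (pt w u T) Φ = ∏ m, (T - ∑ j, u j * ψ m (x j))) ∧
      ∀ ψ₀ : B →ₐ[K] K, ∃ ψ : Fin D → B →ₐ[K] K, (∀ m i, ψ m (y i) = ψ₀ (y i)) ∧
        (∃ m, ψ m = ψ₀) ∧
        ∀ u T, eval (pt (fun i => ψ₀ (y i)) u T) Φ = ∏ m, (T - ∑ j, u j * ψ m (x j)) := by
  classical
  let _ : Algebra (MvPolynomial (Fin k) K) B :=
    (aeval y : MvPolynomial (Fin k) K →ₐ[K] B).toRingHom.toAlgebra
  have halg : ∀ s, algebraMap (MvPolynomial (Fin k) K) B s = aeval y s := fun _ => rfl
  have htow : IsScalarTower K (MvPolynomial (Fin k) K) B :=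
    IsScalarTower.of_algebraMap_eq fun c => by
      rw [halg]
      simp
  obtain ⟨B', _, _, _, f, hB'int, hB'inj, hf, hinv⟩ := exists_galois x hgen hinj hint
  obtain ⟨Φ, hΦ⟩ := exists_norm_form (K := K) (k := k) (fun j => f (x j)) (B' ≃ₐ[MvPolynomial (Fin k) K] B')
  let en : Fin (Fintype.card (B' ≃ₐ[MvPolynomial (Fin k) K] B')) ≃
    (B' ≃ₐ[MvPolynomial (Fin k) K] B') := (Fintype.equivFin _).symm
  -- the points of `B` from a point of `B'`
  have key : ∀ (π : B' →+* K) (w : Fin k → K),
      (∀ s, π (algebraMap (MvPolynomial (Fin k) K) B' s) = eval w s) →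
      ∃ ψ : (B' ≃ₐ[MvPolynomial (Fin k) K] B') → B →ₐ[K] K, (∀ g b, ψ g b = π (g (f b))) ∧
        (∀ g i, ψ g (y i) = w i) ∧
        ∀ u T, eval (pt w u T) Φ = ∏ m, (T - ∑ j, u j * ψ (en m) (x j)) := by
    intro π w hπ
    refine ⟨fun g => { (π.comp (g : B' →+* B')).comp (f : B →+* B') with
      commutes' := fun c => ?_ }, fun g b => rfl, fun g i => ?_, fun u T => ?_⟩
    · change π (g (f (algebraMap K B c))) = _
      rw [IsScalarTower.algebraMap_apply K (MvPolynomial (Fin k) K) B, f.commutes, g.commutes, hπ]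
      simp
    · change π (g (f (y i))) = _
      have : y i = algebraMap (MvPolynomial (Fin k) K) B (X i) := by rw [halg, aeval_X]
      rw [this, f.commutes, g.commutes, hπ, eval_X]
    · rw [hΦ π w hπ u T]
      exact (Fintype.prod_equiv en _ _ fun m => rfl).symm
  refine ⟨Fintype.card (B' ≃ₐ[MvPolynomial (Fin k) K] B'), Φ, fun w => ?_, fun ψ₀ => ?_⟩
  · obtain ⟨π, hπ⟩ := exists_extend hB'inj (eval w) fun c => ⟨C c, by simp⟩
    obtain ⟨ψ, -, hψ2, hψ3⟩ := key π w hπ
    exact ⟨fun m => ψ (en m), fun m i => hψ2 _ i, hψ3⟩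
  · let _ : Algebra B B' := f.toRingHom.toAlgebra
    have hint' : Algebra.IsIntegral B B' := by
      have : IsScalarTower (MvPolynomial (Fin k) K) B B' :=
        IsScalarTower.of_algebraMap_eq fun s => (f.commutes s).symm
      exact Algebra.IsIntegral.tower_top (MvPolynomial (Fin k) K)
    obtain ⟨π, hπ⟩ := exists_extend (A := B) (B := B') hf (ψ₀ : B →+* K)
      fun c => ⟨algebraMap K B c, by simp⟩
    have hπ' : ∀ b, π (f b) = ψ₀ b := hπ
    have hev : ∀ s, π (algebraMap (MvPolynomial (Fin k) K) B' s) = eval (fun i => ψ₀ (y i)) s := by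
      intro s
      rw [← f.commutes, hπ', halg]
      induction s using MvPolynomial.induction_on with
      | C a => simp
      | add p q hp hq => rw [map_add, map_add, map_add, hp, hq]
      | mul_X p i hp => rw [map_mul, map_mul, map_mul, hp, aeval_X, eval_X]
    obtain ⟨ψ, hψ1, hψ2, hψ3⟩ := key π _ hev
    refine ⟨fun m => ψ (en m), fun m i => hψ2 _ i, ⟨en.symm 1, ?_⟩, hψ3⟩
    apply AlgHom.ext
    intro b
    rw [hψ1, Equiv.apply_symm_apply]
    exact hπ' b

end Pool.Agent.KRFW
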