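import Pool.Agent.Work.MP_a2bf38_gt.W.Defs

/-!
# Linear forms with integral coefficients over which a homogeneous ideal is integral

`O` is a valuation ring of `K` with infinite residue field.  Among the families of linear forms with
coefficients in `O` over which all variables are integral (modulo `𝔭`) take one with the smallest number of
forms.  A relation modulo `𝔭` between the forms can be taken homogeneous with coefficients in `O`, one
of them `1`; it has an invertible value at some vector `v`, one coordinate of `v` is invertible, and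
one of the forms can be eliminated.
-/

open MvPolynomial

namespace Pool.Agent.KRFW

namespace LiftP

/-! ### The leading coefficient of `P (a + c Y)` -/

theorem coeff_prod_pow {R ι : Type*} [CommRing R] (s : Finset ι) (a c : ι → R) (e : ι → ℕ) :
    (∏ i ∈ s, (Polynomial.C (a i) + Polynomial.C (c i) * Polynomial.X) ^ e i).natDegree ≤
        ∑ i ∈ s, e i ∧
      (∏ i ∈ s, (Polynomial.C (a i) + Polynomial.C (c i) * Polynomial.X) ^ e i).coeff
        (∑ i ∈ s, e i) = ∏ i ∈ s, c i ^ e i := by
  classical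
  induction s using Finset.induction_on with
  | empty => simp
  | insert i s hi ih =>
    have h1 : (Polynomial.C (a i) + Polynomial.C (c i) * Polynomial.X).natDegree ≤ 1 := by
      refine (Polynomial.natDegree_add_le _ _).trans (max_le ?_ ?_)
      · rw [Polynomial.natDegree_C]
        exact Nat.zero_le _
      · exact (Polynomial.natDegree_C_mul_le _ _).trans Polynomial.natDegree_X_le
    have h2 : ((Polynomial.C (a i) + Polynomial.C (c i) * Polynomial.X) ^ e i).natDegree ≤ e i := by
      have := Polynomial.natDegree_pow_le_of_le (e i) h1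
      simpa using this
    have h3 : ((Polynomial.C (a i) + Polynomial.C (c i) * Polynomial.X) ^ e i).coeff (e i) =
        c i ^ e i := by
      have := Polynomial.coeff_pow_of_natDegree_le (m := e i) h1
      rw [mul_one] at this
      rw [this]
      simp
    rw [Finset.prod_insert hi, Finset.sum_insert hi, Finset.prod_insert hi]
    refine ⟨(Polynomial.natDegree_mul_le).trans (add_le_add h2 ih.1), ?_⟩
    rw [Polynomial.coeff_mul_add_eq_of_natDegree_le h2 ih.1, h3, ih.2]

theorem coeff_line {R σ : Type*} [CommRing R] [Fintype σ] (P : MvPolynomial σ R) {d : ℕ}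
    (hP : P.IsHomogeneous d) (a c : σ → R) :
    (aeval (fun i => Polynomial.C (a i) + Polynomial.C (c i) * Polynomial.X) P :
      Polynomial R).natDegree ≤ d ∧
    (aeval (fun i => Polynomial.C (a i) + Polynomial.C (c i) * Polynomial.X) P :
      Polynomial R).coeff d = eval c P := by
  have h1 : (aeval (fun i => Polynomial.C (a i) + Polynomial.C (c i) * Polynomial.X) P :
      Polynomial R) = ∑ s ∈ P.support, Polynomial.C (coeff s P) *
        ∏ i, (Polynomial.C (a i) + Polynomial.C (c i) * Polynomial.X) ^ s i := by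
    rw [aeval_def, eval₂_eq']
    rfl
  have h2 : ∀ s ∈ P.support, ∑ i, s i = d := by
    intro s hs
    have := hP (mem_support_iff.1 hs)
    rw [Finsupp.weight_apply, Finsupp.sum_fintype] at this
    · simpa using this
    · simp
  rw [h1]
  constructor
  · refine Polynomial.natDegree_sum_le_of_forall_le _ _ fun s hs => ?_
    refine (Polynomial.natDegree_C_mul_le _ _).trans ?_
    rw [← h2 s hs]
    exact (coeff_prod_pow _ _ _ _).1
  · rw [Polynomial.finsetSum_coeff, eval_eq']
    refine Finset.sum_congr rfl fun s hs => ?_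
    rw [Polynomial.coeff_C_mul]
    congr 1
    have := (coeff_prod_pow Finset.univ a c s).2
    rw [h2 s hs] at this
    exact this

theorem eval_smul_of_homogeneous {R σ : Type*} [CommRing R] [Fintype σ] {Q : MvPolynomial σ R}
    {d : ℕ} (hQ : Q.IsHomogeneous d) (t : R) (x : σ → R) :
    eval (fun i => t * x i) Q = t ^ d * eval x Q := by
  rw [eval_eq', eval_eq', Finset.mul_sum]
  refine Finset.sum_congr rfl fun s hs => ?_
  have h2 : ∑ i, s i = d := by
    have := hQ (mem_support_iff.1 hs)
    rw [Finsupp.weight_apply, Finsupp.sum_fintype] at this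
    · simpa using this
    · simp
  simp only [mul_pow, Finset.prod_mul_distrib, Finset.prod_pow_eq_pow_sum]
  rw [h2]
  ring

/-! ### Integrality is transitive -/

theorem int_trans {R A : Type*} [CommRing R] [CommRing A] [Algebra R A] {s t : Set A} {x : A}
    (h1 : ∀ a ∈ s, IsIntegral (Algebra.adjoin R t) a) (h2 : IsIntegral (Algebra.adjoin R s) x) :
    IsIntegral (Algebra.adjoin R t) x := by
  set S' := Algebra.adjoin R t with hS'
  set T : Subalgebra S' A := integralClosure S' A with hT
  have hle : Algebra.adjoin R s ≤ T.restrictScalars R := Algebra.adjoin_le fun a ha => h1 a ha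
  obtain ⟨p, hp, hpx⟩ := h2
  set f : Algebra.adjoin R s →+* T :=
    ((Algebra.adjoin R s).val.toRingHom).codRestrict T.toSubsemiring (fun a => hle a.2) with hf
  have h3 : IsIntegral T x := by
    refine ⟨p.map f, hp.map f, ?_⟩
    rw [Polynomial.eval₂_map]
    exact hpx
  have : Algebra.IsIntegral S' T := ⟨fun a => by
    have h4 : IsIntegral S' (a : A) := a.2
    exact (isIntegral_algHom_iff T.val Subtype.val_injective).1 h4⟩
  exact isIntegral_trans (R := S') (A := T) x h3

/-! ### Content and values -/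

section Val

variable {K : Type*} [Field K] {O : ValuationSubring K}

theorem exists_content {σ : Type*} (P : MvPolynomial σ K) (hP : P ≠ 0) :
    ∃ (a : K) (Q : MvPolynomial σ O), a ≠ 0 ∧ map (algebraMap O K) Q = C a * P ∧
      ∃ s, coeff s Q = 1 := by
  have hne : P.support.Nonempty := by
    rw [Finset.nonempty_iff_ne_empty, Ne, support_eq_empty]
    exact hP
  obtain ⟨s₀, hs₀, hmax⟩ := P.support.exists_max_image (fun s => O.valuation (coeff s P)) hne
  have hc : coeff s₀ P ≠ 0 := mem_support_iff.1 hs₀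
  have hmem : ∀ s, coeff s (C (coeff s₀ P)⁻¹ * P) ∈ O := by
    intro s
    rw [coeff_C_mul, ← O.valuation_le_one_iff, map_mul, map_inv₀]
    by_cases hs : s ∈ P.support
    · have h1 := hmax s hs
      have h2 : O.valuation (coeff s₀ P) ≠ 0 := (Valuation.ne_zero_iff _).2 hc
      rw [inv_mul_le_iff₀ (zero_lt_iff.2 h2), mul_one]
      exact h1
    · rw [notMem_support_iff.1 hs, map_zero, mul_zero]
      exact zero_le_one
  obtain ⟨Q, hQ⟩ : C (coeff s₀ P)⁻¹ * P ∈ Set.range (map (algebraMap O K)) := by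
    rw [mem_range_map_iff_coeffs_subset]
    intro x hx
    obtain ⟨s, -, rfl⟩ := mem_coeffs_iff.1 (Finset.mem_coe.1 hx)
    exact ⟨⟨_, hmem s⟩, rfl⟩
  refine ⟨(coeff s₀ P)⁻¹, Q, inv_ne_zero hc, hQ, s₀, ?_⟩
  have h3 : algebraMap O K (coeff s₀ Q) = 1 := by
    rw [← coeff_map, hQ, coeff_C_mul, inv_mul_cancel₀ hc]
  exact Subtype.ext (by simpa using h3)

theorem exists_unit [Infinite (IsLocalRing.ResidueField O)] {σ : Type*} (Q : MvPolynomial σ O)
    {s : σ →₀ ℕ} (hs : coeff s Q = 1) : ∃ v : σ → O, IsUnit (eval v Q) := by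
  by_contra hcon
  push Not at hcon
  have h1 : map (IsLocalRing.residue O) Q = 0 := by
    refine MvPolynomial.funext fun x => ?_
    have h2 : ∀ i, ∃ c, IsLocalRing.residue O c = x i := fun i => IsLocalRing.residue_surjective _
    choose v hv using h2
    have h3 : x = fun i => IsLocalRing.residue O (v i) := by
      funext i
      exact (hv i).symm
    have h5 := eval₂_comp_left (IsLocalRing.residue O) (RingHom.id O) v Q
    rw [RingHom.comp_id] at h5
    rw [h3, map_zero, eval_map]
    refine h5.symm.trans ?_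
    rw [IsLocalRing.residue_eq_zero_iff, IsLocalRing.mem_maximalIdeal, mem_nonunits_iff]
    exact hcon v
  have h4 : coeff s (map (IsLocalRing.residue O) Q) = 1 := by
    rw [coeff_map, hs, map_one]
  rw [h1, coeff_zero] at h4
  exact zero_ne_one h4

/-- **The induction step**: a homogeneous relation between the `u i` makes one of them, `u i₀`,
integral over the algebra generated by the `u i - c i u i₀`. -/
theorem step [Infinite (IsLocalRing.ResidueField O)] {σ A : Type*} [Fintype σ] [CommRing A]
    [Algebra K A] (u : σ → A) {P : MvPolynomial σ K} {d : ℕ} (hd : d ≠ 0)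
    (hP : P.IsHomogeneous d) (hP0 : P ≠ 0) (h : aeval u P = 0) :
    ∃ (i₀ : σ) (c : σ → O), c i₀ = 1 ∧
      IsIntegral (Algebra.adjoin O (Set.range fun i => u i - c i • u i₀)) (u i₀) := by
  obtain ⟨a, Q, ha, hQ, s₀, hs₀⟩ := exists_content (O := O) P hP0
  obtain ⟨v, hv⟩ := exists_unit Q hs₀
  have hQd : Q.IsHomogeneous d := by
    intro s hs
    refine hP (d := s) ?_
    intro h0
    apply hs
    have h1 : algebraMap O K (coeff s Q) = 0 := by
      rw [← coeff_map, hQ, coeff_C_mul, h0, mul_zero]
    exact Subtype.ext (by simpa using h1)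
  obtain ⟨i₀, hi₀⟩ : ∃ i, IsUnit (v i) := by
    by_contra hcon
    push Not at hcon
    have h0 : ∀ i, IsLocalRing.residue O (v i) = 0 := fun i => by
      rw [IsLocalRing.residue_eq_zero_iff, IsLocalRing.mem_maximalIdeal, mem_nonunits_iff]
      exact hcon i
    have h1 : IsLocalRing.residue O (eval v Q) = 0 := by
      have h5 := eval₂_comp_left (IsLocalRing.residue O) (RingHom.id O) v Q
      have h6 := eval_smul_of_homogeneous (hQd.map (IsLocalRing.residue O)) 0 0
      rw [zero_pow hd, zero_mul] at h6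
      rw [RingHom.comp_id] at h5
      refine h5.trans ?_
      rw [← eval_map, ← h6]
      congr 2
      funext i
      rw [Function.comp_apply, h0 i, zero_mul]
    exact (IsUnit.map (IsLocalRing.residue O) hv).ne_zero h1
  obtain ⟨e, he⟩ := hi₀
  set c : σ → O := fun i => ↑e⁻¹ * v i with hc
  have hcu : IsUnit (eval c Q) := by
    rw [hc, eval_smul_of_homogeneous hQd]
    exact (IsUnit.pow d (Units.isUnit _)).mul hv
  refine ⟨i₀, c, ?_, ?_⟩
  · rw [hc]
    simp only []
    rw [← he, Units.inv_mul]
  set S := Algebra.adjoin O (Set.range fun i => u i - c i • u i₀) with hS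
  have hmem : ∀ i, u i - c i • u i₀ ∈ S := fun i => Algebra.subset_adjoin ⟨i, rfl⟩
  set w : σ → S := fun i => ⟨_, hmem i⟩ with hw
  obtain ⟨ε, hε⟩ := hcu
  -- the polynomial
  have hline := coeff_line (map (algebraMap O S) Q) (hQd.map _) w
    (fun i => algebraMap O S (c i))
  set F : Polynomial S := aeval (fun i => Polynomial.C (w i) +
    Polynomial.C (algebraMap O S (c i)) * Polynomial.X) (map (algebraMap O S) Q) with hF
  have hlead : F.coeff d = algebraMap O S ε := by
    rw [hline.2, hε, eval_map]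
    exact (eval₂_comp_left (algebraMap O S) (RingHom.id O) c Q).symm
  have hroot : Polynomial.aeval (u i₀) F = 0 := by
    have h1 : Polynomial.aeval (u i₀) F = aeval u (map (algebraMap O S) Q) := by
      rw [hF]
      have h2 : (Polynomial.aeval (R := S) (u i₀)).comp (aeval (fun i => Polynomial.C (w i) +
          Polynomial.C (algebraMap O S (c i)) * Polynomial.X)) = (aeval u : MvPolynomial σ S →ₐ[S] A) := by
        refine MvPolynomial.algHom_ext fun i => ?_
        rw [AlgHom.comp_apply, aeval_X, aeval_X, map_add, map_mul, Polynomial.aeval_C,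
          Polynomial.aeval_C, Polynomial.aeval_X]
        have h3 : algebraMap S A (w i) = u i - c i • u i₀ := rfl
        have h4 : algebraMap S A (algebraMap O S (c i)) * u i₀ = c i • u i₀ := by
          rw [← IsScalarTower.algebraMap_apply, Algebra.smul_def]
        rw [h3, h4, sub_add_cancel]
      exact DFunLike.congr_fun h2 _
    rw [h1, aeval_def, eval₂_map, ← IsScalarTower.algebraMap_eq]
    have h5 : eval₂ (algebraMap O A) u Q = aeval u (map (algebraMap O K) Q) := by
      rw [aeval_def, eval₂_map]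
      rfl
    rw [h5, hQ, map_mul, h, mul_zero]
  refine ⟨Polynomial.C (algebraMap O S ↑ε⁻¹) * F, ?_, ?_⟩
  · refine Polynomial.monic_of_natDegree_le_of_coeff_eq_one d ?_ ?_
    · exact (Polynomial.natDegree_C_mul_le _ _).trans hline.1
    · rw [Polynomial.coeff_C_mul, hlead, ← map_mul, Units.inv_mul, map_one]
  · rw [← Polynomial.aeval_def, map_mul, hroot, mul_zero]

end Val

/-! ### Homogeneous relations -/

theorem isHomogeneous_lin {R : Type*} [CommRing R] {σ : Type} [Fintype σ] (a : σ → R) :
    (lin a).IsHomogeneous 1 := by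
  rw [lin]
  refine IsHomogeneous.sum _ _ _ fun j _ => ?_
  have := (isHomogeneous_C σ (a j)).mul (isHomogeneous_X R j)
  rwa [zero_add] at this

theorem aeval_component {R ι : Type*} [CommRing R] {σ : Type} (g : ι → MvPolynomial σ R)
    (hg : ∀ i, (g i).IsHomogeneous 1) (G : MvPolynomial ι R) (n : ℕ) :
    aeval g (homogeneousComponent n G) = homogeneousComponent n (aeval g G) := by
  have hh : ∀ m, (aeval g (homogeneousComponent m G)).IsHomogeneous m := by
    intro m
    have := (homogeneousComponent_isHomogeneous m G).aeval g hg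
    rwa [one_mul] at this
  have h1 : aeval g G = ∑ m ∈ Finset.range (G.totalDegree + 1),
      aeval g (homogeneousComponent m G) := by
    rw [← map_sum, sum_homogeneousComponent]
  rw [h1, map_sum]
  by_cases hn : n < G.totalDegree + 1
  · rw [Finset.sum_eq_single n]
    · rw [homogeneousComponent_of_mem (hh n), if_pos rfl]
    · intro m _ hm
      rw [homogeneousComponent_of_mem (hh m), if_neg (Ne.symm hm)]
    · intro hcon
      exact absurd (Finset.mem_range.2 hn) hcon
  · rw [homogeneousComponent_eq_zero n G (by omega), map_zero]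
    symm
    refine Finset.sum_eq_zero fun m hm => ?_
    rw [homogeneousComponent_of_mem (hh m), if_neg]
    have := Finset.mem_range.1 hm
    omega

/-! ### The classes of the linear forms -/

section Cls

variable {K : Type*} [Field K] {O : ValuationSubring K} {σ : Type} [Fintype σ]

/-- the classes of the linear forms -/
noncomputable def cls (𝔭 : Ideal (MvPolynomial σ K)) {k : ℕ} (ℓ : Fin k → σ → O) (i : Fin k) :
    MvPolynomial σ K ⧸ 𝔭 := Ideal.Quotient.mk 𝔭 (lin fun j => (ℓ i j : K))

theorem lin_single [DecidableEq σ] (a : σ) :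
    lin (fun j => (((if a = j then 1 else 0 : O)) : K)) = X a := by
  rw [lin, Finset.sum_eq_single a]
  · simp
  · intro b _ hb
    simp [Ne.symm hb]
  · intro h
    exact absurd (Finset.mem_univ a) h

theorem lin_sub (a b : σ → O) (c : O) :
    lin (fun j => ((a j - c * b j : O) : K)) =
      lin (fun j => (a j : K)) - (c : K) • lin (fun j => (b j : K)) := by
  rw [lin, lin, lin, Finset.smul_sum, ← Finset.sum_sub_distrib]
  refine Finset.sum_congr rfl fun j _ => ?_
  have h1 : ((a j - c * b j : O) : K) = (a j : K) - (c : K) * (b j : K) := rfl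
  rw [h1, C_sub, C_mul, smul_eq_C_mul]
  ring

theorem exists_poly (𝔭 : Ideal (MvPolynomial σ K)) {k : ℕ} (ℓ : Fin k → σ → O) {j : σ}
    (h : IsIntegral (Algebra.adjoin O (Set.range (cls 𝔭 ℓ))) (Ideal.Quotient.mk 𝔭 (X j))) :
    ∃ q : Polynomial (MvPolynomial (Fin k) O), q.Monic ∧
        q.eval₂ (eval₂Hom (C.comp O.subtype) fun i => lin fun j => (ℓ i j : K)) (X j) ∈ 𝔭 := by
  obtain ⟨p, hp, hpx⟩ := h
  set f : MvPolynomial (Fin k) O →ₐ[O] Algebra.adjoin O (Set.range (cls 𝔭 ℓ)) :=
    (aeval (cls 𝔭 ℓ)).codRestrict _ fun x => by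
      rw [Algebra.adjoin_range_eq_range_aeval]
      exact ⟨x, rfl⟩ with hf
  have hfs : Function.Surjective f.toRingHom := by
    rintro ⟨x, hx⟩
    have hx' := hx
    rw [Algebra.adjoin_range_eq_range_aeval] at hx'
    obtain ⟨y, hy⟩ := hx'
    exact ⟨y, Subtype.ext hy⟩
  have hl : p ∈ Polynomial.lifts f.toRingHom := by
    rw [Polynomial.lifts_iff_coeff_lifts]
    exact fun n => hfs _
  obtain ⟨q, hq, -, hqm⟩ := Polynomial.lifts_and_natDegree_eq_and_monic hl hp
  refine ⟨q, hqm, ?_⟩
  rw [← Ideal.Quotient.eq_zero_iff_mem, Polynomial.hom_eval₂]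
  rw [← hq, Polynomial.eval₂_map] at hpx
  rw [← hpx]
  congr 1
  refine MvPolynomial.ringHom_ext (fun a => ?_) fun i => ?_
  · rw [RingHom.comp_apply, coe_eval₂Hom, eval₂_C, RingHom.comp_apply]
    have h1 : (algebraMap (Algebra.adjoin O (Set.range (cls 𝔭 ℓ))) (MvPolynomial σ K ⧸ 𝔭)).comp
        f.toRingHom (C a) = aeval (cls 𝔭 ℓ) (C a) := rfl
    rw [h1, aeval_C]
    rfl
  · rw [RingHom.comp_apply, coe_eval₂Hom, eval₂_X]
    have h1 : (algebraMap (Algebra.adjoin O (Set.range (cls 𝔭 ℓ))) (MvPolynomial σ K ⧸ 𝔭)).comp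
        f.toRingHom (X i) = aeval (cls 𝔭 ℓ) (X i) := rfl
    rw [h1, aeval_X]
    rfl

end Cls

end LiftP

open LiftP

theorem exists_forms_val {K : Type*} [Field K] (O : ValuationSubring K)
    [Infinite (IsLocalRing.ResidueField O)] {σ : Type} [Fintype σ]
    (𝔭 : Ideal (MvPolynomial σ K)) (hhom : IsHom 𝔭) (hne : 𝔭 ≠ ⊤) : ∃ (k : ℕ) (ℓ : Fin k → σ → O),
      (∀ G : MvPolynomial (Fin k) K, aeval (fun i => lin fun j => (ℓ i j : K)) G ∈ 𝔭 → G = 0) ∧
      ∀ j, ∃ q : Polynomial (MvPolynomial (Fin k) O), q.Monic ∧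
        q.eval₂ (eval₂Hom (C.comp O.subtype) fun i => lin fun j => (ℓ i j : K)) (X j) ∈ 𝔭 := by
  classical
  have hex : ∃ k : ℕ, ∃ ℓ : Fin k → σ → O, ∀ j,
      IsIntegral (Algebra.adjoin O (Set.range (cls 𝔭 ℓ))) (Ideal.Quotient.mk 𝔭 (X j)) := by
    refine ⟨Fintype.card σ, fun i j => if (Fintype.equivFin σ).symm i = j then 1 else 0,
      fun j => ?_⟩
    have h1 : Ideal.Quotient.mk 𝔭 (X j) ∈ Algebra.adjoin O (Set.range
        (cls 𝔭 fun i j => if (Fintype.equivFin σ).symm i = j then (1 : O) else 0)) := by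
      refine Algebra.subset_adjoin ⟨Fintype.equivFin σ j, ?_⟩
      rw [cls]
      simp only [Equiv.symm_apply_apply]
      rw [lin_single]
    exact isIntegral_algebraMap (x := (⟨_, h1⟩ : Algebra.adjoin O (Set.range
        (cls 𝔭 fun i j => if (Fintype.equivFin σ).symm i = j then (1 : O) else 0))))
  obtain ⟨k, ⟨ℓ, hℓ⟩, hmin⟩ : ∃ k : ℕ, (∃ ℓ : Fin k → σ → O, ∀ j,
      IsIntegral (Algebra.adjoin O (Set.range (cls 𝔭 ℓ))) (Ideal.Quotient.mk 𝔭 (X j))) ∧
      ∀ k' < k, ¬ ∃ ℓ : Fin k' → σ → O, ∀ j,
      IsIntegral (Algebra.adjoin O (Set.range (cls 𝔭 ℓ))) (Ideal.Quotient.mk 𝔭 (X j)) :=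
    ⟨Nat.find hex, Nat.find_spec hex, fun k' hk' => Nat.find_min hex hk'⟩
  refine ⟨k, ℓ, fun G hG => ?_, fun j => exists_poly 𝔭 ℓ (hℓ j)⟩
  by_contra hG0
  obtain ⟨d, hd⟩ : ∃ d, homogeneousComponent d G ≠ 0 := by
    by_contra hcon
    push Not at hcon
    apply hG0
    rw [← sum_homogeneousComponent G]
    exact Finset.sum_eq_zero fun d _ => hcon d
  have hmem : aeval (fun i => lin fun j => (ℓ i j : K)) (homogeneousComponent d G) ∈ 𝔭 := by
    rw [aeval_component _ (fun i => isHomogeneous_lin _)]
    exact hhom _ hG d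
  have hd0 : d ≠ 0 := by
    rintro rfl
    rw [homogeneousComponent_zero] at hd hmem
    rw [aeval_C] at hmem
    have hc : coeff 0 G ≠ 0 := fun h => hd (by rw [h, C_0])
    refine hne (Ideal.eq_top_of_isUnit_mem _ hmem ?_)
    exact (IsUnit.mk0 _ hc).map _
  have hrel : aeval (cls 𝔭 ℓ) (homogeneousComponent d G) = 0 := by
    rw [← Ideal.Quotient.eq_zero_iff_mem] at hmem
    rw [← hmem]
    have := DFunLike.congr_fun (comp_aeval (fun i => lin fun j => (ℓ i j : K))
      (Ideal.Quotient.mkₐ K 𝔭)) (homogeneousComponent d G)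
    exact this.symm
  obtain ⟨i₀, c, hc, hint⟩ := step (O := O) (cls 𝔭 ℓ) hd0
    (homogeneousComponent_isHomogeneous d G) hd hrel
  cases k with
  | zero => exact i₀.elim0
  | succ k =>
    refine hmin k (Nat.lt_succ_self k) ⟨fun i t => ℓ (i₀.succAbove i) t -
      c (i₀.succAbove i) * ℓ i₀ t, fun j => ?_⟩
    set ℓ' : Fin k → σ → O := fun i t => ℓ (i₀.succAbove i) t - c (i₀.succAbove i) * ℓ i₀ t
      with hℓ'
    have hcls : ∀ i, cls 𝔭 ℓ' i = cls 𝔭 ℓ (i₀.succAbove i) -
        c (i₀.succAbove i) • cls 𝔭 ℓ i₀ := by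
      intro i
      rw [cls, hℓ', lin_sub, map_sub]
      rfl
    have hdiff : ∀ i, IsIntegral (Algebra.adjoin O (Set.range (cls 𝔭 ℓ')))
        (cls 𝔭 ℓ i - c i • cls 𝔭 ℓ i₀) := by
      intro i
      rcases eq_or_ne i i₀ with rfl | hi
      · rw [hc, one_smul, sub_self]
        exact isIntegral_zero
      · obtain ⟨t, rfl⟩ := Fin.exists_succAbove_eq hi
        rw [← hcls]
        have h1 : cls 𝔭 ℓ' t ∈ Algebra.adjoin O (Set.range (cls 𝔭 ℓ')) :=
          Algebra.subset_adjoin ⟨t, rfl⟩
        exact isIntegral_algebraMap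
          (x := (⟨_, h1⟩ : Algebra.adjoin O (Set.range (cls 𝔭 ℓ'))))
    have h0 : IsIntegral (Algebra.adjoin O (Set.range (cls 𝔭 ℓ'))) (cls 𝔭 ℓ i₀) := by
      refine int_trans ?_ hint
      rintro _ ⟨i, rfl⟩
      exact hdiff i
    refine int_trans ?_ (hℓ j)
    rintro _ ⟨i, rfl⟩
    have h1 : cls 𝔭 ℓ i = (cls 𝔭 ℓ i - c i • cls 𝔭 ℓ i₀) + c i • cls 𝔭 ℓ i₀ := by
      rw [sub_add_cancel]
    rw [h1]
    exact (hdiff i).add (h0.smul (c i))

end Pool.Agent.KRFW
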