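import Pool.Agent.Work.MP_a2bf38_gt.W.PrimeOf
import Pool.Agent.Work.MP_a2bf38_gt.W.Lift
import Pool.Agent.Work.MP_a2bf38_gt.W.Galois
import Pool.Agent.Work.MP_a2bf38_gt.W.Cone

/-!
# The coverings of cones over a valuation ring (helper70, helper51)
-/

open MvPolynomial Filter Topology

namespace Pool.Agent.KRFW

theorem prime_sheets {K : Type*} [Field K] [IsAlgClosed K] [CharZero K] (O : ValuationSubring K)
    [Infinite (IsLocalRing.ResidueField O)] {σ : Type} [Fintype σ]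
    (𝔭 : Ideal (MvPolynomial σ K)) (hhom : IsHom 𝔭) (hp : 𝔭.IsPrime) : ∃ (k D : ℕ) (ℓ : Fin k → σ → K) (Φ : MvPolynomial (Ix k σ) K),
      (∀ i j, ℓ i j ∈ O) ∧
      (∀ w, ∃ X : Fin D → σ → K, IsTup (zeros (𝔭 : Set (MvPolynomial σ K))) ℓ Φ w X) ∧
      (∀ x ∈ zeros (𝔭 : Set (MvPolynomial σ K)), ∃ X : Fin D → σ → K,
        IsTup (zeros (𝔭 : Set (MvPolynomial σ K))) ℓ Φ (fun i => ∑ j, ℓ i j * x j) X ∧
          ∃ m, X m = x) ∧
      ∀ x ∈ zeros (𝔭 : Set (MvPolynomial σ K)), (∀ i, ∑ j, ℓ i j * x j ∈ O) → ∀ j, x j ∈ O := by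
  have := hp
  exact PrimeD.sheets_of O (exists_forms_val O 𝔭 hhom hp.ne_top) fun k y hinj hint =>
    exists_tup (PrimeD.xq 𝔭) y PrimeD.adjoin_xq hinj hint

theorem cone_sheets {K : Type*} [Field K] [IsAlgClosed K] [CharZero K] (O : ValuationSubring K)
    [Infinite (IsLocalRing.ResidueField O)] {σ : Type} [Fintype σ]
    (S : Set (MvPolynomial σ K)) (hS : ∀ P ∈ S, ∃ d, P.IsHomogeneous d) :
    ∃ (r : ℕ) (k D : Fin r → ℕ) (ℓ : ∀ i, Fin (k i) → σ → K)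
      (Φ : ∀ i, MvPolynomial (Ix (k i) σ) K), (∀ i a j, ℓ i a j ∈ O) ∧
      (∀ i w, ∃ X : Fin (D i) → σ → K, IsTup (zeros S) (ℓ i) (Φ i) w X ∧
        ∀ c : K, c ≠ 0 → (∀ a, w a / c ∈ O) → ∀ m j, X m j / c ∈ O) ∧
      ∀ x ∈ zeros S, ∃ i, ∀ c : K, ∃ X : Fin (D i) → σ → K,
        IsTup (zeros S) (ℓ i) (Φ i) (fun a => ∑ j, ℓ i a j * (c * x j)) X ∧ ∃ m, X m = c • x :=
  cone_sheets_of O S hS fun 𝔭 h hp => prime_sheets O 𝔭 h hp

end Pool.Agent.KRFW
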