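import Pool.Agent.Work.MP_a2bf38_gt.W.TransferB
import Pool.Agent.Work.MP_a2bf38_gt.W.Prime

/-!
# Uniform coverings of cones by tuples (transfer from the ultrapower)
-/

set_option autoImplicit false

open MvPolynomial Filter Topology
open Pool.Agent.KRFN Pool.Agent.KRFN.Ultra Pool.Agent.KRFN.Loj

namespace Pool.Agent.KRFW

theorem exists_const {ι : Type*} [Finite ι] {p : ι → ℕ → Prop}
    (h : ∀ᶠ n in (hyperfilter ℕ : Filter ℕ), ∃ i, p i n) :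
    ∃ i, ∀ᶠ n in (hyperfilter ℕ : Filter ℕ), p i n := by
  by_contra! hc
  have h1 : ∀ᶠ n in (hyperfilter ℕ : Filter ℕ), ∀ i, ¬ p i n :=
    eventually_all.2 fun i => hc i
  obtain ⟨n, ⟨i, h2⟩, h3⟩ := (h.and h1).exists
  exact h3 i h2

theorem eventually_ge (C : ℕ) : ∀ᶠ n in (hyperfilter ℕ : Filter ℕ), C ≤ n :=
  eventually_of_atTop (eventually_ge_atTop C)

/-- representatives of a family of elements of the ultrapower -/
theorem exists_rep {ι : Type*} (f : ι → KK) : ∃ F : ℕ → ι → ℂ, f = fun i => cr fun n => F n i := by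
  choose G hG using fun i => cr_surj (f i)
  exact ⟨fun n i => G i n, funext fun i => (hG i).symm⟩

theorem exists_rep₂ {ι κ : Type*} (f : ι → κ → KK) :
    ∃ F : ℕ → ι → κ → ℂ, f = fun i j => cr fun n => F n i j := by
  choose G hG using fun i => exists_rep (f i)
  exact ⟨fun n i => G i n, funext fun i => hG i⟩

theorem mem_zeros_of {σ τ : Type} [Fintype σ] [Fintype τ] {S : Finset (MvPolynomial (σ ⊕ τ) ℂ)}
    {y : ℕ → τ → ℂ} {x : ℕ → σ → ℂ}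
    (h : ∀ᶠ n in (hyperfilter ℕ : Filter ℕ), Gam S (x n) (y n)) :
    (fun j => cr fun n => x n j) ∈ zeros (spec cc (fun t => cr fun n => y n t) ''
      (S : Set (MvPolynomial (σ ⊕ τ) ℂ))) := by
  rintro _ ⟨P, hP, rfl⟩
  rw [eval_spec]
  have h1 : (Sum.elim (fun j => cr fun n => x n j) fun t => cr fun n => y n t : σ ⊕ τ → KK) =
      fun i => cr ((fun i n => (Sum.elim (x n) (y n) : σ ⊕ τ → ℂ) i) i) := by
    funext i
    rcases i with i | i <;> rfl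
  rw [h1, cr_eval, cr_eq_zero]
  filter_upwards [h] with n hn
  exact hn P hP

/-- The statement of `cone_sheets` over the ultrapower. -/
def ConeSheets (σ : Type) [Fintype σ] : Prop :=
  ∀ S : Set (MvPolynomial σ KK), (∀ P ∈ S, ∃ d, P.IsHomogeneous d) →
    ∃ (r : ℕ) (k D : Fin r → ℕ) (ℓ : ∀ i, Fin (k i) → σ → KK)
      (Φ : ∀ i, MvPolynomial (Ix (k i) σ) KK), (∀ i a j, ℓ i a j ∈ FO) ∧
      (∀ i w, ∃ X : Fin (D i) → σ → KK, IsTup (zeros S) (ℓ i) (Φ i) w X ∧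
        ∀ c : KK, c ≠ 0 → (∀ a, w a / c ∈ FO) → ∀ m j, X m j / c ∈ FO) ∧
      ∀ x ∈ zeros S, ∃ i, ∀ c : KK, ∃ X : Fin (D i) → σ → KK,
        IsTup (zeros S) (ℓ i) (Φ i) (fun a => ∑ j, ℓ i a j * (c * x j)) X ∧ ∃ m, X m = c • x

theorem sheets_unif_of {σ τ : Type} [Fintype σ] [Fintype τ] (hcone : ConeSheets σ)
    (S : Finset (MvPolynomial (σ ⊕ τ) ℂ))
    (hS : ∀ P ∈ S, ∃ d : ℕ, ∀ (c : ℂ) (x : σ → ℂ) (y : τ → ℂ),
      eval (Sum.elim (c • x) y) P = c ^ d * eval (Sum.elim x y) P) :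
    ∃ D₀ : ℕ, ∀ y : τ → ℂ, ‖y‖ ≤ 1 → ∃ r ≤ D₀, ∃ (k D : Fin r → ℕ)
      (ℓ : ∀ i, Fin (k i) → σ → ℂ) (Φ : ∀ i, MvPolynomial (Ix (k i) σ) ℂ),
      (∀ i, k i ≤ D₀ ∧ D i ≤ D₀) ∧ (∀ i a j, ‖ℓ i a j‖ ≤ D₀) ∧
      (∀ i w, ∃ X : Fin (D i) → σ → ℂ, IsTup {x | Gam S x y} (ℓ i) (Φ i) w X ∧
        ∀ m, ‖X m‖ ≤ D₀ * ‖w‖) ∧
      ∀ x, Gam S x y → ∃ i, ∀ c : ℂ, ∃ X : Fin (D i) → σ → ℂ,
        IsTup {x | Gam S x y} (ℓ i) (Φ i) (fun a => ∑ j, ℓ i a j * (c * x j)) X ∧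
          ∃ m, X m = c • x := by
  by_contra hcon
  push Not at hcon
  choose y hy hbad using hcon
  -- the cone over the ultrapower
  have hS' : ∀ P ∈ spec cc (fun t => cr fun n => y n t) '' (S : Set (MvPolynomial (σ ⊕ τ) ℂ)),
      ∃ d, P.IsHomogeneous d := by
    rintro _ ⟨P, hP, rfl⟩
    obtain ⟨d, hd⟩ := hS P hP
    exact ⟨d, isHomogeneous_spec cc _ hd⟩
  obtain ⟨r, k, D, ℓ', Φ, hℓ, hb, hc⟩ := hcone _ hS'
  choose ℓ hℓr using fun i => exists_rep₂ (ℓ' i)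
  choose F hF using fun i => lift_poly (Φ i)
  -- the bounds
  obtain ⟨C₀, hC₀⟩ : ∃ C : ℕ, ∀ᶠ n in (hyperfilter ℕ : Filter ℕ),
      ∀ p : (i : Fin r) × (Fin (k i) × σ), ‖ℓ p.1 n p.2.1 p.2.2‖ ≤ C :=
    exists_bound_FO (F := fun (p : (i : Fin r) × (Fin (k i) × σ)) n => ℓ p.1 n p.2.1 p.2.2)
      fun p => by
        have h1 := hℓ p.1 p.2.1 p.2.2
        rw [hℓr] at h1
        exact h1
  obtain ⟨C₁, hC₁⟩ : ∃ C : ℕ, ∀ i, k i ≤ C ∧ D i ≤ C := by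
    refine ⟨∑ i, (k i + D i), fun i => ?_⟩
    have h1 := Finset.single_le_sum (f := fun i => k i + D i) (fun i _ => Nat.zero_le _)
      (Finset.mem_univ i)
    omega
  -- failure
  have hfail : ∀ᶠ n in (hyperfilter ℕ : Filter ℕ),
      (∃ i, ∃ w : Fin (k i) → ℂ, ∀ X : Fin (D i) → σ → ℂ,
        IsTup {x | Gam S x (y n)} (ℓ i n) (F i n) w X → ∃ m, n * ‖w‖ < ‖X m‖) ∨
      ∃ x, Gam S x (y n) ∧ ∀ i, ∃ c : ℂ, ∀ X : Fin (D i) → σ → ℂ,
        IsTup {x | Gam S x (y n)} (ℓ i n) (F i n) (fun a => ∑ j, ℓ i n a j * (c * x j)) X →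
          ∀ m, X m ≠ c • x := by
    filter_upwards [hC₀, eventually_ge C₀, eventually_ge C₁, eventually_ge r] with n h1 h2 h3 h4
    by_contra! hcon
    obtain ⟨hA, hB⟩ := hcon
    obtain ⟨x, hx, hx2⟩ := hbad n r h4 k D (fun i => ℓ i n) (fun i => F i n)
      (fun i => ⟨(hC₁ i).1.trans h3, (hC₁ i).2.trans h3⟩)
      (fun i a j => (h1 ⟨i, (a, j)⟩).trans (by exact_mod_cast h2)) hA
    obtain ⟨i, hi⟩ := hB x hx
    obtain ⟨c, hc2⟩ := hx2 i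
    obtain ⟨X, hX, m, hm⟩ := hi c
    exact hc2 X hX m hm
  rcases Ultrafilter.eventually_or.1 hfail with hf | hf
  · -- the covering of `w`
    obtain ⟨i, hi⟩ := exists_const hf
    have hw : ∃ w : ℕ → Fin (k i) → ℂ, ∀ᶠ n in (hyperfilter ℕ : Filter ℕ),
        ∀ X : Fin (D i) → σ → ℂ,
          IsTup {x | Gam S x (y n)} (ℓ i n) (F i n) (w n) X → ∃ m, n * ‖w n‖ < ‖X m‖ := by
      classical
      refine ⟨fun n => if h : ∃ w : Fin (k i) → ℂ, ∀ X : Fin (D i) → σ → ℂ,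
        IsTup {x | Gam S x (y n)} (ℓ i n) (F i n) w X → ∃ m, n * ‖w‖ < ‖X m‖
        then h.choose else 0, ?_⟩
      filter_upwards [hi] with n hn
      rw [dif_pos hn]
      exact hn.choose_spec
    obtain ⟨w, hw⟩ := hw
    obtain ⟨X', hX', hXc⟩ := hb i fun a => cr fun n => w n a
    obtain ⟨X, rfl⟩ := exists_rep₂ X'
    rw [hℓr i] at hX'
    obtain ⟨C, hC⟩ := bound_transfer w X hXc
    obtain ⟨n, ⟨⟨h1, h2⟩, h3⟩, h4⟩ :=
      (((hw.and (tup_transfer S y (ℓ i) (hF i) w X hX')).and hC).and (eventually_ge C)).exists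
    obtain ⟨m, hm⟩ := h1 _ h2
    have h5 := h3 m
    have h6 : (C : ℝ) * ‖w n‖ ≤ n * ‖w n‖ :=
      mul_le_mul_of_nonneg_right (by exact_mod_cast h4) (norm_nonneg _)
    linarith
  · -- the covering of the points
    have hx : ∃ x : ℕ → σ → ℂ, ∀ᶠ n in (hyperfilter ℕ : Filter ℕ),
        Gam S (x n) (y n) ∧ ∀ i, ∃ c : ℂ, ∀ X : Fin (D i) → σ → ℂ,
          IsTup {x | Gam S x (y n)} (ℓ i n) (F i n) (fun a => ∑ j, ℓ i n a j * (c * x n j)) X →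
            ∀ m, X m ≠ c • x n := by
      classical
      refine ⟨fun n => if h : ∃ x, Gam S x (y n) ∧ ∀ i, ∃ c : ℂ, ∀ X : Fin (D i) → σ → ℂ,
        IsTup {x | Gam S x (y n)} (ℓ i n) (F i n) (fun a => ∑ j, ℓ i n a j * (c * x j)) X →
          ∀ m, X m ≠ c • x then h.choose else 0, ?_⟩
      filter_upwards [hf] with n hn
      rw [dif_pos hn]
      exact hn.choose_spec
    obtain ⟨x, hx⟩ := hx
    obtain ⟨i, hi⟩ := hc _ (mem_zeros_of (hx.mono fun n hn => hn.1))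
    have hcn : ∃ c : ℕ → ℂ, ∀ᶠ n in (hyperfilter ℕ : Filter ℕ), ∀ X : Fin (D i) → σ → ℂ,
        IsTup {x | Gam S x (y n)} (ℓ i n) (F i n) (fun a => ∑ j, ℓ i n a j * (c n * x n j)) X →
          ∀ m, X m ≠ c n • x n := by
      classical
      refine ⟨fun n => if h : ∃ c : ℂ, ∀ X : Fin (D i) → σ → ℂ,
        IsTup {x | Gam S x (y n)} (ℓ i n) (F i n) (fun a => ∑ j, ℓ i n a j * (c * x n j)) X →
          ∀ m, X m ≠ c • x n then h.choose else 0, ?_⟩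
      filter_upwards [hx] with n hn
      have h1 := hn.2 i
      rw [dif_pos h1]
      exact h1.choose_spec
    obtain ⟨c, hcn⟩ := hcn
    obtain ⟨X', hX', m, hm⟩ := hi (cr c)
    obtain ⟨X, rfl⟩ := exists_rep₂ X'
    have hw : (fun a => ∑ j, ℓ' i a j * (cr c * cr fun n => x n j)) =
        fun a => cr fun n => ∑ j, ℓ i n a j * (c n * x n j) := by
      funext a
      rw [hℓr i]
      simp only
      have h1 : (fun n => ∑ j, ℓ i n a j * (c n * x n j)) =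
          ∑ j, (fun n => ℓ i n a j) * (c * fun n => x n j) := by
        funext n
        simp
      rw [h1, map_sum]
      simp only [map_mul]
    rw [hw, hℓr i] at hX'
    have h2 : ∀ᶠ n in (hyperfilter ℕ : Filter ℕ), X n m = c n • x n := by
      have h3 : ∀ᶠ n in (hyperfilter ℕ : Filter ℕ), ∀ j, X n m j = c n * x n j := by
        refine eventually_all.2 fun j => cr_eq.1 ?_
        have h4 := congrFun hm j
        simp only [Pi.smul_apply, smul_eq_mul] at h4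
        rw [← map_mul] at h4
        exact h4
      filter_upwards [h3] with n hn
      exact funext hn
    obtain ⟨n, ⟨h3, h4⟩, h5⟩ := ((hcn.and
      (tup_transfer S y (ℓ i) (hF i) (fun n a => ∑ j, ℓ i n a j * (c n * x n j)) X hX')).and
      h2).exists
    exact h3 _ h4 m h5

theorem sheets_unif {σ τ : Type} [Fintype σ] [Fintype τ] (S : Finset (MvPolynomial (σ ⊕ τ) ℂ))
    (hS : ∀ P ∈ S, ∃ d : ℕ, ∀ (c : ℂ) (x : σ → ℂ) (y : τ → ℂ),
      eval (Sum.elim (c • x) y) P = c ^ d * eval (Sum.elim x y) P) :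
    ∃ D₀ : ℕ, ∀ y : τ → ℂ, ‖y‖ ≤ 1 → ∃ r ≤ D₀, ∃ (k D : Fin r → ℕ)
      (ℓ : ∀ i, Fin (k i) → σ → ℂ) (Φ : ∀ i, MvPolynomial (Ix (k i) σ) ℂ),
      (∀ i, k i ≤ D₀ ∧ D i ≤ D₀) ∧ (∀ i a j, ‖ℓ i a j‖ ≤ D₀) ∧
      (∀ i w, ∃ X : Fin (D i) → σ → ℂ, IsTup {x | Gam S x y} (ℓ i) (Φ i) w X ∧
        ∀ m, ‖X m‖ ≤ D₀ * ‖w‖) ∧
      ∀ x, Gam S x y → ∃ i, ∀ c : ℂ, ∃ X : Fin (D i) → σ → ℂ,
        IsTup {x | Gam S x y} (ℓ i) (Φ i) (fun a => ∑ j, ℓ i a j * (c * x j)) X ∧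
          ∃ m, X m = c • x :=
  sheets_unif_of (fun T hT => cone_sheets FO T hT) S hS

end Pool.Agent.KRFW
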