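import Pool.Agent.Work.MP_a2bf38_gt.W.UnivCore
import Pool.Agent.Work.MP_a2bf38_gt.W.Transfer

/-!
# Uniform sheets of the cones defined by forms of degree `d` (KRF VII, helper22)
-/

open MvPolynomial
open Pool.Agent.KRFN.Loj

namespace Pool.Agent.KRFW

theorem sheets_deg (σ : Type) [Fintype σ] (d : ℕ) : ∃ D₀ : ℕ,
    ∀ T : Set (MvPolynomial σ ℂ), (∀ Q ∈ T, Q.IsHomogeneous d) → ∃ r ≤ D₀, ∃ (k D : Fin r → ℕ)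
      (ℓ : ∀ i, Fin (k i) → σ → ℂ) (Φ : ∀ i, MvPolynomial (Ix (k i) σ) ℂ),
      (∀ i, k i ≤ D₀ ∧ D i ≤ D₀) ∧ (∀ i a j, ‖ℓ i a j‖ ≤ D₀) ∧
      (∀ i w, ∃ X : Fin (D i) → σ → ℂ, IsTup (zeros T) (ℓ i) (Φ i) w X ∧
        ∀ m, ‖X m‖ ≤ D₀ * ‖w‖) ∧
      ∀ x ∈ zeros T, ∃ i, ∀ c : ℂ, ∃ X : Fin (D i) → σ → ℂ,
        IsTup (zeros T) (ℓ i) (Φ i) (fun a => ∑ j, ℓ i a j * (c * x j)) X ∧
          ∃ m, X m = c • x := by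
  obtain ⟨D₀, hD₀⟩ := sheets_unif (univEqs σ d) (univEqs_hom σ d)
  refine ⟨D₀, fun T hT => ?_⟩
  obtain ⟨y, hy, hgam⟩ := exists_gam T hT
  have hset : {x | Gam (univEqs σ d) x y} = zeros T := Set.ext hgam
  obtain ⟨r, hr, k, D, ℓ, Φ, h1, h2, h3, h4⟩ := hD₀ y hy
  rw [hset] at h3 h4
  exact ⟨r, hr, k, D, ℓ, Φ, h1, h2, h3, fun x hx => h4 x ((hgam x).2 hx)⟩

end Pool.Agent.KRFW
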