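import Pool.Agent.Work.MP_a2bf38_gt.W.Line
import Pool.Agent.Work.MP_a2bf38_gt.W.Univ

/-!
# Lines through finitely many points of a cone
-/

namespace Pool.Agent.KRFW

/-- Every point of the cone `zeros T` is, up to a factor, one of finitely many points or on a line
through them. -/
theorem exists_lines (L d : ℕ) : ∃ (D₀ : ℕ) (C α : ℝ), 1 ≤ C ∧ 0 < α ∧
    ∀ T : Set (MvPolynomial (Fin L) ℂ), (∀ Q ∈ T, Q.IsHomogeneous d) →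
      ∃ A : Finset (Fin L → ℂ), A.card ≤ D₀ ∧ (∀ a ∈ A, a ∈ zeros T ∧ a ≠ 0) ∧
        ∀ x ∈ zeros T, x ≠ 0 → (∃ a ∈ A, ∃ c : ℂ, c ≠ 0 ∧ a = c • x) ∨
          ∃ (D k : ℕ) (X : ℂ → Fin D → Fin L → ℂ) (ℓ : Fin k → Fin L → ℂ) (μ : ℝ) (s₀ s₁ : ℂ),
            D ≤ D₀ ∧ IsLine (zeros T) C α X ℓ μ ∧ ‖s₀‖ ≤ 1 ∧ ‖s₁‖ ≤ 1 ∧
              (∀ m, X s₀ m ∈ A) ∧ ∃ m, ∃ c : ℂ, c ≠ 0 ∧ X s₁ m = c • x :=
  exists_lines_of L d (sheets_deg (Fin L) d)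

end Pool.Agent.KRFW
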