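import Pool.Agent.Work.MP_a2bf38_gt.W.RhoLap

/-!
# The potential of the curves (KRF VII, H7)
-/

open scoped ContDiff ENNReal ComplexOrder LinearAlgebra.Projectivization Topology
open Set Filter Pool.Agent.ToricKRF Pool.Agent.ToricKRF.G Pool.Agent.KRFS Pool.Agent.KRFF
  Pool.Agent.KRFZ

namespace Pool.Agent.KRFW

theorem nn_smul {L : ℕ} (a : ℂ) (x : Fin L → ℂ) : nn (a • x) = ‖a‖ ^ 2 * nn x := by
  unfold nn
  rw [Finset.mul_sum]
  refine Finset.sum_congr rfl fun j _ => ?_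
  simp only [Pi.smul_apply, smul_eq_mul, norm_mul]
  ring

theorem nl_smul {L k : ℕ} (ℓ : Fin k → Fin L → ℂ) (a : ℂ) (x : Fin L → ℂ) :
    nl ℓ (a • x) = ‖a‖ ^ 2 * nl ℓ x := by
  unfold nl
  rw [Finset.mul_sum]
  refine Finset.sum_congr rfl fun i _ => ?_
  have h : ∑ j, ℓ i j * (a • x) j = a * ∑ j, ℓ i j * x j := by
    rw [Finset.mul_sum]
    refine Finset.sum_congr rfl fun j _ => ?_
    simp only [Pi.smul_apply, smul_eq_mul]
    ring
  rw [h, norm_mul]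
  ring

theorem continuous_nn {L : ℕ} : Continuous (nn : (Fin L → ℂ) → ℝ) := by
  unfold nn
  fun_prop

theorem continuous_nl {L k : ℕ} (ℓ : Fin k → Fin L → ℂ) : Continuous (nl ℓ) := by
  unfold nl
  fun_prop

section

variable {M Z : Type} [MetricSpace M] [CompactSpace M] [MetricSpace Z] {n N : ℕ} {κ P : Type}
  {e : κ → OpenPartialHomeomorph M (Cn n)} {U : P → Set Z} {q : P → Z → Cn N} {f : M → Z}
  {ψ : κ → ℝ × Cn n → ℝ}

/-- the potential `C₁ log (|x|^2 / max (|ℓ(x)|^2, |x|^2 / C))` -/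
noncomputable def rho {L k : ℕ} (ι : M → ℙ ℂ (Fin (L + 1) → ℂ)) (ℓ : Fin k → Fin (L + 1) → ℂ)
    (C C₁ : ℝ) (p : M) : ℝ :=
  C₁ * Real.log (nn (ι p).rep / max (nl ℓ (ι p).rep) (nn (ι p).rep / C))

omit [CompactSpace M] in
theorem rho_eq {L k : ℕ} {ι : M → ℙ ℂ (Fin (L + 1) → ℂ)} (ℓ : Fin k → Fin (L + 1) → ℂ)
    (C C₁ : ℝ) {p : M} {x : Fin (L + 1) → ℂ} (h : x ≠ 0) (hp : ι p = Projectivization.mk ℂ x h) :
    rho ι ℓ C C₁ p = C₁ * Real.log (nn x / max (nl ℓ x) (nn x / C)) := by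
  have h1 : Projectivization.mk ℂ (ι p).rep (ι p).rep_nonzero = Projectivization.mk ℂ x h := by
    rw [Projectivization.mk_rep, hp]
  obtain ⟨a, ha⟩ := (Projectivization.mk_eq_mk_iff' ℂ _ _ _ _).1 h1
  have ha0 : a ≠ 0 := by
    rintro rfl
    exact (ι p).rep_nonzero (by rw [← ha, zero_smul])
  have h2 : 0 < ‖a‖ ^ 2 := by
    have := norm_pos_iff.2 ha0
    positivity
  unfold rho
  rw [← ha, nn_smul, nl_smul, mul_div_assoc (‖a‖ ^ 2) (nn x) C, ← mul_max_of_nonneg _ _ h2.le,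
    mul_div_mul_left _ _ h2.ne']

omit [CompactSpace M] in
theorem rho_cont (G : GeoData e U q f ψ) {S : Set Z} {L d k : ℕ}
    {ι : M → ℙ ℂ (Fin (L + 1) → ℂ)} (hι : IsProjOver e U q f S ι d) (hS : IsOpen S)
    (ℓ : Fin k → Fin (L + 1) → ℂ) {C : ℝ} (hC : 0 < C) (C₁ : ℝ) :
    ContinuousOn (rho ι ℓ C C₁) (f ⁻¹' S) := by
  intro p hp
  obtain ⟨c, hc⟩ := G.atlas.cover p
  have hx : e c p ∈ (e c).target := (e c).map_source hc
  have hpx : (e c).symm (e c p) = p := (e c).left_inv hc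
  obtain ⟨F, W, hxW, hF, -⟩ := hι.lift c (e c p) hx (by rw [hpx]; exact hp)
  obtain ⟨hW, hWt, hFh, hF0⟩ := hF
  have hFc : ContinuousAt F (e c p) := (hFh.1.continuousOn).continuousAt (hW.mem_nhds hxW)
  have hgc : ContinuousAt (fun p' => cc (F (e c p'))) p := by
    have h1 : ContinuousAt (fun p' => F (e c p')) p := hFc.comp ((e c).continuousAt hc)
    refine continuousAt_pi.2 fun j => ?_
    have h2 : Continuous fun u : Cn (L + 1) => cc u j := by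
      have h3 : (fun u : Cn (L + 1) => cc u j) = fun u => (u.1 j : ℂ) + (u.2 j : ℂ) * Complex.I := by
        funext u
        exact Complex.ext (by simp [cc]) (by simp [cc])
      rw [h3]
      fun_prop
    exact h2.continuousAt.comp h1
  obtain ⟨h0, -⟩ := hF0 _ hxW
  have hev : (fun p' => rho ι ℓ C C₁ p') =ᶠ[𝓝 p] fun p' => C₁ * Real.log
      (nn (cc (F (e c p'))) / max (nl ℓ (cc (F (e c p')))) (nn (cc (F (e c p'))) / C)) := by
    have h1 : ∀ᶠ p' in 𝓝 p, p' ∈ (e c).source := (e c).open_source.mem_nhds hc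
    have h2 : ∀ᶠ p' in 𝓝 p, e c p' ∈ W := ((e c).continuousAt hc) (hW.mem_nhds hxW)
    filter_upwards [h1, h2] with p' h1 h2
    obtain ⟨h3, h4⟩ := hF0 _ h2
    rw [(e c).left_inv h1] at h4
    exact rho_eq ℓ C C₁ h3 h4
  refine ContinuousAt.continuousWithinAt (ContinuousAt.congr ?_ hev.symm)
  have hnn : 0 < nn (cc (F (e c p))) := RhoLap.nn_pos h0
  have hmx : 0 < max (nl ℓ (cc (F (e c p)))) (nn (cc (F (e c p))) / C) :=
    lt_max_of_lt_right (div_pos hnn hC)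
  have h5 : ContinuousAt (fun p' => nn (cc (F (e c p')))) p := continuous_nn.continuousAt.comp hgc
  have h6 : ContinuousAt (fun p' => nl ℓ (cc (F (e c p')))) p :=
    (continuous_nl ℓ).continuousAt.comp hgc
  exact continuousAt_const.mul ((h5.div (h6.max (h5.div_const C)) hmx.ne').log
    (div_pos hnn hmx).ne')

omit [CompactSpace M] in
theorem rho_bound {L k : ℕ} {ι : M → ℙ ℂ (Fin (L + 1) → ℂ)} {ℓ : Fin k → Fin (L + 1) → ℂ}
    {C C₁ : ℝ} (hC : 1 ≤ C) (hC₁ : 0 ≤ C₁) (hℓ : ∀ v, nl ℓ v ≤ C * nn v) (p : M) :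
    |rho ι ℓ C C₁ p| ≤ C₁ * Real.log C := by
  have hC0 : 0 < C := by linarith
  unfold rho
  rw [abs_mul, abs_of_nonneg hC₁]
  refine mul_le_mul_of_nonneg_left ?_ hC₁
  set x := (ι p).rep with hx
  have hnn : 0 < nn x := RhoLap.nn_pos (ι p).rep_nonzero
  have hmx : 0 < max (nl ℓ x) (nn x / C) := lt_max_of_lt_right (div_pos hnn hC0)
  have h1 : nn x / max (nl ℓ x) (nn x / C) ≤ C := by
    rw [div_le_iff₀ hmx]
    calc nn x = C * (nn x / C) := by field_simp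
      _ ≤ C * max (nl ℓ x) (nn x / C) := mul_le_mul_of_nonneg_left (le_max_right _ _) hC0.le
  have h2 : C⁻¹ ≤ nn x / max (nl ℓ x) (nn x / C) := by
    rw [le_div_iff₀ hmx, inv_mul_le_iff₀ hC0]
    refine max_le (hℓ x) ?_
    calc nn x / C ≤ nn x := div_le_self hnn.le hC
      _ ≤ C * nn x := le_mul_of_one_le_left hnn.le hC
  rw [abs_le]
  constructor
  · rw [← Real.log_inv]
    exact Real.log_le_log (inv_pos.2 hC0) h2
  · exact Real.log_le_log (div_pos hnn hmx) h1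

omit [CompactSpace M] in
/-- along a curve with `∑ |ℓ_i(F s)|^2 = μ (1 + |s|^2)` -/
theorem rho_curve {L k : ℕ} {ι : M → ℙ ℂ (Fin (L + 1) → ℂ)} {ℓ : Fin k → Fin (L + 1) → ℂ}
    {C C₁ C₂ μ : ℝ} (hC : 0 < C) (hC₁ : 0 ≤ C₁) (hC₂ : C₁ ≤ C₂) (hμ : 0 < μ) {h : ℂ → M}
    {F : ℂ → Fin (L + 1) → ℂ} {s : ℂ} {r : ℝ} (hF : DifferentiableOn ℂ F (Metric.ball s r))
    (hh : ∀ s' ∈ Metric.ball s r, ∃ h0 : F s' ≠ 0, ι (h s') = Projectivization.mk ℂ (F s') h0)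
    (h1 : ∀ s' ∈ Metric.ball s r, nl ℓ (F s') = μ * (1 + ‖s'‖ ^ 2))
    (h2 : ∀ s' ∈ Metric.ball s r, nn (F s') < C * nl ℓ (F s')) :
    ContDiffOn ℝ ∞ (fun s' => rho ι ℓ C C₁ (h s')) (Metric.ball s r) ∧
      ∀ s' ∈ Metric.ball s r, 0 ≤ lapC (fun s' => Real.log (nn (F s'))) s' ∧
        C₁ * lapC (fun s' => Real.log (nn (F s'))) s' ≤
          lapC (fun s' => C₂ * Real.log (1 + ‖s'‖ ^ 2) + rho ι ℓ C C₁ (h s')) s' := by
  refine RhoLap.curve_core (C₁ := C₁) (C₂ := C₂) (μ := μ) (R := fun s' => rho ι ℓ C C₁ (h s'))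
    hC₂ hμ hF (fun s' hs' => (hh s' hs').1) fun s' hs' => ?_
  obtain ⟨h0, hp⟩ := hh s' hs'
  show rho ι ℓ C C₁ (h s') = _
  rw [rho_eq ℓ C C₁ h0 hp]
  have h3 : nn (F s') / C ≤ nl ℓ (F s') := by
    rw [div_le_iff₀ hC]
    have := h2 s' hs'
    linarith
  rw [max_eq_left h3, h1 s' hs']

end

end Pool.Agent.KRFW
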