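import Pool.Agent.Work.MP_a2bf38_gt.W.CurvesLocOf
import Pool.Agent.Work.MP_a2bf38_gt.W.Lines
import Pool.Agent.Work.MP_a2bf38_gt.W.Disc
import Pool.Agent.Work.MP_a2bf38_gt.W.Metric
import Pool.Agent.Work.MP_a2bf38_gt.W.Rho

/-!
# Curves in the fibres over a small open set
-/

open scoped ContDiff ENNReal ComplexOrder LinearAlgebra.Projectivization Topology
open Set Filter Pool.Agent.ToricKRF Pool.Agent.ToricKRF.G Pool.Agent.KRFS Pool.Agent.KRFF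
  Pool.Agent.KRFZ

namespace Pool.Agent.KRFW

variable {M Z : Type} [MetricSpace M] [CompactSpace M] [MetricSpace Z] {n N : ℕ} {κ P : Type}
  {e : κ → OpenPartialHomeomorph M (Cn n)} {U : P → Set Z} {q : P → Z → Cn N} {f : M → Z}
  {ψ : κ → ℝ × Cn n → ℝ}

theorem hasCurves_near (G : GeoData e U q f ψ) {S : Set Z} {L d : ℕ}
    {ι : M → ℙ ℂ (Fin (L + 1) → ℂ)} (hι : IsProjOver e U q f S ι d) (hS : IsOpen S) {z₀ : Z}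
    (hz₀ : z₀ ∈ S) : ∃ (S' : Set Z) (D₀ : ℕ) (C α : ℝ), IsOpen S' ∧ z₀ ∈ S' ∧ 0 ≤ C ∧ 0 < α ∧
      ∀ z ∈ S', ∀ l, 1 ≤ l → ∃ A : Finset M, A.card ≤ D₀ ∧ (∀ p ∈ A, f p = z) ∧ ∀ p, f p = z →
        ∃ (D : ℕ) (γ : ℂ → Fin D → M) (ρ : M → ℝ) (s₀ s₁ : ℂ), D ≤ D₀ ∧ ‖s₀‖ ≤ 1 ∧ ‖s₁‖ ≤ 1 ∧
          (∀ i, γ s₀ i ∈ A) ∧ (∃ i, γ s₁ i = p) ∧
            KRFZ.IsCurve e ψ (f ⁻¹' {z}) C l α γ ρ s₀ s₁ := by
  obtain ⟨S₁, C₁, hS₁, hz₁, hS₁S, hC₁, hdist⟩ := dist_le G hι hS hz₀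
  obtain ⟨S₂, C₂, hS₂, hz₂, hS₂S, hC₂, hdisc⟩ := exists_disc G hι hS hz₀
  obtain ⟨D₀, C, α, hC, hα, hlines⟩ := exists_lines (L + 1) d
  have hlog : 0 ≤ Real.log (2 * C + 1) := Real.log_nonneg (by linarith)
  set K : ℝ := C₁ * (2 * (C * (L + 1))) * C + C₂ * Real.log (2 * C + 1) + C₂ with hK
  have hK2 : C₂ ≤ K := by
    have h1 : 0 ≤ C₁ * (2 * (C * (L + 1))) * C := by positivity
    have h2 : 0 ≤ C₂ * Real.log (2 * C + 1) := by positivity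
    linarith
  refine ⟨S₁ ∩ S₂, D₀ + 1, K, α, hS₁.inter hS₂, ⟨hz₁, hz₂⟩, by linarith, hα, fun z hz l hl => ?_⟩
  refine CL.fibre_curves G.atlas hι (hS₁S hz.1) hC hC₁ hC₂ hl le_rfl hlines ?_ ?_
    (fun ℓ => rho ι ℓ (2 * C + 1) C₂) (fun ℓ => rho_cont G hι hS ℓ (by linarith) C₂)
    (fun ℓ hℓ p => rho_bound (by linarith) hC₂.le hℓ p) ?_
  · intro p p' hp hp' x x' h h' h1 h2 h3 h4
    exact hdist p p' (by rw [hp]; exact hz.1) (hp.trans hp'.symm) x x' h h' h1 h2 h3 h4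
  · intro h F s r hr hF hh
    exact hdisc z hz.2 h F s r hr hF hh
  · intro k ℓ μ hμ h F s r hF hh h1 h2
    obtain ⟨h3, h4⟩ := rho_curve (C₂ := K) (by linarith) hC₂.le hK2 hμ hF hh h1 h2
    exact ⟨h3, fun s' hs' => (h4 s' hs').2⟩

end Pool.Agent.KRFW
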