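import Pool.Agent.Work.MP_a2bf38_gt.Y.Match

/-!
# Separating linear forms, and matching of unordered tuples with close polynomials
-/

open Finset Pool.Agent.KRFY

namespace Pool.Agent.KRFW

/-- The linear form with the coefficients `(k / K)^j`. -/
noncomputable def nd (σ : Type) [Fintype σ] (K k : ℕ) : σ → ℂ :=
  fun j => ((k : ℂ) / K) ^ (Fintype.equivFin σ j : ℕ)

theorem norm_nd_le {σ : Type} [Fintype σ] {K k : ℕ} (hk : k ≤ K) : ‖nd σ K k‖ ≤ 1 := by
  refine (pi_norm_le_iff_of_nonneg zero_le_one).2 fun j => ?_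
  have h1 : ‖((k : ℂ) / K)‖ ≤ 1 := by
    rw [norm_div, Complex.norm_natCast, Complex.norm_natCast]
    exact div_le_one_of_le₀ (by exact_mod_cast hk) (Nat.cast_nonneg K)
  rw [nd, norm_pow]
  exact pow_le_one₀ (norm_nonneg _) h1

/-- A vector is bounded by the values of enough of the forms. -/
theorem exists_inv (σ : Type) [Fintype σ] (K : ℕ) : ∃ C : ℝ, 0 < C ∧
    ∀ (S : Finset (Fin K)), Fintype.card σ ≤ S.card → ∀ (w : σ → ℂ) (ε : ℝ), 0 ≤ ε →
      (∀ k ∈ S, ‖∑ j, nd σ K k j * w j‖ ≤ ε) → ‖w‖ ≤ C * ε := by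
  classical
  set N := Fintype.card σ with hN
  let e : σ ≃ Fin N := Fintype.equivFin σ
  let V : (Fin N → Fin K) → Matrix (Fin N) (Fin N) ℂ :=
    fun g => Matrix.vandermonde fun r => ((g r : ℕ) : ℂ) / K
  refine ⟨1 + ∑ g : Fin N → Fin K, ∑ j, ∑ r, ‖(V g)⁻¹ j r‖, by positivity, ?_⟩
  intro S hS w ε hε h
  let g : Fin N → Fin K := fun r => S.orderEmbOfCardLe hS r
  have hg : Function.Injective g := fun r r' h => (S.orderEmbOfCardLe hS).injective h
  have hgS : ∀ r, g r ∈ S := fun r => Finset.orderEmbOfCardLe_mem _ hS r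
  have hdet : IsUnit (V g).det := by
    rw [isUnit_iff_ne_zero]
    refine Matrix.det_vandermonde_ne_zero_iff.2 fun r r' h => hg ?_
    have hK : (K : ℂ) ≠ 0 := by
      have : 0 < K := lt_of_le_of_lt (Nat.zero_le _) (g r).2
      exact_mod_cast this.ne'
    have h1 : ((g r : ℕ) : ℂ) = ((g r' : ℕ) : ℂ) := (div_left_inj' hK).1 h
    exact Fin.ext (by exact_mod_cast h1)
  set w' : Fin N → ℂ := fun r => w (e.symm r) with hw'
  have h1 : ∀ r, ‖((V g).mulVec w') r‖ ≤ ε := by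
    intro r
    have h2 : ((V g).mulVec w') r = ∑ j, nd σ K (g r) j * w j := by
      rw [← e.symm.sum_comp]
      simp only [V, Matrix.mulVec, dotProduct, Matrix.vandermonde_apply, hw', nd]
      refine sum_congr rfl fun j _ => ?_
      rw [show Fintype.equivFin σ (e.symm j) = j from e.apply_symm_apply j]
    rw [h2]
    exact h _ (hgS r)
  have h3 : w' = (V g)⁻¹.mulVec ((V g).mulVec w') := by
    rw [Matrix.mulVec_mulVec, Matrix.nonsing_inv_mul _ hdet, Matrix.one_mulVec]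
  have hsum : 0 ≤ ∑ g : Fin N → Fin K, ∑ j, ∑ r, ‖(V g)⁻¹ j r‖ := by positivity
  refine (pi_norm_le_iff_of_nonneg (by positivity)).2 fun i => ?_
  set j := e i with hj
  calc ‖w i‖ = ‖w' j‖ := by rw [hw']; simp [hj]
    _ = ‖∑ r, (V g)⁻¹ j r * ((V g).mulVec w') r‖ := by
        conv_lhs => rw [h3]
        rfl
    _ ≤ ∑ r, ‖(V g)⁻¹ j r‖ * ε := by
        refine (norm_sum_le _ _).trans (sum_le_sum fun r _ => ?_)
        rw [norm_mul]
        exact mul_le_mul_of_nonneg_left (h1 r) (norm_nonneg _)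
    _ = (∑ r, ‖(V g)⁻¹ j r‖) * ε := by rw [sum_mul]
    _ ≤ (1 + ∑ g : Fin N → Fin K, ∑ j, ∑ r, ‖(V g)⁻¹ j r‖) * ε := by
        refine mul_le_mul_of_nonneg_right ?_ hε
        have e1 : ∑ r, ‖(V g)⁻¹ j r‖ ≤ ∑ j, ∑ r, ‖(V g)⁻¹ j r‖ :=
          single_le_sum (f := fun j => ∑ r, ‖(V g)⁻¹ j r‖) (fun _ _ => by positivity)
            (mem_univ j)
        have e2 : ∑ j, ∑ r, ‖(V g)⁻¹ j r‖ ≤ ∑ g : Fin N → Fin K, ∑ j, ∑ r, ‖(V g)⁻¹ j r‖ :=
          single_le_sum (f := fun g => ∑ j, ∑ r, ‖(V g)⁻¹ j r‖) (fun _ _ => by positivity)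
            (mem_univ g)
        linarith

/-- a linear form which is large at finitely many vectors -/
theorem exists_sep (D : ℕ) {σ : Type} [Fintype σ] : ∃ c : ℝ, 0 < c ∧ ∀ v : Fin D → σ → ℂ,
    ∃ u : σ → ℂ, ‖u‖ ≤ 2 ∧ ∀ m, c * ‖v m‖ ≤ ‖∑ j, u j * v m j‖ := by
  classical
  set N := Fintype.card σ with hN
  set K := D * N + 1 with hK
  obtain ⟨C, hC, h⟩ := exists_inv σ K
  refine ⟨(2 * C)⁻¹, by positivity, fun v => ?_⟩
  -- the bad forms for `v m`
  let bad : Fin D → Finset (Fin K) := fun m =>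
    univ.filter fun k : Fin K => ‖∑ j, nd σ K k j * v m j‖ < (2 * C)⁻¹ * ‖v m‖
  have hbad : ∀ m, (bad m).card ≤ N := by
    intro m
    by_contra hc
    have h1 := h (bad m) (by omega) (v m) ((2 * C)⁻¹ * ‖v m‖) (by positivity)
      (fun k hk => (mem_filter.1 hk).2.le)
    have h2 : C * ((2 * C)⁻¹ * ‖v m‖) = ‖v m‖ / 2 := by field_simp
    rw [h2] at h1
    have h3 : ‖v m‖ = 0 := by
      have := norm_nonneg (v m)
      linarith
    have h4 : (bad m).Nonempty := card_pos.1 (by omega)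
    obtain ⟨k, hk⟩ := h4
    have h5 := (mem_filter.1 hk).2
    rw [h3, mul_zero] at h5
    exact absurd h5 (not_lt.2 (norm_nonneg _))
  have hcard : ((univ : Finset (Fin D)).biUnion bad).card < K := by
    calc ((univ : Finset (Fin D)).biUnion bad).card ≤ ∑ m : Fin D, (bad m).card := card_biUnion_le
      _ ≤ ∑ _m : Fin D, N := sum_le_sum fun m _ => hbad m
      _ = D * N := by simp
      _ < K := by omega
  obtain ⟨k, hk⟩ : ∃ k : Fin K, k ∉ (univ : Finset (Fin D)).biUnion bad := by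
    by_contra! hc
    have : (univ : Finset (Fin K)) ⊆ (univ : Finset (Fin D)).biUnion bad := fun k _ => hc k
    have := card_le_card this
    rw [card_univ, Fintype.card_fin] at this
    omega
  refine ⟨nd σ K k, (norm_nd_le k.2.le).trans (by norm_num), fun m => ?_⟩
  by_contra! hc
  exact hk (mem_biUnion.2 ⟨m, mem_univ m, mem_filter.2 ⟨mem_univ k, hc⟩⟩)

theorem match_of_close (D : ℕ) (σ : Type) [Fintype σ] : ∃ α : ℝ, 0 < α ∧ ∀ R : ℝ, 1 ≤ R →
    ∃ C : ℝ, 0 ≤ C ∧ ∀ (X X' : Fin D → σ → ℂ) (η : ℝ), 0 ≤ η → η ≤ 1 → (∀ m, ‖X m‖ ≤ R) →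
      (∀ m, ‖X' m‖ ≤ R) →
      (∀ (u : σ → ℂ) (T : ℂ), ‖u‖ ≤ 2 → ‖T‖ ≤ C →
        ‖∏ m, (T - ∑ j, u j * X m j) - ∏ m, (T - ∑ j, u j * X' m j)‖ ≤ η) →
      ∃ π : Equiv.Perm (Fin D), ∀ m, ‖X (π m) - X' m‖ ≤ C * η ^ α := by
  classical
  obtain ⟨p, α, hα, hα1, hp⟩ := match_roots D
  refine ⟨α, hα, fun R hR => ?_⟩
  set N := Fintype.card σ with hN
  set K := N * D.factorial + 1 with hK
  obtain ⟨C, hC, hinv⟩ := exists_inv σ K
  set ρ : ℝ := N * R + 1 with hρ
  have hR0 : 0 ≤ R := zero_le_one.trans hR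
  have hρ1 : 1 ≤ ρ := by
    have : (0 : ℝ) ≤ N * R := by positivity
    linarith
  refine ⟨ρ + C * (4 * ρ) ^ p, by positivity, ?_⟩
  intro X X' η hη hη1 hX hX' h
  have hbd : ∀ k : Fin K, ∀ w : σ → ℂ, ‖w‖ ≤ R → ‖∑ j, nd σ K k j * w j‖ ≤ ρ - 1 := by
    intro k w hw
    calc ‖∑ j, nd σ K k j * w j‖ ≤ ∑ j, ‖nd σ K k j * w j‖ := norm_sum_le _ _
      _ ≤ ∑ _j : σ, R := by
          refine sum_le_sum fun j _ => ?_
          rw [norm_mul]
          calc ‖nd σ K k j‖ * ‖w j‖ ≤ 1 * R :=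
                mul_le_mul ((norm_le_pi_norm _ j).trans (norm_nd_le k.2.le))
                  ((norm_le_pi_norm w j).trans hw) (norm_nonneg _) zero_le_one
            _ = R := one_mul _
      _ = ρ - 1 := by rw [sum_const, card_univ, nsmul_eq_mul, hρ]; ring
  have h1 : ∀ k : Fin K, ∃ τ : Equiv.Perm (Fin D), ∀ m,
      ‖∑ j, nd σ K k j * X (τ m) j - ∑ j, nd σ K k j * X' m j‖ ≤ (4 * ρ) ^ p * η ^ α := by
    intro k
    refine hp ρ η (fun m => ∑ j, nd σ K k j * X m j) (fun m => ∑ j, nd σ K k j * X' m j) hρ1 hη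
      hη1 (fun m => hbd k _ (hX m)) (fun m => hbd k _ (hX' m)) ?_
    intro z hz
    refine h (nd σ K k) z ((norm_nd_le k.2.le).trans (by norm_num)) (hz.trans ?_)
    have : 0 ≤ C * (4 * ρ) ^ p := by positivity
    linarith
  choose τ hτ using h1
  obtain ⟨π, -, hπ⟩ := Finset.exists_lt_card_fiber_of_mul_lt_card_of_maps_to
    (s := (univ : Finset (Fin K))) (t := (univ : Finset (Equiv.Perm (Fin D)))) (f := τ) (n := N)
    (fun _ _ => mem_univ _) (by
      rw [card_univ, card_univ, Fintype.card_perm, Fintype.card_fin, Fintype.card_fin, hK,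
        Nat.mul_comm N]
      omega)
  refine ⟨π, fun m => ?_⟩
  have h2 := hinv (univ.filter fun k => τ k = π) hπ.le (X (π m) - X' m)
    ((4 * ρ) ^ p * η ^ α) (by positivity) (by
      intro k hk
      have h3 : τ k = π := (mem_filter.1 hk).2
      have h4 := hτ k m
      rw [h3] at h4
      have h5 : ∑ j, nd σ K k j * (X (π m) - X' m) j =
          ∑ j, nd σ K k j * X (π m) j - ∑ j, nd σ K k j * X' m j := by
        simp only [Pi.sub_apply, mul_sub, sum_sub_distrib]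
      rw [h5]
      exact h4)
  refine h2.trans ?_
  have : 0 ≤ ρ * η ^ α := by positivity
  nlinarith

end Pool.Agent.KRFW
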