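import Pool.Agent.Work.MP_a2bf38_gt.W.Defs
import Pool.Agent.Work.MP_a2bf38_gt.W.Match

/-!
# Hölder continuity of holomorphic tuples
-/

open Filter Topology

namespace Pool.Agent.KRFW

theorem norm_sum_mul_le {σ : Type} [Fintype σ] (u x : σ → ℂ) :
    ‖∑ j, u j * x j‖ ≤ Fintype.card σ * (‖u‖ * ‖x‖) := by
  calc ‖∑ j, u j * x j‖ ≤ ∑ j, ‖u j * x j‖ := norm_sum_le _ _
    _ ≤ ∑ _j : σ, ‖u‖ * ‖x‖ := by
        refine Finset.sum_le_sum fun j _ => ?_
        rw [norm_mul]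
        exact mul_le_mul (norm_le_pi_norm u j) (norm_le_pi_norm x j) (norm_nonneg _)
          (norm_nonneg _)
    _ = _ := by rw [Finset.sum_const, Finset.card_univ, nsmul_eq_mul]

/-- Cauchy estimate -/
theorem norm_sub_le_of_bdd {g : ℂ → ℂ} (hg : Differentiable ℂ g) {B : ℝ}
    (hB : ∀ s, ‖s‖ ≤ 3 → ‖g s‖ ≤ B) {s s' : ℂ} (hs : ‖s‖ ≤ 2) (hs' : ‖s'‖ ≤ 2) :
    ‖g s - g s'‖ ≤ B * ‖s - s'‖ := by
  refine Convex.norm_image_sub_le_of_norm_deriv_le (s := Metric.closedBall (0 : ℂ) 2)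
    (fun x _ => hg x) (fun x hx => ?_) (convex_closedBall 0 2) (mem_closedBall_zero_iff.2 hs')
    (mem_closedBall_zero_iff.2 hs)
  have h1 := Complex.norm_deriv_le_of_forall_mem_sphere_norm_le (c := x) (R := 1) one_pos
    hg.diffContOnCl (C := B) fun z hz => hB z (by
      have h2 : ‖z - x‖ = 1 := mem_sphere_iff_norm.1 hz
      have h3 : ‖x‖ ≤ 2 := mem_closedBall_zero_iff.1 hx
      calc ‖z‖ = ‖(z - x) + x‖ := by rw [sub_add_cancel]
        _ ≤ ‖z - x‖ + ‖x‖ := norm_add_le _ _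
        _ ≤ 3 := by linarith)
  rwa [div_one] at h1

theorem holder_tup (D : ℕ) (σ : Type) [Fintype σ] : ∃ α : ℝ, 0 < α ∧ ∀ R : ℝ, 1 ≤ R →
    ∃ C : ℝ, 0 ≤ C ∧ ∀ X : ℂ → Fin D → σ → ℂ, HolTup X → (∀ s, ‖s‖ ≤ 3 → ∀ m, ‖X s m‖ ≤ R) →
      ∀ s s', ‖s'‖ ≤ 1 → ‖s - s'‖ ≤ 1 →
        ∃ π : Equiv.Perm (Fin D), ∀ m, ‖X s (π m) - X s' m‖ ≤ C * ‖s - s'‖ ^ α := by
  obtain ⟨α, hα, hM⟩ := match_of_close D σ
  refine ⟨α, hα, fun R hR => ?_⟩
  obtain ⟨C, hC, hM⟩ := hM R hR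
  have hR0 : 0 ≤ R := zero_le_one.trans hR
  set B : ℝ := max 1 ((C + Fintype.card σ * (2 * R)) ^ D) with hB
  have hB1 : 1 ≤ B := le_max_left _ _
  have hB0 : 0 ≤ B := zero_le_one.trans hB1
  refine ⟨max C (2 * R) * B ^ α, by positivity, fun X hX hXR s s' hs' hss => ?_⟩
  have hs : ‖s‖ ≤ 2 := by
    calc ‖s‖ = ‖(s - s') + s'‖ := by rw [sub_add_cancel]
      _ ≤ ‖s - s'‖ + ‖s'‖ := norm_add_le _ _
      _ ≤ 2 := by linarith
  have hpow : (B * ‖s - s'‖) ^ α = B ^ α * ‖s - s'‖ ^ α := Real.mul_rpow hB0 (norm_nonneg _)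
  by_cases hη : B * ‖s - s'‖ ≤ 1
  · obtain ⟨π, hπ⟩ := hM (X s) (X s') (B * ‖s - s'‖) (by positivity) hη
      (hXR s (by linarith)) (hXR s' (by linarith)) fun u T hu hT => by
        refine norm_sub_le_of_bdd (hX u T) (fun z hz => ?_) hs (by linarith)
        refine le_trans ?_ (le_max_right _ _)
        rw [norm_prod]
        calc ∏ m, ‖T - ∑ j, u j * X z m j‖ ≤
            ∏ _m : Fin D, (C + Fintype.card σ * (2 * R)) := by
              refine Finset.prod_le_prod (fun m _ => norm_nonneg _) fun m _ => ?_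
              refine (norm_sub_le _ _).trans (add_le_add hT ?_)
              refine (norm_sum_mul_le _ _).trans ?_
              have := hXR z hz m
              gcongr
          _ = _ := by rw [Finset.prod_const, Finset.card_univ, Fintype.card_fin]
    refine ⟨π, fun m => (hπ m).trans ?_⟩
    rw [hpow, mul_assoc]
    exact mul_le_mul_of_nonneg_right (le_max_left _ _) (by positivity)
  · refine ⟨1, fun m => ?_⟩
    push Not at hη
    rw [mul_assoc, ← hpow]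
    have h1 : (1 : ℝ) ≤ (B * ‖s - s'‖) ^ α := Real.one_le_rpow hη.le hα.le
    calc ‖X s ((1 : Equiv.Perm (Fin D)) m) - X s' m‖ ≤ ‖X s m‖ + ‖X s' m‖ := norm_sub_le _ _
      _ ≤ R + R := add_le_add (hXR s (by linarith) m) (hXR s' (by linarith) m)
      _ = 2 * R * 1 := by ring
      _ ≤ max C (2 * R) * (B * ‖s - s'‖) ^ α :=
          mul_le_mul (le_max_right _ _) h1 zero_le_one (by positivity)

theorem cont_tup {D : ℕ} {σ : Type} [Fintype σ] {X : ℂ → Fin D → σ → ℂ} (hX : HolTup X)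
    (hb : ∀ R : ℝ, ∃ C : ℝ, ∀ s, ‖s‖ ≤ R → ∀ m, ‖X s m‖ ≤ C) (s : ℂ) {ε : ℝ} (hε : 0 < ε) :
    ∀ᶠ s' in 𝓝 s, ∃ π : Equiv.Perm (Fin D), ∀ m, ‖X s' (π m) - X s m‖ ≤ ε := by
  obtain ⟨α, hα, h1⟩ := holder_tup D σ
  obtain ⟨R, hR⟩ := hb (‖s‖ + 3)
  obtain ⟨C, hC, h2⟩ := h1 (max 1 R) (le_max_left _ _)
  have h3 := h2 (fun z => X (s + z)) (fun u T => by
    have := hX u T
    exact this.comp (differentiable_id.const_add s)) fun z hz m => (hR _ (by
      refine (norm_add_le _ _).trans ?_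
      linarith) m).trans (le_max_right _ _)
  have h4 : Tendsto (fun s' : ℂ => C * ‖s' - s‖ ^ α) (𝓝 s) (𝓝 0) := by
    have h5 : ContinuousAt (fun s' : ℂ => C * ‖s' - s‖ ^ α) s := by
      refine continuousAt_const.mul (ContinuousAt.rpow_const ?_ (Or.inr hα.le))
      fun_prop
    have h6 := h5.tendsto
    simpa [Real.zero_rpow hα.ne'] using h6
  filter_upwards [h4.eventually (ge_mem_nhds hε), Metric.ball_mem_nhds s one_pos] with s' h5 h6
  obtain ⟨π, hπ⟩ := h3 (s' - s) 0 (by simp) (by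
    rw [sub_zero]
    exact (mem_ball_iff_norm.1 h6).le)
  refine ⟨π, fun m => ?_⟩
  have h7 := hπ m
  simp only [add_sub_cancel, add_zero, sub_zero] at h7
  exact h7.trans h5

end Pool.Agent.KRFW
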