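import Pool.Agent.Work.MP_a2bf38_gt.W.SectA
import Pool.Agent.Work.MP_a2bf38_gt.W.MatchB

/-!
# Local holomorphic sections of a holomorphic tuple
-/

open Filter Topology

namespace Pool.Agent.KRFW

/-! ## A zero of a family of polynomials -/

/-- `q b - q a = (b - a) * R` with `R` depending polynomially on everything -/
lemma eval_sub_eval (q : Polynomial ℂ) {n : ℕ} (hq : q.natDegree ≤ n) (a b : ℂ) :
    q.eval b - q.eval a = (b - a) * ∑ i ∈ Finset.range (n + 1), q.coeff i *
      ∑ k ∈ Finset.range i, b ^ k * a ^ (i - 1 - k) := by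
  rw [Polynomial.eval_eq_sum_range' (Nat.lt_succ_of_le hq),
    Polynomial.eval_eq_sum_range' (Nat.lt_succ_of_le hq), ← Finset.sum_sub_distrib,
    Finset.mul_sum]
  refine Finset.sum_congr rfl fun i _ => ?_
  rw [← mul_sub, mul_left_comm, (Commute.all b a).mul_geom_sum₂ i]

lemma eval_derivative_range (q : Polynomial ℂ) {n : ℕ} (hq : q.natDegree ≤ n) (a : ℂ) :
    q.derivative.eval a = ∑ i ∈ Finset.range (n + 1), q.coeff i *
      ∑ k ∈ Finset.range i, a ^ k * a ^ (i - 1 - k) := by
  have h1 : q.derivative.eval a = ∑ i ∈ Finset.range (n + 1), q.coeff i * (i * a ^ (i - 1)) := by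
    conv_lhs => rw [q.as_sum_range' (n + 1) (Nat.lt_succ_of_le hq)]
    rw [Polynomial.derivative_sum, Polynomial.eval_finset_sum]
    refine Finset.sum_congr rfl fun i _ => ?_
    rw [Polynomial.derivative_monomial, Polynomial.eval_monomial, mul_assoc]
  rw [h1]
  refine Finset.sum_congr rfl fun i _ => ?_
  congr 1
  have h2 : ∀ k ∈ Finset.range i, a ^ k * a ^ (i - 1 - k) = a ^ (i - 1) := by
    intro k hk
    rw [← pow_add]
    congr 1
    have := Finset.mem_range.1 hk
    omega
  rw [Finset.sum_congr rfl h2, Finset.sum_const, Finset.card_range, nsmul_eq_mul]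

/-- the product of a differentiable function which vanishes and a continuous function -/
lemma differentiableAt_mul_of_zero {h k : ℂ → ℂ} {s : ℂ} (hh : DifferentiableAt ℂ h s)
    (h0 : h s = 0) (hk : ContinuousAt k s) : DifferentiableAt ℂ (fun t => h t * k t) s := by
  have h1 := hh.hasDerivAt
  refine HasDerivAt.differentiableAt (f' := deriv h s * k s) ?_
  rw [hasDerivAt_iff_tendsto_slope] at h1 ⊢
  have h2 : slope (fun t => h t * k t) s = fun t => slope h s t * k t := by
    funext t
    simp only [slope_def_field, h0, zero_mul, sub_zero]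
    ring
  rw [h2]
  exact h1.mul (hk.tendsto.mono_left nhdsWithin_le_nhds)

/-- **Implicit differentiation.** -/
theorem differentiableAt_root {Q : ℂ → Polynomial ℂ} {n : ℕ} (hn : ∀ s, (Q s).natDegree ≤ n)
    {v : ℂ → ℂ} {s : ℂ} (hQ : ∀ i, DifferentiableAt ℂ (fun t => (Q t).coeff i) s)
    (hv : ContinuousAt v s) (h0 : ∀ᶠ t in 𝓝 s, (Q t).eval (v t) = 0)
    (h1 : (Q s).derivative.eval (v s) ≠ 0) : DifferentiableAt ℂ v s := by
  set a := v s with ha
  let R : ℂ → ℂ := fun t => ∑ i ∈ Finset.range (n + 1), (Q t).coeff i *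
      ∑ k ∈ Finset.range i, v t ^ k * a ^ (i - 1 - k)
  have hR : ContinuousAt R s := by
    refine tendsto_finset_sum _ fun i _ => ?_
    refine ((hQ i).continuousAt.tendsto).mul ?_
    refine tendsto_finset_sum _ fun k _ => ?_
    exact (hv.tendsto.pow k).mul tendsto_const_nhds
  have hRs : R s ≠ 0 := by
    rw [eval_derivative_range (Q s) (hn s)] at h1
    exact h1
  have hRne : ∀ᶠ t in 𝓝 s, R t ≠ 0 := hR.eventually_ne hRs
  have hd : DifferentiableAt ℂ (fun t => (Q t).eval a) s := by
    have : (fun t => (Q t).eval a) = fun t => ∑ i ∈ Finset.range (n + 1), (Q t).coeff i * a ^ i := by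
      funext t
      exact Polynomial.eval_eq_sum_range' (Nat.lt_succ_of_le (hn t)) a
    rw [this]
    exact DifferentiableAt.fun_sum fun i _ => (hQ i).mul_const _
  have hz : (Q s).eval a = 0 := h0.self_of_nhds
  have h2 := differentiableAt_mul_of_zero hd hz (hR.inv₀ hRs)
  have h3 : v =ᶠ[𝓝 s] fun t => a - (Q t).eval a * (R t)⁻¹ := by
    filter_upwards [h0, hRne] with t ht hRt
    have h4 := eval_sub_eval (Q t) (hn t) a (v t)
    rw [ht, zero_sub] at h4
    have h5 : (Q t).eval a = -((v t - a) * R t) := by rw [← h4, neg_neg]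
    rw [h5]
    field_simp
    ring
  exact (h2.const_sub a).congr_of_eventuallyEq h3

/-! ## The characteristic polynomials -/

section Poly

variable {D : ℕ} {σ : Type} [Fintype σ]

/-- the polynomial with the roots `u · X s m` -/
noncomputable def chi (X : ℂ → Fin D → σ → ℂ) (u : σ → ℂ) (s : ℂ) : Polynomial ℂ :=
  ∏ m, (Polynomial.X - Polynomial.C (∑ j, u j * X s m j))

lemma chi_ne_zero (X : ℂ → Fin D → σ → ℂ) (u : σ → ℂ) (s : ℂ) : chi X u s ≠ 0 :=
  (Polynomial.monic_prod_of_monic _ _ fun _ _ => Polynomial.monic_X_sub_C _).ne_zero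

lemma natDegree_chi (X : ℂ → Fin D → σ → ℂ) (u : σ → ℂ) (s : ℂ) :
    (chi X u s).natDegree ≤ D := by
  unfold chi
  rw [Polynomial.natDegree_prod_of_monic _ _ fun _ _ => Polynomial.monic_X_sub_C _]
  refine (Finset.sum_le_sum fun m _ => (Polynomial.natDegree_X_sub_C _).le).trans ?_
  rw [Finset.sum_const, Finset.card_univ, Fintype.card_fin, smul_eq_mul, mul_one]

lemma differentiable_coeff_chi {X : ℂ → Fin D → σ → ℂ} (hX : HolTup X) (u : σ → ℂ) (i : ℕ) :
    Differentiable ℂ fun s => (chi X u s).coeff i := by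
  have h1 : (fun s => (chi X u s).coeff i) = fun s => ∑ t ∈ Finset.range (D + 1),
      (∏ m, ((t : ℂ) - ∑ j, u j * X s m j)) *
        (Lagrange.basis (Finset.range (D + 1)) (fun i : ℕ => (i : ℂ)) t).coeff i := by
    funext s
    exact prod_coeff_interp _ i
  rw [h1]
  exact Differentiable.fun_sum fun t _ => (hX u t).mul_const _

open Classical in
lemma rootMultiplicity_chi (X : ℂ → Fin D → σ → ℂ) (u : σ → ℂ) (s t : ℂ) :
    (chi X u s).rootMultiplicity t = (Finset.univ.filter fun m => t = ∑ j, u j * X s m j).card := by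
  rw [← Polynomial.count_roots]
  unfold chi
  have h1 : (∏ m, (Polynomial.X - Polynomial.C (∑ j, u j * X s m j))) =
      ((Finset.univ.val.map fun m => ∑ j, u j * X s m j).map
        fun a => Polynomial.X - Polynomial.C a).prod := by
    rw [Multiset.map_map]
    rfl
  rw [h1, Polynomial.roots_multiset_prod_X_sub_C, Multiset.count_map]
  rfl

end Poly

/-! ## Sections -/

theorem exists_sections {D : ℕ} {σ : Type} [Fintype σ] {X : ℂ → Fin D → σ → ℂ} (hX : HolTup X)
    (hb : ∀ R : ℝ, ∃ C : ℝ, ∀ s, ‖s‖ ≤ R → ∀ m, ‖X s m‖ ≤ C) : ∃ E : Set ℂ,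
      (∀ s, ∃ δ > 0, ∀ s' ∈ E, s' ≠ s → δ ≤ ‖s' - s‖) ∧ ∀ s ∉ E,
        ∃ r > 0, ∃ g : Fin D → ℂ → σ → ℂ, (∀ m, DifferentiableOn ℂ (g m) (Metric.ball s r)) ∧
          ∀ s' ∈ Metric.ball s r, ∃ π : Equiv.Perm (Fin D), ∀ m, X s' (π m) = g m s' := by
  classical
  obtain ⟨E, r0, hE, hle, heq⟩ := exists_discrete hX
  refine ⟨E, hE, fun s0 hs0 => ?_⟩
  -- separation
  obtain ⟨ε, hε, hsep⟩ : ∃ ε : ℝ, 0 < ε ∧ ∀ m m', X s0 m ≠ X s0 m' →
      2 * ε < ‖X s0 m - X s0 m'‖ := by
    have h1 : ∀ m m' : Fin D, ∀ᶠ ε : ℝ in 𝓝[>] 0, X s0 m ≠ X s0 m' →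
        2 * ε < ‖X s0 m - X s0 m'‖ := by
      intro m m'
      by_cases h : X s0 m = X s0 m'
      · exact Eventually.of_forall fun _ h' => absurd h h'
      · have h2 : 0 < ‖X s0 m - X s0 m'‖ := norm_pos_iff.2 (sub_ne_zero.2 h)
        have h3 : Tendsto (fun ε : ℝ => 2 * ε) (𝓝[>] 0) (𝓝 (2 * 0)) :=
          (tendsto_id.const_mul 2).mono_left nhdsWithin_le_nhds
        rw [mul_zero] at h3
        filter_upwards [h3.eventually_lt_const h2] with ε hε _ using hε
    have h2 := (eventually_all.2 fun m => eventually_all.2 (h1 m)).and self_mem_nhdsWithin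
    obtain ⟨ε, h3, h4⟩ := h2.exists
    exact ⟨ε, h4, h3⟩
  have hsep' : ∀ (p : σ → ℂ) (m m' : Fin D), ‖p - X s0 m‖ ≤ ε → ‖p - X s0 m'‖ ≤ ε →
      X s0 m = X s0 m' := by
    intro p m m' h1 h2
    by_contra h
    have h3 := hsep m m' h
    have h4 : ‖X s0 m - X s0 m'‖ ≤ ‖p - X s0 m‖ + ‖p - X s0 m'‖ := by
      have : X s0 m - X s0 m' = (p - X s0 m') - (p - X s0 m) := by abel
      rw [this, add_comm]
      exact norm_sub_le _ _
    linarith
  -- the ball
  have h1 := cont_tup hX hb s0 (half_pos hε)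
  obtain ⟨r, hr, hball⟩ := Metric.eventually_nhds_iff_ball.1 h1
  choose! π hπ using hball
  -- uniqueness
  have hU : ∀ s' ∈ Metric.ball s0 r, ∀ a m, ‖X s' a - X s0 m‖ ≤ ε → X s' a = X s' (π s' m) := by
    intro s' hs' a m ham
    let φ : (σ → ℂ) → (σ → ℂ) := fun p =>
      if h : ∃ m, ‖p - X s0 m‖ ≤ ε then X s0 h.choose else 0
    have hφ : ∀ p m, ‖p - X s0 m‖ ≤ ε → φ p = X s0 m := by
      intro p m hpm
      have h : ∃ m, ‖p - X s0 m‖ ≤ ε := ⟨m, hpm⟩
      show (if h : ∃ m, ‖p - X s0 m‖ ≤ ε then X s0 h.choose else 0) = X s0 m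
      rw [dif_pos h]
      exact hsep' p _ _ h.choose_spec hpm
    have h2 : Set.range (X s0) ⊆ φ '' Set.range (X s') := by
      rintro _ ⟨m, rfl⟩
      exact ⟨X s' (π s' m), ⟨_, rfl⟩, hφ _ _ ((hπ s' hs' m).trans (by linarith))⟩
    have hfin : (Set.range (X s')).Finite := Set.finite_range _
    have h3 := Set.ncard_le_ncard h2 (hfin.image φ)
    have h4 := Set.ncard_image_le (f := φ) hfin
    have h5 := hle s'
    have h6 := heq s0 hs0
    have h7 : (φ '' Set.range (X s')).ncard = (Set.range (X s')).ncard := by omega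
    have h8 := Set.injOn_of_ncard_image_eq h7 hfin
    refine h8 ⟨a, rfl⟩ ⟨_, rfl⟩ ?_
    rw [hφ _ m ham, hφ _ m ((hπ s' hs' m).trans (by linarith))]
  refine ⟨r, hr, fun m s' => X s' (π s' m), fun m => ?_, fun s' hs' => ⟨π s', fun m => rfl⟩⟩
  -- continuity
  have hcont : ∀ s1 ∈ Metric.ball s0 r, ContinuousAt (fun s' => X s' (π s' m)) s1 := by
    intro s1 hs1
    rw [Metric.continuousAt_iff']
    intro η hη
    have h2 : 0 < min (η / 2) (ε / 2) := lt_min (half_pos hη) (half_pos hε)
    filter_upwards [cont_tup hX hb s1 h2, Metric.isOpen_ball.mem_nhds hs1] with s' hs' hs'b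
    obtain ⟨ρ, hρ⟩ := hs'
    have h3 := hρ (π s1 m)
    have h4 : ‖X s' (ρ (π s1 m)) - X s0 m‖ ≤ ε := by
      have h5 : X s' (ρ (π s1 m)) - X s0 m =
          (X s' (ρ (π s1 m)) - X s1 (π s1 m)) + (X s1 (π s1 m) - X s0 m) := by abel
      rw [h5]
      refine (norm_add_le _ _).trans ?_
      have h6 := hπ s1 hs1 m
      have h7 := h3.trans (min_le_right _ _)
      linarith
    have h5 := hU s' hs'b _ m h4
    rw [dist_eq_norm, ← h5]
    have h6 := h3.trans (min_le_left _ _)
    linarith
  -- differentiability of the linear forms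
  have hlin : ∀ s1 ∈ Metric.ball s0 r, ∀ u : σ → ℂ,
      (∀ a b, ∑ j, u j * X s1 a j = ∑ j, u j * X s1 b j → X s1 a = X s1 b) →
      DifferentiableAt ℂ (fun s' => ∑ j, u j * X s' (π s' m) j) s1 := by
    intro s1 hs1 u hu
    set μ := (Finset.univ.filter fun m' => X s0 m' = X s0 m).card with hμ
    have hμ0 : 0 < μ := Finset.card_pos.2 ⟨m, by simp⟩
    have hg : ∀ s' ∈ Metric.ball s0 r, ∀ m', X s0 m' = X s0 m → X s' (π s' m') = X s' (π s' m) := by
      intro s' hs' m' hm'
      refine hU s' hs' _ m ?_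
      rw [← hm']
      exact (hπ s' hs' m').trans (by linarith)
    have hge : ∀ s' ∈ Metric.ball s0 r,
        μ ≤ (chi X u s').rootMultiplicity (∑ j, u j * X s' (π s' m) j) := by
      intro s' hs'
      rw [rootMultiplicity_chi]
      refine Finset.card_le_card_of_injOn (fun m' => π s' m') ?_ ((π s').injective.injOn)
      intro m' hm'
      rw [Finset.coe_filter, Set.mem_setOf_eq] at hm' ⊢
      refine ⟨Finset.mem_univ _, ?_⟩
      rw [hg s' hs' m' hm'.2]
    have heq1 : (chi X u s1).rootMultiplicity (∑ j, u j * X s1 (π s1 m) j) = μ := by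
      refine le_antisymm ?_ (hge s1 hs1)
      rw [rootMultiplicity_chi]
      refine Finset.card_le_card_of_injOn (fun a => (π s1).symm a) ?_ ((π s1).symm.injective.injOn)
      intro a ha
      rw [Finset.coe_filter, Set.mem_setOf_eq] at ha ⊢
      refine ⟨Finset.mem_univ _, ?_⟩
      have h2 := hu _ _ ha.2
      have h3 := hπ s1 hs1 ((π s1).symm a)
      rw [Equiv.apply_symm_apply] at h3
      have h4 := hπ s1 hs1 m
      rw [h2] at h4
      exact hsep' (X s1 a) _ _ (h3.trans (by linarith)) (h4.trans (by linarith))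
    have h2 : ∀ s', (Polynomial.derivative^[μ - 1] (chi X u s')).natDegree ≤ D := fun s' =>
      (Polynomial.natDegree_iterate_derivative _ _).trans
        ((Nat.sub_le _ _).trans (natDegree_chi X u s'))
    refine differentiableAt_root (Q := fun s' => Polynomial.derivative^[μ - 1] (chi X u s')) h2
      ?_ ?_ ?_ ?_
    · intro i
      have h3 : (fun t => (Polynomial.derivative^[μ - 1] (chi X u t)).coeff i) = fun t =>
          (i + (μ - 1)).descFactorial (μ - 1) • (chi X u t).coeff (i + (μ - 1)) := by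
        funext t
        exact Polynomial.coeff_iterate_derivative _ _
      rw [h3]
      exact ((differentiable_coeff_chi hX u _) s1).const_smul _
    · refine tendsto_finset_sum _ fun j _ => ?_
      exact tendsto_const_nhds.mul ((continuousAt_pi.1 (hcont s1 hs1) j).tendsto)
    · filter_upwards [Metric.isOpen_ball.mem_nhds hs1] with t ht
      exact Polynomial.isRoot_iterate_derivative_of_lt_rootMultiplicity
        (lt_of_lt_of_le (by omega) (hge t ht))
    · have h3 : Polynomial.derivative (Polynomial.derivative^[μ - 1] (chi X u s1)) =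
          Polynomial.derivative^[μ] (chi X u s1) := by
        rw [← Function.iterate_succ_apply' Polynomial.derivative]
        congr 2
        omega
      rw [h3]
      have h4 := Polynomial.eval_iterate_derivative_rootMultiplicity (p := chi X u s1)
        (t := ∑ j, u j * X s1 (π s1 m) j)
      have h5 := Polynomial.eval_divByMonic_pow_rootMultiplicity_ne_zero
        (p := chi X u s1) (∑ j, u j * X s1 (π s1 m) j) (chi_ne_zero X u s1)
      rw [heq1] at h4 h5
      rw [h4, nsmul_eq_mul]
      exact mul_ne_zero (Nat.cast_ne_zero.2 (Nat.factorial_ne_zero _)) h5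
  -- all coordinates
  intro s1 hs1
  refine DifferentiableAt.differentiableWithinAt ?_
  rw [differentiableAt_pi]
  intro i
  obtain ⟨u, hu⟩ := exists_separating (Finset.univ.image (X s1))
  have hu' : ∀ a b, ∑ j, u j * X s1 a j = ∑ j, u j * X s1 b j → X s1 a = X s1 b :=
    fun a b h => hu _ (Finset.mem_image_of_mem _ (Finset.mem_univ _)) _
      (Finset.mem_image_of_mem _ (Finset.mem_univ _)) h
  have hexp : ∀ (t : ℂ) (x : σ → ℂ), ∑ j, (u j + if j = i then t else 0) * x j =
      ∑ j, u j * x j + t * x i := by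
    intro t x
    simp only [add_mul, Finset.sum_add_distrib, ite_mul, zero_mul, Finset.sum_ite_eq',
      Finset.mem_univ, if_true]
  obtain ⟨t, ht, ht0⟩ : ∃ t : ℂ, (∀ a b, X s1 a ≠ X s1 b →
      ∑ j, (u j + if j = i then t else 0) * X s1 a j ≠
        ∑ j, (u j + if j = i then t else 0) * X s1 b j) ∧ t ≠ 0 := by
    have h2 : ∀ a b : Fin D, ∀ᶠ t : ℂ in 𝓝[≠] 0, X s1 a ≠ X s1 b →
        ∑ j, (u j + if j = i then t else 0) * X s1 a j ≠
          ∑ j, (u j + if j = i then t else 0) * X s1 b j := by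
      intro a b
      by_cases h : X s1 a = X s1 b
      · exact Eventually.of_forall fun _ h' => absurd h h'
      · have h3 : (∑ j, u j * X s1 a j + 0 * X s1 a i) - (∑ j, u j * X s1 b j + 0 * X s1 b i) ≠ 0 := by
          rw [zero_mul, zero_mul, add_zero, add_zero]
          exact sub_ne_zero.2 fun h' => h (hu' a b h')
        have h4 : Continuous fun t : ℂ =>
            (∑ j, u j * X s1 a j + t * X s1 a i) - (∑ j, u j * X s1 b j + t * X s1 b i) := by
          fun_prop
        have h5 := (h4.continuousAt (x := 0)).eventually_ne h3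
        filter_upwards [h5.filter_mono nhdsWithin_le_nhds] with t ht _
        rw [hexp, hexp]
        exact sub_ne_zero.1 ht
    have h3 := (eventually_all.2 fun a => eventually_all.2 (h2 a)).and self_mem_nhdsWithin
    exact h3.exists
  have d1 := hlin s1 hs1 u hu'
  have d2 := hlin s1 hs1 (fun j => u j + if j = i then t else 0) fun a b h => by
    by_contra hne
    exact ht a b hne h
  have h3 : (fun s' => X s' (π s' m) i) = fun s' => t⁻¹ *
      (∑ j, (u j + if j = i then t else 0) * X s' (π s' m) j - ∑ j, u j * X s' (π s' m) j) := by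
    funext s'
    rw [hexp]
    field_simp
    ring
  rw [h3]
  exact (d2.sub d1).const_mul _

end Pool.Agent.KRFW
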