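import Pool.Agent.Work.MP_a2bf38_gt.W.GeoDefs
import Pool.Agent.Work.MP_a2bf38_gt.W.SectB
import Pool.Agent.Work.MP_a2bf38_gt.Z.NatC
import Pool.Agent.Work.MP_a2bf38_gt.Z.Curve

/-!
# Curves in the fibres over a small open set: the assembly
-/

open scoped ContDiff ENNReal ComplexOrder LinearAlgebra.Projectivization Topology
open Set Filter Pool.Agent.ToricKRF Pool.Agent.ToricKRF.G Pool.Agent.KRFS Pool.Agent.KRFF
  Pool.Agent.KRFG Pool.Agent.KRFZ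

namespace Pool.Agent.KRFW

namespace CL

theorem nn_le_norm {L : ℕ} (v : Fin L → ℂ) : nn v ≤ L * ‖v‖ ^ 2 := by
  have h : ∀ i ∈ (Finset.univ : Finset (Fin L)), ‖v i‖ ^ 2 ≤ ‖v‖ ^ 2 := fun i _ =>
    pow_le_pow_left₀ (norm_nonneg _) (norm_le_pi_norm v i) 2
  refine (Finset.sum_le_card_nsmul _ _ _ h).trans ?_
  rw [nsmul_eq_mul, Finset.card_univ, Fintype.card_fin]

theorem norm_le_nn {L : ℕ} (v : Fin L → ℂ) : ‖v‖ ^ 2 ≤ nn v := by
  have h0 : 0 ≤ nn v := Finset.sum_nonneg fun _ _ => by positivity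
  have h1 : ‖v‖ ≤ √(nn v) := by
    refine (pi_norm_le_iff_of_nonneg (Real.sqrt_nonneg _)).2 fun i => ?_
    refine Real.le_sqrt_of_sq_le ?_
    exact Finset.single_le_sum (f := fun i => ‖v i‖ ^ 2) (fun _ _ => by positivity)
      (Finset.mem_univ i)
  calc ‖v‖ ^ 2 ≤ √(nn v) ^ 2 := pow_le_pow_left₀ (norm_nonneg _) h1 2
    _ = nn v := Real.sq_sqrt h0

theorem nn_zero {L : ℕ} : nn (0 : Fin L → ℂ) = 0 := by simp [nn]

/-- normalized vectors -/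
theorem norm_normalize {V : Type*} [NormedAddCommGroup V] [NormedSpace ℝ V] {x x' : V}
    (hx : x ≠ 0) (hx' : x' ≠ 0) : ‖‖x‖⁻¹ • x - ‖x'‖⁻¹ • x'‖ ≤ 2 * ‖x - x'‖ / ‖x'‖ := by
  have h1 : 0 < ‖x‖ := norm_pos_iff.2 hx
  have h2 : 0 < ‖x'‖ := norm_pos_iff.2 hx'
  have h3 : ‖x‖⁻¹ • x - ‖x'‖⁻¹ • x' = (‖x‖⁻¹ - ‖x'‖⁻¹) • x + ‖x'‖⁻¹ • (x - x') := by
    rw [sub_smul, smul_sub]
    abel
  have h4 : ‖(‖x‖⁻¹ - ‖x'‖⁻¹) • x‖ ≤ ‖x - x'‖ / ‖x'‖ := by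
    rw [norm_smul, Real.norm_eq_abs]
    have h5 : ‖x‖⁻¹ - ‖x'‖⁻¹ = (‖x'‖ - ‖x‖) / (‖x‖ * ‖x'‖) := by
      field_simp
    rw [h5, abs_div, abs_of_pos (mul_pos h1 h2)]
    have h6 : |‖x'‖ - ‖x‖| ≤ ‖x - x'‖ := by
      rw [norm_sub_rev]
      exact abs_norm_sub_norm_le _ _
    calc |‖x'‖ - ‖x‖| / (‖x‖ * ‖x'‖) * ‖x‖ = |‖x'‖ - ‖x‖| / ‖x'‖ := by field_simp
      _ ≤ _ := div_le_div_of_nonneg_right h6 h2.le
  rw [h3]
  refine (norm_add_le _ _).trans ?_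
  have h7 : ‖‖x'‖⁻¹ • (x - x')‖ = ‖x - x'‖ / ‖x'‖ := by
    rw [norm_smul, norm_inv, norm_norm]
    ring
  rw [h7]
  calc _ ≤ ‖x - x'‖ / ‖x'‖ + ‖x - x'‖ / ‖x'‖ := add_le_add_left h4 _
    _ = _ := by ring

theorem mk_smul_eq {L : ℕ} {x : Fin L → ℂ} (h : x ≠ 0) {c : ℂ} (hc : c ≠ 0) (h' : c • x ≠ 0) :
    Projectivization.mk ℂ (c • x) h' = Projectivization.mk ℂ x h :=
  (Projectivization.mk_eq_mk_iff' ℂ _ _ h' h).2 ⟨c, rfl⟩

theorem exists_radius {D : ℕ} {r : ℝ} (hr : 0 < r) {r' : Fin D → ℝ} (hr' : ∀ i, 0 < r' i) :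
    ∃ ρ > 0, ρ ≤ r ∧ ∀ i, ρ ≤ r' i := by
  have h1 : ∀ᶠ x in 𝓝[>] (0 : ℝ), ∀ i, x ≤ r' i :=
    eventually_all.2 fun i => by
      filter_upwards [Ioo_mem_nhdsGT (hr' i)] with x hx
      exact hx.2.le
  have h2 : ∀ᶠ x in 𝓝[>] (0 : ℝ), 0 < x ∧ x ≤ r := by
    filter_upwards [Ioo_mem_nhdsGT hr] with x hx
    exact ⟨hx.1, hx.2.le⟩
  obtain ⟨x, hx1, hx2, hx3⟩ := (h1.and h2).exists
  exact ⟨x, hx2, hx3, hx1⟩

theorem lev_zero_dir {n : ℕ} (g : ℝ × Cn n → ℝ) (q : ℝ × Cn n) : lev g 0 q = 0 := by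
  have h1 : J (0 : Cn n) = 0 := Prod.ext (by simp [J]) (by simp [J])
  have h2 : ((0 : ℝ), (0 : Cn n)) = 0 := rfl
  have h3 : ∀ g : ℝ × Cn n → ℝ, ∀ q, D (0 : ℝ × Cn n) g q = 0 := fun g q => by
    rw [D, map_zero]
  rw [lev, h1, h2, h3, add_zero, zero_div]

section

variable {M Z : Type} [MetricSpace M] [MetricSpace Z] {n N : ℕ} {κ P : Type}
  {e : κ → OpenPartialHomeomorph M (Cn n)} {U : P → Set Z} {q : P → Z → Cn N} {f : M → Z}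
  {ψ : κ → ℝ × Cn n → ℝ}

/-- the constant curve -/
theorem isCurve_const (he : IsAtlas e) {A : Set M} {C l α : ℝ} (hC : 0 ≤ C) (hl : 0 ≤ l) {p : M}
    (hp : p ∈ A) : KRFZ.IsCurve e ψ A C l α (fun _ (_ : Fin 1) => p) (fun _ => 0) 0 0 := by
  obtain ⟨c, hc⟩ := he.cover p
  refine ⟨fun _ _ => hp, fun s ε hε => Eventually.of_forall fun _ => ⟨1, fun _ => by
      rw [dist_self]
      exact hε.le⟩, fun s₂ _ s _ => ⟨1, fun _ => by
      rw [dist_self]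
      exact mul_nonneg (Real.exp_pos _).le (Real.rpow_nonneg (norm_nonneg _) _)⟩,
    continuousOn_const, fun _ _ => by
      rw [abs_zero]
      exact mul_nonneg hC hl, ∅, fun s => ⟨1, one_pos, fun _ h => h.elim⟩, fun s _ => ?_⟩
  refine ⟨1, fun _ => c, fun _ _ => e c p, one_pos, fun _ => ⟨contDiffOn_const, fun s _ => ?_⟩,
    fun _ _ _ => (e c).map_source hc, fun _ _ => ⟨1, fun _ => ((e c).left_inv hc).symm⟩,
    fun _ => contDiffOn_const, fun _ s' _ => ?_⟩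
  · rw [fderiv_fun_const]
    change (0 : Cn n) = J 0
    exact Prod.ext (by simp [J]) (by simp [J])
  · rw [fderiv_fun_const]
    have h1 : lev (ψ c) ((0 : ℂ →L[ℝ] Cn n) 1) (0, e c p) = 0 := lev_zero_dir _ _
    have h2 : (fun s' : ℂ => C * Real.log (1 + ‖s'‖ ^ 2) + 0) =
        fun s' => C * Real.log (1 + Complex.normSq s') := by
      funext s'
      rw [Complex.normSq_eq_norm_sq, add_zero]
    have h3 : ContDiffAt ℝ 2 (fun ζ : ℂ => Real.log (1 + Complex.normSq ζ)) s' := by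
      refine (contDiffAt_const.add (Curve.contDiff_nsq.contDiffAt.of_le (by norm_cast))).log ?_
      have := Complex.normSq_nonneg s'
      positivity
    rw [h2, HB.lapC_const_mul _ h3, Curve.lapC_log]
    have h4 : 0 ≤ C * (4 / (1 + Complex.normSq s') ^ 2) := by
      refine mul_nonneg hC ?_
      positivity
    change 4 * lev (ψ c) ((0 : ℂ →L[ℝ] Cn n) 1) (0, e c p) ≤ _
    rw [h1]
    linarith

/-- the conclusion of `W/Metric` on one fibre -/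
def DistLe (f : M → Z) {L : ℕ} (ι : M → ℙ ℂ (Fin (L + 1) → ℂ)) (C : ℝ) (z : Z) : Prop :=
  ∀ p p', f p = z → f p' = z → ∀ (x x' : Fin (L + 1) → ℂ) (h : x ≠ 0) (h' : x' ≠ 0),
    ι p = Projectivization.mk ℂ x h → ι p' = Projectivization.mk ℂ x' h' →
    ‖x‖ = 1 → ‖x'‖ = 1 → dist p p' ≤ C * ‖x - x'‖

/-- the conclusion of `W/Disc` on one fibre -/
def Discs (e : κ → OpenPartialHomeomorph M (Cn n)) (ψ : κ → ℝ × Cn n → ℝ) (f : M → Z) {L : ℕ}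
    (ι : M → ℙ ℂ (Fin (L + 1) → ℂ)) (C : ℝ) (z : Z) : Prop :=
  ∀ (h : ℂ → M) (F : ℂ → Fin (L + 1) → ℂ) (s : ℂ) (r : ℝ), 0 < r →
    DifferentiableOn ℂ F (Metric.ball s r) →
    (∀ s' ∈ Metric.ball s r, f (h s') = z ∧
      ∃ h0 : F s' ≠ 0, ι (h s') = Projectivization.mk ℂ (F s') h0) →
    ∃ (r' : ℝ) (c : κ) (g : ℂ → Cn n), 0 < r' ∧ r' ≤ r ∧ HolD g (Metric.ball s r') ∧
      (∀ s' ∈ Metric.ball s r', g s' ∈ (e c).target ∧ h s' = (e c).symm (g s')) ∧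
      ∀ s' ∈ Metric.ball s r', 4 * lev (ψ c) (fderiv ℝ g s' 1) (0, g s') ≤
        C * lapC (fun s' => Real.log (nn (F s'))) s'

/-- one curve -/
theorem isCurve_of {L : ℕ} {ι : M → ℙ ℂ (Fin (L + 1) → ℂ)} {z : Z} {V : Set (Fin (L + 1) → ℂ)}
    {C₁ C₂ C K α l : ℝ} (hC₁ : 0 < C₁) (hC : 1 ≤ C) (hl : 1 ≤ l)
    (hK : C₁ * (2 * (C * (L + 1))) * C ≤ K)
    (hdist : DistLe f ι C₁ z) (hdisc : Discs e ψ f ι C₂ z) {D k : ℕ}
    {X : ℂ → Fin D → Fin (L + 1) → ℂ} {ℓ : Fin k → Fin (L + 1) → ℂ} {μ : ℝ}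
    (hX : IsLine V C α X ℓ μ) {γ : ℂ → Fin D → M}
    (hγ : ∀ s i (x : Fin (L + 1) → ℂ) (hx : x ≠ 0), x = X s i →
      f (γ s i) = z ∧ ι (γ s i) = Projectivization.mk ℂ x hx)
    (hinj : ∀ p p', f p = z → f p' = z → ι p = ι p' → p = p')
    {s₀ s₁ : ℂ} (hs₀ : ‖s₀‖ ≤ 1) (hs₁ : ‖s₁‖ ≤ 1) {ρ : M → ℝ} (hρc : ContinuousOn ρ (f ⁻¹' {z}))
    (hρb : ∀ p, |ρ p| ≤ K * l)
    (hρ : ∀ (h : ℂ → M) (F : ℂ → Fin (L + 1) → ℂ) (s : ℂ) (r : ℝ),
      DifferentiableOn ℂ F (Metric.ball s r) →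
      (∀ s' ∈ Metric.ball s r, ∃ h0 : F s' ≠ 0, ι (h s') = Projectivization.mk ℂ (F s') h0) →
      (∀ s' ∈ Metric.ball s r, nl ℓ (F s') = μ * (1 + ‖s'‖ ^ 2)) →
      (∀ s' ∈ Metric.ball s r, nn (F s') < (2 * C + 1) * nl ℓ (F s')) →
      ContDiffOn ℝ ∞ (fun s' => ρ (h s')) (Metric.ball s r) ∧
      ∀ s' ∈ Metric.ball s r, C₂ * lapC (fun s' => Real.log (nn (F s'))) s' ≤
          lapC (fun s' => K * Real.log (1 + ‖s'‖ ^ 2) + ρ (h s')) s') :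
    KRFZ.IsCurve e ψ (f ⁻¹' {z}) K l α γ ρ s₀ s₁ := by
  have hC0 : 0 < C := by linarith
  have hL : (0 : ℝ) < L + 1 := by positivity
  have hX0 : ∀ s i, X s i ≠ 0 := by
    intro s i h0
    have h1 := hX.lower s i
    rw [h0, nn_zero, mul_zero] at h1
    have h2 : 0 ≤ ‖s‖ ^ 2 := by positivity
    linarith
  have hnorm : ∀ s i, 1 ≤ C * (L + 1) * ‖X s i‖ := by
    intro s i
    have h1 := hX.lower s i
    have h2 := nn_le_norm (X s i)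
    push_cast at h2
    have h3 : 0 ≤ ‖s‖ ^ 2 := by positivity
    have h4 : C * nn (X s i) ≤ C * ((L + 1) * ‖X s i‖ ^ 2) := mul_le_mul_of_nonneg_left h2 hC0.le
    have h5 : 1 ≤ C * (L + 1) * ‖X s i‖ ^ 2 := by linarith
    have h6 : 1 ≤ C * (L + 1) := by
      have : (0 : ℝ) ≤ L := Nat.cast_nonneg L
      nlinarith
    by_contra hlt
    push Not at hlt
    have h7 : (C * (L + 1) * ‖X s i‖) ^ 2 < 1 := by
      have : 0 ≤ C * (L + 1) * ‖X s i‖ := by positivity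
      nlinarith
    have h8 : (C * (L + 1) * ‖X s i‖) ^ 2 = C * (L + 1) * (C * (L + 1) * ‖X s i‖ ^ 2) := by ring
    nlinarith
  have hd : ∀ s s' i j, dist (γ s' j) (γ s i) ≤
      C₁ * (2 * (C * (L + 1))) * ‖X s' j - X s i‖ := by
    intro s s' i j
    have hx := hX0 s' j
    have hx' := hX0 s i
    have hn : 0 < ‖X s' j‖ := norm_pos_iff.2 hx
    have hn' : 0 < ‖X s i‖ := norm_pos_iff.2 hx'
    have e1 : ∀ y : Fin (L + 1) → ℂ, ‖y‖⁻¹ • y = ((‖y‖⁻¹ : ℝ) : ℂ) • y := fun y => by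
      ext i
      simp
    have h1 : ((‖X s' j‖⁻¹ : ℝ) : ℂ) ≠ 0 := by
      exact_mod_cast (inv_pos.2 hn).ne'
    have h1' : ((‖X s i‖⁻¹ : ℝ) : ℂ) ≠ 0 := by
      exact_mod_cast (inv_pos.2 hn').ne'
    have h2 : ‖X s' j‖⁻¹ • X s' j ≠ 0 := by
      rw [e1]
      exact smul_ne_zero h1 hx
    have h2' : ‖X s i‖⁻¹ • X s i ≠ 0 := by
      rw [e1]
      exact smul_ne_zero h1' hx'
    obtain ⟨h3, h4⟩ := hγ s' j _ hx rfl
    obtain ⟨h3', h4'⟩ := hγ s i _ hx' rfl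
    have h5 := hdist (γ s' j) (γ s i) h3 h3' _ _ h2 h2'
      (by
        rw [h4, Projectivization.mk_eq_mk_iff']
        refine ⟨((‖X s' j‖ : ℝ) : ℂ), ?_⟩
        rw [e1, smul_smul, ← Complex.ofReal_mul, mul_inv_cancel₀ hn.ne', Complex.ofReal_one,
          one_smul])
      (by
        rw [h4', Projectivization.mk_eq_mk_iff']
        refine ⟨((‖X s i‖ : ℝ) : ℂ), ?_⟩
        rw [e1, smul_smul, ← Complex.ofReal_mul, mul_inv_cancel₀ hn'.ne', Complex.ofReal_one,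
          one_smul])
      (by rw [norm_smul, norm_inv, norm_norm, inv_mul_cancel₀ hn.ne'])
      (by rw [norm_smul, norm_inv, norm_norm, inv_mul_cancel₀ hn'.ne'])
    refine h5.trans ?_
    have h6 := norm_normalize hx hx'
    have h7 : 2 * ‖X s' j - X s i‖ / ‖X s i‖ ≤ 2 * (C * (L + 1)) * ‖X s' j - X s i‖ := by
      rw [div_le_iff₀ hn']
      have h8 := hnorm s i
      have h9 : 0 ≤ 2 * ‖X s' j - X s i‖ := by positivity
      calc 2 * ‖X s' j - X s i‖ = 2 * ‖X s' j - X s i‖ * 1 := by ring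
        _ ≤ 2 * ‖X s' j - X s i‖ * (C * (L + 1) * ‖X s i‖) := mul_le_mul_of_nonneg_left h8 h9
        _ = _ := by ring
    calc C₁ * _ ≤ C₁ * (2 * (C * (L + 1)) * ‖X s' j - X s i‖) :=
          mul_le_mul_of_nonneg_left (h6.trans h7) hC₁.le
      _ = _ := by ring
  have hb : ∀ R : ℝ, ∃ B : ℝ, ∀ s, ‖s‖ ≤ R → ∀ m, ‖X s m‖ ≤ B := by
    intro R
    refine ⟨C * (1 + R ^ 2) + 1, fun s hs m => ?_⟩
    have h1 := norm_le_nn (X s m)
    have h2 := hX.upper s m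
    have h3 : ‖s‖ ^ 2 ≤ R ^ 2 := pow_le_pow_left₀ (norm_nonneg _) hs 2
    have h4 : C * (1 + ‖s‖ ^ 2) ≤ C * (1 + R ^ 2) := mul_le_mul_of_nonneg_left (by linarith) hC0.le
    nlinarith [norm_nonneg (X s m)]
  refine ⟨fun s i => (hγ s i _ (hX0 s i) rfl).1, ?_, ?_, hρc, fun p _ => hρb p, ?_⟩
  · intro s ε hε
    have hH : 0 < C₁ * (2 * (C * (L + 1))) := by positivity
    filter_upwards [cont_tup hX.hol hb s (div_pos hε hH)] with s' hs'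
    obtain ⟨σ, hσ⟩ := hs'
    refine ⟨σ, fun i => (hd s s' i (σ i)).trans ?_⟩
    calc C₁ * (2 * (C * (L + 1))) * ‖X s' (σ i) - X s i‖ ≤
          C₁ * (2 * (C * (L + 1))) * (ε / (C₁ * (2 * (C * (L + 1))))) :=
          mul_le_mul_of_nonneg_left (hσ i) hH.le
      _ = ε := by field_simp
  · intro s₂ hs₂ s hs
    have h1 : ‖s₂‖ ≤ 1 := by
      rcases hs₂ with rfl | rfl
      · exact hs₀
      · exact hs₁
    obtain ⟨σ, hσ⟩ := hX.holder s s₂ h1 hs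
    refine ⟨σ, fun i => (hd s₂ s i (σ i)).trans ?_⟩
    have h8 : 0 ≤ ‖s - s₂‖ ^ α := Real.rpow_nonneg (norm_nonneg _) _
    have h9 : C₁ * (2 * (C * (L + 1))) * C ≤ Real.exp (K * l) := by
      have h10 := Real.add_one_le_exp (K * l)
      have h11 : 0 ≤ K := by
        have : 0 ≤ C₁ * (2 * (C * (L + 1))) * C := by positivity
        linarith
      nlinarith
    calc C₁ * (2 * (C * (L + 1))) * ‖X s (σ i) - X s₂ i‖ ≤
          C₁ * (2 * (C * (L + 1))) * (C * ‖s - s₂‖ ^ α) :=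
          mul_le_mul_of_nonneg_left (hσ i) (by positivity)
      _ = C₁ * (2 * (C * (L + 1))) * C * ‖s - s₂‖ ^ α := by ring
      _ ≤ _ := mul_le_mul_of_nonneg_right h9 h8
  · obtain ⟨E, hE, hsec⟩ := exists_sections hX.hol hb
    refine ⟨E, hE, fun s hs => ?_⟩
    obtain ⟨r, hr, g, hg, hgX⟩ := hsec s hs
    have hgX' : ∀ i, ∀ s' ∈ Metric.ball s r, ∃ j, g i s' = X s' j := by
      intro i s' hs'
      obtain ⟨σ, hσ⟩ := hgX s' hs'
      exact ⟨σ i, (hσ i).symm⟩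
    choose! jj hjj using hgX'
    -- the point of `M`
    set h : Fin D → ℂ → M := fun i s' => γ s' (jj i s') with hh
    have hh1 : ∀ i, ∀ s' ∈ Metric.ball s r, f (h i s') = z ∧
        ∃ h0 : g i s' ≠ 0, ι (h i s') = Projectivization.mk ℂ (g i s') h0 := by
      intro i s' hs'
      have h0 : g i s' ≠ 0 := by
        rw [hjj i s' hs']
        exact hX0 _ _
      obtain ⟨h1, h2⟩ := hγ s' (jj i s') _ h0 (hjj i s' hs')
      exact ⟨h1, h0, h2⟩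
    choose r' c g' hr' hr'r hg' hm hlev using fun i =>
      hdisc (h i) (g i) s r hr (hg i) (hh1 i)
    obtain ⟨r₀, hr₀, hr₀r, hr₀'⟩ := exists_radius hr hr'
    have hb1 : Metric.ball s r₀ ⊆ Metric.ball s r := Metric.ball_subset_ball hr₀r
    have hb' : ∀ i, Metric.ball s r₀ ⊆ Metric.ball s (r' i) := fun i =>
      Metric.ball_subset_ball (hr₀' i)
    have hR : ∀ i, ContDiffOn ℝ ∞ (fun s' => ρ (h i s')) (Metric.ball s r₀) ∧
        ∀ s' ∈ Metric.ball s r₀, C₂ * lapC (fun s' => Real.log (nn (g i s'))) s' ≤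
          lapC (fun s' => K * Real.log (1 + ‖s'‖ ^ 2) + ρ (h i s')) s' := by
      intro i
      refine hρ (h i) (g i) s r₀ ((hg i).mono hb1) (fun s' hs' => (hh1 i s' (hb1 hs')).2) ?_ ?_
      · intro s' hs'
        rw [hjj i s' (hb1 hs')]
        exact hX.form _ _
      · intro s' hs'
        rw [hjj i s' (hb1 hs'), hX.form]
        have h1 := hX.upper s' (jj i s')
        have h2 := hX.mu.1
        have h3 : 0 < 1 + ‖s'‖ ^ 2 := by positivity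
        have h4 : (2 * C + 1) * (1 / 2) ≤ (2 * C + 1) * μ :=
          mul_le_mul_of_nonneg_left h2 (by linarith)
        calc nn (X s' (jj i s')) ≤ C * (1 + ‖s'‖ ^ 2) := h1
          _ < (2 * C + 1) * μ * (1 + ‖s'‖ ^ 2) := mul_lt_mul_of_pos_right (by linarith) h3
          _ = _ := by ring
    refine ⟨r₀, c, g', hr₀, fun i => (hg' i).mono (hb' i), fun i s' hs' => (hm i s' (hb' i hs')).1,
      ?_, ?_, ?_⟩
    · intro s' hs'
      obtain ⟨σ, hσ⟩ := hgX s' (hb1 hs')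
      refine ⟨σ, fun i => ?_⟩
      rw [← (hm i s' (hb' i hs')).2]
      obtain ⟨h1, h2, h3⟩ := hh1 i s' (hb1 hs')
      obtain ⟨h4, h5⟩ := hγ s' (σ i) _ h2 (hσ i).symm
      exact hinj _ _ h4 h1 (h5.trans h3.symm)
    · intro i
      exact (hR i).1.congr fun s' hs' => by rw [← (hm i s' (hb' i hs')).2]
    · intro i s' hs'
      refine (hlev i s' (hb' i hs')).trans (((hR i).2 s' hs').trans (le_of_eq ?_))
      refine lapC_congr ?_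
      filter_upwards [Metric.isOpen_ball.mem_nhds hs'] with ζ hζ
      rw [← (hm i ζ (hb' i hζ)).2]

/-- the curves of one fibre -/
theorem fibre_curves (he : IsAtlas e) {S : Set Z} {L d : ℕ} {ι : M → ℙ ℂ (Fin (L + 1) → ℂ)}
    (hι : IsProjOver e U q f S ι d) {z : Z} (hz : z ∈ S) {D₀ : ℕ} {C α C₁ C₂ K l : ℝ}
    (hC : 1 ≤ C) (hC₁ : 0 < C₁) (hC₂ : 0 < C₂) (hl : 1 ≤ l)
    (hK : C₁ * (2 * (C * (L + 1))) * C + C₂ * Real.log (2 * C + 1) + C₂ ≤ K)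
    (hlines : ∀ T : Set (MvPolynomial (Fin (L + 1)) ℂ), (∀ Q ∈ T, Q.IsHomogeneous d) →
      ∃ A : Finset (Fin (L + 1) → ℂ), A.card ≤ D₀ ∧ (∀ a ∈ A, a ∈ zeros T ∧ a ≠ 0) ∧
        ∀ x ∈ zeros T, x ≠ 0 → (∃ a ∈ A, ∃ c : ℂ, c ≠ 0 ∧ a = c • x) ∨
          ∃ (D k : ℕ) (X : ℂ → Fin D → Fin (L + 1) → ℂ) (ℓ : Fin k → Fin (L + 1) → ℂ) (μ : ℝ)
            (s₀ s₁ : ℂ), D ≤ D₀ ∧ IsLine (zeros T) C α X ℓ μ ∧ ‖s₀‖ ≤ 1 ∧ ‖s₁‖ ≤ 1 ∧
              (∀ m, X s₀ m ∈ A) ∧ ∃ m, ∃ c : ℂ, c ≠ 0 ∧ X s₁ m = c • x)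
    (hdist : DistLe f ι C₁ z) (hdisc : Discs e ψ f ι C₂ z)
    (ρ : ∀ {k : ℕ}, (Fin k → Fin (L + 1) → ℂ) → M → ℝ)
    (hρc : ∀ {k : ℕ} (ℓ : Fin k → Fin (L + 1) → ℂ), ContinuousOn (ρ ℓ) (f ⁻¹' S))
    (hρb : ∀ {k : ℕ} (ℓ : Fin k → Fin (L + 1) → ℂ), (∀ v, nl ℓ v ≤ (2 * C + 1) * nn v) → ∀ p,
      |ρ ℓ p| ≤ C₂ * Real.log (2 * C + 1))
    (hρ : ∀ {k : ℕ} (ℓ : Fin k → Fin (L + 1) → ℂ) (μ : ℝ), 0 < μ →
      ∀ (h : ℂ → M) (F : ℂ → Fin (L + 1) → ℂ) (s : ℂ) (r : ℝ),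
      DifferentiableOn ℂ F (Metric.ball s r) →
      (∀ s' ∈ Metric.ball s r, ∃ h0 : F s' ≠ 0, ι (h s') = Projectivization.mk ℂ (F s') h0) →
      (∀ s' ∈ Metric.ball s r, nl ℓ (F s') = μ * (1 + ‖s'‖ ^ 2)) →
      (∀ s' ∈ Metric.ball s r, nn (F s') < (2 * C + 1) * nl ℓ (F s')) →
      ContDiffOn ℝ ∞ (fun s' => ρ ℓ (h s')) (Metric.ball s r) ∧
      ∀ s' ∈ Metric.ball s r, C₂ * lapC (fun s' => Real.log (nn (F s'))) s' ≤
          lapC (fun s' => K * Real.log (1 + ‖s'‖ ^ 2) + ρ ℓ (h s')) s') :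
    ∃ A : Finset M, A.card ≤ D₀ + 1 ∧ (∀ p ∈ A, f p = z) ∧ ∀ p, f p = z →
      ∃ (D : ℕ) (γ : ℂ → Fin D → M) (ρ : M → ℝ) (s₀ s₁ : ℂ), D ≤ D₀ + 1 ∧ ‖s₀‖ ≤ 1 ∧ ‖s₁‖ ≤ 1 ∧
        (∀ i, γ s₀ i ∈ A) ∧ (∃ i, γ s₁ i = p) ∧
          KRFZ.IsCurve e ψ (f ⁻¹' {z}) K l α γ ρ s₀ s₁ := by
  classical
  have hlog : 0 ≤ Real.log (2 * C + 1) := Real.log_nonneg (by linarith)
  have hH : 0 ≤ C₁ * (2 * (C * (L + 1))) * C := by positivity
  have hK0 : 0 ≤ K := by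
    have : 0 ≤ C₂ * Real.log (2 * C + 1) := by positivity
    linarith
  obtain ⟨T, hT, hTz⟩ := hι.alg z hz
  obtain ⟨A, hA, hAmem, hx⟩ := hlines T hT
  by_cases hne : ∃ p, f p = z
  swap
  · refine ⟨∅, by simp, by simp, fun p hp => absurd ⟨p, hp⟩ hne⟩
  obtain ⟨p₀, hp₀⟩ := hne
  have hinj : ∀ p p', f p = z → f p' = z → ι p = ι p' → p = p' := fun p p' h1 h2 h3 =>
    hι.inj p p' (by rwa [h1]) (h1.trans h2.symm) h3
  have hpt : ∀ x : Fin (L + 1) → ℂ, ∃ p : M, ∀ h0 : x ≠ 0, x ∈ zeros T →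
      f p = z ∧ ι p = Projectivization.mk ℂ x h0 := by
    intro x
    by_cases h0 : x ≠ 0
    · by_cases h1 : x ∈ zeros T
      · obtain ⟨p, hp⟩ := (hTz x h0).1 h1
        exact ⟨p, fun _ _ => hp⟩
      · exact ⟨p₀, fun _ h => absurd h h1⟩
    · exact ⟨p₀, fun h => absurd h h0⟩
  choose pt hpt using hpt
  refine ⟨A.image pt, Finset.card_image_le.trans (hA.trans (Nat.le_succ _)), ?_, ?_⟩
  · intro p hp
    obtain ⟨a, ha, rfl⟩ := Finset.mem_image.1 hp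
    exact (hpt a (hAmem a ha).2 (hAmem a ha).1).1
  intro p hp
  set x : Fin (L + 1) → ℂ := (ι p).rep with hxdef
  have hx0 : x ≠ 0 := (ι p).rep_nonzero
  have hxp : ι p = Projectivization.mk ℂ x hx0 := (ι p).mk_rep.symm
  have hxT : x ∈ zeros T := (hTz x hx0).2 ⟨p, hp, hxp⟩
  rcases hx x hxT hx0 with ⟨a, ha, c, hc, hac⟩ |
    ⟨D, k, X, ℓ, μ, s₀, s₁, hD, hX, hs₀, hs₁, hXA, m, c, hc, hm⟩
  · have hpA : p ∈ A.image pt := by
      obtain ⟨h1, h2⟩ := hAmem a ha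
      obtain ⟨h3, h4⟩ := hpt a h2 h1
      have h5 : pt a = p := by
        refine hinj _ _ h3 hp (h4.trans ?_)
        rw [hxp, Projectivization.mk_eq_mk_iff']
        exact ⟨c, hac.symm⟩
      rw [← h5]
      exact Finset.mem_image_of_mem _ ha
    exact ⟨1, fun _ _ => p, fun _ => 0, 0, 0, by omega, by simp, by simp, fun _ => hpA, ⟨0, rfl⟩,
      isCurve_const he hK0 (by linarith) hp⟩
  · have hγ : ∀ s i (x : Fin (L + 1) → ℂ) (hx : x ≠ 0), x = X s i →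
        f (pt (X s i)) = z ∧ ι (pt (X s i)) = Projectivization.mk ℂ x hx := by
      rintro s i x hx rfl
      exact hpt _ hx (hX.mem s i)
    have hX0 : X s₁ m ≠ 0 := by
      rw [hm]
      exact smul_ne_zero hc hx0
    refine ⟨D, fun s i => pt (X s i), ρ ℓ, s₀, s₁, by omega, hs₀, hs₁,
      fun i => Finset.mem_image_of_mem _ (hXA i), ⟨m, ?_⟩, ?_⟩
    · obtain ⟨h1, h2⟩ := hγ s₁ m _ hX0 rfl
      refine hinj _ _ h1 hp (h2.trans ?_)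
      rw [hxp, Projectivization.mk_eq_mk_iff']
      exact ⟨c, hm.symm⟩
    · refine isCurve_of hC₁ hC hl ?_ hdist hdisc hX hγ hinj hs₀ hs₁
        ((hρc ℓ).mono fun p hp => ?_) (fun p => ?_) (hρ ℓ μ (by linarith [hX.mu.1]))
      · have : 0 ≤ C₂ * Real.log (2 * C + 1) := by positivity
        linarith
      · have h1 : f p = z := hp
        change f p ∈ S
        rwa [h1]
      · refine (hρb ℓ (fun v => (hX.form_le v).trans ?_) p).trans ?_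
        · have h1 : 0 ≤ nn v := Finset.sum_nonneg fun _ _ => by positivity
          exact mul_le_mul_of_nonneg_right (by linarith) h1
        · have h1 : C₂ * Real.log (2 * C + 1) ≤ K := by linarith
          calc C₂ * Real.log (2 * C + 1) ≤ K := h1
            _ = K * 1 := (mul_one _).symm
            _ ≤ K * l := mul_le_mul_of_nonneg_left hl hK0

end

end CL

end Pool.Agent.KRFW
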