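import Pool.Agent.Work.MP_a2bf38_gt.W.CurvesNatOf
import Pool.Agent.Work.MP_a2bf38_gt.W.CurvesLoc

/-!
# The fibres of locally projective maps are covered by curves
-/

open scoped ContDiff ENNReal ComplexOrder LinearAlgebra.Projectivization Topology
open Set Filter Pool.Agent.ToricKRF Pool.Agent.ToricKRF.G Pool.Agent.KRFS Pool.Agent.KRFF
  Pool.Agent.KRFZ

namespace Pool.Agent.KRFW

theorem hasCurves_of_locProj {M Z : Type} [MetricSpace M] [CompactSpace M] [MetricSpace Z]
    {n N : ℕ} {κ P : Type} {e : κ → OpenPartialHomeomorph M (Cn n)} {U : P → Set Z}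
    {q : P → Z → Cn N} {f : M → Z} {ψ : κ → ℝ × Cn n → ℝ} (G : GeoData e U q f ψ)
    (hproj : IsLocProj e U q f) : HasCurves e f ψ := by
  refine CurvesNat.hasCurves_of G.cont fun z₀ => ?_
  obtain ⟨S, L, ι, d, hS, hz₀, hι⟩ := hproj z₀
  exact hasCurves_near G hι hS hz₀

end Pool.Agent.KRFW
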