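import Pool.Agent.Work.MP_a2bf38_gt.W.GeoDefs
import Pool.Agent.Work.MP_a2bf38_gt.Z.Curve
import Pool.Agent.Work.MP_a2bf38_gt.K.HB

/-!
# Curves in the fibres of locally projective maps, from the local statement
-/

open scoped ContDiff ENNReal ComplexOrder LinearAlgebra.Projectivization Topology
open Set Filter Pool.Agent.ToricKRF Pool.Agent.ToricKRF.G Pool.Agent.KRFS Pool.Agent.KRFF
  Pool.Agent.KRFG Pool.Agent.KRFZ

namespace Pool.Agent.KRFW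

namespace CurvesNat

theorem contDiff_logsq : ContDiff ℝ ∞ fun s : ℂ => Real.log (1 + ‖s‖ ^ 2) := by
  have h : ContDiff ℝ ∞ fun s : ℂ => 1 + ‖s‖ ^ 2 := contDiff_const.add (contDiff_norm_sq ℝ)
  exact h.log fun s => by positivity

theorem lapC_logsq (s : ℂ) : 0 ≤ lapC (fun s : ℂ => Real.log (1 + ‖s‖ ^ 2)) s := by
  have h1 : (fun s : ℂ => Real.log (1 + ‖s‖ ^ 2)) =
      fun s => Real.log (1 + Complex.normSq s) := by
    funext s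
    rw [Complex.normSq_eq_norm_sq]
  rw [h1, Curve.lapC_log]
  positivity

/-- larger constants -/
theorem isCurve_mono {M : Type} [MetricSpace M] {n : ℕ} {κ : Type}
    {e : κ → OpenPartialHomeomorph M (Cn n)} {ψ : κ → ℝ × Cn n → ℝ} {A : Set M}
    {C C' l α α' : ℝ} {D : ℕ} {γ : ℂ → Fin D → M} {ρ : M → ℝ} {s₀ s₁ : ℂ} (hl : 1 ≤ l)
    (hC : C ≤ C') (hα' : 0 < α') (hα : α' ≤ α)
    (h : KRFZ.IsCurve e ψ A C l α γ ρ s₀ s₁) : KRFZ.IsCurve e ψ A C' l α' γ ρ s₀ s₁ where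
  mem := h.mem
  cont := h.cont
  holder := by
    intro s₂ hs₂ s hs
    obtain ⟨σ, hσ⟩ := h.holder s₂ hs₂ s hs
    refine ⟨σ, fun i => (hσ i).trans ?_⟩
    exact mul_le_mul (Real.exp_le_exp.2 (mul_le_mul_of_nonneg_right hC (by linarith)))
      (Real.rpow_le_rpow_of_exponent_ge' (norm_nonneg _) hs hα'.le hα)
      (Real.rpow_nonneg (norm_nonneg _) _) (Real.exp_pos _).le
  rho_cont := h.rho_cont
  rho_bound := fun p hp => (h.rho_bound p hp).trans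
    (mul_le_mul_of_nonneg_right hC (by linarith))
  sect := by
    obtain ⟨E, hE, hs⟩ := h.sect
    refine ⟨E, hE, fun s hsE => ?_⟩
    obtain ⟨r, c, g, hr, h1, h2, h3, h4, h5⟩ := hs s hsE
    refine ⟨r, c, g, hr, h1, h2, h3, h4, fun i s' hs' => (h5 i s' hs').trans ?_⟩
    have hρ : ContDiffAt ℝ 2 (fun s' => ρ ((e (c i)).symm (g i s'))) s' :=
      ((h4 i).contDiffAt (Metric.isOpen_ball.mem_nhds hs')).of_le (by norm_cast)
    have hlog : ContDiffAt ℝ 2 (fun s : ℂ => Real.log (1 + ‖s‖ ^ 2)) s' :=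
      contDiff_logsq.contDiffAt.of_le (by norm_cast)
    have hlog' : ∀ a : ℝ, ContDiffAt ℝ 2 (fun s : ℂ => a * Real.log (1 + ‖s‖ ^ 2)) s' :=
      fun a => contDiffAt_const.mul hlog
    rw [HB.lapC_add (hlog' C) hρ, HB.lapC_add (hlog' C') hρ]
    have e1 : ∀ a : ℝ, lapC (fun x : ℂ => a * Real.log (1 + ‖x‖ ^ 2)) s' =
        a * lapC (fun s : ℂ => Real.log (1 + ‖s‖ ^ 2)) s' := fun a => HB.lapC_const_mul a hlog
    rw [e1, e1]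
    have := mul_le_mul_of_nonneg_right hC (lapC_logsq s')
    linarith

section

variable {M Z : Type} [MetricSpace M] [CompactSpace M] [MetricSpace Z] {n N : ℕ} {κ P : Type}
  {e : κ → OpenPartialHomeomorph M (Cn n)} {U : P → Set Z} {q : P → Z → Cn N} {f : M → Z}
  {ψ : κ → ℝ × Cn n → ℝ}

theorem hasCurves_of (hf : Continuous f)
    (hloc : ∀ z₀ : Z, ∃ (S' : Set Z) (D₀ : ℕ) (C α : ℝ), IsOpen S' ∧ z₀ ∈ S' ∧ 0 ≤ C ∧ 0 < α ∧
      ∀ z ∈ S', ∀ l, 1 ≤ l → ∃ A : Finset M, A.card ≤ D₀ ∧ (∀ p ∈ A, f p = z) ∧ ∀ p, f p = z →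
        ∃ (D : ℕ) (γ : ℂ → Fin D → M) (ρ : M → ℝ) (s₀ s₁ : ℂ), D ≤ D₀ ∧ ‖s₀‖ ≤ 1 ∧ ‖s₁‖ ≤ 1 ∧
          (∀ i, γ s₀ i ∈ A) ∧ (∃ i, γ s₁ i = p) ∧
            KRFZ.IsCurve e ψ (f ⁻¹' {z}) C l α γ ρ s₀ s₁) : HasCurves e f ψ := by
  choose S D₀ C α hS hz hC hα h using hloc
  have hK : IsCompact (range f) := isCompact_range hf
  obtain ⟨t, ht⟩ := hK.elim_finite_subcover S hS fun z _ => mem_iUnion.2 ⟨z, hz z⟩
  obtain ⟨a, ha0, ha⟩ : ∃ a > 0, ∀ z ∈ t, a ≤ α z := by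
    rcases t.eq_empty_or_nonempty with rfl | ht'
    · exact ⟨1, one_pos, by simp⟩
    · obtain ⟨z₀, -, h0⟩ := t.exists_min_image α ht'
      exact ⟨α z₀, hα z₀, h0⟩
  refine ⟨∑ z ∈ t, D₀ z, ∑ z ∈ t, C z, a, Finset.sum_nonneg fun z _ => hC z, ha0,
    fun z l hl => ?_⟩
  by_cases hzr : z ∈ range f
  · obtain ⟨z₀, hz₀⟩ := mem_iUnion.1 (ht hzr)
    obtain ⟨hz₀t, hz₀S⟩ := mem_iUnion.1 hz₀
    have hD : D₀ z₀ ≤ ∑ z ∈ t, D₀ z :=
      Finset.single_le_sum (f := D₀) (fun _ _ => Nat.zero_le _) hz₀t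
    have hCC : C z₀ ≤ ∑ z ∈ t, C z := Finset.single_le_sum (f := C) (fun z _ => hC z) hz₀t
    obtain ⟨A, hA, hAz, hA2⟩ := h z₀ z hz₀S l hl
    refine ⟨A, hA.trans hD, hAz, fun p hp => ?_⟩
    obtain ⟨D, γ, ρ, s₀, s₁, h1, h2, h3, h4, h5, h6⟩ := hA2 p hp
    exact ⟨D, γ, ρ, s₀, s₁, h1.trans hD, h2, h3, h4, h5, isCurve_mono hl hCC ha0 (ha z₀ hz₀t) h6⟩
  · exact ⟨∅, by simp, by simp, fun p hp => absurd ⟨p, hp⟩ hzr⟩

end

end CurvesNat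

end Pool.Agent.KRFW
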