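import Pool.Agent.Work.MP_a2bf38_gt.N.Loj

/-!
# Coverings of cones by tuples of algebraic functions
-/

open MvPolynomial

namespace Pool.Agent.KRFW

/-- the linear form with the coefficients `a` -/
noncomputable def lin {R : Type*} [CommRing R] {σ : Type} [Fintype σ] (a : σ → R) :
    MvPolynomial σ R := ∑ j, C (a j) * X j

/-- the indices of the variables `w`, `u`, `T` -/
abbrev Ix (k : ℕ) (σ : Type) : Type := Fin k ⊕ (σ ⊕ Unit)

/-- the values `w`, `u`, `T` of the variables -/
def pt {K : Type*} {k : ℕ} {σ : Type} (w : Fin k → K) (u : σ → K) (T : K) : Ix k σ → K :=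
  Sum.elim w (Sum.elim u fun _ => T)

/-- `X` is a tuple of points of `V` with the image `w` under the linear forms `ℓ`, and
`Φ (w, u, T) = ∏ (T - u · X m)`. -/
structure IsTup {K : Type*} [Field K] {k D : ℕ} {σ : Type} [Fintype σ] (V : Set (σ → K))
    (ℓ : Fin k → σ → K) (Φ : MvPolynomial (Ix k σ) K) (w : Fin k → K) (X : Fin D → σ → K) :
    Prop where
  mem : ∀ m, X m ∈ V
  proj : ∀ m i, ∑ j, ℓ i j * X m j = w i
  prod : ∀ u T, eval (pt w u T) Φ = ∏ m, (T - ∑ j, u j * X m j)

/-- the ideal `I` is homogeneous -/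
def IsHom {R : Type*} [CommRing R] {σ : Type} (I : Ideal (MvPolynomial σ R)) : Prop :=
  ∀ P ∈ I, ∀ n, homogeneousComponent n P ∈ I

/-- the zeros of the polynomials in `S` -/
def zeros {K : Type*} [Field K] {σ : Type} (S : Set (MvPolynomial σ K)) : Set (σ → K) :=
  {x | ∀ P ∈ S, eval x P = 0}

/-- the tuple `X s` depends holomorphically on `s` -/
def HolTup {D : ℕ} {σ : Type} [Fintype σ] (X : ℂ → Fin D → σ → ℂ) : Prop :=
  ∀ (u : σ → ℂ) (T : ℂ), Differentiable ℂ fun s => ∏ m, (T - ∑ j, u j * X s m j)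

end Pool.Agent.KRFW
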