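import Pool.Agent.Work.MP_a2bf38_gt.Lj.Global
import Pool.Agent.Work.MP_0e9e72_an.SCVA

/-!
# Holomorphic curves in the domain of an immersion
-/

open scoped ContDiff
open Metric Set Filter Topology Pool.Agent.ToricKRF Pool.Agent.ToricKRF.G Pool.Agent.KRFS
  Pool.Agent.KRFF Pool.Agent.KRFLj

namespace Pool.Agent.KRFW

namespace LA

variable {n : ℕ} {ι : Type} [Fintype ι]

/-- A holomorphic map with injective derivative has a local holomorphic left inverse. -/
theorem exists_left_inv {S : Set (Cn n)} (hS : IsOpen S) {z₀ : Cn n} (hz₀ : z₀ ∈ S)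
    {Φ : Cn n → ι → ℂ} (hΦ : ∀ i, NF.HolC (fun z => Φ z i) S)
    (himm : ∀ v, (∀ i, fderiv ℝ (fun z => Φ z i) z₀ v = 0) → v = 0) :
    ∃ (O : Set (ι → ℂ)) (Γ : (ι → ℂ) → (Fin n → ℂ)), IsOpen O ∧ Φ z₀ ∈ O ∧
      DifferentiableOn ℂ Γ O ∧ ∀ᶠ z in 𝓝 z₀, iot n (Γ (Φ z)) = z := by
  -- complex coordinates
  set F : (Fin n → ℂ) → ι → ℂ := fun w => Φ (z₀ + iot n w) with hF
  set T : Set (Fin n → ℂ) := {w | z₀ + iot n w ∈ S} with hT
  have hTo : IsOpen T := hS.preimage (continuous_const.add (iot n).continuous)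
  have h0T : (0 : Fin n → ℂ) ∈ T := by
    change z₀ + iot n 0 ∈ S
    rw [map_zero, add_zero]
    exact hz₀
  have hFd : DifferentiableOn ℂ F T := by
    rw [differentiableOn_pi]
    intro i w hw
    exact (differentiableAt_of_holC hS (hΦ i) z₀ (ContinuousLinearMap.id ℂ (Fin n → ℂ))
      (w := w) hw).differentiableWithinAt
  have hF0 : DifferentiableAt ℂ F 0 := (hFd 0 h0T).differentiableAt (hTo.mem_nhds h0T)
  set L : (Fin n → ℂ) →L[ℂ] (ι → ℂ) := fderiv ℂ F 0 with hL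
  have hLd : HasFDerivAt F L 0 := hF0.hasFDerivAt
  -- the derivative is injective
  have hLi : ∀ w, L w = 0 → w = 0 := by
    intro w hw
    have h1 : ∀ i, fderiv ℝ (fun z => Φ z i) z₀ (iot n w) = 0 := by
      intro i
      have h2 : HasFDerivAt (fun w => F w i)
          (((ContinuousLinearMap.proj i).comp L).restrictScalars ℝ) 0 :=
        (hasFDerivAt_pi'.1 hLd i).restrictScalars ℝ
      have h3 : HasFDerivAt (fun z => Φ z i) (fderiv ℝ (fun z => Φ z i) z₀) (z₀ + iot n 0) := by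
        rw [map_zero, add_zero]
        exact (NF.diffAt hS (hΦ i).1 hz₀).hasFDerivAt
      have h4 : HasFDerivAt (fun w => F w i) ((fderiv ℝ (fun z => Φ z i) z₀).comp (iot n)) 0 :=
        h3.comp (f := fun w => z₀ + iot n w) 0 ((iot n).hasFDerivAt.const_add z₀)
      have h5 := congrArg (fun A : (Fin n → ℂ) →L[ℝ] ℂ => A w) (h4.unique h2)
      simp only [ContinuousLinearMap.comp_apply, ContinuousLinearMap.coe_restrictScalars',
        ContinuousLinearMap.proj_apply] at h5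
      rw [h5, hw]
      rfl
    have h6 := himm _ h1
    have h7 : ccv (iot n w) = ccv (0 : Cn n) := by rw [h6]
    rw [ccv_iot] at h7
    rw [h7]
    funext k
    apply Complex.ext <;> simp [ccv, cc]
  obtain ⟨A', hA'⟩ := LinearMap.exists_leftInverse_of_injective L.toLinearMap
    (LinearMap.ker_eq_bot'.2 hLi)
  set A : (ι → ℂ) →L[ℂ] (Fin n → ℂ) := LinearMap.toContinuousLinearMap A' with hA
  have hAL : ∀ w, A (L w) = w := fun w => congrArg (fun B : (Fin n → ℂ) →ₗ[ℂ] (Fin n → ℂ) => B w) hA'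
  -- the local diffeomorphism
  set Ψ : (Fin n → ℂ) → (Fin n → ℂ) := fun w => A (F w) with hΨ
  have hΨd : DifferentiableOn ℂ Ψ T := A.differentiable.comp_differentiableOn hFd
  have hΨc : ContDiffAt ℂ 1 Ψ 0 := by
    have := SCV.contDiffAt_of_differentiableOn hTo hΨd h0T (n := 1)
    exact_mod_cast this
  have hΨ' : HasFDerivAt Ψ ((ContinuousLinearEquiv.refl ℂ (Fin n → ℂ) :
      (Fin n → ℂ) ≃L[ℂ] (Fin n → ℂ)) : (Fin n → ℂ) →L[ℂ] (Fin n → ℂ)) 0 := by
    have h1 : HasFDerivAt Ψ (A.comp L) 0 := A.hasFDerivAt.comp 0 hLd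
    have h2 : A.comp L = ((ContinuousLinearEquiv.refl ℂ (Fin n → ℂ) :
      (Fin n → ℂ) ≃L[ℂ] (Fin n → ℂ)) : (Fin n → ℂ) →L[ℂ] (Fin n → ℂ)) := by
      ext1 w
      exact hAL w
    rwa [h2] at h1
  have hs := hΨc.hasStrictFDerivAt' hΨ' (by norm_num)
  set K := hs.localInverse Ψ (ContinuousLinearEquiv.refl ℂ (Fin n → ℂ)) 0 with hK
  have hKc : ContDiffAt ℂ 1 K (Ψ 0) := hΨc.to_localInverse hΨ' (by norm_num)
  have hKl : ∀ᶠ w in 𝓝 (0 : Fin n → ℂ), K (Ψ w) = w := hs.eventually_left_inverse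
  obtain ⟨O', hO'1, hO'2, hO'3⟩ : ∃ O' : Set (Fin n → ℂ), IsOpen O' ∧ Ψ 0 ∈ O' ∧
      DifferentiableOn ℂ K O' := by
    have h1 := hKc.eventually (by simp)
    obtain ⟨O', h2, h3, h4⟩ := _root_.eventually_nhds_iff.1 h1
    exact ⟨O', h3, h4, fun w hw => ((h2 w hw).differentiableAt (by norm_num)).differentiableWithinAt⟩
  refine ⟨A ⁻¹' O', fun w => ccv z₀ + K (A w), hO'1.preimage A.continuous, ?_, ?_, ?_⟩
  · have : Ψ 0 = A (Φ z₀) := by simp only [hΨ, hF, map_zero, add_zero]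
    rw [mem_preimage, ← this]
    exact hO'2
  · exact (differentiableOn_const _).add (hO'3.comp A.differentiable.differentiableOn
      (fun w hw => hw))
  · have h1 : Tendsto (fun z : Cn n => ccv (z - z₀)) (𝓝 z₀) (𝓝 0) := by
      rw [tendsto_zero_iff_norm_tendsto_zero]
      have h2 : Tendsto (fun z : Cn n => 2 * ‖z - z₀‖) (𝓝 z₀) (𝓝 0) := by
        have h3 : Continuous fun z : Cn n => 2 * ‖z - z₀‖ := by fun_prop
        have := h3.tendsto z₀
        simpa using this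
      exact squeeze_zero (fun z => norm_nonneg _) (fun z => norm_ccv_le _) h2
    filter_upwards [h1.eventually hKl] with z hz
    have h2 : z₀ + iot n (ccv (z - z₀)) = z := by rw [iot_ccv]; abel
    have h3 : Ψ (ccv (z - z₀)) = A (Φ z) := by simp only [hΨ, hF, h2]
    rw [h3] at hz
    rw [hz, map_add, iot_ccv, h2]

/-- Curves whose image under an immersion is holomorphic. -/
theorem holD_of {S : Set (Cn n)} (hS : IsOpen S) {z₀ : Cn n} (hz₀ : z₀ ∈ S)
    {Φ : Cn n → ι → ℂ} (hΦ : ∀ i, NF.HolC (fun z => Φ z i) S)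
    (himm : ∀ v, (∀ i, fderiv ℝ (fun z => Φ z i) z₀ v = 0) → v = 0) {g : ℂ → Cn n} {s : ℂ}
    (hgc : ContinuousAt g s) (hgs : g s = z₀) {r : ℝ} (hr : 0 < r)
    (hh : ∀ i, DifferentiableOn ℂ (fun s' => Φ (g s') i) (ball s r)) :
    ∃ r', 0 < r' ∧ r' ≤ r ∧ KRFZ.HolD g (ball s r') := by
  obtain ⟨O, Γ, hO, hΦO, hΓ, hl⟩ := exists_left_inv hS hz₀ hΦ himm
  have hh' : DifferentiableOn ℂ (fun s' => Φ (g s')) (ball s r) := differentiableOn_pi.2 hh
  have h1 : ∀ᶠ s' in 𝓝 s, iot n (Γ (Φ (g s'))) = g s' := by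
    have : Tendsto g (𝓝 s) (𝓝 z₀) := by rw [← hgs]; exact hgc
    exact this.eventually hl
  have h2 : ∀ᶠ s' in 𝓝 s, Φ (g s') ∈ O := by
    have h3 : ContinuousAt (fun s' => Φ (g s')) s :=
      hh'.continuousOn.continuousAt (isOpen_ball.mem_nhds (mem_ball_self hr))
    refine h3.eventually_mem (hO.mem_nhds ?_)
    rw [hgs]
    exact hΦO
  obtain ⟨ε, hε, hball⟩ := Metric.eventually_nhds_iff_ball.1 (h1.and h2)
  refine ⟨min ε r, lt_min hε hr, min_le_right _ _, ?_⟩
  have hsub : ball s (min ε r) ⊆ ball s r := ball_subset_ball (min_le_right _ _)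
  have hsub' : ball s (min ε r) ⊆ ball s ε := ball_subset_ball (min_le_left _ _)
  set k : ℂ → Fin n → ℂ := fun s' => Γ (Φ (g s')) with hk
  have hkd : DifferentiableOn ℂ k (ball s (min ε r)) :=
    hΓ.comp (hh'.mono hsub) (fun s' hs' => (hball s' (hsub' hs')).2)
  have hgk : ∀ s' ∈ ball s (min ε r), g s' = iot n (k s') := fun s' hs' =>
    (hball s' (hsub' hs')).1.symm
  constructor
  · have h3 : ContDiffOn ℂ ∞ k (ball s (min ε r)) := hkd.contDiffOn isOpen_ball
    have h4 : ContDiffOn ℝ ∞ k (ball s (min ε r)) := h3.restrict_scalars ℝ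
    exact ((iot n).contDiff.comp_contDiffOn h4).congr hgk
  · intro s' hs'
    have h3 : HasFDerivAt k (fderiv ℂ k s') s' :=
      (hkd.differentiableAt (isOpen_ball.mem_nhds hs')).hasFDerivAt
    have h4 : HasFDerivAt (fun s' => iot n (k s'))
        ((iot n).comp ((fderiv ℂ k s').restrictScalars ℝ)) s' :=
      (iot n).hasFDerivAt.comp s' (h3.restrictScalars ℝ)
    have h5 : g =ᶠ[𝓝 s'] fun s' => iot n (k s') := by
      filter_upwards [isOpen_ball.mem_nhds hs'] with t ht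
      exact hgk t ht
    have h6 : fderiv ℝ g s' = (iot n).comp ((fderiv ℂ k s').restrictScalars ℝ) :=
      (h4.congr_of_eventuallyEq h5).fderiv
    rw [h6]
    simp only [ContinuousLinearMap.comp_apply, ContinuousLinearMap.coe_restrictScalars']
    have h7 : (fderiv ℂ k s') Complex.I = Complex.I • (fderiv ℂ k s') 1 := by
      rw [← map_smul, smul_eq_mul, mul_one]
    rw [h7, iot_I]

end LA

end Pool.Agent.KRFW
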