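import Pool.Agent.Work.MP_a2bf38_gt.Z.NatDefs
import Pool.Agent.Work.MP_a2bf38_gt.W.Defs
import Mathlib.LinearAlgebra.Projectivization.Basic

/-!
# Holomorphic maps with projective fibres
-/

open scoped ContDiff ENNReal ComplexOrder LinearAlgebra.Projectivization
open Set Filter Pool.Agent.ToricKRF Pool.Agent.ToricKRF.G Pool.Agent.KRFS Pool.Agent.KRFF

namespace Pool.Agent.KRFZ

section

variable {M Z : Type} [MetricSpace M] [MetricSpace Z] {n N : ℕ} {κ P : Type}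
  (e : κ → OpenPartialHomeomorph M (Cn n)) (U : P → Set Z) (q : P → Z → Cn N) (f : M → Z)

/-- In the chart `e c` the map `ι` to the projective space is given by the homogeneous coordinates
`F` on the open set `W`. -/
def IsLift {L : ℕ} (ι : M → ℙ ℂ (Fin (L + 1) → ℂ)) (c : κ) (F : Cn n → Cn (L + 1))
    (W : Set (Cn n)) : Prop :=
  IsOpen W ∧ W ⊆ (e c).target ∧ HolOn F W ∧
    ∀ x ∈ W, ∃ h : cc (F x) ≠ 0, ι ((e c).symm x) = Projectivization.mk ℂ (cc (F x)) h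

/-- Over the open set `S` of `Z`, the map `ι` embeds the fibres of `f` as algebraic sets in the
projective space, defined by equations of degree `d`: `ι` is holomorphic, `(f, ι)` is an injective
immersion, and the images of the fibres of `f` under `ι` are the zero sets of forms of degree
`d`. -/
structure IsProjOver (S : Set Z) {L : ℕ} (ι : M → ℙ ℂ (Fin (L + 1) → ℂ)) (d : ℕ) : Prop where
  lift : ∀ c, ∀ x ∈ (e c).target, f ((e c).symm x) ∈ S →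
    ∃ (F : Cn n → Cn (L + 1)) (W : Set (Cn n)), x ∈ W ∧ IsLift e ι c F W ∧
      ∀ j, f ((e c).symm x) ∈ U j → ∀ v, fderiv ℝ (fmap e q f c j) x v = 0 →
        (∃ a b : ℝ, fderiv ℝ F x v = a • F x + b • J (F x)) → v = 0
  inj : ∀ p p', f p ∈ S → f p = f p' → ι p = ι p' → p = p'
  alg : ∀ z ∈ S, ∃ T : Set (MvPolynomial (Fin (L + 1)) ℂ), (∀ Q ∈ T, Q.IsHomogeneous d) ∧
    ∀ (x : Fin (L + 1) → ℂ) (h : x ≠ 0), (∀ Q ∈ T, MvPolynomial.eval x Q = 0) ↔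
      ∃ p, f p = z ∧ ι p = Projectivization.mk ℂ x h

/-- The map `f` is locally projective: every point of `Z` has a neighbourhood over which the fibres of
`f` are embedded in a projective space as algebraic sets of bounded degree. -/
def IsLocProj : Prop := ∀ z : Z, ∃ (S : Set Z) (L : ℕ) (ι : M → ℙ ℂ (Fin (L + 1) → ℂ)) (d : ℕ),
  IsOpen S ∧ z ∈ S ∧ IsProjOver e U q f S ι d

end

end Pool.Agent.KRFZ

namespace Pool.Agent.KRFW

open Pool.Agent.KRFZ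

section

variable {M Z : Type} [MetricSpace M] [MetricSpace Z] {n N : ℕ} {κ P : Type}

/-- the hypotheses on `M`, `Z`, `f` and `ω(0)` -/
structure GeoData (e : κ → OpenPartialHomeomorph M (Cn n)) (U : P → Set Z) (q : P → Z → Cn N)
    (f : M → Z) (ψ : κ → ℝ × Cn n → ℝ) : Prop where
  atlas : IsAtlas e
  lip : ∀ c, IsLip (e c) (e c).source
  isOpen : ∀ j, IsOpen (U j)
  cover : ∀ z, ∃ j, z ∈ U j
  qlip : ∀ j, IsLip (q j) (U j)
  cont : Continuous f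
  holo : ∀ c j, HolOn (fmap e q f c j) (fdom e U f c j)
  smooth : ∀ c, ∃ O : Set (ℝ × Cn n), IsOpen O ∧ {0} ×ˢ (e c).target ⊆ O ∧
    ContDiffOn ℝ ∞ (ψ c) O

end

/-- `∑ |x_j|^2` -/
noncomputable def nn {L : ℕ} (x : Fin L → ℂ) : ℝ := ∑ j, ‖x j‖ ^ 2

/-- `∑ |ℓ_i(x)|^2` -/
noncomputable def nl {L k : ℕ} (ℓ : Fin k → Fin L → ℂ) (x : Fin L → ℂ) : ℝ :=
  ∑ i, ‖∑ j, ℓ i j * x j‖ ^ 2

/-- The points `X s m` of the cone `V` are the points over the line, `∑ |ℓ_i|^2 = μ (1 + |s|^2)` at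
the points `X s m`. -/
structure IsLine {L : ℕ} (V : Set (Fin L → ℂ)) (C α : ℝ) {D k : ℕ}
    (X : ℂ → Fin D → Fin L → ℂ) (ℓ : Fin k → Fin L → ℂ) (μ : ℝ) : Prop where
  hol : HolTup X
  mem : ∀ s m, X s m ∈ V
  upper : ∀ s m, nn (X s m) ≤ C * (1 + ‖s‖ ^ 2)
  lower : ∀ s m, 1 + ‖s‖ ^ 2 ≤ C * nn (X s m)
  mu : 1 / 2 ≤ μ ∧ μ ≤ 1
  form : ∀ s m, nl ℓ (X s m) = μ * (1 + ‖s‖ ^ 2)
  form_le : ∀ v, nl ℓ v ≤ C * nn v
  holder : ∀ s s', ‖s'‖ ≤ 1 → ‖s - s'‖ ≤ 1 →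
    ∃ π : Equiv.Perm (Fin D), ∀ m, ‖X s (π m) - X s' m‖ ≤ C * ‖s - s'‖ ^ α

end Pool.Agent.KRFW
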