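import Pool.Agent.Work.MP_a2bf38_gt.W.Defs

/-!
# The modules of the algebraic and of the analytic part (KRF VII)
-/

open MvPolynomial Filter Topology
open Pool.Agent.KRFN Pool.Agent.KRFN.Ultra Pool.Agent.KRFN.Loj

namespace Pool.Agent.KRFW

/-! ## A. `W/Noeth.lean` -/

theorem exists_forms {κ : Type*} [Field κ] [Infinite κ] {σ : Type} [Fintype σ]
    (J : Ideal (MvPolynomial σ κ)) (hJ : IsHom J) (hne : J ≠ ⊤) : ∃ (k : ℕ) (ℓ : Fin k → σ → κ),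
      (∀ G : MvPolynomial (Fin k) κ, aeval (fun i => lin (ℓ i)) G ∈ J → G = 0) ∧
      ∃ m : ℕ, Ideal.span (Set.range (X : σ → MvPolynomial σ κ)) ^ m ≤
        J ⊔ Ideal.span (Set.range fun i => lin (ℓ i)) := sorry

/-! ## B. `W/Lift.lean` -/

theorem exists_forms_val {K : Type*} [Field K] (O : ValuationSubring K)
    [Infinite (IsLocalRing.ResidueField O)] {σ : Type} [Fintype σ]
    (𝔭 : Ideal (MvPolynomial σ K)) (hhom : IsHom 𝔭) (hne : 𝔭 ≠ ⊤) : ∃ (k : ℕ) (ℓ : Fin k → σ → O),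
      (∀ G : MvPolynomial (Fin k) K, aeval (fun i => lin fun j => (ℓ i j : K)) G ∈ 𝔭 → G = 0) ∧
      ∀ j, ∃ q : Polynomial (MvPolynomial (Fin k) O), q.Monic ∧
        q.eval₂ (eval₂Hom (C.comp O.subtype) fun i => lin fun j => (ℓ i j : K)) (X j) ∈ 𝔭 := sorry

/-! ## C. `W/Galois.lean` -/

theorem exists_tup {K : Type*} [Field K] [IsAlgClosed K] [CharZero K] {k : ℕ} {σ : Type}
    [Fintype σ] {B : Type*} [CommRing B] [IsDomain B] [Algebra K B] (x : σ → B) (y : Fin k → B)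
    (hgen : Algebra.adjoin K (Set.range x) = ⊤)
    (hinj : Function.Injective (aeval y : MvPolynomial (Fin k) K →ₐ[K] B))
    (hint : ∀ j, (aeval y : MvPolynomial (Fin k) K →ₐ[K] B).toRingHom.IsIntegralElem (x j)) :
    ∃ (D : ℕ) (Φ : MvPolynomial (Ix k σ) K),
      (∀ w : Fin k → K, ∃ ψ : Fin D → B →ₐ[K] K, (∀ m i, ψ m (y i) = w i) ∧
        ∀ u T, eval (pt w u T) Φ = ∏ m, (T - ∑ j, u j * ψ m (x j))) ∧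
      ∀ ψ₀ : B →ₐ[K] K, ∃ ψ : Fin D → B →ₐ[K] K, (∀ m i, ψ m (y i) = ψ₀ (y i)) ∧
        (∃ m, ψ m = ψ₀) ∧
        ∀ u T, eval (pt (fun i => ψ₀ (y i)) u T) Φ = ∏ m, (T - ∑ j, u j * ψ m (x j)) := sorry

/-! ## D. `W/Prime.lean` -/

theorem prime_sheets {K : Type*} [Field K] [IsAlgClosed K] [CharZero K] (O : ValuationSubring K)
    [Infinite (IsLocalRing.ResidueField O)] {σ : Type} [Fintype σ]
    (𝔭 : Ideal (MvPolynomial σ K)) (hhom : IsHom 𝔭) (hp : 𝔭.IsPrime) : ∃ (k D : ℕ) (ℓ : Fin k → σ → K) (Φ : MvPolynomial (Ix k σ) K),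
      (∀ i j, ℓ i j ∈ O) ∧
      (∀ w, ∃ X : Fin D → σ → K, IsTup (zeros (𝔭 : Set (MvPolynomial σ K))) ℓ Φ w X) ∧
      (∀ x ∈ zeros (𝔭 : Set (MvPolynomial σ K)), ∃ X : Fin D → σ → K,
        IsTup (zeros (𝔭 : Set (MvPolynomial σ K))) ℓ Φ (fun i => ∑ j, ℓ i j * x j) X ∧
          ∃ m, X m = x) ∧
      ∀ x ∈ zeros (𝔭 : Set (MvPolynomial σ K)), (∀ i, ∑ j, ℓ i j * x j ∈ O) → ∀ j, x j ∈ O := sorry

theorem cone_sheets {K : Type*} [Field K] [IsAlgClosed K] [CharZero K] (O : ValuationSubring K)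
    [Infinite (IsLocalRing.ResidueField O)] {σ : Type} [Fintype σ]
    (S : Set (MvPolynomial σ K)) (hS : ∀ P ∈ S, ∃ d, P.IsHomogeneous d) :
    ∃ (r : ℕ) (k D : Fin r → ℕ) (ℓ : ∀ i, Fin (k i) → σ → K)
      (Φ : ∀ i, MvPolynomial (Ix (k i) σ) K), (∀ i a j, ℓ i a j ∈ O) ∧
      (∀ i w, ∃ X : Fin (D i) → σ → K, IsTup (zeros S) (ℓ i) (Φ i) w X ∧
        ∀ c : K, c ≠ 0 → (∀ a, w a / c ∈ O) → ∀ m j, X m j / c ∈ O) ∧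
      ∀ x ∈ zeros S, ∃ i, ∀ c : K, ∃ X : Fin (D i) → σ → K,
        IsTup (zeros S) (ℓ i) (Φ i) (fun a => ∑ j, ℓ i a j * (c * x j)) X ∧ ∃ m, X m = c • x := sorry

/-! ## E. `W/Transfer.lean` -/

theorem sheets_unif {σ τ : Type} [Fintype σ] [Fintype τ] (S : Finset (MvPolynomial (σ ⊕ τ) ℂ))
    (hS : ∀ P ∈ S, ∃ d : ℕ, ∀ (c : ℂ) (x : σ → ℂ) (y : τ → ℂ),
      eval (Sum.elim (c • x) y) P = c ^ d * eval (Sum.elim x y) P) :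
    ∃ D₀ : ℕ, ∀ y : τ → ℂ, ‖y‖ ≤ 1 → ∃ r ≤ D₀, ∃ (k D : Fin r → ℕ)
      (ℓ : ∀ i, Fin (k i) → σ → ℂ) (Φ : ∀ i, MvPolynomial (Ix (k i) σ) ℂ),
      (∀ i, k i ≤ D₀ ∧ D i ≤ D₀) ∧ (∀ i a j, ‖ℓ i a j‖ ≤ D₀) ∧
      (∀ i w, ∃ X : Fin (D i) → σ → ℂ, IsTup {x | Gam S x y} (ℓ i) (Φ i) w X ∧
        ∀ m, ‖X m‖ ≤ D₀ * ‖w‖) ∧
      ∀ x, Gam S x y → ∃ i, ∀ c : ℂ, ∃ X : Fin (D i) → σ → ℂ,
        IsTup {x | Gam S x y} (ℓ i) (Φ i) (fun a => ∑ j, ℓ i a j * (c * x j)) X ∧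
          ∃ m, X m = c • x := sorry

/-- two tuples with the same polynomial have the same points -/
theorem tup_unique {K : Type*} [Field K] [Infinite K] {D : ℕ} {σ : Type} [Fintype σ]
    {X X' : Fin D → σ → K}
    (h : ∀ (u : σ → K) (T : K), ∏ m, (T - ∑ j, u j * X m j) = ∏ m, (T - ∑ j, u j * X' m j))
    (m : Fin D) :
    ∃ m', X m = X' m' := sorry

/-! ## F. `W/Match.lean` -/

/-- a linear form which is large at finitely many vectors -/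
theorem exists_sep (D : ℕ) {σ : Type} [Fintype σ] : ∃ c : ℝ, 0 < c ∧ ∀ v : Fin D → σ → ℂ,
    ∃ u : σ → ℂ, ‖u‖ ≤ 2 ∧ ∀ m, c * ‖v m‖ ≤ ‖∑ j, u j * v m j‖ := sorry

theorem match_of_close (D : ℕ) (σ : Type) [Fintype σ] : ∃ α : ℝ, 0 < α ∧ ∀ R : ℝ, 1 ≤ R →
    ∃ C : ℝ, 0 ≤ C ∧ ∀ (X X' : Fin D → σ → ℂ) (η : ℝ), 0 ≤ η → η ≤ 1 → (∀ m, ‖X m‖ ≤ R) →
      (∀ m, ‖X' m‖ ≤ R) →
      (∀ (u : σ → ℂ) (T : ℂ), ‖u‖ ≤ 2 → ‖T‖ ≤ C →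
        ‖∏ m, (T - ∑ j, u j * X m j) - ∏ m, (T - ∑ j, u j * X' m j)‖ ≤ η) →
      ∃ π : Equiv.Perm (Fin D), ∀ m, ‖X (π m) - X' m‖ ≤ C * η ^ α := sorry

theorem holder_tup (D : ℕ) (σ : Type) [Fintype σ] : ∃ α : ℝ, 0 < α ∧ ∀ R : ℝ, 1 ≤ R →
    ∃ C : ℝ, 0 ≤ C ∧ ∀ X : ℂ → Fin D → σ → ℂ, HolTup X → (∀ s, ‖s‖ ≤ 3 → ∀ m, ‖X s m‖ ≤ R) →
      ∀ s s', ‖s'‖ ≤ 1 → ‖s - s'‖ ≤ 1 →
        ∃ π : Equiv.Perm (Fin D), ∀ m, ‖X s (π m) - X s' m‖ ≤ C * ‖s - s'‖ ^ α := sorry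

theorem cont_tup {D : ℕ} {σ : Type} [Fintype σ] {X : ℂ → Fin D → σ → ℂ} (hX : HolTup X)
    (hb : ∀ R : ℝ, ∃ C : ℝ, ∀ s, ‖s‖ ≤ R → ∀ m, ‖X s m‖ ≤ C) (s : ℂ) {ε : ℝ} (hε : 0 < ε) :
    ∀ᶠ s' in 𝓝 s, ∃ π : Equiv.Perm (Fin D), ∀ m, ‖X s' (π m) - X s m‖ ≤ ε := sorry

/-! ## G. `W/Sect.lean` -/

/-- symmetric functions of the roots are holomorphic -/
theorem differentiable_symm {D : ℕ} {T : ℂ → Fin D → ℂ}
    (hT : ∀ t, Differentiable ℂ fun s => ∏ m, (t - T s m)) (G : MvPolynomial (Fin D) ℂ)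
    (hG : G.IsSymmetric) : Differentiable ℂ fun s => eval (T s) G := sorry

/-- off a discrete set the number of points of the tuple is maximal -/
theorem exists_discrete {D : ℕ} {σ : Type} [Fintype σ] {X : ℂ → Fin D → σ → ℂ} (hX : HolTup X) :
    ∃ (E : Set ℂ) (r : ℕ), (∀ s, ∃ δ > 0, ∀ s' ∈ E, s' ≠ s → δ ≤ ‖s' - s‖) ∧
      (∀ s, (Set.range (X s)).ncard ≤ r) ∧ ∀ s ∉ E, (Set.range (X s)).ncard = r := sorry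

theorem exists_sections {D : ℕ} {σ : Type} [Fintype σ] {X : ℂ → Fin D → σ → ℂ} (hX : HolTup X)
    (hb : ∀ R : ℝ, ∃ C : ℝ, ∀ s, ‖s‖ ≤ R → ∀ m, ‖X s m‖ ≤ C) : ∃ E : Set ℂ,
      (∀ s, ∃ δ > 0, ∀ s' ∈ E, s' ≠ s → δ ≤ ‖s' - s‖) ∧ ∀ s ∉ E,
        ∃ r > 0, ∃ g : Fin D → ℂ → σ → ℂ, (∀ m, DifferentiableOn ℂ (g m) (Metric.ball s r)) ∧
          ∀ s' ∈ Metric.ball s r, ∃ π : Equiv.Perm (Fin D), ∀ m, X s' (π m) = g m s' := sorry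

end Pool.Agent.KRFW
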