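import Pool.Agent.Work.MP_a2bf38_gt.W.GeoDefs
import Pool.Agent.Work.MP_a2bf38_gt.W.Tasks

/-!
# The modules of the geometric part (KRF VII)
-/

open scoped ContDiff ENNReal ComplexOrder LinearAlgebra.Projectivization Topology
open Set Filter Pool.Agent.ToricKRF Pool.Agent.ToricKRF.G Pool.Agent.KRFS Pool.Agent.KRFF
  Pool.Agent.KRFZ

namespace Pool.Agent.KRFW

/-! ## H1. `W/Univ.lean` -/

theorem sheets_deg (σ : Type) [Fintype σ] (d : ℕ) : ∃ D₀ : ℕ,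
    ∀ T : Set (MvPolynomial σ ℂ), (∀ Q ∈ T, Q.IsHomogeneous d) → ∃ r ≤ D₀, ∃ (k D : Fin r → ℕ)
      (ℓ : ∀ i, Fin (k i) → σ → ℂ) (Φ : ∀ i, MvPolynomial (Ix (k i) σ) ℂ),
      (∀ i, k i ≤ D₀ ∧ D i ≤ D₀) ∧ (∀ i a j, ‖ℓ i a j‖ ≤ D₀) ∧
      (∀ i w, ∃ X : Fin (D i) → σ → ℂ, IsTup (zeros T) (ℓ i) (Φ i) w X ∧
        ∀ m, ‖X m‖ ≤ D₀ * ‖w‖) ∧
      ∀ x ∈ zeros T, ∃ i, ∀ c : ℂ, ∃ X : Fin (D i) → σ → ℂ,
        IsTup (zeros T) (ℓ i) (Φ i) (fun a => ∑ j, ℓ i a j * (c * x j)) X ∧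
          ∃ m, X m = c • x := sorry

/-! ## H2. `W/Line.lean` -/

/-- Every point of the cone `zeros T` is, up to a factor, one of finitely many points or on a line
through them. -/
theorem exists_lines (L d : ℕ) : ∃ (D₀ : ℕ) (C α : ℝ), 1 ≤ C ∧ 0 < α ∧
    ∀ T : Set (MvPolynomial (Fin L) ℂ), (∀ Q ∈ T, Q.IsHomogeneous d) →
      ∃ A : Finset (Fin L → ℂ), A.card ≤ D₀ ∧ (∀ a ∈ A, a ∈ zeros T ∧ a ≠ 0) ∧
        ∀ x ∈ zeros T, x ≠ 0 → (∃ a ∈ A, ∃ c : ℂ, c ≠ 0 ∧ a = c • x) ∨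
          ∃ (D k : ℕ) (X : ℂ → Fin D → Fin L → ℂ) (ℓ : Fin k → Fin L → ℂ) (μ : ℝ) (s₀ s₁ : ℂ),
            D ≤ D₀ ∧ IsLine (zeros T) C α X ℓ μ ∧ ‖s₀‖ ≤ 1 ∧ ‖s₁‖ ≤ 1 ∧
              (∀ m, X s₀ m ∈ A) ∧ ∃ m, ∃ c : ℂ, c ≠ 0 ∧ X s₁ m = c • x := sorry

/-! ## H5. `W/Imm.lean` -/

/-- a continuous map whose composition with a holomorphic immersion is holomorphic; `JV` is the
multiplication by `i` on the complex vector space `V` -/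
theorem holD_of_imm {n : ℕ} {V : Type} [NormedAddCommGroup V] [NormedSpace ℝ V] [FiniteDimensional ℝ V]
    (JV : V →L[ℝ] V) {φ : Cn n → V} {W : Set (Cn n)} (hW : IsOpen W)
    (hφ : ContDiffOn ℝ ∞ φ W) (hφJ : ∀ x ∈ W, ∀ v, fderiv ℝ φ x (J v) = JV (fderiv ℝ φ x v))
    (hinj : ∀ x ∈ W, Function.Injective (fderiv ℝ φ x)) {ξ : ℂ → Cn n} {G : ℂ → V} {s : ℂ}
    {r : ℝ} (hξ : ContinuousOn ξ (Metric.ball s r)) (hξW : ∀ s' ∈ Metric.ball s r, ξ s' ∈ W)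
    (hG : ContDiffOn ℝ ∞ G (Metric.ball s r))
    (hGJ : ∀ s' ∈ Metric.ball s r, fderiv ℝ G s' Complex.I = JV (fderiv ℝ G s' 1))
    (h : ∀ s' ∈ Metric.ball s r, φ (ξ s') = G s') : HolD ξ (Metric.ball s r) := sorry

section

variable {M Z : Type} [MetricSpace M] [CompactSpace M] [MetricSpace Z] {n N : ℕ} {κ P : Type}
  {e : κ → OpenPartialHomeomorph M (Cn n)} {U : P → Set Z} {q : P → Z → Cn N} {f : M → Z}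
  {ψ : κ → ℝ × Cn n → ℝ}

/-! ## H3. `W/Metric.lean` -/

/-- the distance of two points of a fibre is at most the distance of homogeneous coordinates -/
theorem dist_le (G : GeoData e U q f ψ) {S : Set Z} {L d : ℕ} {ι : M → ℙ ℂ (Fin (L + 1) → ℂ)}
    (hι : IsProjOver e U q f S ι d) (hS : IsOpen S) {z₀ : Z} (hz₀ : z₀ ∈ S) :
    ∃ (S' : Set Z) (C : ℝ), IsOpen S' ∧ z₀ ∈ S' ∧ S' ⊆ S ∧ 0 < C ∧
      ∀ p p', f p ∈ S' → f p = f p' → ∀ (x x' : Fin (L + 1) → ℂ) (h : x ≠ 0) (h' : x' ≠ 0),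
        ι p = Projectivization.mk ℂ x h → ι p' = Projectivization.mk ℂ x' h' →
        ‖x‖ = 1 → ‖x'‖ = 1 → dist p p' ≤ C * ‖x - x'‖ := sorry

/-! ## H4. `W/Pack.lean` -/

/-- in suitable charts `ω(0)` is on the fibres at most a multiple of the Fubini-Study form -/
theorem exists_pack (G : GeoData e U q f ψ) {S : Set Z} {L d : ℕ}
    {ι : M → ℙ ℂ (Fin (L + 1) → ℂ)} (hι : IsProjOver e U q f S ι d) (hS : IsOpen S) {p₀ : M}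
    (hp₀ : f p₀ ∈ S) : ∃ (C : ℝ) (c : κ) (F : Cn n → Cn (L + 1)) (W : Set (Cn n)) (j : P),
      0 < C ∧ p₀ ∈ (e c).source ∧ e c p₀ ∈ W ∧ IsLift e ι c F W ∧
      (∀ x ∈ W, f ((e c).symm x) ∈ S ∧ f ((e c).symm x) ∈ U j) ∧
      (∀ x ∈ W, ∀ v, fderiv ℝ (fmap e q f c j) x v = 0 →
        (∃ a b : ℝ, fderiv ℝ F x v = a • F x + b • J (F x)) → v = 0) ∧
      ∀ x ∈ W, ∀ v, fderiv ℝ (fmap e q f c j) x v = 0 →
        lev (ψ c) v (0, x) ≤ C * levz (fun x => Real.log (nsq (F x))) v x := sorry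

/-! ## H6. `W/Disc.lean` -/

/-- a holomorphic curve in the projective space, with values in the image of the fibre over `z`,
comes from a holomorphic curve in the fibre -/
theorem exists_disc (G : GeoData e U q f ψ) {S : Set Z} {L d : ℕ} {ι : M → ℙ ℂ (Fin (L + 1) → ℂ)}
    (hι : IsProjOver e U q f S ι d) (hS : IsOpen S) {z₀ : Z} (hz₀ : z₀ ∈ S) :
    ∃ (S' : Set Z) (C : ℝ), IsOpen S' ∧ z₀ ∈ S' ∧ S' ⊆ S ∧ 0 < C ∧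
      ∀ z ∈ S', ∀ (h : ℂ → M) (F : ℂ → Fin (L + 1) → ℂ) (s : ℂ) (r : ℝ), 0 < r →
        DifferentiableOn ℂ F (Metric.ball s r) →
        (∀ s' ∈ Metric.ball s r, f (h s') = z ∧
          ∃ h0 : F s' ≠ 0, ι (h s') = Projectivization.mk ℂ (F s') h0) →
        ∃ (r' : ℝ) (c : κ) (g : ℂ → Cn n), 0 < r' ∧ r' ≤ r ∧ HolD g (Metric.ball s r') ∧
          (∀ s' ∈ Metric.ball s r', g s' ∈ (e c).target ∧ h s' = (e c).symm (g s')) ∧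
          ∀ s' ∈ Metric.ball s r', 4 * lev (ψ c) (fderiv ℝ g s' 1) (0, g s') ≤
            C * lapC (fun s' => Real.log (nn (F s'))) s' := sorry

/-! ## H7. `W/Rho.lean` -/

/-- the potential `C₁ log (|x|^2 / max (|ℓ(x)|^2, |x|^2 / C))` -/
noncomputable def rho {L k : ℕ} (ι : M → ℙ ℂ (Fin (L + 1) → ℂ)) (ℓ : Fin k → Fin (L + 1) → ℂ)
    (C C₁ : ℝ) (p : M) : ℝ :=
  C₁ * Real.log (nn (ι p).rep / max (nl ℓ (ι p).rep) (nn (ι p).rep / C))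

omit [CompactSpace M] in
theorem rho_eq {L k : ℕ} {ι : M → ℙ ℂ (Fin (L + 1) → ℂ)} (ℓ : Fin k → Fin (L + 1) → ℂ)
    (C C₁ : ℝ) {p : M} {x : Fin (L + 1) → ℂ} (h : x ≠ 0) (hp : ι p = Projectivization.mk ℂ x h) :
    rho ι ℓ C C₁ p = C₁ * Real.log (nn x / max (nl ℓ x) (nn x / C)) := sorry

omit [CompactSpace M] in
theorem rho_cont (G : GeoData e U q f ψ) {S : Set Z} {L d k : ℕ}
    {ι : M → ℙ ℂ (Fin (L + 1) → ℂ)} (hι : IsProjOver e U q f S ι d) (hS : IsOpen S)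
    (ℓ : Fin k → Fin (L + 1) → ℂ) {C : ℝ} (hC : 0 < C) (C₁ : ℝ) :
    ContinuousOn (rho ι ℓ C C₁) (f ⁻¹' S) := sorry

omit [CompactSpace M] in
theorem rho_bound {L k : ℕ} {ι : M → ℙ ℂ (Fin (L + 1) → ℂ)} {ℓ : Fin k → Fin (L + 1) → ℂ}
    {C C₁ : ℝ} (hC : 1 ≤ C) (hC₁ : 0 ≤ C₁) (hℓ : ∀ v, nl ℓ v ≤ C * nn v) (p : M) :
    |rho ι ℓ C C₁ p| ≤ C₁ * Real.log C := sorry

omit [CompactSpace M] in
/-- along a curve with `∑ |ℓ_i(F s)|^2 = μ (1 + |s|^2)` -/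
theorem rho_curve {L k : ℕ} {ι : M → ℙ ℂ (Fin (L + 1) → ℂ)} {ℓ : Fin k → Fin (L + 1) → ℂ}
    {C C₁ C₂ μ : ℝ} (hC : 0 < C) (hC₁ : 0 ≤ C₁) (hC₂ : C₁ ≤ C₂) (hμ : 0 < μ) {h : ℂ → M}
    {F : ℂ → Fin (L + 1) → ℂ} {s : ℂ} {r : ℝ} (hF : DifferentiableOn ℂ F (Metric.ball s r))
    (hh : ∀ s' ∈ Metric.ball s r, ∃ h0 : F s' ≠ 0, ι (h s') = Projectivization.mk ℂ (F s') h0)
    (h1 : ∀ s' ∈ Metric.ball s r, nl ℓ (F s') = μ * (1 + ‖s'‖ ^ 2))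
    (h2 : ∀ s' ∈ Metric.ball s r, nn (F s') < C * nl ℓ (F s')) :
    ContDiffOn ℝ ∞ (fun s' => rho ι ℓ C C₁ (h s')) (Metric.ball s r) ∧
      ∀ s' ∈ Metric.ball s r, 0 ≤ lapC (fun s' => Real.log (nn (F s'))) s' ∧
        C₁ * lapC (fun s' => Real.log (nn (F s'))) s' ≤
          lapC (fun s' => C₂ * Real.log (1 + ‖s'‖ ^ 2) + rho ι ℓ C C₁ (h s')) s' := sorry

/-! ## H8. `W/CurvesLoc.lean` -/

theorem hasCurves_near (G : GeoData e U q f ψ) {S : Set Z} {L d : ℕ}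
    {ι : M → ℙ ℂ (Fin (L + 1) → ℂ)} (hι : IsProjOver e U q f S ι d) (hS : IsOpen S) {z₀ : Z}
    (hz₀ : z₀ ∈ S) : ∃ (S' : Set Z) (D₀ : ℕ) (C α : ℝ), IsOpen S' ∧ z₀ ∈ S' ∧ 0 ≤ C ∧ 0 < α ∧
      ∀ z ∈ S', ∀ l, 1 ≤ l → ∃ A : Finset M, A.card ≤ D₀ ∧ (∀ p ∈ A, f p = z) ∧ ∀ p, f p = z →
        ∃ (D : ℕ) (γ : ℂ → Fin D → M) (ρ : M → ℝ) (s₀ s₁ : ℂ), D ≤ D₀ ∧ ‖s₀‖ ≤ 1 ∧ ‖s₁‖ ≤ 1 ∧
          (∀ i, γ s₀ i ∈ A) ∧ (∃ i, γ s₁ i = p) ∧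
            KRFZ.IsCurve e ψ (f ⁻¹' {z}) C l α γ ρ s₀ s₁ := sorry

/-! ## H9. `W/CurvesNat.lean` -/

theorem hasCurves_of_locProj (G : GeoData e U q f ψ) (hproj : IsLocProj e U q f) :
    HasCurves e f ψ := sorry

end

end Pool.Agent.KRFW
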