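import Pool.Agent.Work.MP_a2bf38_gt.Z.NatDefs

/-!
# Continuous lifts of holomorphic curves through immersions (helper20)
-/

open scoped ContDiff ENNReal ComplexOrder Topology
open Set Filter Pool.Agent.ToricKRF Pool.Agent.ToricKRF.G Pool.Agent.KRFS Pool.Agent.KRFF
  Pool.Agent.KRFZ

namespace Pool.Agent.KRFW

/-- a continuous map whose composition with an immersion is smooth is smooth -/
theorem contDiffAt_of_imm {E : Type*} [NormedAddCommGroup E] [NormedSpace ℝ E]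
    [CompleteSpace E] [FiniteDimensional ℝ E]
    {V : Type*} [NormedAddCommGroup V] [NormedSpace ℝ V] [FiniteDimensional ℝ V]
    {X : Type*} [NormedAddCommGroup X] [NormedSpace ℝ X]
    {φ : E → V} {ξ : X → E} {G : X → V} {s : X}
    (hφ : ContDiffAt ℝ ∞ φ (ξ s)) (hinj : Function.Injective (fderiv ℝ φ (ξ s)))
    (hξ : ContinuousAt ξ s) (hG : ContDiffAt ℝ ∞ G s) (h : ∀ᶠ t in 𝓝 s, φ (ξ t) = G t) :
    ContDiffAt ℝ ∞ ξ s := by
  -- a left inverse of the derivative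
  obtain ⟨L, hL⟩ := (fderiv ℝ φ (ξ s) : E →ₗ[ℝ] V).exists_leftInverse_of_injective
    (LinearMap.ker_eq_bot.2 hinj)
  set L' : V →L[ℝ] E := LinearMap.toContinuousLinearMap L with hL'
  have hLA : L'.comp (fderiv ℝ φ (ξ s)) = ContinuousLinearMap.id ℝ E := by
    ext v
    exact congrArg (fun A : E →ₗ[ℝ] E => A v) hL
  have h1 : ContDiffAt ℝ ∞ (fun x => L' (φ x)) (ξ s) := L'.contDiff.contDiffAt.comp _ hφ
  have h2 : HasFDerivAt (fun x => L' (φ x)) ((ContinuousLinearEquiv.refl ℝ E : E ≃L[ℝ] E) :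
      E →L[ℝ] E) (ξ s) := by
    have h3 := L'.hasFDerivAt.comp (ξ s)
      ((hφ.differentiableAt (by simp)).hasFDerivAt)
    rw [hLA] at h3
    exact h3
  have h4 := h1.to_localInverse h2 (by simp)
  have h5 : ∀ᶠ x in 𝓝 (ξ s), h1.localInverse h2 (by simp) (L' (φ x)) = x :=
    (h1.hasStrictFDerivAt' h2 (by simp)).eventually_left_inverse
  have h6 : ξ =ᶠ[𝓝 s] fun t => h1.localInverse h2 (by simp) (L' (G t)) := by
    filter_upwards [hξ.eventually h5, h] with t ht ht'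
    rw [← ht', ht]
  refine ContDiffAt.congr_of_eventuallyEq ?_ h6
  have h7 : ContDiffAt ℝ ∞ (fun t => L' (G t)) s := L'.contDiff.contDiffAt.comp _ hG
  have h8 : L' (φ (ξ s)) = L' (G s) := by rw [h.self_of_nhds]
  rw [h8] at h4
  exact ContDiffAt.comp s h4 h7

/-- a continuous map whose composition with a holomorphic immersion is holomorphic; `JV` is the
multiplication by `i` on the complex vector space `V` -/
theorem holD_of_imm {n : ℕ} {V : Type} [NormedAddCommGroup V] [NormedSpace ℝ V] [FiniteDimensional ℝ V]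
    (JV : V →L[ℝ] V) {φ : Cn n → V} {W : Set (Cn n)} (hW : IsOpen W)
    (hφ : ContDiffOn ℝ ∞ φ W) (hφJ : ∀ x ∈ W, ∀ v, fderiv ℝ φ x (J v) = JV (fderiv ℝ φ x v))
    (hinj : ∀ x ∈ W, Function.Injective (fderiv ℝ φ x)) {ξ : ℂ → Cn n} {G : ℂ → V} {s : ℂ}
    {r : ℝ} (hξ : ContinuousOn ξ (Metric.ball s r)) (hξW : ∀ s' ∈ Metric.ball s r, ξ s' ∈ W)
    (hG : ContDiffOn ℝ ∞ G (Metric.ball s r))
    (hGJ : ∀ s' ∈ Metric.ball s r, fderiv ℝ G s' Complex.I = JV (fderiv ℝ G s' 1))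
    (h : ∀ s' ∈ Metric.ball s r, φ (ξ s') = G s') : HolD ξ (Metric.ball s r) := by
  have hB : IsOpen (Metric.ball s r) := Metric.isOpen_ball
  have key : ∀ s' ∈ Metric.ball s r, ContDiffAt ℝ ∞ ξ s' := fun s' hs' =>
    contDiffAt_of_imm (hφ.contDiffAt (hW.mem_nhds (hξW s' hs'))) (hinj _ (hξW s' hs'))
      (hξ.continuousAt (hB.mem_nhds hs')) (hG.contDiffAt (hB.mem_nhds hs'))
      (by filter_upwards [hB.mem_nhds hs'] with t ht using h t ht)
  refine ⟨fun s' hs' => (key s' hs').contDiffWithinAt, fun s' hs' => ?_⟩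
  have h1 : HasFDerivAt φ (fderiv ℝ φ (ξ s')) (ξ s') :=
    ((hφ.contDiffAt (hW.mem_nhds (hξW s' hs'))).differentiableAt (by simp)).hasFDerivAt
  have h2 : HasFDerivAt ξ (fderiv ℝ ξ s') s' :=
    ((key s' hs').differentiableAt (by simp)).hasFDerivAt
  have h3 : (fun t => φ (ξ t)) =ᶠ[𝓝 s'] G := by
    filter_upwards [hB.mem_nhds hs'] with t ht using h t ht
  have h4 : ∀ w, fderiv ℝ φ (ξ s') (fderiv ℝ ξ s' w) = fderiv ℝ G s' w := by
    intro w
    have h5 := (h1.comp s' h2).fderiv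
    rw [← h3.fderiv_eq]
    change _ = fderiv ℝ (φ ∘ ξ) s' w
    rw [h5]
    rfl
  refine hinj _ (hξW s' hs') ?_
  rw [h4, hGJ s' hs', hφJ _ (hξW s' hs'), h4]

end Pool.Agent.KRFW
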