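import Pool.Agent.Work.MP_a2bf38_gt.W.Defs

/-!
# Preparations for the ultraproduct (helper39)
-/

open MvPolynomial Filter Topology
open Pool.Agent.KRFN Pool.Agent.KRFN.Ultra Pool.Agent.KRFN.Loj

namespace Pool.Agent.KRFW

/-! ### Two tuples with the same polynomial -/

/-- a linear form which is not zero at finitely many nonzero vectors -/
theorem exists_form_ne {K : Type*} [Field K] [Infinite K] {σ : Type} [Fintype σ] {ι : Type*}
    (s : Finset ι) (v : ι → σ → K) (hv : ∀ i ∈ s, v i ≠ 0) :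
    ∃ u : σ → K, ∀ i ∈ s, ∑ j, u j * v i j ≠ 0 := by
  classical
  set P : MvPolynomial σ K := ∏ i ∈ s, lin (v i) with hP
  have hne : P ≠ 0 := by
    rw [hP, Finset.prod_ne_zero_iff]
    intro i hi h0
    apply hv i hi
    funext j
    have h1 := congrArg (eval (Pi.single j (1 : K))) h0
    rw [lin, map_sum, map_zero] at h1
    simp only [map_mul, eval_C, eval_X, Pi.single_apply, mul_ite, mul_one, mul_zero,
      Finset.sum_ite_eq', Finset.mem_univ, if_true] at h1
    exact h1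
  by_contra hcon
  push Not at hcon
  apply hne
  refine MvPolynomial.funext fun u => ?_
  obtain ⟨i, hi, h0⟩ := hcon u
  rw [map_zero, hP, map_prod]
  refine Finset.prod_eq_zero hi ?_
  rw [lin, map_sum, ← h0]
  refine Finset.sum_congr rfl fun j _ => ?_
  rw [map_mul, eval_C, eval_X, mul_comm]

/-- two tuples with the same polynomial have the same points -/
theorem tup_unique {K : Type*} [Field K] [Infinite K] {D : ℕ} {σ : Type} [Fintype σ]
    {X X' : Fin D → σ → K}
    (h : ∀ (u : σ → K) (T : K), ∏ m, (T - ∑ j, u j * X m j) = ∏ m, (T - ∑ j, u j * X' m j))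
    (m : Fin D) :
    ∃ m', X m = X' m' := by
  classical
  by_contra hcon
  push Not at hcon
  obtain ⟨u, hu⟩ := exists_form_ne (Finset.univ : Finset (Fin D)) (fun m' => X m - X' m')
    (fun m' _ => sub_ne_zero.2 (hcon m'))
  have h1 := h u (∑ j, u j * X m j)
  rw [Finset.prod_eq_zero (Finset.mem_univ m) (sub_self _)] at h1
  obtain ⟨m', -, h2⟩ := Finset.prod_eq_zero_iff.1 h1.symm
  apply hu m' (Finset.mem_univ _)
  rw [← h2, ← Finset.sum_sub_distrib]
  exact Finset.sum_congr rfl fun j _ => by rw [Pi.sub_apply, mul_sub]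

/-! ### Specialization of the variables `y` -/

section

variable {K : Type*} [Field K] {σ τ : Type}

/-- the polynomial `P (x, y)` in the variables `x` -/
noncomputable def spec (φ : ℂ →+* K) (y : τ → K) (P : MvPolynomial (σ ⊕ τ) ℂ) : MvPolynomial σ K :=
  P.eval₂ (C.comp φ) (Sum.elim X fun t => C (y t))

theorem eval_spec (φ : ℂ →+* K) (y : τ → K) (P : MvPolynomial (σ ⊕ τ) ℂ) (x : σ → K) :
    eval x (spec φ y P) = P.eval₂ φ (Sum.elim x y) := by
  rw [spec, MvPolynomial.hom_eval₂ P (C.comp φ) (eval x) (Sum.elim X fun t => C (y t))]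
  have h1 : (eval x).comp ((C : K →+* MvPolynomial σ K).comp φ) = φ := by
    ext c
    simp
  have h2 : (fun i => eval x ((Sum.elim X (fun t => C (y t)) : σ ⊕ τ → MvPolynomial σ K) i)) =
      Sum.elim x y := by
    funext i
    rcases i with i | i <;> simp
  rw [h1, h2]

variable [Fintype σ] [Fintype τ]

/-- the degree in `x` of the monomials -/
theorem degree_of_homogeneous {P : MvPolynomial (σ ⊕ τ) ℂ} {d : ℕ}
    (hP : ∀ (c : ℂ) (x : σ → ℂ) (y : τ → ℂ),
      eval (Sum.elim (c • x) y) P = c ^ d * eval (Sum.elim x y) P) {m : σ ⊕ τ →₀ ℕ}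
    (hm : coeff m P ≠ 0) : ∑ i : σ, m (Sum.inl i) = d := by
  classical
  -- the polynomial `P (2 x, y)`
  set Q : MvPolynomial (σ ⊕ τ) ℂ :=
    ∑ m ∈ P.support, monomial m (coeff m P * 2 ^ (∑ i : σ, m (Sum.inl i))) with hQ
  have h1 : Q = C ((2 : ℂ) ^ d) * P := by
    refine MvPolynomial.funext fun z => ?_
    have hz : z = Sum.elim (fun i => z (Sum.inl i)) (fun t => z (Sum.inr t)) := by
      funext i
      rcases i with i | i <;> rfl
    have h2 := hP 2 (fun i => z (Sum.inl i)) (fun t => z (Sum.inr t))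
    rw [← hz] at h2
    rw [map_mul, eval_C, ← h2, hQ, map_sum, eval_eq']
    refine Finset.sum_congr rfl fun m _ => ?_
    rw [eval_monomial, Finsupp.prod_fintype _ _ (fun i => pow_zero _), Fintype.prod_sum_type,
      Fintype.prod_sum_type]
    simp only [Sum.elim_inl, Sum.elim_inr, Pi.smul_apply, smul_eq_mul, mul_pow]
    rw [Finset.prod_mul_distrib, Finset.prod_pow_eq_pow_sum]
    ring
  have h3 := congrArg (coeff m) h1
  rw [coeff_C_mul, hQ, coeff_sum] at h3
  simp only [coeff_monomial] at h3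
  rw [Finset.sum_ite_eq' P.support m, if_pos (mem_support_iff.2 hm), mul_comm] at h3
  have h4 := mul_right_cancel₀ hm h3
  have h5 : (2 : ℕ) ^ (∑ i : σ, m (Sum.inl i)) = 2 ^ d := by exact_mod_cast h4
  exact Nat.pow_right_injective le_rfl h5

/-- the specialization is homogeneous -/
theorem isHomogeneous_spec (φ : ℂ →+* K) (y : τ → K) {P : MvPolynomial (σ ⊕ τ) ℂ} {d : ℕ}
    (hP : ∀ (c : ℂ) (x : σ → ℂ) (y : τ → ℂ),
      eval (Sum.elim (c • x) y) P = c ^ d * eval (Sum.elim x y) P) :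
    (spec φ y P).IsHomogeneous d := by
  classical
  rw [spec, eval₂_eq']
  refine IsHomogeneous.sum _ _ _ fun m hm => ?_
  rw [Fintype.prod_sum_type]
  simp only [Sum.elim_inl, Sum.elim_inr, RingHom.comp_apply]
  have h1 := degree_of_homogeneous hP (mem_support_iff.1 hm)
  have h2 : (∏ i : σ, (X i : MvPolynomial σ K) ^ m (Sum.inl i)).IsHomogeneous d := by
    rw [← h1]
    refine IsHomogeneous.prod _ _ _ fun i _ => ?_
    simpa using (isHomogeneous_X K i).pow (m (Sum.inl i))
  have h3 : (∏ t : τ, (C (y t) : MvPolynomial σ K) ^ m (Sum.inr t)).IsHomogeneous 0 := by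
    have h4 : (∏ t : τ, (C (y t) : MvPolynomial σ K) ^ m (Sum.inr t)) =
        C (∏ t : τ, y t ^ m (Sum.inr t)) := by
      rw [map_prod]
      exact Finset.prod_congr rfl fun t _ => (map_pow _ _ _).symm
    rw [h4]
    exact isHomogeneous_C σ _
  simpa using (isHomogeneous_C σ (φ (coeff m P))).mul (h2.mul h3)

end

/-! ### The finite elements -/

instance : CharZero KK := by
  refine charZero_of_inj_zero fun n hn => ?_
  have h1 : cr (fun _ => (n : ℂ)) = 0 := by
    have h2 : (cr fun _ => (n : ℂ)) = (n : KK) := by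
      have h3 : (fun _ : ℕ => (n : ℂ)) = ((n : ℕ) : ℕ → ℂ) := rfl
      rw [h3, map_natCast]
    rw [h2]
    exact hn
  obtain ⟨j, hj⟩ := exists_of_eventually (cr_eq_zero.1 h1)
  exact_mod_cast hj

/-- the valuation ring of the finite elements -/
noncomputable def FO : ValuationSubring KK where
  carrier := {a | ∃ f : ℕ → ℂ, cr f = a ∧ ∃ C : ℝ, ∀ᶠ j in (hyperfilter ℕ : Filter ℕ), ‖f j‖ ≤ C}
  mul_mem' := by
    rintro _ _ ⟨f, rfl, C, hf⟩ ⟨g, rfl, C', hg⟩
    refine ⟨f * g, map_mul _ _ _, C * C', ?_⟩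
    filter_upwards [hf, hg] with j h1 h2
    rw [Pi.mul_apply, norm_mul]
    exact mul_le_mul h1 h2 (norm_nonneg _) ((norm_nonneg _).trans h1)
  one_mem' := ⟨1, map_one _, 1, Eventually.of_forall fun j => by rw [Pi.one_apply, norm_one]⟩
  add_mem' := by
    rintro _ _ ⟨f, rfl, C, hf⟩ ⟨g, rfl, C', hg⟩
    refine ⟨f + g, map_add _ _ _, C + C', ?_⟩
    filter_upwards [hf, hg] with j h1 h2
    rw [Pi.add_apply]
    exact (norm_add_le _ _).trans (add_le_add h1 h2)
  zero_mem' := ⟨0, map_zero _, 0, Eventually.of_forall fun j => by rw [Pi.zero_apply, norm_zero]⟩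
  neg_mem' := by
    rintro _ ⟨f, rfl, C, hf⟩
    refine ⟨-f, map_neg _ _, C, ?_⟩
    filter_upwards [hf] with j h1
    rwa [Pi.neg_apply, norm_neg]
  mem_or_inv_mem' := by
    intro a
    obtain ⟨f, rfl⟩ := cr_surj a
    by_cases h : ∀ᶠ j in (hyperfilter ℕ : Filter ℕ), ‖f j‖ ≤ 1
    · exact Or.inl ⟨f, rfl, 1, h⟩
    · refine Or.inr ⟨fun j => (f j)⁻¹, rfl, 1, ?_⟩
      filter_upwards [not_eventually h] with j h1
      rw [norm_inv]
      exact inv_le_one_of_one_le₀ (not_le.1 h1).le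

theorem mem_FO {f : ℕ → ℂ} :
    cr f ∈ FO ↔ ∃ C : ℝ, ∀ᶠ j in (hyperfilter ℕ : Filter ℕ), ‖f j‖ ≤ C := by
  constructor
  · rintro ⟨g, hg, C, h⟩
    refine ⟨C, ?_⟩
    filter_upwards [cr_eq.1 hg, h] with j h1 h2
    rwa [← h1]
  · rintro ⟨C, h⟩
    exact ⟨f, rfl, C, h⟩

theorem cc_mem_FO (c : ℂ) : cc c ∈ FO := mem_FO.2 ⟨‖c‖, Eventually.of_forall fun _ => le_rfl⟩

/-- finitely many finite elements have a common bound -/
theorem exists_bound_FO {ι : Type*} [Finite ι] {F : ι → ℕ → ℂ} (h : ∀ i, cr (F i) ∈ FO) :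
    ∃ C : ℕ, ∀ᶠ j in (hyperfilter ℕ : Filter ℕ), ∀ i, ‖F i j‖ ≤ C := by
  have := Fintype.ofFinite ι
  choose C hC using fun i => mem_FO.1 (h i)
  obtain ⟨B, hB⟩ : ∃ B : ℕ, ∀ i, C i ≤ B := by
    rcases isEmpty_or_nonempty ι with hι | hι
    · exact ⟨0, fun i => (hι.false i).elim⟩
    · obtain ⟨i₀, hi₀⟩ := Finite.exists_max C
      obtain ⟨B, hB⟩ := exists_nat_ge (C i₀)
      exact ⟨B, fun i => (hi₀ i).trans hB⟩
  refine ⟨B, ?_⟩
  have h3 : ∀ᶠ j in (hyperfilter ℕ : Filter ℕ), ∀ i, ‖F i j‖ ≤ C i := eventually_all.2 hC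
  filter_upwards [h3] with j hj i
  exact (hj i).trans (hB i)

/-- the nonzero constants are units of the ring of the finite elements -/
theorem residue_injective : Function.Injective
    ((IsLocalRing.residue FO).comp (cc.codRestrict FO cc_mem_FO)) :=
  RingHom.injective _

instance : Infinite (IsLocalRing.ResidueField FO) :=
  Infinite.of_injective _ residue_injective

end Pool.Agent.KRFW
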