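import Pool.Agent.Work.MP_a2bf38_gt.W.GeoDefs
import Pool.Agent.Work.MP_a2bf38_gt.W.TransferA
import Pool.Agent.Work.MP_a2bf38_gt.W.MatchB
import Pool.Agent.Work.MP_a2bf38_gt.Al.Lines

/-!
# The points of a cone are on lines through finitely many points (helper52)
-/

open MvPolynomial Filter Topology

namespace Pool.Agent.KRFW

open Pool.Agent.KRFAl (nr)

namespace Ln

theorem nn_eq_nr {L : ℕ} (x : Fin L → ℂ) : nn x = nr x := rfl

theorem sq_norm_le_nr {ι : Type} [Fintype ι] (v : ι → ℂ) : ‖v‖ ^ 2 ≤ nr v := by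
  have h : ‖v‖ ≤ √(nr v) := by
    refine (pi_norm_le_iff_of_nonneg (Real.sqrt_nonneg _)).2 fun i => ?_
    refine Real.le_sqrt_of_sq_le ?_
    exact Finset.single_le_sum (f := fun i => ‖v i‖ ^ 2) (fun j _ => by positivity)
      (Finset.mem_univ i)
  have h0 : 0 ≤ nr v := Finset.sum_nonneg fun _ _ => by positivity
  calc ‖v‖ ^ 2 ≤ √(nr v) ^ 2 := pow_le_pow_left₀ (norm_nonneg _) h 2
    _ = nr v := Real.sq_sqrt h0

theorem nr_le {ι : Type} [Fintype ι] {v : ι → ℂ} {B : ℝ} (hv : ∀ i, ‖v i‖ ≤ B) :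
    nr v ≤ Fintype.card ι * B ^ 2 := by
  unfold nr
  calc ∑ i, ‖v i‖ ^ 2 ≤ ∑ _i : ι, B ^ 2 :=
        Finset.sum_le_sum fun i _ => pow_le_pow_left₀ (norm_nonneg _) (hv i) 2
    _ = Fintype.card ι * B ^ 2 := by
        rw [Finset.sum_const, Finset.card_univ, nsmul_eq_mul]

theorem nr_nonneg {ι : Type} [Fintype ι] (v : ι → ℂ) : 0 ≤ nr v :=
  Finset.sum_nonneg fun _ _ => by positivity

theorem nr_smul {ι : Type} [Fintype ι] (c : ℂ) (v : ι → ℂ) : nr (c • v) = ‖c‖ ^ 2 * nr v := by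
  unfold nr
  rw [Finset.mul_sum]
  refine Finset.sum_congr rfl fun i _ => ?_
  rw [Pi.smul_apply, smul_eq_mul, norm_mul, mul_pow]

/-- the length of the points of an orthonormal line -/
theorem nr_line {ι : Type} [Fintype ι] {a₁ a₂ : ι → ℂ} (h₁ : nr a₁ = 1) (h₂ : nr a₂ = 1)
    (ho : ∑ i, starRingEnd ℂ (a₁ i) * a₂ i = 0) (s : ℂ) : nr (a₁ + s • a₂) = 1 + ‖s‖ ^ 2 := by
  have h : ∀ i, ‖(a₁ + s • a₂) i‖ ^ 2 = ‖a₁ i‖ ^ 2 + ‖s‖ ^ 2 * ‖a₂ i‖ ^ 2 +
      2 * (s * (starRingEnd ℂ (a₁ i) * a₂ i)).re := by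
    intro i
    rw [Pi.add_apply, Pi.smul_apply, smul_eq_mul, ← Complex.normSq_eq_norm_sq,
      Complex.normSq_add, Complex.normSq_eq_norm_sq, Complex.normSq_eq_norm_sq, norm_mul, mul_pow]
    congr 2
    rw [map_mul, ← Complex.conj_re]
    congr 1
    simp only [map_mul, Complex.conj_conj]
    ring
  unfold nr at *
  simp only [h, Finset.sum_add_distrib, ← Finset.mul_sum, h₁, h₂]
  rw [← Complex.re_sum, ← Finset.mul_sum, ho, mul_zero, Complex.zero_re]
  ring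

theorem nl_le {k L D : ℕ} {ℓ : Fin k → Fin L → ℂ} (hk : k ≤ D) (hℓ : ∀ a j, ‖ℓ a j‖ ≤ D)
    (v : Fin L → ℂ) : nl ℓ v ≤ D * (D * L) ^ 2 * nr v := by
  have h1 : ∀ a, ‖∑ j, ℓ a j * v j‖ ≤ D * L * ‖v‖ := by
    intro a
    refine (norm_sum_le _ _).trans ?_
    calc ∑ j, ‖ℓ a j * v j‖ ≤ ∑ _j : Fin L, (D : ℝ) * ‖v‖ := by
          refine Finset.sum_le_sum fun j _ => ?_
          rw [norm_mul]
          exact mul_le_mul (hℓ a j) (norm_le_pi_norm v j) (norm_nonneg _) (by positivity)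
      _ = D * L * ‖v‖ := by
          rw [Finset.sum_const, Finset.card_univ, Fintype.card_fin, nsmul_eq_mul]
          ring
  have h2 : nr (fun a => ∑ j, ℓ a j * v j) ≤ k * (D * L * ‖v‖) ^ 2 := by
    have := nr_le (v := fun a => ∑ j, ℓ a j * v j) h1
    rwa [Fintype.card_fin] at this
  have h4 := sq_norm_le_nr v
  have h5 : (k : ℝ) ≤ D := by exact_mod_cast hk
  calc nl ℓ v = nr (fun a => ∑ j, ℓ a j * v j) := rfl
    _ ≤ k * (D * L * ‖v‖) ^ 2 := h2
    _ = (k * (D * L) ^ 2) * ‖v‖ ^ 2 := by ring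
    _ ≤ D * (D * L) ^ 2 * nr v := by
        refine mul_le_mul ?_ h4 (by positivity) (by positivity)
        gcongr

end Ln

open Ln

/-- `exists_lines` from `sheets_deg` -/
theorem exists_lines_of (L d : ℕ) (hsheets : ∃ D₀ : ℕ,
    ∀ T : Set (MvPolynomial (Fin L) ℂ), (∀ Q ∈ T, Q.IsHomogeneous d) → ∃ r ≤ D₀,
      ∃ (k D : Fin r → ℕ)
      (ℓ : ∀ i, Fin (k i) → Fin L → ℂ) (Φ : ∀ i, MvPolynomial (Ix (k i) (Fin L)) ℂ),
      (∀ i, k i ≤ D₀ ∧ D i ≤ D₀) ∧ (∀ i a j, ‖ℓ i a j‖ ≤ D₀) ∧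
      (∀ i w, ∃ X : Fin (D i) → Fin L → ℂ, IsTup (zeros T) (ℓ i) (Φ i) w X ∧
        ∀ m, ‖X m‖ ≤ D₀ * ‖w‖) ∧
      ∀ x ∈ zeros T, ∃ i, ∀ c : ℂ, ∃ X : Fin (D i) → Fin L → ℂ,
        IsTup (zeros T) (ℓ i) (Φ i) (fun a => ∑ j, ℓ i a j * (c * x j)) X ∧
          ∃ m, X m = c • x) : ∃ (D₀ : ℕ) (C α : ℝ), 1 ≤ C ∧ 0 < α ∧
    ∀ T : Set (MvPolynomial (Fin L) ℂ), (∀ Q ∈ T, Q.IsHomogeneous d) →
      ∃ A : Finset (Fin L → ℂ), A.card ≤ D₀ ∧ (∀ a ∈ A, a ∈ zeros T ∧ a ≠ 0) ∧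
        ∀ x ∈ zeros T, x ≠ 0 → (∃ a ∈ A, ∃ c : ℂ, c ≠ 0 ∧ a = c • x) ∨
          ∃ (D k : ℕ) (X : ℂ → Fin D → Fin L → ℂ) (ℓ : Fin k → Fin L → ℂ) (μ : ℝ) (s₀ s₁ : ℂ),
            D ≤ D₀ ∧ IsLine (zeros T) C α X ℓ μ ∧ ‖s₀‖ ≤ 1 ∧ ‖s₁‖ ≤ 1 ∧
              (∀ m, X s₀ m ∈ A) ∧ ∃ m, ∃ c : ℂ, c ≠ 0 ∧ X s₁ m = c • x := by
  classical
  obtain ⟨D₀, hD₀⟩ := hsheets
  -- the constants
  set A₀ : ℝ := D₀ * (D₀ * L) ^ 2 with hA₀
  have hA0 : 0 ≤ A₀ := by positivity
  set R₁ : ℝ := max 1 (D₀ * 4) with hR₁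
  choose α hα hα' using fun D : ℕ => holder_tup D (Fin L)
  choose Cα hCα hCα' using fun D : ℕ => hα' D R₁ (le_max_left _ _)
  have hne : (Finset.range (D₀ + 1)).Nonempty := ⟨0, by simp⟩
  set α₀ : ℝ := (Finset.range (D₀ + 1)).inf' hne α with hα₀
  have hα₀0 : 0 < α₀ := by
    rw [hα₀, Finset.lt_inf'_iff]
    exact fun D _ => hα D
  set C₀ : ℝ := (Finset.range (D₀ + 1)).sup' hne Cα with hC₀
  have hC₀D : ∀ D ≤ D₀, Cα D ≤ C₀ := fun D hD =>
    Finset.le_sup' Cα (Finset.mem_range.2 (by omega))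
  have hα₀D : ∀ D ≤ D₀, α₀ ≤ α D := fun D hD =>
    Finset.inf'_le α (Finset.mem_range.2 (by omega))
  have hC₀0 : 0 ≤ C₀ := (hCα 0).trans (hC₀D 0 (Nat.zero_le _))
  set C : ℝ := 1 + C₀ + 2 * L * D₀ ^ 2 + 2 * A₀ with hC
  have hC1 : 1 ≤ C := by
    have : (0 : ℝ) ≤ 2 * L * D₀ ^ 2 := by positivity
    linarith
  have hC_A : 2 * A₀ ≤ C := by
    have : (0 : ℝ) ≤ 2 * L * D₀ ^ 2 := by positivity
    linarith
  have hC_L : 2 * L * D₀ ^ 2 ≤ C := by linarith
  have hC_C₀ : C₀ ≤ C := by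
    have : (0 : ℝ) ≤ 2 * L * D₀ ^ 2 := by positivity
    linarith
  refine ⟨D₀ * D₀ + D₀, C, α₀, hC1, hα₀0, fun T hT => ?_⟩
  obtain ⟨r, hr, k, D, ℓ, Φ, hkD, hℓ, htup, hcov⟩ := hD₀ T hT
  choose X hX hXb using htup
  -- the base vectors
  set v : ∀ i, Fin (k i) → ℂ := fun i a => if (a : ℕ) = 0 then 1 else 0 with hv
  set B : Finset (Fin L → ℂ) := Finset.univ.biUnion fun i : Fin r =>
    (Finset.univ.image (X i (v i))).filter (· ≠ 0) with hB
  have hlin : ∀ (i : Fin r) (x : Fin L → ℂ) (c : ℂ),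
      (fun a => ∑ j, ℓ i a j * (c * x j)) = c • fun a => ∑ j, ℓ i a j * x j := by
    intro i x c
    funext a
    rw [Pi.smul_apply, smul_eq_mul, Finset.mul_sum]
    refine Finset.sum_congr rfl fun j _ => ?_
    ring
  have huniq : ∀ (i : Fin r) (w : Fin (k i) → ℂ) (X' : Fin (D i) → Fin L → ℂ),
      IsTup (zeros T) (ℓ i) (Φ i) w X' → ∀ m, ∃ m', X' m = X i w m' := by
    intro i w X' hX' m
    refine tup_unique (fun u T => ?_) m
    rw [← hX'.prod, ← (hX i w).prod]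
  refine ⟨B, ?_, ?_, ?_⟩
  · refine (Finset.card_biUnion_le).trans ?_
    calc ∑ i : Fin r, ((Finset.univ.image (X i (v i))).filter (· ≠ 0)).card
        ≤ ∑ _i : Fin r, D₀ := by
          refine Finset.sum_le_sum fun i _ => ?_
          refine (Finset.card_filter_le _ _).trans (Finset.card_image_le.trans ?_)
          rw [Finset.card_univ, Fintype.card_fin]
          exact (hkD i).2
      _ = r * D₀ := by rw [Finset.sum_const, Finset.card_univ, Fintype.card_fin, smul_eq_mul]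
      _ ≤ D₀ * D₀ + D₀ := (Nat.mul_le_mul_right _ hr).trans (Nat.le_add_right _ _)
  · intro b hb
    rw [hB, Finset.mem_biUnion] at hb
    obtain ⟨i, -, hb⟩ := hb
    rw [Finset.mem_filter, Finset.mem_image] at hb
    obtain ⟨⟨m, -, rfl⟩, hb0⟩ := hb
    exact ⟨(hX i (v i)).mem m, hb0⟩
  · intro x hx hx0
    obtain ⟨i, hi⟩ := hcov x hx
    set w : Fin (k i) → ℂ := fun a => ∑ j, ℓ i a j * x j with hw
    -- `w` is not zero
    have hw0 : w ≠ 0 := by
      intro hw0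
      obtain ⟨X', hX', m, hm⟩ := hi 1
      rw [hlin, one_smul, ← hw] at hX'
      obtain ⟨m', hm'⟩ := huniq i w X' hX' m
      have h1 := hXb i w m'
      rw [← hm', hm, one_smul, hw0, norm_zero, mul_zero] at h1
      exact hx0 (norm_le_zero_iff.1 h1)
    have hkpos : 0 < k i := by
      by_contra h
      have h0 : k i = 0 := by omega
      apply hw0
      funext a
      exact absurd a.2 (by omega)
    have hv0 : v i ≠ 0 := by
      intro h
      have h1 := congrFun h ⟨0, hkpos⟩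
      simp [hv] at h1
    have hnrv : nr (v i) = 1 := by
      unfold nr
      rw [Finset.sum_eq_single ⟨0, hkpos⟩]
      · simp [hv]
      · intro a _ ha
        have : (a : ℕ) ≠ 0 := fun h => ha (Fin.ext h)
        simp only [hv, if_neg this, norm_zero]
        norm_num
      · intro h
        exact absurd (Finset.mem_univ _) h
    have hmemB : ∀ m, X i (v i) m ≠ 0 → X i (v i) m ∈ B := by
      intro m hm
      rw [hB, Finset.mem_biUnion]
      exact ⟨i, Finset.mem_univ _, Finset.mem_filter.2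
        ⟨Finset.mem_image.2 ⟨m, Finset.mem_univ _, rfl⟩, hm⟩⟩
    by_cases hpar : ∃ a : ℂ, w = a • v i
    · left
      obtain ⟨a, ha⟩ := hpar
      have ha0 : a ≠ 0 := by
        rintro rfl
        exact hw0 (by rw [ha, zero_smul])
      obtain ⟨X', hX', m, hm⟩ := hi a⁻¹
      rw [hlin, ← hw, ha, smul_smul, inv_mul_cancel₀ ha0, one_smul] at hX'
      obtain ⟨m', hm'⟩ := huniq i _ X' hX' m
      have h1 : X i (v i) m' = a⁻¹ • x := by rw [← hm', hm]
      refine ⟨X i (v i) m', hmemB m' ?_, a⁻¹, inv_ne_zero ha0, h1⟩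
      rw [h1]
      exact smul_ne_zero (inv_ne_zero ha0) hx0
    · right
      push Not at hpar
      obtain ⟨a₁, a₂, s₀, s₁, b₀, b₁, h1, h2, ho, hs₀, hs₁, hb₀, hb₁, e₀, e₁⟩ :=
        KRFAl.lines (v i) w hv0 hw0 hpar
      -- the size of `b₀`
      have hb₀K : ‖b₀‖ ^ 2 = 1 + ‖s₀‖ ^ 2 := by
        have h3 : ‖b₀‖ ^ 2 * nr (v i) = 1 + ‖s₀‖ ^ 2 := by
          rw [← nr_smul, ← e₀, nr_line h1 h2 ho]
        rwa [hnrv, mul_one] at h3
      have hb₀1 : 1 ≤ ‖b₀‖ := by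
        have h3 : (1 : ℝ) ≤ ‖b₀‖ ^ 2 := by
          rw [hb₀K]
          exact le_add_of_nonneg_right (sq_nonneg _)
        exact (one_le_sq_iff₀ (norm_nonneg _)).1 h3
      have hb₀2 : ‖b₀‖ ^ 2 ≤ 2 := by
        have h3 : ‖s₀‖ ^ 2 ≤ 1 := pow_le_one₀ (norm_nonneg _) hs₀
        rw [hb₀K]
        linarith
      have hb₀inv : ‖b₀⁻¹‖ ≤ 1 := by
        rw [norm_inv]
        exact inv_le_one_of_one_le₀ hb₀1
      set W : ℂ → Fin (k i) → ℂ := fun s => b₀⁻¹ • (a₁ + s • a₂) with hW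
      set Z : ℂ → Fin (D i) → Fin L → ℂ := fun s => X i (W s) with hZ
      have hna₁ : ‖a₁‖ ≤ 1 := by
        have := sq_norm_le_nr a₁
        rw [h1] at this
        exact (sq_le_one_iff₀ (norm_nonneg _)).1 this
      have hna₂ : ‖a₂‖ ≤ 1 := by
        have := sq_norm_le_nr a₂
        rw [h2] at this
        exact (sq_le_one_iff₀ (norm_nonneg _)).1 this
      have hWb : ∀ s, ‖W s‖ ≤ 1 + ‖s‖ := by
        intro s
        have h3 : ‖a₁ + s • a₂‖ ≤ 1 + ‖s‖ := by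
          refine (norm_add_le _ _).trans (add_le_add hna₁ ?_)
          rw [norm_smul]
          exact mul_le_of_le_one_right (norm_nonneg _) hna₂
        have h4 : ‖W s‖ = ‖b₀⁻¹‖ * ‖a₁ + s • a₂‖ := norm_smul _ _
        rw [h4]
        exact (mul_le_of_le_one_left (norm_nonneg _) hb₀inv).trans h3
      have hZb : ∀ s m, ‖Z s m‖ ≤ D₀ * (1 + ‖s‖) := fun s m =>
        (hXb i (W s) m).trans (mul_le_mul_of_nonneg_left (hWb s) (by positivity))
      have hHol : HolTup Z := by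
        intro u T
        have h3 : (fun s => ∏ m, (T - ∑ j, u j * Z s m j)) =
            fun s => eval (pt (W s) u T) (Φ i) := by
          funext s
          rw [(hX i (W s)).prod]
        rw [h3]
        have h4 : ∀ P : MvPolynomial (Ix (k i) (Fin L)) ℂ,
            Differentiable ℂ fun s => eval (pt (W s) u T) P := by
          intro P
          induction P using MvPolynomial.induction_on with
          | C a => simp
          | add p q hp hq =>
            simp only [map_add]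
            exact hp.add hq
          | mul_X p j hp =>
            simp only [map_mul, eval_X]
            refine hp.mul ?_
            rcases j with a | j | j
            · have : (fun s => pt (W s) u T (Sum.inl a)) =
                  fun s => b₀⁻¹ * (a₁ a + s * a₂ a) := by
                funext s
                rfl
              rw [this]
              fun_prop
            · exact differentiable_const _
            · exact differentiable_const _
        exact h4 _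
      have hDi : D i ≤ D₀ := (hkD i).2
      have hform : ∀ s m, nl (ℓ i) (Z s m) = (‖b₀‖ ^ 2)⁻¹ * (1 + ‖s‖ ^ 2) := by
        intro s m
        have h4 : (fun a => ∑ j, ℓ i a j * Z s m j) = W s :=
          funext fun a => (hX i (W s)).proj m a
        have h5 : nl (ℓ i) (Z s m) = nr (W s) := by
          rw [← h4]
          rfl
        rw [h5]
        show nr (b₀⁻¹ • (a₁ + s • a₂)) = _
        rw [nr_smul, nr_line h1 h2 ho, norm_inv, inv_pow]
      have hμ2 : (1 : ℝ) / 2 ≤ (‖b₀‖ ^ 2)⁻¹ := by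
        rw [one_div]
        exact inv_anti₀ (by positivity) hb₀2
      have hμ1 : (‖b₀‖ ^ 2)⁻¹ ≤ 1 := inv_le_one_of_one_le₀ (one_le_pow₀ hb₀1)
      have hform_le : ∀ u, nl (ℓ i) u ≤ A₀ * nn u := fun u => nl_le (hkD i).1 (hℓ i) u
      refine ⟨D i, k i, Z, ℓ i, (‖b₀‖ ^ 2)⁻¹, s₀, s₁, by omega, ?_, hs₀, hs₁, ?_, ?_⟩
      · refine ⟨hHol, fun s m => (hX i (W s)).mem m, fun s m => ?_, fun s m => ?_, ⟨hμ2, hμ1⟩,
          hform, fun u => (hform_le u).trans ?_, ?_⟩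
        · have h4 : ∀ j, ‖Z s m j‖ ≤ D₀ * (1 + ‖s‖) := fun j =>
            (norm_le_pi_norm _ j).trans (hZb s m)
          have h5 := nr_le h4
          rw [Fintype.card_fin] at h5
          calc nn (Z s m) ≤ (L : ℝ) * (D₀ * (1 + ‖s‖)) ^ 2 := h5
            _ = L * D₀ ^ 2 * (1 + ‖s‖) ^ 2 := by ring
            _ ≤ L * D₀ ^ 2 * (2 * (1 + ‖s‖ ^ 2)) := by
                refine mul_le_mul_of_nonneg_left ?_ (by positivity)
                linarith [sq_nonneg (1 - ‖s‖)]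
            _ = 2 * L * D₀ ^ 2 * (1 + ‖s‖ ^ 2) := by ring
            _ ≤ C * (1 + ‖s‖ ^ 2) := mul_le_mul_of_nonneg_right hC_L (by positivity)
        · have h4 := hform_le (Z s m)
          rw [hform] at h4
          have h5 : 0 ≤ nn (Z s m) := nr_nonneg _
          have h6 : (0 : ℝ) ≤ 1 + ‖s‖ ^ 2 := by positivity
          have h7 := mul_le_mul_of_nonneg_right hμ2 h6
          have h8 := mul_le_mul_of_nonneg_right hC_A h5
          linarith
        · refine mul_le_mul_of_nonneg_right ?_ (nr_nonneg u)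
          linarith
        · intro s s' hs' hss'
          have h3 : ∀ s, ‖s‖ ≤ 3 → ∀ m, ‖Z s m‖ ≤ R₁ := by
            intro s hs m
            refine (hZb s m).trans (le_trans ?_ (le_max_right _ _))
            gcongr
            linarith
          obtain ⟨σ, hσ⟩ := hCα' (D i) Z hHol h3 s s' hs' hss'
          refine ⟨σ, fun m => (hσ m).trans ?_⟩
          have h4 : ‖s - s'‖ ^ α (D i) ≤ ‖s - s'‖ ^ α₀ :=
            Real.rpow_le_rpow_of_exponent_ge_of_imp (norm_nonneg _) hss' (hα₀D _ hDi)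
              fun _ h => absurd h (hα₀0.trans_le (hα₀D _ hDi)).ne'
          exact mul_le_mul ((hC₀D _ hDi).trans hC_C₀) h4 (by positivity) (by linarith)
      · intro m
        have hWs : W s₀ = v i := by
          show b₀⁻¹ • (a₁ + s₀ • a₂) = v i
          rw [e₀, smul_smul, inv_mul_cancel₀ hb₀, one_smul]
        have h3 : Z s₀ m = X i (v i) m := by
          show X i (W s₀) m = _
          rw [hWs]
        rw [h3]
        refine hmemB m fun h0 => ?_
        have h4 := (hX i (v i)).proj m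
        apply hv0
        funext a
        rw [← h4 a, h0]
        simp
      · have hc0 : b₀⁻¹ * b₁ ≠ 0 := mul_ne_zero (inv_ne_zero hb₀) hb₁
        obtain ⟨X', hX', m, hm⟩ := hi (b₀⁻¹ * b₁)
        have hWs : (b₀⁻¹ * b₁) • w = W s₁ := by
          show _ = b₀⁻¹ • (a₁ + s₁ • a₂)
          rw [e₁, smul_smul]
        rw [hlin, ← hw, hWs] at hX'
        obtain ⟨m', hm'⟩ := huniq i _ X' hX' m
        refine ⟨m', b₀⁻¹ * b₁, hc0, ?_⟩
        show X i (W s₁) m' = _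
        rw [← hm', hm]

end Pool.Agent.KRFW
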