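import Pool.Agent.Work.MP_a2bf38_gt.W.Defs

/-!
# The covering of the cone of a homogeneous prime ideal (helper70)
-/

open MvPolynomial Filter Topology

namespace Pool.Agent.KRFW

namespace PrimeD

variable {K : Type*} [Field K] {σ : Type} [Fintype σ] {𝔭 : Ideal (MvPolynomial σ K)}

/-- the coordinate functions -/
noncomputable def xq (𝔭 : Ideal (MvPolynomial σ K)) (j : σ) : MvPolynomial σ K ⧸ 𝔭 :=
  Ideal.Quotient.mk 𝔭 (X j)

/-- the linear forms in the coordinate ring -/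
noncomputable def yq (𝔭 : Ideal (MvPolynomial σ K)) {k : ℕ} (ℓ : Fin k → σ → K) (i : Fin k) :
    MvPolynomial σ K ⧸ 𝔭 :=
  Ideal.Quotient.mk 𝔭 (lin (ℓ i))

omit [Fintype σ] in
theorem mkₐ_eq : Ideal.Quotient.mkₐ K 𝔭 = aeval (xq 𝔭) :=
  MvPolynomial.algHom_ext fun j => by
    rw [aeval_X]
    rfl

omit [Fintype σ] in
theorem adjoin_xq : Algebra.adjoin K (Set.range (xq 𝔭)) = ⊤ := by
  rw [Algebra.adjoin_range_eq_range_aeval, ← mkₐ_eq, AlgHom.range_eq_top]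
  exact Ideal.Quotient.mkₐ_surjective K 𝔭

omit [Fintype σ] in
/-- the values of a homomorphism to `K` -/
theorem apply_mk (ψ : MvPolynomial σ K ⧸ 𝔭 →ₐ[K] K) (P : MvPolynomial σ K) :
    ψ (Ideal.Quotient.mk 𝔭 P) = eval (fun j => ψ (xq 𝔭 j)) P := by
  have h1 : ψ.comp (Ideal.Quotient.mkₐ K 𝔭) = aeval fun j => ψ (xq 𝔭 j) :=
    MvPolynomial.algHom_ext fun j => by
      rw [aeval_X]
      rfl
  have h2 := congrArg (fun φ : MvPolynomial σ K →ₐ[K] K => φ P) h1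
  simp only [AlgHom.comp_apply] at h2
  exact h2

theorem apply_yq (ψ : MvPolynomial σ K ⧸ 𝔭 →ₐ[K] K) {k : ℕ} (ℓ : Fin k → σ → K) (i : Fin k) :
    ψ (yq 𝔭 ℓ i) = ∑ j, ℓ i j * ψ (xq 𝔭 j) := by
  rw [yq, apply_mk, lin]
  simp

omit [Fintype σ] in
theorem mem_zeros (ψ : MvPolynomial σ K ⧸ 𝔭 →ₐ[K] K) :
    (fun j => ψ (xq 𝔭 j)) ∈ zeros (𝔭 : Set (MvPolynomial σ K)) := by
  intro P hP
  rw [← apply_mk, Ideal.Quotient.eq_zero_iff_mem.2 hP, map_zero]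

/-- the homomorphism of a zero -/
noncomputable def psi {x : σ → K} (hx : x ∈ zeros (𝔭 : Set (MvPolynomial σ K))) :
    MvPolynomial σ K ⧸ 𝔭 →ₐ[K] K :=
  Ideal.Quotient.liftₐ 𝔭 (aeval x) fun P hP => hx P hP

omit [Fintype σ] in
theorem psi_xq {x : σ → K} (hx : x ∈ zeros (𝔭 : Set (MvPolynomial σ K))) (j : σ) :
    psi hx (xq 𝔭 j) = x j := by
  have h : psi hx (xq 𝔭 j) = aeval x (X j : MvPolynomial σ K) := rfl
  rw [h, aeval_X]

theorem psi_yq {x : σ → K} (hx : x ∈ zeros (𝔭 : Set (MvPolynomial σ K))) {k : ℕ}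
    (ℓ : Fin k → σ → K) (i : Fin k) : psi hx (yq 𝔭 ℓ i) = ∑ j, ℓ i j * x j := by
  rw [apply_yq]
  simp only [psi_xq]

theorem aeval_yq {k : ℕ} (ℓ : Fin k → σ → K) (G : MvPolynomial (Fin k) K) :
    aeval (yq 𝔭 ℓ) G = Ideal.Quotient.mk 𝔭 (aeval (fun i => lin (ℓ i)) G) := by
  have h1 : (aeval (yq 𝔭 ℓ) : MvPolynomial (Fin k) K →ₐ[K] MvPolynomial σ K ⧸ 𝔭) =
      (Ideal.Quotient.mkₐ K 𝔭).comp (aeval fun i => lin (ℓ i)) :=
    MvPolynomial.algHom_ext fun i => by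
      rw [AlgHom.comp_apply, aeval_X, aeval_X]
      rfl
  rw [h1]
  rfl

/-- the homomorphism of `B` -/
noncomputable abbrev hom (O : ValuationSubring K) {k : ℕ} (ℓ : Fin k → σ → O) :
    MvPolynomial (Fin k) O →+* MvPolynomial σ K :=
  eval₂Hom (C.comp O.subtype) fun i => lin fun j => (ℓ i j : K)

theorem eval_hom (O : ValuationSubring K) {k : ℕ} (ℓ : Fin k → σ → O) (x : σ → K)
    (P : MvPolynomial (Fin k) O) : eval x (hom O ℓ P) =
      eval₂ O.subtype (fun i => ∑ j, (ℓ i j : K) * x j) P := by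
  have h1 : (eval x).comp (hom O ℓ) = eval₂Hom O.subtype fun i => ∑ j, (ℓ i j : K) * x j := by
    refine MvPolynomial.ringHom_ext (fun a => ?_) fun i => ?_
    · simp
    · simp [lin]
  have h2 := congrArg (fun φ : MvPolynomial (Fin k) O →+* K => φ P) h1
  exact h2

theorem mk_hom (O : ValuationSubring K) {k : ℕ} (ℓ : Fin k → σ → O)
    (P : MvPolynomial (Fin k) O) : Ideal.Quotient.mk 𝔭 (hom O ℓ P) =
      aeval (yq 𝔭 fun i j => (ℓ i j : K)) (map O.subtype P) := by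
  have h1 : (Ideal.Quotient.mk 𝔭).comp (hom O ℓ) =
      (aeval (yq 𝔭 fun i j => (ℓ i j : K)) : MvPolynomial (Fin k) K →ₐ[K] _).toRingHom.comp
        (map O.subtype) := by
    refine MvPolynomial.ringHom_ext (fun a => ?_) fun i => ?_
    · simp only [RingHom.comp_apply, eval₂Hom_C, map_C, AlgHom.toRingHom_eq_coe, RingHom.coe_coe,
        aeval_C]
      rfl
    · simp only [RingHom.comp_apply, eval₂Hom_X', map_X, AlgHom.toRingHom_eq_coe, RingHom.coe_coe,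
        aeval_X]
      rfl
  have h2 := congrArg (fun φ : MvPolynomial (Fin k) O →+* MvPolynomial σ K ⧸ 𝔭 => φ P) h1
  exact h2

/-- the coordinates are integral over the linear forms -/
theorem integral_xq (O : ValuationSubring K) {k : ℕ} (ℓ : Fin k → σ → O) {j : σ}
    {q : Polynomial (MvPolynomial (Fin k) O)} (hq : q.Monic)
    (h : q.eval₂ (hom O ℓ) (X j) ∈ 𝔭) :
    (aeval (yq 𝔭 fun i j => (ℓ i j : K)) : MvPolynomial (Fin k) K →ₐ[K] _).toRingHom.IsIntegralElem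
      (xq 𝔭 j) := by
  refine ⟨q.map (map O.subtype), hq.map _, ?_⟩
  rw [Polynomial.eval₂_map]
  have h1 : (aeval (yq 𝔭 fun i j => (ℓ i j : K)) : MvPolynomial (Fin k) K →ₐ[K] _).toRingHom.comp
      (map O.subtype) = (Ideal.Quotient.mk 𝔭).comp (hom O ℓ) :=
    RingHom.ext fun P => (mk_hom O ℓ P).symm
  rw [h1, xq, ← Polynomial.hom_eval₂]
  exact Ideal.Quotient.eq_zero_iff_mem.2 h

/-- the coordinates of a zero are in `O` if the linear forms have values in `O` -/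
theorem mem_of_forms (O : ValuationSubring K) {k : ℕ} (ℓ : Fin k → σ → O) {j : σ}
    {q : Polynomial (MvPolynomial (Fin k) O)} (hq : q.Monic)
    (h : q.eval₂ (hom O ℓ) (X j) ∈ 𝔭) {x : σ → K}
    (hx : x ∈ zeros (𝔭 : Set (MvPolynomial σ K)))
    (hO : ∀ i, ∑ j, (ℓ i j : K) * x j ∈ O) : x j ∈ O := by
  set z : Fin k → O := fun i => ⟨_, hO i⟩ with hz
  have h1 : eval x (q.eval₂ (hom O ℓ) (X j)) = 0 := hx _ h
  rw [Polynomial.hom_eval₂] at h1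
  have h2 : (eval x).comp (hom O ℓ) = O.subtype.comp (eval z) := by
    refine RingHom.ext fun P => ?_
    rw [RingHom.comp_apply, eval_hom, RingHom.comp_apply]
    have h3 := MvPolynomial.eval₂_comp_left O.subtype (RingHom.id O) z P
    rw [eval, coe_eval₂Hom, h3]
    rfl
  rw [h2, eval_X] at h1
  have h4 : O.subtype.IsIntegralElem (x j) := by
    refine ⟨q.map (eval z), hq.map _, ?_⟩
    rw [Polynomial.eval₂_map]
    exact h1
  have h5 : IsIntegral O (x j) := h4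
  obtain ⟨a, ha⟩ := IsIntegrallyClosed.isIntegral_iff.1 h5
  rw [← ha]
  exact a.2

/-- `prime_sheets` from B and C -/
theorem sheets_of (O : ValuationSubring K)
    (hB : ∃ (k : ℕ) (ℓ : Fin k → σ → O),
      (∀ G : MvPolynomial (Fin k) K, aeval (fun i => lin fun j => (ℓ i j : K)) G ∈ 𝔭 → G = 0) ∧
      ∀ j, ∃ q : Polynomial (MvPolynomial (Fin k) O), q.Monic ∧
        q.eval₂ (eval₂Hom (C.comp O.subtype) fun i => lin fun j => (ℓ i j : K)) (X j) ∈ 𝔭)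
    (hC : ∀ (k : ℕ) (y : Fin k → MvPolynomial σ K ⧸ 𝔭),
      Function.Injective (aeval y : MvPolynomial (Fin k) K →ₐ[K] MvPolynomial σ K ⧸ 𝔭) →
      (∀ j, (aeval y : MvPolynomial (Fin k) K →ₐ[K] MvPolynomial σ K ⧸ 𝔭).toRingHom.IsIntegralElem
        (xq 𝔭 j)) →
      ∃ (D : ℕ) (Φ : MvPolynomial (Ix k σ) K),
        (∀ w : Fin k → K, ∃ ψ : Fin D → MvPolynomial σ K ⧸ 𝔭 →ₐ[K] K, (∀ m i, ψ m (y i) = w i) ∧
          ∀ u T, eval (pt w u T) Φ = ∏ m, (T - ∑ j, u j * ψ m (xq 𝔭 j))) ∧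
        ∀ ψ₀ : MvPolynomial σ K ⧸ 𝔭 →ₐ[K] K, ∃ ψ : Fin D → MvPolynomial σ K ⧸ 𝔭 →ₐ[K] K,
          (∀ m i, ψ m (y i) = ψ₀ (y i)) ∧ (∃ m, ψ m = ψ₀) ∧
          ∀ u T, eval (pt (fun i => ψ₀ (y i)) u T) Φ = ∏ m, (T - ∑ j, u j * ψ m (xq 𝔭 j))) :
    ∃ (k D : ℕ) (ℓ : Fin k → σ → K) (Φ : MvPolynomial (Ix k σ) K),
      (∀ i j, ℓ i j ∈ O) ∧
      (∀ w, ∃ X : Fin D → σ → K, IsTup (zeros (𝔭 : Set (MvPolynomial σ K))) ℓ Φ w X) ∧
      (∀ x ∈ zeros (𝔭 : Set (MvPolynomial σ K)), ∃ X : Fin D → σ → K,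
        IsTup (zeros (𝔭 : Set (MvPolynomial σ K))) ℓ Φ (fun i => ∑ j, ℓ i j * x j) X ∧
          ∃ m, X m = x) ∧
      ∀ x ∈ zeros (𝔭 : Set (MvPolynomial σ K)), (∀ i, ∑ j, ℓ i j * x j ∈ O) → ∀ j, x j ∈ O := by
  obtain ⟨k, ℓ, hinj, hint⟩ := hB
  have hinj' : Function.Injective
      (aeval (yq 𝔭 fun i j => (ℓ i j : K)) : MvPolynomial (Fin k) K →ₐ[K] _) := by
    rw [injective_iff_map_eq_zero]
    intro G hG
    rw [aeval_yq] at hG
    exact hinj G (Ideal.Quotient.eq_zero_iff_mem.1 hG)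
  obtain ⟨D, Φ, h1, h2⟩ := hC k (yq 𝔭 fun i j => (ℓ i j : K)) hinj' fun j => by
    obtain ⟨q, hq, hqp⟩ := hint j
    exact integral_xq O ℓ hq hqp
  refine ⟨k, D, fun i j => (ℓ i j : K), Φ, fun i j => (ℓ i j).2, fun w => ?_, fun x hx => ?_,
    fun x hx hO j => ?_⟩
  · obtain ⟨ψ, hψ, hΦ⟩ := h1 w
    exact ⟨fun m j => ψ m (xq 𝔭 j), ⟨fun m => mem_zeros _, fun m i => by
      rw [← hψ m i, apply_yq], fun u T => hΦ u T⟩⟩
  · obtain ⟨ψ, hψ, ⟨m₀, hm₀⟩, hΦ⟩ := h2 (psi hx)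
    refine ⟨fun m j => ψ m (xq 𝔭 j), ⟨fun m => mem_zeros _, fun m i => ?_, fun u T => ?_⟩,
      m₀, ?_⟩
    · exact (apply_yq (ψ m) _ i).symm.trans ((hψ m i).trans (psi_yq hx _ i))
    · rw [← hΦ u T]
      simp only [psi_yq]
    · funext j
      change ψ m₀ (xq 𝔭 j) = x j
      rw [hm₀, psi_xq]
  · obtain ⟨q, hq, hqp⟩ := hint j
    exact mem_of_forms O ℓ hq hqp hx hO

end PrimeD

end Pool.Agent.KRFW
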