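import Pool.Agent.Work.MP_a2bf38_gt.W.Defs

/-!
# Symmetric functions of the roots; the discrete set where the number of points drops
-/

open MvPolynomial Filter Topology

namespace Pool.Agent.KRFW

/-! ## symmetric functions of the roots are holomorphic -/

lemma prod_sub_coeff {D : ℕ} (T : Fin D → ℂ) {k : ℕ} (hk : k ≤ D) :
    (∏ m, (Polynomial.X - Polynomial.C (T m))).coeff (D - k) =
      (-1) ^ k * (Finset.univ.val.map T).esymm k := by
  have h := Multiset.prod_X_sub_C_coeff (Finset.univ.val.map T) (k := D - k) (by simp)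
  rw [Multiset.map_map] at h
  have h1 : (∏ m, (Polynomial.X - Polynomial.C (T m))) =
      (Multiset.map ((fun t => Polynomial.X - Polynomial.C t) ∘ T) Finset.univ.val).prod := rfl
  rw [h1, h]
  simp only [Multiset.card_map, Finset.card_val, Finset.card_univ, Fintype.card_fin]
  rw [Nat.sub_sub_self hk]

/-- the coefficients of a product of linear factors are linear combinations of its values
at the points `0, 1, .., D` -/
lemma prod_coeff_interp {D : ℕ} (T : Fin D → ℂ) (k : ℕ) :
    (∏ m, (Polynomial.X - Polynomial.C (T m))).coeff k =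
      ∑ i ∈ Finset.range (D + 1), (∏ m, ((i : ℂ) - T m)) *
        (Lagrange.basis (Finset.range (D + 1)) (fun i : ℕ => (i : ℂ)) i).coeff k := by
  set P : Polynomial ℂ := ∏ m, (Polynomial.X - Polynomial.C (T m)) with hP
  have hinj : Set.InjOn (fun i : ℕ => (i : ℂ)) (Finset.range (D + 1)) :=
    fun a _ b _ hab => Nat.cast_injective hab
  have hdeg : P.degree < (Finset.range (D + 1)).card := by
    rw [Finset.card_range, hP, Polynomial.degree_prod]
    simp only [Polynomial.degree_X_sub_C, Finset.sum_const, Finset.card_univ, Fintype.card_fin,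
      nsmul_eq_mul, mul_one]
    exact_mod_cast Nat.lt_succ_self D
  have h := Lagrange.eq_interpolate_of_eval_eq (s := Finset.range (D + 1))
    (v := fun i : ℕ => (i : ℂ)) (f := P) (fun i : ℕ => ∏ m, ((i : ℂ) - T m)) hinj hdeg (by
      intro i _
      rw [hP, Polynomial.eval_prod]
      simp)
  rw [h]
  simp only [Lagrange.interpolate_apply, Polynomial.finsetSum_coeff, Polynomial.coeff_C_mul]

lemma differentiable_esymm {D : ℕ} {T : ℂ → Fin D → ℂ}
    (hT : ∀ t, Differentiable ℂ fun s => ∏ m, (t - T s m)) (k : ℕ) :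
    Differentiable ℂ fun s => (Finset.univ.val.map (T s)).esymm k := by
  by_cases hk : k ≤ D
  · have h1 : (fun s => (Finset.univ.val.map (T s)).esymm k) = fun s =>
        (-1) ^ k * ∑ i ∈ Finset.range (D + 1), (∏ m, ((i : ℂ) - T s m)) *
        (Lagrange.basis (Finset.range (D + 1)) (fun i : ℕ => (i : ℂ)) i).coeff (D - k) := by
      funext s
      rw [← prod_coeff_interp, prod_sub_coeff (T s) hk, ← mul_assoc, ← mul_pow]
      simp
    rw [h1]
    apply Differentiable.const_mul
    apply Differentiable.fun_sum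
    intro i _
    exact (hT i).mul_const _
  · have h1 : (fun s => (Finset.univ.val.map (T s)).esymm k) = fun _ => 0 := by
      funext s
      rw [Multiset.esymm, Multiset.powersetCard_eq_empty]
      · simp
      · simpa using hk
    rw [h1]
    exact differentiable_const 0

/-- a polynomial expression in differentiable functions -/
lemma differentiable_eval {ι : Type} {f : ι → ℂ → ℂ} (hf : ∀ i, Differentiable ℂ (f i))
    (Q : MvPolynomial ι ℂ) : Differentiable ℂ fun s => eval (fun i => f i s) Q := by
  induction Q using MvPolynomial.induction_on with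
  | C a => simp
  | add p q hp hq =>
    have h : (fun s => eval (fun i => f i s) (p + q)) =
        fun s => eval (fun i => f i s) p + eval (fun i => f i s) q := by
      funext s
      simp
    rw [h]
    exact hp.fun_add hq
  | mul_X p i hp =>
    have h : (fun s => eval (fun i => f i s) (p * X i)) =
        fun s => eval (fun i => f i s) p * f i s := by
      funext s
      simp
    rw [h]
    exact hp.fun_mul (hf i)

lemma eval_aeval' {ι κ : Type} (x : κ → ℂ) (g : ι → MvPolynomial κ ℂ) (Q : MvPolynomial ι ℂ) :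
    eval x (aeval g Q) = eval (fun i => eval x (g i)) Q := by
  induction Q using MvPolynomial.induction_on with
  | C a => simp
  | add p q hp hq => rw [map_add, map_add, map_add, hp, hq]
  | mul_X p i hp => rw [map_mul, map_mul, map_mul, hp, aeval_X, eval_X]

/-- symmetric functions of the roots are holomorphic -/
theorem differentiable_symm {D : ℕ} {T : ℂ → Fin D → ℂ}
    (hT : ∀ t, Differentiable ℂ fun s => ∏ m, (t - T s m)) (G : MvPolynomial (Fin D) ℂ)
    (hG : G.IsSymmetric) : Differentiable ℂ fun s => eval (T s) G := by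
  obtain ⟨Q, hQ⟩ := esymmAlgHom_surjective ℂ (σ := Fin D) (n := D) (by simp) ⟨G, hG⟩
  have hQ' : aeval (fun i : Fin D => esymm (Fin D) ℂ (i + 1)) Q = G := by
    rw [← esymmAlgHom_apply, hQ]
  have h1 : (fun s => eval (T s) G) = fun s =>
      eval (fun i : Fin D => (Finset.univ.val.map (T s)).esymm (i + 1)) Q := by
    funext s
    rw [← hQ', eval_aeval']
    congr 1
    congr 1
    funext i
    rw [← aeval_esymm_eq_multiset_esymm (Fin D) ℂ, aeval_eq_eval]
  rw [h1]
  exact differentiable_eval (fun i => differentiable_esymm hT _) Q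

/-! ## the discriminant polynomial for `r` points -/

/-- sum over the subsets with `r` elements of the product of all differences -/
noncomputable def disc (D r : ℕ) : MvPolynomial (Fin D) ℂ :=
  ∑ S ∈ Finset.powersetCard r (Finset.univ : Finset (Fin D)),
    ∏ p ∈ S.offDiag, (X p.1 - X p.2)

lemma disc_symm (D r : ℕ) : (disc D r).IsSymmetric := by
  intro e
  unfold disc
  rw [map_sum]
  refine Finset.sum_bij' (fun S _ => S.map e.toEmbedding) (fun S _ => S.map e.symm.toEmbedding)
    ?_ ?_ ?_ ?_ ?_
  · intro S hS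
    simp only [Finset.mem_powersetCard_univ, Finset.card_map] at hS ⊢
    exact hS
  · intro S hS
    simp only [Finset.mem_powersetCard_univ, Finset.card_map] at hS ⊢
    exact hS
  · intro S _
    ext x
    simp
  · intro S _
    ext x
    simp
  · intro S _
    rw [map_prod]
    refine Finset.prod_bij (fun p _ => (e p.1, e p.2)) ?_ ?_ ?_ ?_
    · intro p hp
      simp only [Finset.mem_offDiag, Finset.mem_map_equiv, Equiv.symm_apply_apply] at hp ⊢
      exact ⟨hp.1, hp.2.1, fun h => hp.2.2 (e.injective h)⟩
    · intro p _ q _ h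
      simp only [Prod.mk.injEq, EmbeddingLike.apply_eq_iff_eq] at h
      exact Prod.ext h.1 h.2
    · intro q hq
      simp only [Finset.mem_offDiag, Finset.mem_map_equiv] at hq
      refine ⟨(e.symm q.1, e.symm q.2), ?_, by simp⟩
      simp only [Finset.mem_offDiag]
      exact ⟨hq.1, hq.2.1, fun h => hq.2.2 (e.symm.injective h)⟩
    · intro p _
      simp

lemma eval_disc {D : ℕ} (r : ℕ) (t : Fin D → ℂ) : eval t (disc D r) =
    ∑ S ∈ Finset.powersetCard r (Finset.univ : Finset (Fin D)),
      ∏ p ∈ S.offDiag, (t p.1 - t p.2) := by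
  unfold disc
  simp [map_sum, map_prod]

lemma prod_offDiag_eq_zero {D : ℕ} {t : Fin D → ℂ} {S : Finset (Fin D)}
    (h : ¬ Set.InjOn t S) : ∏ p ∈ S.offDiag, (t p.1 - t p.2) = 0 := by
  unfold Set.InjOn at h
  push Not at h
  obtain ⟨a, ha, b, hb, hab, hne⟩ := h
  exact Finset.prod_eq_zero (i := (a, b)) (Finset.mem_offDiag.2 ⟨ha, hb, hne⟩) (by simp [hab])

/-- if the discriminant does not vanish, there are at least `r` values -/
lemma exists_injOn_of_disc {D r : ℕ} {t : Fin D → ℂ} (h : eval t (disc D r) ≠ 0) :
    ∃ S : Finset (Fin D), S.card = r ∧ Set.InjOn t S := by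
  by_contra hcon
  push Not at hcon
  apply h
  rw [eval_disc]
  apply Finset.sum_eq_zero
  intro S hS
  exact prod_offDiag_eq_zero (hcon S (Finset.mem_powersetCard_univ.1 hS))

/-- if there are exactly `r` values, the discriminant does not vanish -/
lemma disc_ne_zero {D r : ℕ} {t : Fin D → ℂ} (h : (Finset.univ.image t).card = r) :
    eval t (disc D r) ≠ 0 := by
  classical
  set P₀ : ℂ := ∏ q ∈ (Finset.univ.image t).offDiag, (q.1 - q.2) with hP₀
  have hP : P₀ ≠ 0 := by
    rw [hP₀]
    apply Finset.prod_ne_zero_iff.2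
    intro q hq
    exact sub_ne_zero.2 (Finset.mem_offDiag.1 hq).2.2
  have hterm : ∀ S ∈ Finset.powersetCard r (Finset.univ : Finset (Fin D)),
      ∏ p ∈ S.offDiag, (t p.1 - t p.2) = if Set.InjOn t S then P₀ else 0 := by
    intro S hS
    split_ifs with hinj
    · have himg : S.image t = Finset.univ.image t := by
        apply Finset.eq_of_subset_of_card_le
        · exact Finset.image_subset_image (Finset.subset_univ S)
        · rw [h, Finset.card_image_of_injOn hinj, Finset.mem_powersetCard_univ.1 hS]
      rw [hP₀, ← himg]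
      refine Finset.prod_bij (fun p _ => (t p.1, t p.2)) ?_ ?_ ?_ ?_
      · intro p hp
        simp only [Finset.mem_offDiag] at hp ⊢
        exact ⟨Finset.mem_image_of_mem t hp.1, Finset.mem_image_of_mem t hp.2.1,
          fun he => hp.2.2 (hinj hp.1 hp.2.1 he)⟩
      · intro p hp q hq he
        simp only [Finset.mem_offDiag] at hp hq
        simp only [Prod.mk.injEq] at he
        exact Prod.ext (hinj hp.1 hq.1 he.1) (hinj hp.2.1 hq.2.1 he.2)
      · intro q hq
        simp only [Finset.mem_offDiag, Finset.mem_image] at hq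
        obtain ⟨⟨a, ha, haq⟩, ⟨b, hb, hbq⟩, hne⟩ := hq
        refine ⟨(a, b), ?_, by simp [haq, hbq]⟩
        simp only [Finset.mem_offDiag]
        refine ⟨ha, hb, ?_⟩
        rintro rfl
        exact hne (haq.symm.trans hbq)
      · intro p _
        rfl
    · exact prod_offDiag_eq_zero hinj
  rw [eval_disc, Finset.sum_congr rfl hterm, ← Finset.sum_filter, Finset.sum_const, nsmul_eq_mul]
  apply mul_ne_zero _ hP
  rw [Nat.cast_ne_zero, ← Nat.pos_iff_ne_zero, Finset.card_pos]
  -- a section of `t`
  obtain ⟨S, _, hSi, hSt⟩ := Finset.exists_subset_injOn_image_eq_of_surjOn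
    (Finset.univ : Finset (Fin D)) (Finset.univ.image t) (f := t) (by
      intro y hy
      obtain ⟨x, _, rfl⟩ := Finset.mem_image.1 hy
      exact ⟨x, by simp, rfl⟩)
  refine ⟨S, ?_⟩
  rw [Finset.mem_filter, Finset.mem_powersetCard_univ]
  refine ⟨?_, hSi⟩
  rw [← h, ← hSt, Finset.card_image_of_injOn hSi]

/-- a linear form which separates finitely many points -/
lemma exists_separating {σ : Type} [Fintype σ] (F : Finset (σ → ℂ)) : ∃ u : σ → ℂ,
    ∀ x ∈ F, ∀ y ∈ F, ∑ j, u j * x j = ∑ j, u j * y j → x = y := by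
  classical
  set P : MvPolynomial σ ℂ := ∏ p ∈ F.offDiag, ∑ j, X j * C (p.1 j - p.2 j) with hP
  have hP0 : P ≠ 0 := by
    rw [hP]
    apply Finset.prod_ne_zero_iff.2
    intro p hp h0
    obtain ⟨_, _, hne⟩ := Finset.mem_offDiag.1 hp
    apply hne
    funext j0
    have h1 := congrArg (eval (Pi.single j0 (1 : ℂ))) h0
    rw [map_sum, map_zero, Finset.sum_eq_single j0] at h1
    · simp only [map_mul, eval_X, Pi.single_eq_same, one_mul, eval_C] at h1
      exact sub_eq_zero.1 h1
    · intro j _ hj
      simp [hj]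
    · intro h
      exact absurd (Finset.mem_univ _) h
  obtain ⟨u, hu⟩ : ∃ u : σ → ℂ, eval u P ≠ 0 := by
    by_contra hcon
    push Not at hcon
    exact hP0 (MvPolynomial.funext fun x => by rw [hcon x, map_zero])
  refine ⟨u, ?_⟩
  intro x hx y hy hxy
  by_contra hne
  apply hu
  rw [hP, map_prod]
  apply Finset.prod_eq_zero (i := (x, y)) (Finset.mem_offDiag.2 ⟨hx, hy, hne⟩)
  rw [map_sum]
  simp only [map_mul, eval_X, eval_C, mul_sub, Finset.sum_sub_distrib]
  rw [hxy, sub_self]

/-- off a discrete set the number of points of the tuple is maximal -/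
theorem exists_discrete {D : ℕ} {σ : Type} [Fintype σ] {X : ℂ → Fin D → σ → ℂ} (hX : HolTup X) :
    ∃ (E : Set ℂ) (r : ℕ), (∀ s, ∃ δ > 0, ∀ s' ∈ E, s' ≠ s → δ ≤ ‖s' - s‖) ∧
      (∀ s, (Set.range (X s)).ncard ≤ r) ∧ ∀ s ∉ E, (Set.range (X s)).ncard = r := by
  classical
  have hcard : ∀ s, (Set.range (X s)).ncard = (Finset.univ.image (X s)).card := by
    intro s
    rw [← Set.ncard_coe_finset]
    congr 1
    simp
  have hbd : ∀ s, (Set.range (X s)).ncard ≤ D := by
    intro s
    rw [hcard]
    refine Finset.card_image_le.trans ?_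
    simp
  -- the maximal number of points
  obtain ⟨s₀, hs₀⟩ : ∃ s₀, ∀ s, (Set.range (X s)).ncard ≤ (Set.range (X s₀)).ncard := by
    have hne : (Set.range fun s => (Set.range (X s)).ncard).Nonempty := Set.range_nonempty _
    have hbdd : BddAbove (Set.range fun s => (Set.range (X s)).ncard) := by
      refine ⟨D, ?_⟩
      rintro _ ⟨s, rfl⟩
      exact hbd s
    obtain ⟨s₀, h0⟩ := Nat.sSup_mem hne hbdd
    refine ⟨s₀, fun s => ?_⟩
    simp only at h0
    rw [h0]
    exact le_csSup hbdd ⟨s, rfl⟩
  set r := (Set.range (X s₀)).ncard with hr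
  obtain ⟨u, hu⟩ := exists_separating (Finset.univ.image (X s₀))
  set T : ℂ → Fin D → ℂ := fun s m => ∑ j, u j * X s m j with hT
  set Δ : ℂ → ℂ := fun s => eval (T s) (disc D r) with hΔ
  have hΔd : Differentiable ℂ Δ := differentiable_symm (fun t => hX u t) _ (disc_symm D r)
  have hΔ0 : Δ s₀ ≠ 0 := by
    apply disc_ne_zero
    rw [hr, hcard]
    have : Finset.univ.image (T s₀) =
        (Finset.univ.image (X s₀)).image (fun x => ∑ j, u j * x j) := by
      rw [Finset.image_image]
      rfl
    rw [this]
    apply Finset.card_image_of_injOn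
    intro x hx y hy hxy
    exact hu x hx y hy hxy
  have hΔr : ∀ s, Δ s ≠ 0 → (Set.range (X s)).ncard = r := by
    intro s hs
    apply le_antisymm (hs₀ s)
    obtain ⟨S, hS, hSi⟩ := exists_injOn_of_disc hs
    rw [hcard, ← hS]
    have hSi' : Set.InjOn (X s) S := by
      intro a ha b hb hab
      apply hSi ha hb
      simp only [hT, hab]
    rw [← Finset.card_image_of_injOn hSi']
    exact Finset.card_le_card (Finset.image_subset_image (Finset.subset_univ S))
  refine ⟨{s | Δ s = 0}, r, ?_, hs₀, fun s hs => hΔr s hs⟩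
  intro s
  have han : AnalyticOnNhd ℂ Δ Set.univ := by
    rw [Complex.analyticOnNhd_univ_iff_differentiable]
    exact hΔd
  rcases (han s (Set.mem_univ _)).eventually_eq_zero_or_eventually_ne_zero with h | h
  · exfalso
    have := han.eqOn_zero_of_preconnected_of_eventuallyEq_zero isPreconnected_univ
      (Set.mem_univ s) h
    exact hΔ0 (this (Set.mem_univ s₀))
  · rw [eventually_nhdsWithin_iff, Metric.eventually_nhds_iff] at h
    obtain ⟨δ, hδ, hball⟩ := h
    refine ⟨δ, hδ, ?_⟩
    intro s' hs' hne
    by_contra hlt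
    push Not at hlt
    exact hball (by rw [dist_eq_norm]; exact hlt) hne hs'

end Pool.Agent.KRFW
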