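import Pool.Agent.Work.MP_a2bf38_gt.W.TransferA

/-!
# Transfer of tuples from the ultrapower to `ℂ`
-/

open MvPolynomial Filter Topology
open Pool.Agent.KRFN Pool.Agent.KRFN.Ultra Pool.Agent.KRFN.Loj

namespace Pool.Agent.KRFW

theorem cr_finsetSum {ι : Type*} (s : Finset ι) (f : ι → ℕ → ℂ) :
    cr (fun n => ∑ i ∈ s, f i n) = ∑ i ∈ s, cr (f i) := by
  have h : (fun n => ∑ i ∈ s, f i n) = ∑ i ∈ s, f i := by
    funext n
    rw [Finset.sum_apply]
  rw [h, map_sum]

theorem cr_finsetProd {ι : Type*} (s : Finset ι) (f : ι → ℕ → ℂ) :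
    cr (fun n => ∏ i ∈ s, f i n) = ∏ i ∈ s, cr (f i) := by
  have h : (fun n => ∏ i ∈ s, f i n) = ∏ i ∈ s, f i := by
    funext n
    rw [Finset.prod_apply]
  rw [h, map_prod]

theorem cr_mul (f g : ℕ → ℂ) : cr (fun n => f n * g n) = cr f * cr g := map_mul cr f g

theorem cr_sub (f g : ℕ → ℂ) : cr (fun n => f n - g n) = cr f - cr g := map_sub cr f g

theorem cr_pow (f : ℕ → ℂ) (k : ℕ) : cr (fun n => f n ^ k) = cr f ^ k := map_pow cr f k

/-- a sequence of polynomials which represents `Φ` -/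
theorem lift_poly {ι : Type} (Φ : MvPolynomial ι KK) : ∃ F : ℕ → MvPolynomial ι ℂ,
    ∀ z : ℕ → ι → ℂ, eval (fun i => cr fun n => z n i) Φ = cr fun n => eval (z n) (F n) := by
  choose c hc using fun m => cr_surj (coeff m Φ)
  refine ⟨fun n => ∑ m ∈ Φ.support, monomial m (c m n), fun z => ?_⟩
  rw [eval_eq]
  simp only [map_sum, eval_monomial]
  rw [cr_finsetSum]
  refine Finset.sum_congr rfl fun m _ => ?_
  rw [cr_mul, hc]
  congr 1
  unfold Finsupp.prod
  rw [cr_finsetProd]
  exact Finset.prod_congr rfl fun i _ => (cr_pow _ _).symm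

section

variable {k D : ℕ} {σ τ : Type} [Fintype σ]

omit [Fintype σ] in
theorem pt_cr (w : ℕ → Fin k → ℂ) (u : ℕ → σ → ℂ) (T : ℕ → ℂ) :
    (fun i => cr (fun n => pt (w n) (u n) (T n) i)) =
      pt (fun a => cr fun n => w n a) (fun j => cr fun n => u n j) (cr T) := by
  funext i
  rcases i with i | i | i <;> rfl

theorem tup_transfer (S : Finset (MvPolynomial (σ ⊕ τ) ℂ)) (y : ℕ → τ → ℂ)
    (ℓ : ℕ → Fin k → σ → ℂ) {Φ : MvPolynomial (Ix k σ) KK} {F : ℕ → MvPolynomial (Ix k σ) ℂ}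
    (hF : ∀ z : ℕ → Ix k σ → ℂ, eval (fun i => cr fun n => z n i) Φ = cr fun n => eval (z n) (F n))
    (w : ℕ → Fin k → ℂ) (X : ℕ → Fin D → σ → ℂ)
    (h : IsTup (zeros (spec cc (fun t => cr fun n => y n t) '' (S : Set _)))
      (fun a j => cr fun n => ℓ n a j) Φ (fun a => cr fun n => w n a)
      (fun m j => cr fun n => X n m j)) :
    ∀ᶠ n in (hyperfilter ℕ : Filter ℕ),
      IsTup {x | Gam S x (y n)} (ℓ n) (F n) (w n) (X n) := by
  have h1 : ∀ᶠ n in (hyperfilter ℕ : Filter ℕ), ∀ m, ∀ P ∈ S,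
      eval (Sum.elim (X n m) (y n)) P = 0 := by
    rw [eventually_all]
    intro m
    rw [eventually_all_finset]
    intro P hP
    have h2 := h.mem m _ ⟨P, hP, rfl⟩
    rw [eval_spec] at h2
    have h3 : (Sum.elim (fun j => cr fun n => X n m j) fun t => cr fun n => y n t :
        σ ⊕ τ → KK) = fun i => cr (fun n => Sum.elim (X n m) (y n) i) := by
      funext i
      rcases i with i | i <;> rfl
    rw [h3, cr_eval P (fun i n => Sum.elim (X n m) (y n) i), cr_eq_zero] at h2
    exact h2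
  have h4 : ∀ᶠ n in (hyperfilter ℕ : Filter ℕ), ∀ m i, ∑ j, ℓ n i j * X n m j = w n i := by
    rw [eventually_all]
    intro m
    rw [eventually_all]
    intro i
    have h2 := h.proj m i
    rw [← cr_eq, cr_finsetSum, ← h2]
    exact Finset.sum_congr rfl fun j _ => cr_mul _ _
  have h5 : ∀ᶠ n in (hyperfilter ℕ : Filter ℕ), ∀ u T,
      eval (pt (w n) u T) (F n) = ∏ m, (T - ∑ j, u j * X n m j) := by
    by_contra hcon
    have h6 := not_eventually hcon
    have h7 : ∀ n, ∃ u T, (¬ ∀ u T, eval (pt (w n) u T) (F n) = ∏ m, (T - ∑ j, u j * X n m j)) →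
        eval (pt (w n) u T) (F n) ≠ ∏ m, (T - ∑ j, u j * X n m j) := by
      intro n
      by_cases h8 : ∀ u T, eval (pt (w n) u T) (F n) = ∏ m, (T - ∑ j, u j * X n m j)
      · exact ⟨0, 0, fun h9 => absurd h8 h9⟩
      · push Not at h8
        obtain ⟨u, T, h9⟩ := h8
        exact ⟨u, T, fun _ => h9⟩
    choose u T hu using h7
    have h10 := h.prod (fun j => cr fun n => u n j) (cr T)
    rw [← pt_cr, hF] at h10
    have h11 : ∏ m, (cr T - ∑ j, (cr fun n => u n j) * cr fun n => X n m j) =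
        cr (fun n => ∏ m, (T n - ∑ j, u n j * X n m j)) := by
      rw [cr_finsetProd]
      refine Finset.prod_congr rfl fun m _ => ?_
      rw [cr_sub, cr_finsetSum]
      congr 1
    rw [h11, cr_eq] at h10
    obtain ⟨n, h12, h13⟩ := exists_of_eventually (h10.and h6)
    exact hu n h13 h12
  filter_upwards [h1, h4, h5] with n a b c
  exact ⟨fun m P hP => a m P hP, b, c⟩

/-- the size of the points of a tuple -/
theorem bound_transfer (w : ℕ → Fin k → ℂ) (X : ℕ → Fin D → σ → ℂ)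
    (h : ∀ c : KK, c ≠ 0 → (∀ a, (cr fun n => w n a) / c ∈ FO) →
      ∀ m j, (cr fun n => X n m j) / c ∈ FO) :
    ∃ C : ℕ, ∀ᶠ n in (hyperfilter ℕ : Filter ℕ), ∀ m, ‖X n m‖ ≤ C * ‖w n‖ := by
  by_cases hw : ∀ᶠ n in (hyperfilter ℕ : Filter ℕ), w n = 0
  · refine ⟨0, ?_⟩
    have hw0 : ∀ a, (cr fun n => w n a) = 0 := by
      intro a
      rw [cr_eq_zero]
      filter_upwards [hw] with n hn
      rw [hn]
      rfl
    have hX : ∀ᶠ n in (hyperfilter ℕ : Filter ℕ), ∀ m j, X n m j = 0 := by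
      rw [eventually_all]
      intro m
      rw [eventually_all]
      intro j
      rw [← cr_eq_zero]
      by_contra hne
      set ε : KK := cr fun n => ((n : ℂ) + 1)⁻¹ with hε
      have hε0 : ε ≠ 0 := by
        intro h0
        obtain ⟨n, hn⟩ := exists_of_eventually (cr_eq_zero.1 h0)
        have h1 : (n : ℂ) + 1 ≠ 0 := by exact_mod_cast Nat.succ_ne_zero n
        exact inv_ne_zero h1 hn
      have h1 := h ((cr fun n => X n m j) * ε) (mul_ne_zero hne hε0) (fun a => by
        rw [hw0, zero_div]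
        exact FO.zero_mem) m j
      rw [div_mul_cancel_left₀ hne, hε, cr_inv, mem_FO] at h1
      obtain ⟨C, hC⟩ := h1
      obtain ⟨n, hn1, hn2⟩ := exists_of_eventually (hC.and
        (eventually_of_atTop (eventually_ge_atTop (⌈C⌉₊))))
      rw [inv_inv] at hn1
      have h2 : ‖(n : ℂ) + 1‖ = (n : ℝ) + 1 := by
        have h3 : ((n : ℂ) + 1) = ((n + 1 : ℕ) : ℂ) := by push_cast; ring
        rw [h3, Complex.norm_natCast]
        push_cast
        ring
      rw [h2] at hn1
      have h4 : C ≤ n := (Nat.le_ceil C).trans (by exact_mod_cast hn2)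
      linarith
    filter_upwards [hX] with n hn m
    have h1 : X n m = 0 := funext fun j => hn m j
    rw [h1, norm_zero]
    simp
  · have hw' := not_eventually hw
    set c : KK := cr fun n => ((‖w n‖ : ℝ) : ℂ) with hc
    have hc0 : c ≠ 0 := by
      intro h0
      obtain ⟨n, hn1, hn2⟩ := exists_of_eventually ((cr_eq_zero.1 h0).and hw')
      apply hn2
      rw [← norm_eq_zero]
      exact_mod_cast hn1
    have hdiv : ∀ f : ℕ → ℂ, (cr f) / c = cr fun n => f n / ((‖w n‖ : ℝ) : ℂ) := fun f => rfl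
    have h1 := h c hc0 (fun a => by
      rw [hdiv, mem_FO]
      refine ⟨1, Eventually.of_forall fun n => ?_⟩
      rw [norm_div, Complex.norm_real, Real.norm_of_nonneg (norm_nonneg _)]
      exact div_le_one_of_le₀ (norm_le_pi_norm (w n) a) (norm_nonneg _))
    obtain ⟨C, hC⟩ := exists_bound_FO (ι := Fin D × σ)
      (F := fun i n => X n i.1 i.2 / ((‖w n‖ : ℝ) : ℂ)) fun i => h1 i.1 i.2
    refine ⟨C, ?_⟩
    filter_upwards [hC, hw'] with n hn hn' m
    refine (pi_norm_le_iff_of_nonneg (by positivity)).2 fun j => ?_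
    have h2 := hn (m, j)
    rw [norm_div, Complex.norm_real, Real.norm_of_nonneg (norm_nonneg _),
      div_le_iff₀ (norm_pos_iff.2 hn')] at h2
    exact h2

end

end Pool.Agent.KRFW
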