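import Pool.Agent.Work.MP_a2bf38_gt.W.Defs

/-!
# The universal family of the zero sets of forms of degree `d` (KRF VII, helper22)
-/

open MvPolynomial
open Pool.Agent.KRFN.Loj

namespace Pool.Agent.KRFW

/-- the exponents of degree `d` -/
noncomputable def mons (σ : Type) [Fintype σ] (d : ℕ) : Finset (σ →₀ ℕ) := by
  classical
  exact Finset.univ.finsuppAntidiag d

theorem mem_mons {σ : Type} [Fintype σ] {d : ℕ} {m : σ →₀ ℕ} :
    m ∈ mons σ d ↔ ∑ i, m i = d := by
  classical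
  unfold mons
  simp [Finset.mem_finsuppAntidiag]

/-- the universal family of `|mons σ d|` forms of degree `d` -/
noncomputable def univForm (σ : Type) [Fintype σ] (d : ℕ) (i : mons σ d) :
    MvPolynomial (σ ⊕ (mons σ d × mons σ d)) ℂ :=
  ∑ m : mons σ d, X (Sum.inr (i, m)) * ∏ j, X (Sum.inl j) ^ (m.1 j)

theorem eval_univForm {σ : Type} [Fintype σ] {d : ℕ} (i : mons σ d) (x : σ → ℂ)
    (y : mons σ d × mons σ d → ℂ) :
    eval (Sum.elim x y) (univForm σ d i) = ∑ m : mons σ d, y (i, m) * ∏ j, x j ^ (m.1 j) := by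
  simp [univForm]

theorem eval_univForm_smul {σ : Type} [Fintype σ] {d : ℕ} (i : mons σ d) (c : ℂ) (x : σ → ℂ)
    (y : mons σ d × mons σ d → ℂ) :
    eval (Sum.elim (c • x) y) (univForm σ d i) =
      c ^ d * eval (Sum.elim x y) (univForm σ d i) := by
  rw [eval_univForm, eval_univForm, Finset.mul_sum]
  refine Finset.sum_congr rfl fun m _ => ?_
  have h1 : ∏ j, (c • x) j ^ (m.1 j) = c ^ d * ∏ j, x j ^ (m.1 j) := by
    simp only [Pi.smul_apply, smul_eq_mul, mul_pow]
    rw [Finset.prod_mul_distrib, Finset.prod_pow_eq_pow_sum, mem_mons.1 m.2]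
  rw [h1]
  ring

theorem eval_form {σ : Type} [Fintype σ] {d : ℕ} {Q : MvPolynomial σ ℂ} (hQ : Q.IsHomogeneous d)
    (x : σ → ℂ) : eval x Q = ∑ m : mons σ d, Q.coeff m.1 * ∏ j, x j ^ (m.1 j) := by
  classical
  rw [eval_eq' x Q]
  rw [Finset.sum_coe_sort (mons σ d) (fun m => Q.coeff m * ∏ j, x j ^ (m j))]
  refine Finset.sum_subset ?_ ?_
  · intro m hm
    rw [mem_mons]
    have h := hQ (mem_support_iff.1 hm)
    rw [Finsupp.weight_apply, Finsupp.sum_fintype _ _ (by simp)] at h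
    simpa using h
  · intro m _ hm
    rw [notMem_support_iff.1 hm, zero_mul]

/-- the zero set of any set of forms of degree `d` is a member of the universal family -/
theorem exists_coeffs {σ : Type} [Fintype σ] {d : ℕ} (T : Set (MvPolynomial σ ℂ))
    (hT : ∀ Q ∈ T, Q.IsHomogeneous d) : ∃ y : mons σ d × mons σ d → ℂ, ‖y‖ ≤ 1 ∧
      ∀ x : σ → ℂ, (∀ i, eval (Sum.elim x y) (univForm σ d i) = 0) ↔ x ∈ zeros T := by
  classical
  set W : Submodule ℂ (mons σ d → ℂ) :=
    Submodule.span ℂ ((fun (Q : MvPolynomial σ ℂ) (m : mons σ d) => Q.coeff m.1) '' T) with hW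
  obtain ⟨W', hW'⟩ := Submodule.exists_isCompl W
  set π : (mons σ d → ℂ) →ₗ[ℂ] W := Submodule.projectionOnto W W' hW' with hπ
  set y₀ : mons σ d × mons σ d → ℂ := fun p => (π (Pi.single p.1 1) : mons σ d → ℂ) p.2 with hy₀
  have hpos : 0 < 1 + ‖y₀‖ := by positivity
  have hne : ((1 + ‖y₀‖ : ℝ) : ℂ) ≠ 0 := by exact_mod_cast hpos.ne'
  refine ⟨(((1 + ‖y₀‖ : ℝ) : ℂ)⁻¹) • y₀, ?_, ?_⟩
  · rw [norm_smul, norm_inv, Complex.norm_real, Real.norm_of_nonneg hpos.le,
      inv_mul_le_iff₀ hpos]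
    linarith
  · intro x
    set φ : (mons σ d → ℂ) →ₗ[ℂ] ℂ :=
      ∑ m : mons σ d, (∏ j, x j ^ (m.1 j)) • LinearMap.proj m with hφ
    have hφa : ∀ w, φ w = ∑ m : mons σ d, w m * ∏ j, x j ^ (m.1 j) := by
      intro w
      simp [hφ, LinearMap.sum_apply, mul_comm]
    have h1 : ∀ i, eval (Sum.elim x ((((1 + ‖y₀‖ : ℝ) : ℂ)⁻¹) • y₀)) (univForm σ d i) =
        (((1 + ‖y₀‖ : ℝ) : ℂ)⁻¹) * φ (π (Pi.single i 1) : mons σ d → ℂ) := by
      intro i
      rw [eval_univForm, hφa, Finset.mul_sum]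
      refine Finset.sum_congr rfl fun m _ => ?_
      simp only [Pi.smul_apply, smul_eq_mul, hy₀]
      ring
    have h2 : (∀ i, eval (Sum.elim x ((((1 + ‖y₀‖ : ℝ) : ℂ)⁻¹) • y₀)) (univForm σ d i) = 0) ↔
        ∀ w : mons σ d → ℂ, φ (π w : mons σ d → ℂ) = 0 := by
      constructor
      · intro h w
        have h3 : w = ∑ i, w i • (Pi.single i 1 : mons σ d → ℂ) := by
          funext m
          simp [Finset.sum_apply, Pi.single_apply]
        rw [h3, map_sum]
        simp only [map_smul, Submodule.coe_sum, Submodule.coe_smul, map_sum, smul_eq_mul]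
        refine Finset.sum_eq_zero fun i _ => ?_
        have h4 := h i
        rw [h1, mul_eq_zero] at h4
        rcases h4 with h4 | h4
        · exact absurd h4 (inv_ne_zero hne)
        · rw [h4, mul_zero]
      · intro h i
        rw [h1, h, mul_zero]
    rw [h2]
    have h5 : (∀ w : mons σ d → ℂ, φ (π w : mons σ d → ℂ) = 0) ↔ W ≤ LinearMap.ker φ := by
      constructor
      · intro h w hw
        have h6 : π w = ⟨w, hw⟩ := Submodule.projectionOnto_apply_left hW' ⟨w, hw⟩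
        have h7 := h w
        rw [h6] at h7
        exact h7
      · intro h w
        exact h (π w).2
    rw [h5, hW, Submodule.span_le]
    constructor
    · intro h Q hQ
      have h6 := h ⟨Q, hQ, rfl⟩
      rw [SetLike.mem_coe, LinearMap.mem_ker, hφa] at h6
      rw [eval_form (hT Q hQ)]
      exact h6
    · rintro h _ ⟨Q, hQ, rfl⟩
      rw [SetLike.mem_coe, LinearMap.mem_ker, hφa]
      have h6 := h Q hQ
      rw [eval_form (hT Q hQ)] at h6
      exact h6

/-- the equations of the universal family -/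
noncomputable def univEqs (σ : Type) [Fintype σ] (d : ℕ) :
    Finset (MvPolynomial (σ ⊕ (mons σ d × mons σ d)) ℂ) := by
  classical
  exact Finset.univ.image (univForm σ d)

theorem mem_univEqs {σ : Type} [Fintype σ] {d : ℕ}
    {P : MvPolynomial (σ ⊕ (mons σ d × mons σ d)) ℂ} :
    P ∈ univEqs σ d ↔ ∃ i, univForm σ d i = P := by
  classical
  simp [univEqs]

theorem univEqs_hom (σ : Type) [Fintype σ] (d : ℕ) : ∀ P ∈ univEqs σ d, ∃ d' : ℕ,
    ∀ (c : ℂ) (x : σ → ℂ) (y : mons σ d × mons σ d → ℂ),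
      eval (Sum.elim (c • x) y) P = c ^ d' * eval (Sum.elim x y) P := by
  intro P hP
  obtain ⟨i, rfl⟩ := mem_univEqs.1 hP
  exact ⟨d, fun c x y => eval_univForm_smul i c x y⟩

/-- the zero set of any set of forms of degree `d` is a fibre of `Gam (univEqs σ d)` over a
point of the unit ball -/
theorem exists_gam {σ : Type} [Fintype σ] {d : ℕ} (T : Set (MvPolynomial σ ℂ))
    (hT : ∀ Q ∈ T, Q.IsHomogeneous d) : ∃ y : mons σ d × mons σ d → ℂ, ‖y‖ ≤ 1 ∧
      ∀ x : σ → ℂ, Gam (univEqs σ d) x y ↔ x ∈ zeros T := by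
  obtain ⟨y, hy, h⟩ := exists_coeffs T hT
  refine ⟨y, hy, fun x => ?_⟩
  rw [← h x]
  constructor
  · intro h1 i
    exact h1 _ (mem_univEqs.2 ⟨i, rfl⟩)
  · intro h1 P hP
    obtain ⟨i, rfl⟩ := mem_univEqs.1 hP
    exact h1 i

end Pool.Agent.KRFW
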